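import Pool.Agent.H71.FQ.HG

/-!
# Project FQ: rational algebraic K-groups through the homology of linear groups

`KQ A n` is the sum over `N` of the groups `H_{n+1}(GL_N(A); ℤ)` modulo the relations
`[w] = [pr₁ w] + [pr₂ w]`, `w ∈ H_{n+1}(GL_N(A) × GL_M(A); ℤ)`, where `[w]` is the class of the image of `w` in the
homology of `GL_{N+M}(A)` under the block sum.
-/

set_option autoImplicit false

open Matrix

universe u v w

namespace Pool.Agent.H71.FQ

/-- The group `GL_N(A)`. -/
abbrev GLm (N : ℕ) (A : Type u) [Ring A] : Type u := (Matrix (Fin N) (Fin N) A)ˣ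

section

variable {A : Type u} [Ring A]

/-- The block sum of two matrices. -/
def blkM {N M : ℕ} (X : Matrix (Fin N) (Fin N) A) (Y : Matrix (Fin M) (Fin M) A) :
    Matrix (Fin (N + M)) (Fin (N + M)) A :=
  (fromBlocks X 0 0 Y).submatrix finSumFinEquiv.symm finSumFinEquiv.symm

theorem blkM_mul {N M : ℕ} (X X' : Matrix (Fin N) (Fin N) A) (Y Y' : Matrix (Fin M) (Fin M) A) :
    blkM X Y * blkM X' Y' = blkM (X * X') (Y * Y') := by
  rw [blkM, blkM, submatrix_mul_equiv, fromBlocks_multiply, blkM]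
  simp

theorem blkM_one (N M : ℕ) :
    blkM (1 : Matrix (Fin N) (Fin N) A) (1 : Matrix (Fin M) (Fin M) A) = 1 := by
  rw [blkM, fromBlocks_one, submatrix_one_equiv]

/-- The block sum `GL_N(A) × GL_M(A) → GL_{N+M}(A)`. -/
def blk (N M : ℕ) (A : Type u) [Ring A] : GLm N A × GLm M A →* GLm (N + M) A where
  toFun w := ⟨blkM w.1.val w.2.val, blkM w.1.inv w.2.inv, by
    rw [blkM_mul, Units.val_inv, Units.val_inv, blkM_one], by
    rw [blkM_mul, Units.inv_val, Units.inv_val, blkM_one]⟩
  map_one' := Units.ext (blkM_one N M)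
  map_mul' w w' := Units.ext (blkM_mul w.1.val w'.1.val w.2.val w'.2.val).symm

theorem blk_val {N M : ℕ} (w : GLm N A × GLm M A) : (blk N M A w).val = blkM w.1.val w.2.val := rfl

end

section

variable (A : Type u) [Ring A] (n : ℕ)

/-- The sum of the homology groups of degree `n + 1` of the groups `GL_N(A)`. -/
def SumH : Type u := DirectSum ℕ fun N => HG (GLm N A) n

noncomputable instance instSumH : AddCommGroup (SumH A n) :=
  DirectSum.instAddCommGroup (β := fun N => HG (GLm N A) n)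

/-- The inclusion of a summand. -/
noncomputable def incH (N : ℕ) : HG (GLm N A) n →+ SumH A n :=
  DirectSum.of (fun N => HG (GLm N A) n) N

/-- The relations `[w] = [pr₁ w] + [pr₂ w]`. -/
noncomputable def blkRel : AddSubgroup (SumH A n) :=
  AddSubgroup.closure {y | ∃ (N M : ℕ) (w : HG (GLm N A × GLm M A) n),
    y = incH A n (N + M) (HG.map n (blk N M A) w) -
      (incH A n N (HG.map n (MonoidHom.fst (GLm N A) (GLm M A)) w) +
        incH A n M (HG.map n (MonoidHom.snd (GLm N A) (GLm M A)) w))}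

/-- The group `KQ A n`; its tensor product with `ℚ` is `K_{n+1}(A) ⊗ ℚ`. -/
def KQ : Type u := SumH A n ⧸ blkRel A n

noncomputable instance instKQ : AddCommGroup (KQ A n) :=
  QuotientAddGroup.Quotient.addCommGroup (blkRel A n)

/-- The class in `KQ A n` of a homology class of `GL_N(A)`. -/
noncomputable def KQ.cls (N : ℕ) : HG (GLm N A) n →+ KQ A n :=
  (QuotientAddGroup.mk' (blkRel A n)).comp (incH A n N)

end

section

variable {A : Type u} [Ring A] {n : ℕ}

theorem KQ.cls_blk {N M : ℕ} (w : HG (GLm N A × GLm M A) n) :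
    KQ.cls A n (N + M) (HG.map n (blk N M A) w) =
      KQ.cls A n N (HG.map n (MonoidHom.fst (GLm N A) (GLm M A)) w) +
        KQ.cls A n M (HG.map n (MonoidHom.snd (GLm N A) (GLm M A)) w) := by
  rw [← sub_eq_zero]
  show QuotientAddGroup.mk' (blkRel A n) _ -
    (QuotientAddGroup.mk' (blkRel A n) _ + QuotientAddGroup.mk' (blkRel A n) _) = 0
  rw [← map_add, ← map_sub, QuotientAddGroup.mk'_apply, QuotientAddGroup.eq_zero_iff]
  exact AddSubgroup.subset_closure ⟨N, M, w, rfl⟩

/-- the universal property of the sum -/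
noncomputable def liftS {M : Type v} [AddCommGroup M] (f : ∀ N, HG (GLm N A) n →+ M) :
    SumH A n →+ M := DirectSum.toAddMonoid f

theorem liftS_incH {M : Type v} [AddCommGroup M] (f : ∀ N, HG (GLm N A) n →+ M) (N : ℕ)
    (x : HG (GLm N A) n) : liftS f (incH A n N x) = f N x :=
  DirectSum.toAddMonoid_of f N x

theorem liftS_rel {M : Type v} [AddCommGroup M] (f : ∀ N, HG (GLm N A) n →+ M)
    (h : ∀ (N M' : ℕ) (w : HG (GLm N A × GLm M' A) n),
      f (N + M') (HG.map n (blk N M' A) w) =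
        f N (HG.map n (MonoidHom.fst (GLm N A) (GLm M' A)) w) +
          f M' (HG.map n (MonoidHom.snd (GLm N A) (GLm M' A)) w)) :
    blkRel A n ≤ (liftS f).ker := by
  rw [blkRel, AddSubgroup.closure_le]
  rintro _ ⟨N, M', w, rfl⟩
  show liftS f _ = 0
  rw [map_sub, map_add, liftS_incH, liftS_incH, liftS_incH, h, sub_self]

/-- The universal property. -/
noncomputable def KQ.lift {M : Type v} [AddCommGroup M] (f : ∀ N, HG (GLm N A) n →+ M)
    (h : ∀ (N M' : ℕ) (w : HG (GLm N A × GLm M' A) n),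
      f (N + M') (HG.map n (blk N M' A) w) =
        f N (HG.map n (MonoidHom.fst (GLm N A) (GLm M' A)) w) +
          f M' (HG.map n (MonoidHom.snd (GLm N A) (GLm M' A)) w)) : KQ A n →+ M :=
  QuotientAddGroup.lift (blkRel A n) (DirectSum.toAddMonoid f) (liftS_rel f h)

theorem KQ.lift_cls {M : Type v} [AddCommGroup M] (f : ∀ N, HG (GLm N A) n →+ M)
    (h : ∀ (N M' : ℕ) (w : HG (GLm N A × GLm M' A) n),
      f (N + M') (HG.map n (blk N M' A) w) =
        f N (HG.map n (MonoidHom.fst (GLm N A) (GLm M' A)) w) +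
          f M' (HG.map n (MonoidHom.snd (GLm N A) (GLm M' A)) w)) (N : ℕ)
    (x : HG (GLm N A) n) : KQ.lift f h (KQ.cls A n N x) = f N x :=
  DirectSum.toAddMonoid_of f N x

theorem KQ.hom_ext {M : Type v} [AddCommGroup M] {f g : KQ A n →+ M}
    (h : ∀ N x, f (KQ.cls A n N x) = g (KQ.cls A n N x)) : f = g := by
  refine QuotientAddGroup.addMonoidHom_ext (blkRel A n) ?_
  refine DirectSum.addHom_ext fun N x => ?_
  exact h N x

/-- The homomorphism of the groups of matrices induced by a homomorphism of rings. -/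
def mapGL {A' : Type v} [Ring A'] (f : A →+* A') (N : ℕ) : GLm N A →* GLm N A' :=
  Units.map f.mapMatrix.toMonoidHom

theorem mapGL_val {A' : Type v} [Ring A'] (f : A →+* A') (N : ℕ) (X : GLm N A) :
    (mapGL f N X).val = X.val.map f := rfl

theorem blkM_map {A' : Type v} [Ring A'] (f : A →+* A') {N M : ℕ} (X : Matrix (Fin N) (Fin N) A)
    (Y : Matrix (Fin M) (Fin M) A) : (blkM X Y).map f = blkM (X.map f) (Y.map f) := by
  rw [blkM, blkM, ← submatrix_map, fromBlocks_map, Matrix.map_zero f (map_zero f),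
    Matrix.map_zero f (map_zero f)]

theorem mapGL_comp_blk {A' : Type v} [Ring A'] (f : A →+* A') (N M : ℕ) :
    (mapGL f (N + M)).comp (blk N M A) =
      (blk N M A').comp (((mapGL f N).comp (MonoidHom.fst (GLm N A) (GLm M A))).prod
        ((mapGL f M).comp (MonoidHom.snd (GLm N A) (GLm M A)))) := by
  refine MonoidHom.ext fun w => Units.ext ?_
  exact blkM_map f w.1.val w.2.val

theorem KQ.map_aux {A' : Type v} [Ring A'] (f : A →+* A') (N M : ℕ)
    (w : HG (GLm N A × GLm M A) n) :
    KQ.cls A' n (N + M) (HG.map n (mapGL f (N + M)) (HG.map n (blk N M A) w)) =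
      KQ.cls A' n N (HG.map n (mapGL f N) (HG.map n (MonoidHom.fst (GLm N A) (GLm M A)) w)) +
        KQ.cls A' n M (HG.map n (mapGL f M) (HG.map n (MonoidHom.snd (GLm N A) (GLm M A)) w)) := by
  rw [HG.map_map, HG.map_map, HG.map_map, mapGL_comp_blk, ← HG.map_map, KQ.cls_blk, HG.map_map,
    HG.map_map, MonoidHom.fst_comp_prod, MonoidHom.snd_comp_prod]

/-- Functoriality of `KQ`. -/
noncomputable def KQ.map {A' : Type v} [Ring A'] (f : A →+* A') : KQ A n →+ KQ A' n :=
  KQ.lift (fun N => (KQ.cls A' n N).comp (HG.map n (mapGL f N))) (KQ.map_aux f)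

theorem KQ.map_cls {A' : Type v} [Ring A'] (f : A →+* A') (N : ℕ) (x : HG (GLm N A) n) :
    KQ.map f (KQ.cls A n N x) = KQ.cls A' n N (HG.map n (mapGL f N) x) :=
  KQ.lift_cls _ _ N x

variable {Γ : Type w} [Group Γ]

/-- the class of a pair of representations -/
theorem KQ.cls_pair {N M : ℕ} (f : Γ →* GLm N A) (g : Γ →* GLm M A) (x : HG Γ n) :
    KQ.cls A n (N + M) (HG.map n ((blk N M A).comp (f.prod g)) x) =
      KQ.cls A n N (HG.map n f x) + KQ.cls A n M (HG.map n g x) := by
  rw [← HG.map_map, KQ.cls_blk, HG.map_map, HG.map_map, MonoidHom.fst_comp_prod,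
    MonoidHom.snd_comp_prod]

/-- a matrix over `Fin N ⊕ Fin M` as a matrix over `Fin (N + M)` -/
def toFin {N M : ℕ} (W : (Matrix (Fin N ⊕ Fin M) (Fin N ⊕ Fin M) A)ˣ) : GLm (N + M) A where
  val := W.val.submatrix finSumFinEquiv.symm finSumFinEquiv.symm
  inv := W.inv.submatrix finSumFinEquiv.symm finSumFinEquiv.symm
  val_inv := by rw [submatrix_mul_equiv, Units.val_inv, submatrix_one_equiv]
  inv_val := by rw [submatrix_mul_equiv, Units.inv_val, submatrix_one_equiv]

/-- **Two representations which are conjugate after adding trivial blocks give the same class.** -/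
theorem KQ.cls_congr {N M : ℕ} (f : Γ →* GLm N A) (g : Γ →* GLm M A)
    (W : (Matrix (Fin N ⊕ Fin M) (Fin N ⊕ Fin M) A)ˣ)
    (h : ∀ γ, fromBlocks (f γ).val 0 0 1 * W.val = W.val * fromBlocks 1 0 0 (g γ).val)
    (x : HG Γ n) : KQ.cls A n N (HG.map n f x) = KQ.cls A n M (HG.map n g x) := by
  have h1 := KQ.cls_pair f (1 : Γ →* GLm M A) x
  have h2 := KQ.cls_pair (1 : Γ →* GLm N A) g x
  rw [HG.map_one, map_zero, add_zero] at h1
  rw [HG.map_one, map_zero, zero_add] at h2
  rw [← h1, ← h2]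
  congr 1
  refine HG.map_conj _ _ (toFin W) ?_ x
  intro γ
  rw [eq_mul_inv_iff_mul_eq]
  refine Units.ext ?_
  show blkM (f γ).val (1 : Matrix (Fin M) (Fin M) A) *
      W.val.submatrix finSumFinEquiv.symm finSumFinEquiv.symm =
    W.val.submatrix finSumFinEquiv.symm finSumFinEquiv.symm *
      blkM (1 : Matrix (Fin N) (Fin N) A) (g γ).val
  rw [blkM, blkM, submatrix_mul_equiv, submatrix_mul_equiv, h γ]

/-- additivity on block sums of representations -/
theorem KQ.cls_sum {N M : ℕ} (f : Γ →* GLm N A) (g : Γ →* GLm M A) (h : Γ →* GLm (N + M) A)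
    (hh : ∀ γ, (h γ).val = blkM (f γ).val (g γ).val) (x : HG Γ n) :
    KQ.cls A n (N + M) (HG.map n h x) =
      KQ.cls A n N (HG.map n f x) + KQ.cls A n M (HG.map n g x) := by
  rw [← KQ.cls_pair]
  congr 2
  refine congrArg (HG.map n) ?_
  exact MonoidHom.ext fun γ => Units.ext (hh γ)

end

end Pool.Agent.H71.FQ
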