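import Pool.Agent.H71.DB.Elim

/-!
# Detection of torsion in `K₀(k[D]) ⊗ B` by a set of homomorphisms
-/

set_option autoImplicit false

open Matrix
open scoped Classical

universe t u v w

namespace Pool.Agent.H71.FQ

open Pool.Agent.H71.FJ (IdemMat K0 K0.mk K0.map K0.map_map K0.push K0.rk LiftSys LT LT_rep LT_eq_sum
  exists_rep_lift dlt dlt_comm cyc_comm)
open Pool.Agent.H71.DB (BLift elim')

section Det

variable {k : Type u} [Field k] {K : Type t} [Field K] (L : BLift K) (i : k →+* K)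
  {D : Type w} [Group D] [Fintype D] [IsCyclic D] {B : Type v} [AddCommGroup B] {E : Type*}
  [AddCommGroup E]

theorem det_tensor (P : (B →+ L.Lam) → Prop) (hD : ∀ h : D, (orderOf h : k) ≠ 0)
    (hsep : ∀ b : B, (∀ ν : B →+ L.Lam, P ν → ν b = 0) → ∃ m : ℤ, m ≠ 0 ∧ m • b = 0)
    (β : K0 (MonoidAlgebra k D) →+ B →+ E) {ι : Type*} [Fintype ι]
    (y : ι → K0 (MonoidAlgebra k D)) (b : ι → B) (M : ℤ) (hM : M ≠ 0)
    (h : ∀ (n : ℕ) (c : D) (ν : B →+ L.Lam), P ν → (M : L.sys.B n) *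
      ∑ j, L.th n (ν (b j)) * LT L.sys n i (dlt (L.sys.B n) c) (dlt_comm _ c) (y j) = 0) :
    ∃ m : ℤ, m ≠ 0 ∧ m • ∑ j, β (y j) (b j) = 0 := by
  have : Module.Finite k (MonoidAlgebra k D) := inferInstance
  apply elim' β y b
  intro μ m a hm ha
  refine ⟨1, one_ne_zero, ?_⟩
  rw [one_smul]
  apply K0.eq_zero_of_rk_push (k := k)
  intro J _ _ ρ
  let R : ι → ℤ := fun j => K0.rk (K0.push (ρ : MonoidAlgebra k D →+* Matrix J J k) (y j))
  have hR : K0.rk (K0.push (ρ : MonoidAlgebra k D →+* Matrix J J k) (∑ j, a j • y j)) =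
      ∑ j, a j * R j := by
    rw [map_sum, map_sum]
    refine Finset.sum_congr rfl fun j _ => ?_
    rw [map_zsmul, map_zsmul, smul_eq_mul]
  rw [hR]
  have h1 : ∀ ν : B →+ L.Lam, P ν → ν (∑ j, R j • b j) = 0 := by
    intro ν hν
    apply L.tf M _ hM
    apply L.joint
    intro n
    have hDK : ∀ h : D, (orderOf h : K) ≠ 0 := by
      intro h h0
      apply hD h
      rw [← map_natCast i, map_eq_zero_iff _ i.injective] at h0
      exact h0
    obtain ⟨ρ', hρ'⟩ := exists_rep_lift (L.sys.surj n) (L.sys.nil n) (D := D) hDK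
      ((i.mapMatrix : Matrix J J k →+* Matrix J J K).toMonoidHom.comp
          ((ρ : MonoidAlgebra k D →* Matrix J J k).comp (MonoidAlgebra.of k D)))
    have h2 : ∀ j, (R j : L.sys.B n) = ∑ c : D, trace (ρ' c) *
        LT L.sys n i (dlt (L.sys.B n) c) (dlt_comm _ c) (y j) := by
      intro j
      rw [← LT_eq_sum L.sys n i cyc_comm (fun c => trace (ρ' c)) (fun a b => by
        simp only [map_mul]
        exact trace_mul_comm _ _) (y j)]
      exact LT_rep L.sys n i ρ ρ' hρ' (y j)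
    rw [map_mul, map_intCast, map_sum, map_sum]
    have h3 : ∑ j, L.th n (ν (R j • b j)) = ∑ c : D, trace (ρ' c) *
        ∑ j, L.th n (ν (b j)) * LT L.sys n i (dlt (L.sys.B n) c) (dlt_comm _ c) (y j) := by
      have e1 : ∀ j, L.th n (ν (R j • b j)) = ∑ c : D, trace (ρ' c) * (L.th n (ν (b j)) *
          LT L.sys n i (dlt (L.sys.B n) c) (dlt_comm _ c) (y j)) := by
        intro j
        rw [map_zsmul, zsmul_eq_mul, map_mul, map_intCast, h2, Finset.sum_mul]
        refine Finset.sum_congr rfl fun c _ => ?_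
        ring
      rw [Finset.sum_congr rfl fun j _ => e1 j, Finset.sum_comm]
      refine Finset.sum_congr rfl fun c _ => ?_
      rw [Finset.mul_sum]
    rw [h3, Finset.mul_sum]
    refine Finset.sum_eq_zero fun c _ => ?_
    rw [mul_left_comm, h n c ν hν, mul_zero]
  obtain ⟨m', hm', h2⟩ := hsep _ h1
  have h3 : μ (∑ j, R j • b j) = 0 := by
    have h4 := congrArg μ h2
    rw [map_zsmul, map_zero, zsmul_eq_mul] at h4
    rcases mul_eq_zero.1 h4 with h5 | h5
    · exact absurd (by exact_mod_cast h5) hm'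
    · exact h5
  have h4 : ((∑ j, a j * R j : ℤ) : ℚ) = 0 := by
    rw [map_sum] at h3
    push_cast
    have h5 : ∑ j, (a j : ℚ) * (R j : ℚ) = (m : ℚ) * ∑ j, μ (R j • b j) := by
      rw [Finset.mul_sum]
      refine Finset.sum_congr rfl fun j _ => ?_
      rw [map_zsmul, zsmul_eq_mul, ← ha j]
      ring
    rw [h5, h3, mul_zero]
  exact_mod_cast h4

end Det

end Pool.Agent.H71.FQ
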