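import Pool.Agent.H71.FQ.Asm

/-!
# The assembly map on the `K₀`-part of the rational source

For a ring `R`, a group `G` and `n`:

* `HnK0 R G n` is the abelian group generated by the symbols `[F, x, z]` with `F` a finite subgroup of `G`,
  `x ∈ K₀(R[F])` and `z ∈ H_{n+1}(Z_G(F); ℤ)`, modulo additivity in `x` and in `z` and
  `[F', c_g(x), z'] = [F, x, c_{g⁻¹}(z')]` for `g F g⁻¹ ⊆ F'`, `z' ∈ H_{n+1}(Z_G(F'); ℤ)`;
* `assemblyN R G n : HnK0 R G n → KQ (R[G]) n` sends `[F, [e], z]` to the class of the image of `z` under the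
  homomorphism `Z_G(F) → GL_N(R[G])`, `γ ↦ 1 + e (γ - 1)`.
-/

set_option autoImplicit false

open Matrix

universe u v w

namespace Pool.Agent.H71.FQ

open Pool.Agent.H71.FJ (MatEquiv IdemMat K0 K0.mk K0.lift K0.lift_mk K0.hom_ext K0.map)
open Pool.Agent.H95.WH (FamSub conjHom FinSub)

section

variable {G : Type v} [Group G]

theorem centConj_mem (g : G) (F F' : Subgroup G) (h : ∀ x ∈ F, g * x * g⁻¹ ∈ F')
    (z : Subgroup.centralizer (F' : Set G)) :
    g⁻¹ * z * g ∈ Subgroup.centralizer (F : Set G) := by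
  rw [Subgroup.mem_centralizer_iff]
  intro a ha
  have h1 := Subgroup.mem_centralizer_iff.1 z.2 _ (h a ha)
  calc a * (g⁻¹ * z * g) = g⁻¹ * (g * a * g⁻¹ * z) * g := by group
    _ = g⁻¹ * (z * (g * a * g⁻¹)) * g := by rw [h1]
    _ = _ := by group

/-- The homomorphism `Z_G(F') → Z_G(F)`, `z ↦ g⁻¹ z g`, for `g F g⁻¹ ⊆ F'`. -/
def centConj (g : G) (F F' : Subgroup G) (h : ∀ x ∈ F, g * x * g⁻¹ ∈ F') :
    Subgroup.centralizer (F' : Set G) →* Subgroup.centralizer (F : Set G) where
  toFun z := ⟨g⁻¹ * z * g, centConj_mem g F F' h z⟩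
  map_one' := by
    apply Subtype.ext
    change g⁻¹ * 1 * g = 1
    group
  map_mul' x y := by
    apply Subtype.ext
    change g⁻¹ * (x * y : G) * g = g⁻¹ * x * g * (g⁻¹ * y * g)
    group

end

section

variable (R : Type u) [Ring R] (G : Type v) [Group G] (n : ℕ)

/-- The symbols `[F, x, z]`. -/
structure Sym where
  /-- a finite subgroup -/
  F : FamSub G FinSub
  /-- a class in `K₀` of its group ring -/
  x : K0 (MonoidAlgebra R F.1)
  /-- a homology class of its centralizer -/
  z : HG (Subgroup.centralizer (F.1 : Set G)) n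

/-- The symbol `[F, x, z]`. -/
noncomputable def symOf (F : FamSub G FinSub) (x : K0 (MonoidAlgebra R F.1))
    (z : HG (Subgroup.centralizer (F.1 : Set G)) n) : FreeAbelianGroup (Sym R G n) :=
  FreeAbelianGroup.of ⟨F, x, z⟩

/-- The relation of additivity in `x`. -/
noncomputable def symX (F : FamSub G FinSub) (x y : K0 (MonoidAlgebra R F.1))
    (z : HG (Subgroup.centralizer (F.1 : Set G)) n) : FreeAbelianGroup (Sym R G n) :=
  symOf R G n F (x + y) z - (symOf R G n F x z + symOf R G n F y z)

/-- The relation of additivity in `z`. -/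
noncomputable def symZ (F : FamSub G FinSub) (x : K0 (MonoidAlgebra R F.1))
    (z z' : HG (Subgroup.centralizer (F.1 : Set G)) n) : FreeAbelianGroup (Sym R G n) :=
  symOf R G n F x (z + z') - (symOf R G n F x z + symOf R G n F x z')

/-- The relation `[F', c_g(x), z'] = [F, x, c_{g⁻¹}(z')]`. -/
noncomputable def symC (F F' : FamSub G FinSub) (g : G) (h : ∀ x ∈ F.1, g * x * g⁻¹ ∈ F'.1)
    (x : K0 (MonoidAlgebra R F.1)) (z : HG (Subgroup.centralizer (F'.1 : Set G)) n) :
    FreeAbelianGroup (Sym R G n) :=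
  symOf R G n F' (K0.map (MonoidAlgebra.mapDomainRingHom R (conjHom g F.1 F'.1 h)) x) z -
    symOf R G n F x (HG.map n (centConj g F.1 F'.1 h) z)

/-- The relations. -/
noncomputable def SymRel : AddSubgroup (FreeAbelianGroup (Sym R G n)) :=
  AddSubgroup.closure
    ({w | ∃ F x y z, w = symX R G n F x y z} ∪ {w | ∃ F x z z', w = symZ R G n F x z z'} ∪
      {w | ∃ F F' g h x z, w = symC R G n F F' g h x z})

/-- The group generated by the symbols `[F, x, z]`. -/
def HnK0 : Type (max u v) := FreeAbelianGroup (Sym R G n) ⧸ SymRel R G n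

noncomputable instance instHnK0 : AddCommGroup (HnK0 R G n) :=
  QuotientAddGroup.Quotient.addCommGroup (SymRel R G n)

end

section

variable (R : Type u) [Ring R] (n : ℕ) {G : Type v} [Group G]

theorem cent_comm (F : Subgroup G) (z : Subgroup.centralizer (F : Set G)) (a : F) :
    F.subtype a * (Subgroup.centralizer (F : Set G)).subtype z =
      (Subgroup.centralizer (F : Set G)).subtype z * F.subtype a :=
  Subgroup.mem_centralizer_iff.1 z.2 a a.2

/-- The value of the assembly map on a symbol. -/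
noncomputable def symVal (s : Sym R G n) : KQ (MonoidAlgebra R G) n :=
  gasm R n s.F.1.subtype (Subgroup.centralizer (s.F.1 : Set G)).subtype (cent_comm s.F.1) s.x s.z

variable (G)

theorem symRel_le : SymRel R G n ≤ (FreeAbelianGroup.lift (symVal R n (G := G))).ker := by
  rw [SymRel, AddSubgroup.closure_le]
  rintro w ((⟨F, x, y, z, rfl⟩ | ⟨F, x, z, z', rfl⟩) | ⟨F, F', g, h, x, z, rfl⟩)
  · change FreeAbelianGroup.lift (symVal R n) _ = 0
    rw [symX, symOf, symOf, symOf, map_sub, map_add, FreeAbelianGroup.lift_apply_of,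
      FreeAbelianGroup.lift_apply_of, FreeAbelianGroup.lift_apply_of, symVal, symVal, symVal,
      map_add, AddMonoidHom.add_apply, sub_self]
  · change FreeAbelianGroup.lift (symVal R n) _ = 0
    rw [symZ, symOf, symOf, symOf, map_sub, map_add, FreeAbelianGroup.lift_apply_of,
      FreeAbelianGroup.lift_apply_of, FreeAbelianGroup.lift_apply_of, symVal, symVal, symVal,
      map_add, sub_self]
  · change FreeAbelianGroup.lift (symVal R n) _ = 0
    rw [symC, symOf, symOf, map_sub, FreeAbelianGroup.lift_apply_of,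
      FreeAbelianGroup.lift_apply_of, sub_eq_zero]
    change gasm R n F'.1.subtype (Subgroup.centralizer (F'.1 : Set G)).subtype (cent_comm F'.1)
        (K0.map (MonoidAlgebra.mapDomainRingHom R (conjHom g F.1 F'.1 h)) x) z =
      gasm R n F.1.subtype (Subgroup.centralizer (F.1 : Set G)).subtype (cent_comm F.1) x
        (HG.map n (centConj g F.1 F'.1 h) z)
    have h1 : ∀ (γ : Subgroup.centralizer (F'.1 : Set G)) (a : F.1),
        (F'.1.subtype.comp (conjHom g F.1 F'.1 h)) a *
          (Subgroup.centralizer (F'.1 : Set G)).subtype γ =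
        (Subgroup.centralizer (F'.1 : Set G)).subtype γ *
          (F'.1.subtype.comp (conjHom g F.1 F'.1 h)) a := fun γ a =>
      cent_comm F'.1 γ (conjHom g F.1 F'.1 h a)
    have h2 : ∀ (γ : Subgroup.centralizer (F'.1 : Set G)) (a : F.1),
        F.1.subtype a * ((Subgroup.centralizer (F.1 : Set G)).subtype.comp
          (centConj g F.1 F'.1 h)) γ =
        ((Subgroup.centralizer (F.1 : Set G)).subtype.comp (centConj g F.1 F'.1 h)) γ *
          F.1.subtype a := fun γ a => cent_comm F.1 (centConj g F.1 F'.1 h γ) a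
    rw [gasm_comp R n F'.1.subtype (conjHom g F.1 F'.1 h) _ (cent_comm F'.1) h1,
      gasm_map R n F.1.subtype _ (centConj g F.1 F'.1 h) (cent_comm F.1) h2]
    apply gasm_conj R n _ _ _ _ g
    · intro a
      rfl
    · intro γ
      change (γ : G) = g * (g⁻¹ * (γ : G) * g) * g⁻¹
      group

/-- **The assembly map.** -/
noncomputable def assemblyN : HnK0 R G n →+ KQ (MonoidAlgebra R G) n :=
  QuotientAddGroup.lift (SymRel R G n) (FreeAbelianGroup.lift (symVal R n)) (symRel_le R n G)

end

section Rational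

/-- The homomorphism `f` becomes injective after tensoring with `ℚ` over `ℤ`. -/
def RatInj {A : Type u} [AddCommGroup A] {B : Type v} [AddCommGroup B] (f : A →+ B) : Prop :=
  Function.Injective (LinearMap.lTensor ℚ f.toIntLinearMap)

/-- Every element of `H_{n+1}(Γ; ℤ)` which is killed by all homomorphisms to `ℤ_p` has finite order. -/
def PSep (p : ℕ) [Fact p.Prime] (Γ : Type v) [Group Γ] (n : ℕ) : Prop :=
  ∀ x : HG Γ n, (∀ f : HG Γ n →+ ℤ_[p], f x = 0) → ∃ m : ℤ, m ≠ 0 ∧ m • x = 0

end Rational

end Pool.Agent.H71.FQ
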