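import Pool.Agent.H71.FQ.NuE

/-!
# Project FQ: invariant measures on a group

A set `X` with an action of a group `Z` and a permutation `σ` commuting with it. `exists_nu`: the vertex maps
`X → Z →₀ ℤ` of constant mass `D`, `Z`-equivariant and `σ`-invariant.

PROOF of `exists_nu`. Choose a representative `ρ` of each orbit of `Z × ⟨σ⟩`; for `x = z₀ σ ^ j ρ` let `ν x` be
`D / card S` times the sum of the point masses at the `z₀ s`, `s ∈ S = {z : ∃ j, z ρ = σ ^ j ρ}` (a subgroup).

PROOF of `card_stab`. `sig c ^ q = c`, the action of the centralizer on tuples is free, hence `z ^ q = c ^ j` for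
`z x = sig ^ j x`; `{(z, j)}` embeds in `ℤ` by `j`, contains `(1, q * orderOf c)`, hence is generated by some `(z₁, d)`,
the set `{z}` is the cyclic subgroup generated by `z₁`, whose order divides `q * orderOf c`, and its `p`-part divides
`p ^ r`.
-/

set_option autoImplicit false

universe u v w

namespace Pool.Agent.H71.FQ

section

variable {G : Type u} [Group G]

/-- the shift of the tuples of length `q`, twisted by `c` at the end -/
def sig (q : ℕ) (c : G) (v : Fin q → G) : Fin q → G := fun t =>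
  if h : (t : ℕ) + 1 < q then v ⟨(t : ℕ) + 1, h⟩ else c * v ⟨0, t.pos⟩

/-- the group `G` acts on the tuples from the left -/
def lmul {q : ℕ} (g : G) (v : Fin q → G) : Fin q → G := fun t => g * v t

theorem sig_lmul {q : ℕ} (c g : G) (h : g * c = c * g) (v : Fin q → G) :
    sig q c (lmul g v) = lmul g (sig q c v) := by
  funext t
  show sig q c (lmul g v) t = g * sig q c v t
  unfold sig
  by_cases ht : (t : ℕ) + 1 < q
  · rw [dif_pos ht, dif_pos ht]
    rfl
  · rw [dif_neg ht, dif_neg ht, ← mul_assoc, h, mul_assoc]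
    rfl

/-- the iterates of the shift -/
theorem sig_iterate_le {q : ℕ} (c : G) (v : Fin q → G) (k : ℕ) (hk : k ≤ q) (t : Fin q) :
    ((sig q c)^[k] v) t = if h : (t : ℕ) + k < q then v ⟨(t : ℕ) + k, h⟩ else
      c * v ⟨(t : ℕ) + k - q, by have := t.2; omega⟩ := by
  induction k generalizing t with
  | zero =>
    rw [Function.iterate_zero, id, dif_pos (show (t : ℕ) + 0 < q from t.2)]
    rfl
  | succ k ih =>
    have hk' : k ≤ q := by omega
    rw [Function.iterate_succ_apply']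
    show sig q c ((sig q c)^[k] v) t = _
    unfold sig
    by_cases ht : (t : ℕ) + 1 < q
    · rw [dif_pos ht]
      have h1 := ih hk' ⟨(t : ℕ) + 1, ht⟩
      unfold sig at h1
      rw [h1]
      by_cases h2 : (t : ℕ) + (k + 1) < q
      · have h3 : ((⟨(t : ℕ) + 1, ht⟩ : Fin q) : ℕ) + k < q := by
          show (t : ℕ) + 1 + k < q
          omega
        rw [dif_pos h3, dif_pos h2]
        congr 1
        ext
        show (t : ℕ) + 1 + k = (t : ℕ) + (k + 1)
        omega
      · have h3 : ¬ ((⟨(t : ℕ) + 1, ht⟩ : Fin q) : ℕ) + k < q := by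
          show ¬ (t : ℕ) + 1 + k < q
          omega
        rw [dif_neg h3, dif_neg h2]
        congr 2
        ext
        show (t : ℕ) + 1 + k - q = (t : ℕ) + (k + 1) - q
        omega
    · rw [dif_neg ht]
      have h1 := ih hk' ⟨0, t.pos⟩
      unfold sig at h1
      rw [h1]
      have ht2 := t.2
      have h3 : ((⟨0, t.pos⟩ : Fin q) : ℕ) + k < q := by
        show 0 + k < q
        omega
      have h2 : ¬ (t : ℕ) + (k + 1) < q := by omega
      rw [dif_pos h3, dif_neg h2]
      congr 2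
      ext
      show 0 + k = (t : ℕ) + (k + 1) - q
      omega

/-- the `q`-th power of the shift is the multiplication by `c` -/
theorem sig_iterate (q : ℕ) (c : G) (v : Fin q → G) : (sig q c)^[q] v = lmul c v := by
  funext t
  rw [sig_iterate_le c v q le_rfl t, dif_neg (by omega)]
  show c * v _ = c * v t
  congr 2
  ext
  show (t : ℕ) + q - q = t
  omega

theorem sig_bijective (q : ℕ) (c : G) : Function.Bijective (sig q c) := by
  rcases Nat.eq_zero_or_pos q with hq | hq
  · subst hq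
    exact ⟨fun a b _ => Subsingleton.elim a b, fun b => ⟨b, Subsingleton.elim _ _⟩⟩
  · obtain ⟨k, rfl⟩ : ∃ k, q = k + 1 := ⟨q - 1, by omega⟩
    have hb : Function.Bijective ((sig (k + 1) c)^[k + 1]) := by
      have h1 : (sig (k + 1) c)^[k + 1] = lmul c := funext fun v => sig_iterate (k + 1) c v
      rw [h1]
      refine ⟨fun a b hab => ?_, fun b => ⟨lmul c⁻¹ b, ?_⟩⟩
      · funext t
        exact mul_left_cancel (congrFun hab t)
      · funext t
        exact mul_inv_cancel_left c (b t)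
    constructor
    · have h2 := hb.1
      rw [Function.iterate_succ] at h2
      exact Function.Injective.of_comp h2
    · have h2 := hb.2
      rw [Function.iterate_succ'] at h2
      exact Function.Surjective.of_comp h2

/-- The elements which act on a point as a power of `σ` form a cyclic group. -/
theorem stab_zpowers {X Z : Type*} [Group Z] [MulAction Z X] (σ : Equiv.Perm X)
    (hσ : ∀ (z : Z) (x : X), σ (z • x) = z • σ x) (x : X) (hfree : ∀ z : Z, z • x = x → z = 1) :
    ∃ (z₁ : Z) (d : ℤ), z₁ • x = (σ ^ d) x ∧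
      {z : Z | ∃ j : ℤ, z • x = (σ ^ j) x} = Subgroup.zpowers z₁ := by
  have hcomm : ∀ z : Z, Commute (MulAction.toPermHom Z X z) σ := by
    intro z
    ext y
    exact (hσ z y).symm
  have hz : ∀ (z : Z) (j : ℤ) (y : X), (σ ^ j) (z • y) = z • (σ ^ j) y := by
    intro z j y
    have h1 := ((hcomm z).zpow_right j).eq
    exact (congrArg (fun f : Equiv.Perm X => f y) h1).symm
  let J : AddSubgroup ℤ :=
    { carrier := {j | ∃ z : Z, z • x = (σ ^ j) x}
      zero_mem' := ⟨1, by simp⟩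
      add_mem' := by
        rintro i j ⟨z, h1⟩ ⟨z', h2⟩
        refine ⟨z * z', ?_⟩
        rw [mul_smul, h2, ← hz, h1, ← Equiv.Perm.mul_apply, ← zpow_add, add_comm]
      neg_mem' := by
        rintro j ⟨z, h1⟩
        refine ⟨z⁻¹, ?_⟩
        rw [inv_smul_eq_iff, ← hz, h1, ← Equiv.Perm.mul_apply, ← zpow_add, neg_add_cancel, zpow_zero]
        rfl }
  obtain ⟨d, hd⟩ := Int.subgroup_cyclic J
  have hdJ : d ∈ J := by
    rw [hd]
    exact AddSubgroup.subset_closure rfl
  obtain ⟨z₁, h1⟩ := hdJ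
  have hpow : ∀ k : ℤ, (z₁ ^ k) • x = (σ ^ (k * d)) x := by
    intro k
    have h2 : (MulAction.toPermHom Z X z₁ * (σ ^ d)⁻¹) x = x := by
      rw [Equiv.Perm.mul_apply]
      show z₁ • ((σ ^ d)⁻¹ x) = x
      rw [← zpow_neg, ← hz, h1, ← Equiv.Perm.mul_apply, ← zpow_add, neg_add_cancel, zpow_zero]
      rfl
    have h3 := Equiv.Perm.zpow_apply_eq_self_of_apply_eq_self h2 k
    rw [((hcomm z₁).zpow_right d).inv_right.mul_zpow, Equiv.Perm.mul_apply, ← map_zpow] at h3
    have h4 : (z₁ ^ k) • ((((σ ^ d)⁻¹) ^ k) x) = x := h3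
    rw [← zpow_neg, ← zpow_mul, ← hz] at h4
    have h5 := congrArg (σ ^ (k * d)) h4
    rw [← Equiv.Perm.mul_apply, ← zpow_add, show k * d + -d * k = 0 by ring, zpow_zero] at h5
    exact h5
  refine ⟨z₁, d, h1, ?_⟩
  ext z
  constructor
  · rintro ⟨j, hj⟩
    have hjJ : j ∈ J := ⟨z, hj⟩
    rw [hd, AddSubgroup.mem_closure_singleton] at hjJ
    obtain ⟨k, rfl⟩ := hjJ
    refine ⟨k, ?_⟩
    show z₁ ^ k = z
    have h2 : (z⁻¹ * z₁ ^ k) • x = x := by
      rw [mul_smul, hpow k, inv_smul_eq_iff, hj, smul_eq_mul]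
    have h3 := hfree _ h2
    rw [inv_mul_eq_one] at h3
    exact h3.symm
  · rintro ⟨k, rfl⟩
    exact ⟨k * d, hpow k⟩

/-- **The measures for tuples.** -/
theorem exists_nu_tuple {p : ℕ} (hp : p.Prime) (r : ℕ)
    (hG : ∀ g : G, (∃ j : ℕ, g ^ p ^ j = 1) → g ^ p ^ r = 1) (m : ℕ) (c : G)
    (hc : IsOfFinOrder c) :
    ∃ ν : (Fin (p ^ m) → G) → Subgroup.centralizer {c} →₀ ℤ,
      (∀ v, mass (ν v) = ((orderOf c * p ^ r : ℕ) : ℤ)) ∧
      (∀ (z : Subgroup.centralizer {c}) (v : Fin (p ^ m) → G),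
        ν (lmul (z : G) v) = (ν v).mapDomain fun y => z * y) ∧
      ∀ v, ν (sig (p ^ m) c v) = ν v := by
  have hq : 0 < p ^ m := Nat.pow_pos hp.pos
  let σ : Equiv.Perm (Fin (p ^ m) → G) := Equiv.ofBijective (sig (p ^ m) c) (sig_bijective _ c)
  have hσa : ∀ v, σ v = sig (p ^ m) c v := fun v => rfl
  have hsmul : ∀ (z : Subgroup.centralizer {c}) (v : Fin (p ^ m) → G), z • v = lmul (z : G) v := fun z v => rfl
  have hσ : ∀ (z : Subgroup.centralizer {c}) (v : Fin (p ^ m) → G), σ (z • v) = z • σ v := by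
    intro z v
    rw [hsmul, hsmul, hσa, hσa]
    exact sig_lmul c z (Subgroup.mem_centralizer_singleton_iff.1 z.2) v
  have hσq : ∀ v, (σ ^ (p ^ m)) v = lmul c v := by
    intro v
    rw [← Equiv.Perm.iterate_eq_pow]
    exact sig_iterate _ c v
  have hfree : ∀ (v : Fin (p ^ m) → G) (z : Subgroup.centralizer {c}), z • v = v → z = 1 := by
    intro v z h
    have h1 : (z : G) * v ⟨0, hq⟩ = v ⟨0, hq⟩ := congrFun h ⟨0, hq⟩
    exact Subtype.ext (mul_eq_right.1 h1)
  -- the generator of the stabiliser has order dividing `orderOf c * p ^ r`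
  have key : ∀ v : Fin (p ^ m) → G, ∃ z₁ : Subgroup.centralizer {c},
      {z : Subgroup.centralizer {c} | ∃ j : ℤ, z • v = (σ ^ j) v} = Subgroup.zpowers z₁ ∧
        z₁ ^ (orderOf c * p ^ r) = 1 := by
    intro v
    obtain ⟨z₁, d, h1, h2⟩ := stab_zpowers σ hσ v (hfree v)
    refine ⟨z₁, h2, ?_⟩
    have hcomm : Commute (MulAction.toPermHom (Subgroup.centralizer {c}) (Fin (p ^ m) → G) z₁) σ := by
      ext1 y
      exact (hσ z₁ y).symm
    -- `z₁ ^ q = c ^ d`
    have h3 : ((z₁ : G)) ^ (p ^ m) = c ^ d := by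
      have h4 : (MulAction.toPermHom (Subgroup.centralizer {c}) (Fin (p ^ m) → G) z₁ * (σ ^ d)⁻¹) v = v := by
        have h5 := congrArg (fun f : Equiv.Perm (Fin (p ^ m) → G) => f ((σ ^ d)⁻¹ v)) (hcomm.zpow_right d).eq
        have h6 : (MulAction.toPermHom (Subgroup.centralizer {c}) (Fin (p ^ m) → G) z₁) ((σ ^ d) ((σ ^ d)⁻¹ v)) =
            (σ ^ d) ((MulAction.toPermHom (Subgroup.centralizer {c}) (Fin (p ^ m) → G) z₁) ((σ ^ d)⁻¹ v)) := h5
        have h6' : (σ ^ d) ((σ ^ d)⁻¹ v) = v := (σ ^ d).apply_symm_apply v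
        rw [h6'] at h6
        have h7 : (MulAction.toPermHom (Subgroup.centralizer {c}) (Fin (p ^ m) → G) z₁) v = (σ ^ d) v := h1
        rw [h7] at h6
        exact ((σ ^ d).injective h6).symm
      have h8 := Equiv.Perm.pow_apply_eq_self_of_apply_eq_self h4 (p ^ m)
      rw [(hcomm.zpow_right d).inv_right.mul_pow, Equiv.Perm.mul_apply, ← map_pow] at h8
      have h9 : ((σ ^ d)⁻¹) ^ (p ^ m) = ((σ ^ (p ^ m)) ^ d)⁻¹ := by
        rw [inv_pow, ← zpow_natCast, ← zpow_mul, ← zpow_natCast, ← zpow_mul, mul_comm]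
      have h10 : ∀ (k : ℤ) (w : Fin (p ^ m) → G), ((σ ^ (p ^ m)) ^ k) w = lmul (c ^ k) w := by
        have h11 : σ ^ (p ^ m) = MulAction.toPermHom G (Fin (p ^ m) → G) c := by
          ext1 w
          exact hσq w
        intro k w
        rw [h11, ← map_zpow]
        rfl
      rw [h9, ← zpow_neg, h10] at h8
      have h12 : (z₁ ^ (p ^ m)) • (lmul (c ^ (-d)) v) = v := h8
      have h13 : ((z₁ ^ (p ^ m) : Subgroup.centralizer {c}) : G) * (c ^ (-d) * v ⟨0, hq⟩) = v ⟨0, hq⟩ :=
        congrFun h12 ⟨0, hq⟩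
      rw [← mul_assoc, mul_eq_right, zpow_neg, mul_inv_eq_one, Subgroup.coe_pow] at h13
      exact h13
    have h4 : ((z₁ : G) ^ orderOf c) ^ p ^ m = 1 := by
      rw [← pow_mul, mul_comm, pow_mul, h3, ← zpow_natCast, ← zpow_mul, mul_comm, zpow_mul, zpow_natCast,
        pow_orderOf_eq_one, one_zpow]
    have h5 := hG _ ⟨m, h4⟩
    apply Subtype.ext
    rw [Subgroup.coe_pow, Subgroup.coe_one, pow_mul]
    exact h5
  have hD : 0 < orderOf c * p ^ r := Nat.mul_pos hc.orderOf_pos (Nat.pow_pos hp.pos)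
  have hfin : ∀ v : Fin (p ^ m) → G, {z : Subgroup.centralizer {c} | ∃ j : ℤ, z • v = (σ ^ j) v}.Finite := by
    intro v
    obtain ⟨z₁, h1, h2⟩ := key v
    rw [h1]
    have h3 : IsOfFinOrder z₁ := isOfFinOrder_iff_pow_eq_one.2 ⟨_, hD, h2⟩
    exact h3.finite_zpowers
  have hcard : ∀ v : Fin (p ^ m) → G,
      Nat.card {z : Subgroup.centralizer {c} | ∃ j : ℤ, z • v = (σ ^ j) v} ∣ orderOf c * p ^ r := by
    intro v
    obtain ⟨z₁, h1, h2⟩ := key v
    rw [h1]
    have h3 : Nat.card (Subgroup.zpowers z₁ : Set (Subgroup.centralizer {c})) = orderOf z₁ := Nat.card_zpowers z₁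
    rw [h3]
    exact orderOf_dvd_of_pow_eq_one h2
  obtain ⟨ν, hν1, hν2, hν3⟩ := exists_nu (Z := Subgroup.centralizer {c}) σ hσ (orderOf c * p ^ r) hD hfin hcard
  exact ⟨ν, hν1, hν2, hν3⟩

end

end Pool.Agent.H71.FQ
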