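import Pool.Agent.H71.FQ.EvC
import Pool.Agent.H71.FJ.Prim

/-!
# Project FQ: averaging over `D` and the value on the symbols

`pull ν φ` is the function of tuples defined by a cocycle `φ` of the centralizer of `c` and measures `ν`.

PROOFS. `isPhi_pull`: by `bd_vmap`, `D₀` times the sum of the faces vanishes, `Lam` is torsion free.
`avF_eq`: `exists_homotopy` for the vertex maps `avM D` and `Nat.card (Fin q → D)` times the point masses, `b = id`,
which commute with `lmul z` and `sig q c`; with `H` of it put `Ψ w = μ • linearCombination Φ (H (single w))`.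
`trT_sym`: `trT_gasm` for `avF D Φ`, `trT_cob`, `trT_smul` and `HG.ev_vmap` for `ψ = cj`,
`ν' h = ∑ s, ν (fun t => u * h * s t)`; finally the power of `Nat.card D` is a unit of `B`.
-/

set_option autoImplicit false

open Matrix

universe u v w

namespace Pool.Agent.H71.FQ

open Pool.Agent.H71.FJ (MatEquiv IdemMat K0 K0.mk K0.lift K0.lift_mk K0.hom_ext K0.map T dlt dlt_comm
  cyc_comm K0.tr_mk clsFun clsFun_single dlt_self dlt_ne)

section

variable {G : Type v} [Group G] {n q : ℕ}

theorem tens_mapDomain {X : Type*} {Y : Type*} {Z : Type*} (A : X → Y →₀ ℤ) (f : Y → Z) (k : ℕ)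
    (x : Fin (k + 1) → X) :
    tens (fun y => (A y).mapDomain f) k x = push ℤ f k (tens A k x) := by
  rw [← vmap_single, ← push_vmap, vmap_single]

theorem tens_congr {X : Type*} {Y : Type*} {A : X → Y →₀ ℤ} {X' : Type*} {A' : X' → Y →₀ ℤ} {k : ℕ}
    {x : Fin (k + 1) → X} {x' : Fin (k + 1) → X'} (h : ∀ j, A (x j) = A' (x' j)) :
    tens A k x = tens A' k x' := by
  rw [tens_eq_tenf, tens_eq_tenf]
  congr 1
  exact funext h

theorem mass_eq_lc {Y : Type*} (a : Y →₀ ℤ) :
    mass a = Finsupp.linearCombination ℤ (fun _ => (1 : ℤ)) a := by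
  rw [mass, Finsupp.linearCombination_apply]
  exact Finsupp.sum_congr fun _ _ => (mul_one _).symm

/-- a cocycle (in the sense of the faces) vanishes on boundaries -/
theorem lc_bd_zero {X : Type*} {M : Type*} [AddCommGroup M] {m : ℕ} {φ : (Fin (m + 1) → X) → M}
    (h : ∀ x : Fin (m + 2) → X, ∑ i : Fin (m + 2), (-1 : ℤ) ^ (i : ℕ) •
      φ (fun j => x (i.succAbove j)) = 0) (c : Cx ℤ X (m + 1)) :
    Finsupp.linearCombination ℤ φ (bd ℤ X m c) = 0 := by
  rw [lc_bd]
  have h1 : (fun x : Fin (m + 2) → X => ∑ i : Fin (m + 2), (-1 : ℤ) ^ (i : ℕ) •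
      φ (fun j => x (i.succAbove j))) = fun _ => (0 : M) := funext h
  rw [h1]
  simp [Finsupp.linearCombination_apply]

/-- the alternating sum over the faces as a value at a boundary -/
theorem lc_bd_single {X : Type*} {M : Type*} [AddCommGroup M] {m : ℕ} (φ : (Fin (m + 1) → X) → M)
    (x : Fin (m + 2) → X) :
    Finsupp.linearCombination ℤ φ (bd ℤ X m (Finsupp.single x 1)) =
      ∑ i : Fin (m + 2), (-1 : ℤ) ^ (i : ℕ) • φ (fun j => x (i.succAbove j)) := by
  rw [lc_bd, Finsupp.linearCombination_single, one_smul]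

/-- the function of tuples defined by a cocycle and measures -/
noncomputable def pull {Λ : Type u} [CommRing Λ] {Z : Type v} (ν : (Fin q → G) → Z →₀ ℤ)
    (φ : (Fin (n + 2) → Z) → Λ) (v : Fin (n + 2) → Fin q → G) : Λ :=
  Finsupp.linearCombination ℤ φ (tens ν (n + 1) v)

theorem isPhi_pull {Λ : Type u} [CommRing Λ] (tf : ∀ (a : ℤ) (x : Λ), a ≠ 0 → (a : Λ) * x = 0 → x = 0)
    {c : G} (ν : (Fin q → G) → Subgroup.centralizer ({c} : Set G) →₀ ℤ) (D₀ : ℤ) (hD₀ : D₀ ≠ 0)
    (h1 : ∀ v, mass (ν v) = D₀)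
    (h2 : ∀ (z : Subgroup.centralizer ({c} : Set G)) (v : Fin q → G),
      ν (lmul (z : G) v) = (ν v).mapDomain fun y => z * y)
    (h3 : ∀ v, ν (sig q c v) = ν v) {φ : (Fin (n + 2) → Subgroup.centralizer ({c} : Set G)) → Λ}
    (hφ : IsCoc (Subgroup.centralizer ({c} : Set G)) n φ) : IsPhi c (pull ν φ) where
  inv g hg v := by
    have hz : g ∈ Subgroup.centralizer ({c} : Set G) :=
      Subgroup.mem_centralizer_singleton_iff.2 hg
    have e : tens ν (n + 1) (fun j => lmul g (v j)) =
        push ℤ (fun y : Subgroup.centralizer ({c} : Set G) => ⟨g, hz⟩ * y) (n + 1)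
          (tens ν (n + 1) v) := by
      rw [← tens_mapDomain]
      exact tens_congr fun j => h2 ⟨g, hz⟩ (v j)
    rw [pull, pull, e, lc_push]
    congr 2
    funext x
    exact hφ.inv _ x
  rot v := by
    rw [pull, pull]
    congr 1
    exact tens_congr fun j => h3 (v j)
  coc v := by
    refine tf D₀ _ hD₀ ?_
    have e1 : ∀ i : Fin (n + 3), pull ν φ (fun j => v (i.succAbove j)) =
        Finsupp.linearCombination ℤ φ (vmap ν (n + 1) (Finsupp.single (fun j => v (i.succAbove j)) 1)) := by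
      intro i
      rw [vmap_single, pull]
    have e2 : ∑ i : Fin (n + 3), (-1 : ℤ) ^ (i : ℕ) • pull ν φ (fun j => v (i.succAbove j)) =
        Finsupp.linearCombination ℤ φ (vmap ν (n + 1) (bd ℤ _ (n + 1) (Finsupp.single v 1))) := by
      rw [bd_single, map_sum, map_sum]
      refine Finset.sum_congr rfl fun i _ => ?_
      rw [e1 i, map_smul, map_smul]
    have e3 := bd_vmap ν D₀ h1 (n + 1) (Finsupp.single v 1)
    rw [e2, ← zsmul_eq_mul, ← map_smul, ← e3]
    exact lc_bd_zero hφ.coc _

theorem IsPhi.map {Λ : Type u} [CommRing Λ] {B : Type w} [CommRing B] (f : Λ →+* B) {c : G}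
    {Φ : (Fin (n + 2) → Fin q → G) → Λ} (h : IsPhi c Φ) : IsPhi c fun v => f (Φ v) where
  inv g hg v := congrArg f (h.inv g hg v)
  rot v := congrArg f (h.rot v)
  coc v := by
    rw [← map_zero f, ← h.coc v, map_sum]
    refine Finset.sum_congr rfl fun i _ => ?_
    rw [map_zsmul]

/-- the sum over the right multiplications by elements of `D` -/
noncomputable def avM (D : Subgroup G) [Fintype D] (v : Fin q → G) : (Fin q → G) →₀ ℤ :=
  ∑ s : Fin q → D, Finsupp.single (fun t => v t * s t) 1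

theorem mass_avM (D : Subgroup G) [Fintype D] (v : Fin q → G) :
    mass (avM D v) = (Fintype.card (Fin q → D) : ℤ) := by
  rw [mass_eq_lc, avM, map_sum, Finset.sum_congr rfl (g := fun _ => (1 : ℤ)), Finset.sum_const,
    Finset.card_univ, nsmul_eq_mul, mul_one]
  intro s _
  rw [Finsupp.linearCombination_single, one_smul]

theorem avM_mapDomain_lmul (D : Subgroup G) [Fintype D] (g : G) (v : Fin q → G) :
    (avM D v).mapDomain (lmul g) = avM D (lmul g v) := by
  rw [avM, avM, Finsupp.mapDomain_finsetSum]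
  refine Finset.sum_congr rfl fun s _ => ?_
  rw [Finsupp.mapDomain_single]
  congr 1
  funext t
  exact (mul_assoc _ _ _).symm

/-- the cyclic rotation of `Fin q` -/
def rotE (q : ℕ) (t : Fin q) : Fin q := if h : (t : ℕ) + 1 < q then ⟨(t : ℕ) + 1, h⟩ else ⟨0, t.pos⟩

theorem rotE_injective (q : ℕ) : Function.Injective (rotE q) := by
  intro a b h
  unfold rotE at h
  split_ifs at h with h1 h2 h2
  · have := Fin.mk.inj_iff.1 h
    exact Fin.ext (by omega)
  · have := Fin.mk.inj_iff.1 h
    omega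
  · have := Fin.mk.inj_iff.1 h
    omega
  · exact Fin.ext (by omega)

theorem sig_mul (c : G) (v s : Fin q → G) (t : Fin q) :
    sig q c (fun t => v t * s t) t = sig q c v t * s (rotE q t) := by
  unfold sig rotE
  split_ifs with h
  · rfl
  · exact (mul_assoc _ _ _).symm

theorem avM_mapDomain_sig (D : Subgroup G) [Fintype D] (c : G) (v : Fin q → G) :
    (avM D v).mapDomain (sig q c) = avM D (sig q c v) := by
  rw [avM, avM, Finsupp.mapDomain_finsetSum]
  have hb : Function.Bijective (rotE q) :=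
    (Fintype.bijective_iff_injective_and_card _).2 ⟨rotE_injective q, rfl⟩
  refine Fintype.sum_equiv (Equiv.arrowCongr (Equiv.ofBijective _ hb).symm (Equiv.refl D)) _ _ ?_
  intro s
  rw [Finsupp.mapDomain_single]
  congr 1
  funext t
  exact sig_mul c v (fun t => (s t : G)) t

theorem avM_mul (D : Subgroup G) [Fintype D] (v s : Fin q → G) (hs : ∀ t, s t ∈ D) :
    avM D (fun t => v t * s t) = avM D v := by
  rw [avM, avM]
  refine Fintype.sum_equiv (Equiv.mulLeft (fun t => (⟨s t, hs t⟩ : D))) _ _ ?_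
  intro r
  congr 1
  funext t
  exact mul_assoc _ _ _

/-- the average (a multiple) of a function of tuples -/
noncomputable def avF {B : Type u} [CommRing B] (D : Subgroup G) [Fintype D]
    (Φ : (Fin (n + 2) → Fin q → G) → B) (v : Fin (n + 2) → Fin q → G) : B :=
  Finsupp.linearCombination ℤ Φ (tens (avM D) (n + 1) v)

theorem avF_rinv {B : Type u} [CommRing B] (D : Subgroup G) [Fintype D]
    (Φ : (Fin (n + 2) → Fin q → G) → B) : RInv D (avF D Φ) := by
  intro s hs v
  rw [avF, avF]
  congr 1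
  exact tens_congr fun j => avM_mul D (v j) (s j) (hs j)

theorem avF_isInv {B : Type u} [CommRing B] (D : Subgroup G) [Fintype D] {c : G}
    {Φ : (Fin (n + 2) → Fin q → G) → B} (hΦ : IsInv c Φ) : IsInv c (avF D Φ) where
  inv g hg v := by
    rw [avF, avF, tens_congr (x' := v) (A' := fun w => (avM D w).mapDomain (lmul g))
      (fun j => (avM_mapDomain_lmul D g (v j)).symm), tens_mapDomain, lc_push]
    congr 2
    funext x
    exact hΦ.inv g hg x
  rot v := by
    rw [avF, avF, tens_congr (x' := v) (A' := fun w => (avM D w).mapDomain (sig q c))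
      (fun j => (avM_mapDomain_sig D c (v j)).symm), tens_mapDomain, lc_push]
    congr 2
    funext x
    exact hΦ.rot x

theorem avF_eq {B : Type u} [CommRing B] (D : Subgroup G) [Fintype D] {c : G}
    {Φ : (Fin (n + 2) → Fin q → G) → B} (hΦ : IsPhi c Φ) :
    ∃ Ψ : (Fin (n + 1) → Fin q → G) → B, IsInv c Ψ ∧ ∀ v, avF D Φ v =
      ((Fintype.card (Fin q → D) : ℤ) ^ (n + 2)) • Φ v +
        ∑ i : Fin (n + 2), (-1 : ℤ) ^ (i : ℕ) • Ψ (fun j => v (i.succAbove j)) := by
  obtain ⟨H, h1, h2⟩ := exists_homotopy (R := ℤ) (avM D (q := q))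
    (fun v : Fin q → G => Finsupp.single v (Fintype.card (Fin q → D) : ℤ))
    (Fintype.card (Fin q → D) : ℤ) (mass_avM D) (fun v => mass_single' _ _) (fun v => v)
  refine ⟨fun w => (Fintype.card (Fin q → D) : ℤ) •
    Finsupp.linearCombination ℤ Φ (H n (Finsupp.single w 1)), ⟨?_, ?_⟩, ?_⟩
  · intro g hg w
    have e := h2 (lmul g) (lmul g) (avM_mapDomain_lmul D g)
      (fun v => Finsupp.mapDomain_single) (fun v => rfl) n (Finsupp.single w 1)
    rw [push_single] at e
    show _ • _ = _ • _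
    rw [e, lc_push]
    congr 3
    funext x
    exact hΦ.inv g hg x
  · intro w
    have e := h2 (sig q c) (sig q c) (avM_mapDomain_sig D c)
      (fun v => Finsupp.mapDomain_single) (fun v => rfl) n (Finsupp.single w 1)
    rw [push_single] at e
    show _ • _ = _ • _
    rw [e, lc_push]
    congr 3
    funext x
    exact hΦ.rot x
  · intro v
    have e := congrArg (Finsupp.linearCombination ℤ Φ) (h1 n (Finsupp.single v 1))
    rw [map_add, lc_bd_zero hΦ.coc, zero_add, map_sub, vmap_single, vmap_single,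
      tens_smul_point (Fintype.card (Fin q → D) : ℤ) (fun w : Fin q → G => w), map_smul,
      map_smul, Finsupp.linearCombination_single, one_smul] at e
    have e1 : ∑ i : Fin (n + 2), (-1 : ℤ) ^ (i : ℕ) • ((Fintype.card (Fin q → D) : ℤ) •
        Finsupp.linearCombination ℤ Φ (H n (Finsupp.single (fun j => v (i.succAbove j)) 1))) =
        (Fintype.card (Fin q → D) : ℤ) • Finsupp.linearCombination ℤ Φ
          (H n (bd ℤ _ n (Finsupp.single v 1))) := by
      rw [bd_single, map_sum, map_sum, Finset.smul_sum]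
      refine Finset.sum_congr rfl fun i _ => ?_
      rw [map_smul, map_smul, smul_comm]
    rw [e1, e, avF]
    abel

theorem isPhi_avF {B : Type u} [CommRing B] (D : Subgroup G) [Fintype D] {c : G}
    {Φ : (Fin (n + 2) → Fin q → G) → B} (hΦ : IsPhi c Φ) : IsPhi c (avF D Φ) where
  toIsInv := avF_isInv D hΦ.toIsInv
  coc v := by
    obtain ⟨Ψ, -, h⟩ := avF_eq D hΦ
    have e1 : ∀ x : Fin (n + 2) → Fin q → G, avF D Φ x =
        ((Fintype.card (Fin q → D) : ℤ) ^ (n + 2)) • Φ x +
          Finsupp.linearCombination ℤ Ψ (bd ℤ _ n (Finsupp.single x 1)) := by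
      intro x
      rw [h x, lc_bd_single]
    simp only [e1, smul_add]
    rw [Finset.sum_add_distrib]
    have e2 : ∑ i : Fin (n + 3), (-1 : ℤ) ^ (i : ℕ) •
        ((Fintype.card (Fin q → D) : ℤ) ^ (n + 2)) • Φ (fun j => v (i.succAbove j)) = 0 := by
      rw [← smul_zero ((Fintype.card (Fin q → D) : ℤ) ^ (n + 2)), ← hΦ.coc v, Finset.smul_sum]
      exact Finset.sum_congr rfl fun i _ => smul_comm _ _ _
    have e3 : ∑ i : Fin (n + 3), (-1 : ℤ) ^ (i : ℕ) • Finsupp.linearCombination ℤ Ψ
        (bd ℤ _ n (Finsupp.single (fun j => v (i.succAbove j)) 1)) =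
        Finsupp.linearCombination ℤ Ψ (bd ℤ _ n (bd ℤ _ (n + 1) (Finsupp.single v 1))) := by
      rw [bd_single, map_sum, map_sum]
      refine Finset.sum_congr rfl fun i _ => ?_
      rw [map_smul, map_smul]
    rw [e2, e3, bd_bd, map_zero, add_zero]

/-- the homomorphism `g ↦ u g u⁻¹` to the centralizer of `c = u x u⁻¹` -/
def cj {c : G} (D : Subgroup G) (x : D) (u : G) (h : u * x * u⁻¹ = c) :
    Subgroup.centralizer (D : Set G) →* Subgroup.centralizer ({c} : Set G) where
  toFun g := ⟨u * g * u⁻¹, by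
    rw [Subgroup.mem_centralizer_iff]
    intro a ha
    rw [Set.mem_singleton_iff] at ha
    rw [ha]
    have hg : (x : G) * g = g * x := Subgroup.mem_centralizer_iff.1 g.2 x x.2
    rw [← h]
    have e1 : u * (x : G) * u⁻¹ * (u * g * u⁻¹) = u * ((x : G) * g) * u⁻¹ := by group
    have e2 : u * (g : G) * u⁻¹ * (u * x * u⁻¹) = u * ((g : G) * x) * u⁻¹ := by group
    rw [e1, e2, hg]⟩
  map_one' := by
    apply Subtype.ext
    show u * ((1 : Subgroup.centralizer (D : Set G)) : G) * u⁻¹ = 1
    rw [OneMemClass.coe_one]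
    group
  map_mul' g g' := by
    apply Subtype.ext
    show u * ((g * g' : Subgroup.centralizer (D : Set G)) : G) * u⁻¹ =
      u * g * u⁻¹ * (u * g' * u⁻¹)
    rw [Subgroup.coe_mul]
    group

theorem cj_coe {c : G} (D : Subgroup G) (x : D) (u : G) (h : u * x * u⁻¹ = c)
    (g : Subgroup.centralizer (D : Set G)) : (cj D x u h g : G) = u * g * u⁻¹ := rfl

/-- the homomorphism of the homology groups does not depend on the choice of `u` -/
theorem cj_map {c : G} (D : Subgroup G) (x : D) (u u' : G) (h : u * x * u⁻¹ = c)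
    (h' : u' * x * u'⁻¹ = c) (z : HG (Subgroup.centralizer (D : Set G)) n) :
    HG.map n (cj D x u' h') z = HG.map n (cj D x u h) z := by
  have hw : u' * u⁻¹ ∈ Subgroup.centralizer ({c} : Set G) := by
    rw [Subgroup.mem_centralizer_iff]
    intro a ha
    rw [Set.mem_singleton_iff] at ha
    have e1 : c * (u' * u⁻¹) = u' * x * u⁻¹ := by
      rw [← h']
      group
    have e2 : u' * u⁻¹ * c = u' * x * u⁻¹ := by
      rw [← h]
      group
    rw [ha, e1, e2]
  refine HG.map_conj (cj D x u h) (cj D x u' h') ⟨_, hw⟩ ?_ z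
  intro a
  apply Subtype.ext
  show u' * a * u'⁻¹ = u' * u⁻¹ * (u * a * u⁻¹) * (u' * u⁻¹)⁻¹
  group

open Classical in
/-- The value of a cocycle of the centralizer of `c` at `(x, z)`: `x` is an element of the subgroup `D` and `z` a
homology class of the centralizer of `D`. -/
noncomputable def vl {Λ : Type u} [CommRing Λ] {c : G}
    {φ : (Fin (n + 2) → Subgroup.centralizer ({c} : Set G)) → Λ}
    (hφ : IsCoc (Subgroup.centralizer ({c} : Set G)) n φ) (D : Subgroup G) (x : D)
    (z : HG (Subgroup.centralizer (D : Set G)) n) : Λ :=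
  if h : ∃ u : G, u * x * u⁻¹ = c then HG.ev hφ (HG.map n (cj D x h.choose h.choose_spec) z) else 0

theorem vl_eq {Λ : Type u} [CommRing Λ] {c : G}
    {φ : (Fin (n + 2) → Subgroup.centralizer ({c} : Set G)) → Λ}
    (hφ : IsCoc (Subgroup.centralizer ({c} : Set G)) n φ) (D : Subgroup G) (x : D) (u : G)
    (h : u * x * u⁻¹ = c) (z : HG (Subgroup.centralizer (D : Set G)) n) :
    vl hφ D x z = HG.ev hφ (HG.map n (cj D x u h) z) := by
  have h0 : ∃ u : G, u * x * u⁻¹ = c := ⟨u, h⟩
  unfold vl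
  rw [dif_pos h0]
  congr 1
  exact cj_map D x u h0.choose h h0.choose_spec z

theorem vl_zero {Λ : Type u} [CommRing Λ] {c : G}
    {φ : (Fin (n + 2) → Subgroup.centralizer ({c} : Set G)) → Λ}
    (hφ : IsCoc (Subgroup.centralizer ({c} : Set G)) n φ) (D : Subgroup G) (x : D)
    (h : ¬ IsConj c (x : G)) (z : HG (Subgroup.centralizer (D : Set G)) n) :
    vl hφ D x z = 0 := by
  unfold vl
  rw [dif_neg]
  rintro ⟨u, hu⟩
  exact h (isConj_iff.2 ⟨u, hu⟩).symm

/-- the measures defined by `ν` and the averages on the constant tuples -/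
noncomputable def nuD {c : G} (ν : (Fin q → G) → Subgroup.centralizer ({c} : Set G) →₀ ℤ)
    (D : Subgroup G) [Fintype D] (u : G) (h : Subgroup.centralizer (D : Set G)) :
    Subgroup.centralizer ({c} : Set G) →₀ ℤ :=
  ∑ s : Fin q → D, ν fun t => u * h * s t

theorem mass_sum' {Y : Type*} {κ : Type*} (s : Finset κ) (a : κ → Y →₀ ℤ) :
    mass (∑ i ∈ s, a i) = ∑ i ∈ s, mass (a i) := by
  classical
  unfold mass
  induction s using Finset.induction_on with
  | empty => simp
  | insert i s hi ih =>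
    rw [Finset.sum_insert hi, Finset.sum_insert hi, ← ih]
    exact Finsupp.sum_add_index' (fun _ => rfl) (fun _ _ _ => rfl)

theorem mass_nuD {c : G} (ν : (Fin q → G) → Subgroup.centralizer ({c} : Set G) →₀ ℤ) (D₀ : ℤ)
    (h1 : ∀ v, mass (ν v) = D₀) (D : Subgroup G) [Fintype D] (u : G)
    (h : Subgroup.centralizer (D : Set G)) :
    mass (nuD ν D u h) = (Fintype.card (Fin q → D) : ℤ) * D₀ := by
  rw [nuD, mass_sum']
  simp only [h1]
  rw [Finset.sum_const, Finset.card_univ, nsmul_eq_mul]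

theorem nuD_mul {c : G} (ν : (Fin q → G) → Subgroup.centralizer ({c} : Set G) →₀ ℤ)
    (h2 : ∀ (z : Subgroup.centralizer ({c} : Set G)) (v : Fin q → G),
      ν (lmul (z : G) v) = (ν v).mapDomain fun y => z * y)
    (D : Subgroup G) [Fintype D] (x : D) (u : G) (hu : u * x * u⁻¹ = c)
    (g h : Subgroup.centralizer (D : Set G)) :
    nuD ν D u (g * h) = (nuD ν D u h).mapDomain fun y => cj D x u hu g * y := by
  unfold nuD
  rw [Finsupp.mapDomain_finsetSum]
  refine Finset.sum_congr rfl fun s _ => ?_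
  rw [← h2]
  congr 1
  funext t
  show u * ((g * h : Subgroup.centralizer (D : Set G)) : G) * s t =
    u * g * u⁻¹ * (u * h * s t)
  rw [Subgroup.coe_mul]
  group

theorem isCoc_ring {Λ : Type u} [CommRing Λ] {B : Type u} [CommRing B] (f : Λ →+* B) {Γ : Type v}
    [Group Γ] {φ : (Fin (n + 2) → Γ) → Λ} (hφ : IsCoc Γ n φ) : IsCoc Γ n fun y => f (φ y) where
  inv g x := by rw [hφ.inv g x]
  coc x := by
    have h := congrArg f (hφ.coc x)
    rw [map_zero, map_sum] at h
    simpa only [map_zsmul] using h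

/-- the average of the pull back on the constant tuples -/
theorem avF_pull {Λ : Type u} [CommRing Λ] {B : Type u} [CommRing B] (f : Λ →+* B) {c : G}
    (ν : (Fin q → G) → Subgroup.centralizer ({c} : Set G) →₀ ℤ)
    (D : Subgroup G) [Fintype D] (u : G) (φ : (Fin (n + 2) → Subgroup.centralizer ({c} : Set G)) → Λ)
    (y : Fin (n + 2) → Subgroup.centralizer (D : Set G)) :
    avF D (fun v => f (pull ν φ v)) (fun j _ => u * y j) =
      Finsupp.linearCombination ℤ (fun y => f (φ y)) (tens (nuD ν D u) (n + 1) y) := by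
  have e1 : ∀ {X : Type v} (φ : X → Λ) (a : X →₀ ℤ),
      f (Finsupp.linearCombination ℤ φ a) = Finsupp.linearCombination ℤ (fun x => f (φ x)) a := by
    intro X φ a
    rw [Finsupp.linearCombination_apply, Finsupp.linearCombination_apply, Finsupp.sum, Finsupp.sum,
      map_sum]
    refine Finset.sum_congr rfl fun x _ => ?_
    rw [map_zsmul]
  unfold avF
  have e2 : (fun v : Fin (n + 2) → Fin q → G => f (pull ν φ v)) = fun v =>
      Finsupp.linearCombination ℤ (fun y => f (φ y)) (tens ν (n + 1) v) := by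
    funext v
    exact e1 φ _
  rw [e2, ← lc_vmap (fun y => f (φ y)) ν, ← vmap_single (avM D), vmap_vmap, vmap_single]
  congr 1
  ext w
  rw [tens_apply, tens_apply]
  refine Finset.prod_congr rfl fun i _ => ?_
  congr 1
  unfold avM nuD
  rw [← Finsupp.sum_finsetSum_index (h := fun y r => r • ν y) (fun _ => zero_smul _ _)
    (fun _ _ _ => add_smul _ _ _)]
  refine Finset.sum_congr rfl fun s _ => ?_
  have e3 : ((Finsupp.single (fun t => u * (y i : G) * s t) (1 : ℤ)).sum fun y r => r • ν y) =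
      ν fun t => u * y i * s t :=
    (Finsupp.sum_single_index (h := fun y r => r • ν y) (zero_smul _ _)).trans (one_smul _ _)
  exact e3

/-- comparison of the restriction of the average with the cocycle -/
theorem ev_rs_avF {Λ : Type u} [CommRing Λ] {B : Type u} [CommRing B] (f : Λ →+* B) {c : G}
    (ν : (Fin q → G) → Subgroup.centralizer ({c} : Set G) →₀ ℤ) (D₀ : ℤ)
    (h1 : ∀ v, mass (ν v) = D₀)
    (h2 : ∀ (z : Subgroup.centralizer ({c} : Set G)) (v : Fin q → G),
      ν (lmul (z : G) v) = (ν v).mapDomain fun y => z * y)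
    {φ : (Fin (n + 2) → Subgroup.centralizer ({c} : Set G)) → Λ}
    (hφ : IsCoc (Subgroup.centralizer ({c} : Set G)) n φ) (D : Subgroup G) [Fintype D]
    (hΦ : IsPhi c (avF D fun v => f (pull ν φ v))) (x : D)
    (z : HG (Subgroup.centralizer (D : Set G)) n) :
    HG.ev (isCoc_rs hΦ D x) z =
      (((Fintype.card (Fin q → D) : ℤ) * D₀) ^ (n + 2) : ℤ) * f (vl hφ D x z) := by
  by_cases h0 : ∃ u : G, u * x * u⁻¹ = c
  · have hfφ : IsCoc (Subgroup.centralizer ({c} : Set G)) n fun y => f (φ y) := isCoc_ring f hφ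
    have e0 : ∀ y : Fin (n + 2) → Subgroup.centralizer (D : Set G),
        rs c (avF D fun v => f (pull ν φ v)) (x : G) (fun j => (y j : G)) =
          Finsupp.linearCombination ℤ (fun y => f (φ y)) (tens (nuD ν D h0.choose) (n + 1) y) := by
      intro y
      unfold rs
      rw [dif_pos h0]
      exact avF_pull f ν D h0.choose φ y
    have hc : IsCoc (Subgroup.centralizer (D : Set G)) n fun y =>
        Finsupp.linearCombination ℤ (fun y => f (φ y)) (tens (nuD ν D h0.choose) (n + 1) y) := by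
      have h4 := isCoc_rs hΦ D x
      have h5 : (fun y : Fin (n + 2) → Subgroup.centralizer (D : Set G) =>
          rs c (avF D fun v => f (pull ν φ v)) (x : G) (fun j => (y j : G))) = fun y =>
            Finsupp.linearCombination ℤ (fun y => f (φ y)) (tens (nuD ν D h0.choose) (n + 1) y) :=
        funext e0
      rw [h5] at h4
      exact h4
    rw [HG.ev_congr (isCoc_rs hΦ D x) hc e0 z,
      HG.ev_vmap (cj D x h0.choose h0.choose_spec) (nuD ν D h0.choose)
        ((Fintype.card (Fin q → D) : ℤ) * D₀) (mass_nuD ν D₀ h1 D h0.choose)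
        (nuD_mul ν h2 D x h0.choose h0.choose_spec) hfφ hc z,
      HG.ev_comp hφ f.toAddMonoidHom hfφ, vl_eq hφ D x h0.choose h0.choose_spec z, zsmul_eq_mul]
    rfl
  · have e0 : ∀ y : Fin (n + 2) → Subgroup.centralizer (D : Set G),
        rs c (avF D fun v => f (pull ν φ v)) (x : G) (fun j => (y j : G)) = 0 := by
      intro y
      unfold rs
      rw [dif_neg h0]
    have hc : IsCoc (Subgroup.centralizer (D : Set G)) n fun _ => (0 : B) := by
      have h4 := isCoc_rs hΦ D x
      have h5 : (fun y : Fin (n + 2) → Subgroup.centralizer (D : Set G) =>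
          rs c (avF D fun v => f (pull ν φ v)) (x : G) (fun j => (y j : G))) = fun _ => (0 : B) :=
        funext e0
      rw [h5] at h4
      exact h4
    rw [HG.ev_congr (isCoc_rs hΦ D x) hc e0 z, HG.ev_const,
      vl_zero hφ D x (fun h => h0 (isConj_iff.1 h.symm)) z, map_zero, mul_zero]

end

section

variable {K : Type u} [CommRing K] {p m : ℕ} (L : LD K p m) {G : Type v} [Group G] {n : ℕ} {c : G}

theorem isPhi_zsmul {B : Type w} [CommRing B] {q : ℕ} (a : ℤ) {Φ : (Fin (n + 2) → Fin q → G) → B}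
    (h : IsPhi c Φ) : IsPhi c fun v => a • Φ v where
  inv g hg v := by
    show a • Φ _ = a • Φ _
    rw [h.inv g hg v]
  rot v := by
    show a • Φ _ = a • Φ _
    rw [h.rot v]
  coc v := by
    have h1 := h.coc v
    have h2 : ∀ i : Fin (n + 3), (-1 : ℤ) ^ (i : ℕ) • (a • Φ (fun j => v (i.succAbove j))) =
        a • ((-1 : ℤ) ^ (i : ℕ) • Φ (fun j => v (i.succAbove j))) := fun i => smul_comm _ _ _
    simp only [h2]
    rw [← Finset.smul_sum, h1, smul_zero]

theorem isUnit_card (D : Subgroup G) [Fintype D] (hDp : ¬ p ∣ Fintype.card D) (q k : ℕ) :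
    IsUnit (((Fintype.card (Fin q → D) : ℤ) ^ k : ℤ) : L.B) := by
  push_cast
  apply IsUnit.pow
  have h0 : ¬ p ∣ Fintype.card (Fin q → D) := by
    rw [Fintype.card_fun, Fintype.card_fin]
    intro h
    exact hDp (L.hp.dvd_of_dvd_pow h)
  exact isUnit_of_not_dvd L.hp L.hB h0

theorem T_dlt_mk {B : Type u} [CommRing B] {D : Type v} [Group D] [IsCyclic D] (x : D)
    (a : IdemMat (MonoidAlgebra B D)) :
    T (dlt B x) (dlt_comm _ x) (K0.mk a) = (trace a.mat).coeff x := by
  rw [T, K0.tr_mk]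
  induction trace a.mat using MonoidAlgebra.induction_linear with
  | zero => rw [map_zero]; rfl
  | add y y' hy hy' => rw [map_add, hy, hy']; rfl
  | single g r =>
    rw [clsFun_single, MonoidAlgebra.coeff_single]
    by_cases hg : g = x
    · subst hg
      rw [dlt_self, mul_one, Finsupp.single_eq_same]
    · rw [dlt_ne _ hg, mul_zero, Finsupp.single_eq_of_ne (Ne.symm hg)]

/-- **The value on the symbols.** -/
theorem trT_sym {Λ : Type u} [CommRing Λ] (tf : ∀ (a : ℤ) (x : Λ), a ≠ 0 → (a : Λ) * x = 0 → x = 0)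
    (th : Λ →+* L.B) (ν : (Fin (p ^ m) → G) → Subgroup.centralizer ({c} : Set G) →₀ ℤ) (D₀ : ℤ)
    (hD₀ : D₀ ≠ 0) (h1 : ∀ v, mass (ν v) = D₀)
    (h2 : ∀ (z : Subgroup.centralizer ({c} : Set G)) (v : Fin (p ^ m) → G),
      ν (lmul (z : G) v) = (ν v).mapDomain fun y => z * y)
    (h3 : ∀ v, ν (sig (p ^ m) c v) = ν v)
    {φ : (Fin (n + 2) → Subgroup.centralizer ({c} : Set G)) → Λ}
    (hφ : IsCoc (Subgroup.centralizer ({c} : Set G)) n φ)
    (hΦ : IsPhi c fun v => th (pull ν φ v)) (D : Subgroup G) [Fintype D] [IsCyclic D]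
    (hDp : ¬ p ∣ Fintype.card D) (y : K0 (MonoidAlgebra L.B D))
    (z : HG (Subgroup.centralizer (D : Set G)) n) :
    trT L hΦ (gasm K n D.subtype (Subgroup.centralizer (D : Set G)).subtype (cent_comm' D)
      (K0.map (MonoidAlgebra.mapRingHom D L.π) y) z) =
      ((D₀ ^ (n + 2) : ℤ) : L.B) *
        ∑ x : D, th (vl hφ D x z) * T (dlt L.B x) (dlt_comm _ x) y := by
  obtain ⟨Ψ, hΨ, hav⟩ := avF_eq D hΦ
  have hN : IsUnit (((Fintype.card (Fin (p ^ m) → D) : ℤ) ^ (n + 2) : ℤ) : L.B) :=
    isUnit_card L D hDp _ _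
  have hΦ' : IsPhi c (avF D fun v => th (pull ν φ v)) := isPhi_avF D hΦ
  have hΦs : IsPhi c fun v => ((Fintype.card (Fin (p ^ m) → D) : ℤ) ^ (n + 2)) •
      (fun v => th (pull ν φ v)) v := isPhi_zsmul _ hΦ
  -- the identity of the homomorphisms in `y`
  have key : (trT L hΦ).comp (((gasm K n D.subtype (Subgroup.centralizer (D : Set G)).subtype
      (cent_comm' D)).comp (K0.map (MonoidAlgebra.mapRingHom D L.π))).flip z) =
      (AddMonoidHom.mulLeft ((D₀ ^ (n + 2) : ℤ) : L.B)).comp
        (∑ x : D, (AddMonoidHom.mulLeft (th (vl hφ D x z))).comp (T (dlt L.B x) (dlt_comm _ x))) := by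
    apply K0.hom_ext
    intro a
    rw [AddMonoidHom.comp_apply, AddMonoidHom.comp_apply, AddMonoidHom.finsetSum_apply]
    simp only [AddMonoidHom.comp_apply, AddMonoidHom.coe_mulLeft, AddMonoidHom.flip_apply]
    apply hN.mul_left_cancel
    rw [← zsmul_eq_mul, ← trT_smul L hΦ _ hΦs, ← trT_cob L hΦs hΨ hΦ' hav,
      trT_gasm L hΦ' D (avF_rinv D _) a z, Finset.mul_sum, Finset.mul_sum]
    refine Finset.sum_congr rfl fun x _ => ?_
    rw [ev_rs_avF th ν D₀ h1 h2 hφ D hΦ' x z, T_dlt_mk]
    push_cast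
    ring
  have h := DFunLike.congr_fun key y
  rw [AddMonoidHom.comp_apply, AddMonoidHom.comp_apply, AddMonoidHom.finsetSum_apply] at h
  simpa only [AddMonoidHom.comp_apply, AddMonoidHom.coe_mulLeft, AddMonoidHom.flip_apply] using h

end

end Pool.Agent.H71.FQ
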