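import Pool.Agent.H71.FQ.KQ
import Pool.Agent.H71.DB.GBass

/-!
# Project FQ: the product `K₀(B) × H_{n+1}(Γ) → KQ A n`

For a ring homomorphism `φ : B → A` and a homomorphism `κ : Γ → Aˣ` with values commuting with the image of `φ`, an
idempotent matrix `e` over `B` gives the homomorphism `rho : γ ↦ 1 + φ(e) (κ γ - 1)` from `Γ` to `GL_N(A)`.

PROOFS. `rho`: `bmat_mul`, `bmat_one`. `asm` is well defined: for `e = x y`, `f = y x` replace `x`, `y` by `e x f`,
`f y e`; then the matrix with blocks `1 - e, x; y, 1 - f` (mapped by `φ`) is its own inverse and conjugates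
`rho e ⊕ 1` and `1 ⊕ rho f` (`KQ.cls_congr`; the entries of `φ` commute with `κ γ`). Additivity: `KQ.cls_sum`.
-/

set_option autoImplicit false

open Matrix

universe u v w

namespace Pool.Agent.H71.FQ

open Pool.Agent.H71.FJ (MatEquiv IdemMat K0 K0.mk K0.lift K0.lift_mk K0.hom_ext K0.map)
open Pool.Agent.H71.DB (bmat bU bmat_mul bmat_one map_mul_map comm_sub_one)

section

variable {A : Type u} [Ring A] {B : Type v} [Ring B] {Γ : Type w} [Group Γ] {n : ℕ}

/-- The homomorphism `γ ↦ 1 + φ(e) (κ γ - 1)`. -/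
noncomputable def rho (φ : B →+* A) (κ : Γ →* Aˣ) (hκ : ∀ γ b, φ b * (κ γ : A) = κ γ * φ b)
    (a : IdemMat B) : Γ →* GLm a.n A where
  toFun γ := bU φ a.mat a.idem (κ γ) (hκ γ)
  map_one' := by
    apply Units.ext
    change bmat φ a.mat ((κ 1 : Aˣ) : A) = 1
    rw [map_one, Units.val_one, bmat_one]
  map_mul' γ γ' := by
    apply Units.ext
    change bmat φ a.mat ((κ (γ * γ') : Aˣ) : A) = bmat φ a.mat (κ γ : A) * bmat φ a.mat (κ γ' : A)
    rw [map_mul, Units.val_mul, bmat_mul φ a.mat a.idem _ _ (hκ γ)]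

theorem rho_val (φ : B →+* A) (κ : Γ →* Aˣ) (hκ : ∀ γ b, φ b * (κ γ : A) = κ γ * φ b)
    (a : IdemMat B) (γ : Γ) : (rho φ κ hκ a γ).val = 1 + a.mat.map fun b => φ b * ((κ γ : A) - 1) :=
  rfl

private theorem bmat_mul_map (φ : B →+* A) {ι κ : Type*} [Fintype ι] [DecidableEq ι]
    (e : Matrix ι ι B) (X : Matrix ι κ B) (w : A) (hw : ∀ b, φ b * w = w * φ b) :
    bmat φ e w * X.map φ = X.map φ + (e * X).map fun b => φ b * (w - 1) := by
  have h := map_mul_map φ e X (w - 1) 1 (comm_sub_one hw)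
  simp only [mul_one] at h
  change bmat φ e w * X.map (fun b => φ b) = _
  rw [bmat, Matrix.add_mul, Matrix.one_mul, h]

private theorem map_mul_bmat (φ : B →+* A) {ι κ : Type*} [Fintype κ] [DecidableEq κ]
    (f : Matrix κ κ B) (X : Matrix ι κ B) (w : A) :
    X.map φ * bmat φ f w = X.map φ + (X * f).map fun b => φ b * (w - 1) := by
  have h := map_mul_map φ X f 1 (w - 1) (fun b => by rw [mul_one, one_mul])
  simp only [mul_one, one_mul] at h
  change X.map (fun b => φ b) * bmat φ f w = _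
  rw [bmat, Matrix.mul_add, Matrix.mul_one, h]

private theorem map_zero_fun (φ : B →+* A) {ι κ : Type*} (w : A) :
    (0 : Matrix ι κ B).map (fun b => φ b * (w - 1)) = 0 := by
  refine Matrix.ext fun i j => ?_
  simp

/-- The swap matrix of an equivalence of idempotents is its own inverse. -/
private theorem swap_sq {ι κ : Type*} [Fintype ι] [DecidableEq ι] [Fintype κ] [DecidableEq κ]
    {e : Matrix ι ι B} {f : Matrix κ κ B} {x : Matrix ι κ B} {y : Matrix κ ι B}
    (he : e * e = e) (hf : f * f = f) (h1 : x * y = e) (h2 : y * x = f) (h3 : e * x = x)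
    (h4 : x * f = x) (h5 : f * y = y) (h6 : y * e = y) :
    fromBlocks (1 - e) x y (1 - f) * fromBlocks (1 - e) x y (1 - f) = 1 := by
  rw [fromBlocks_multiply, ← fromBlocks_one]
  congr 1
  · rw [sub_mul, mul_sub, mul_sub, one_mul, mul_one, one_mul, he, h1]
    abel
  · rw [Matrix.sub_mul, Matrix.mul_sub, Matrix.one_mul, Matrix.mul_one, h3, h4]
    abel
  · rw [Matrix.sub_mul, Matrix.mul_sub, Matrix.one_mul, Matrix.mul_one, h5, h6]
    abel
  · rw [sub_mul, mul_sub, mul_sub, one_mul, mul_one, one_mul, hf, h2]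
    abel

private theorem rho_equiv (φ : B →+* A) (κ : Γ →* Aˣ) (hκ : ∀ γ b, φ b * (κ γ : A) = κ γ * φ b)
    (a b : IdemMat B) (h : MatEquiv a.mat b.mat) (z : HG Γ n) :
    KQ.cls A n a.n (HG.map n (rho φ κ hκ a) z) = KQ.cls A n b.n (HG.map n (rho φ κ hκ b) z) := by
  obtain ⟨x, y, hxy, hyx⟩ := h
  have he := a.idem
  have hf := b.idem
  set e := a.mat with hedef
  set f := b.mat with hfdef
  -- the corrected matrices
  have k1 : e * x = x * f := by rw [← hxy, ← hyx, Matrix.mul_assoc]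
  have k2 : y * e = f * y := by rw [← hxy, ← hyx, Matrix.mul_assoc]
  have h3 : e * (e * x) = e * x := by rw [← Matrix.mul_assoc, he]
  have h4 : e * x * f = e * x := by rw [k1, Matrix.mul_assoc, hf]
  have h5 : f * (f * y) = f * y := by rw [← Matrix.mul_assoc, hf]
  have h6 : f * y * e = f * y := by rw [← k2, Matrix.mul_assoc, he]
  have h1 : e * x * (f * y) = e := by
    rw [← k2, Matrix.mul_assoc, ← Matrix.mul_assoc x, hxy, he, he]
  have h2 : f * y * (e * x) = f := by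
    rw [k1, Matrix.mul_assoc, ← Matrix.mul_assoc y, hyx, hf, hf]
  have hW := swap_sq he hf h1 h2 h3 h4 h5 h6
  have hW' : (fromBlocks (1 - e) (e * x) (f * y) (1 - f)).map φ *
      (fromBlocks (1 - e) (e * x) (f * y) (1 - f)).map φ = 1 := by
    rw [← Matrix.map_mul, hW, Matrix.map_one _ (map_zero φ) (map_one φ)]
  apply KQ.cls_congr _ _ ⟨_, _, hW', hW'⟩
  intro γ
  change fromBlocks (bmat φ e (κ γ : A)) 0 0 1 *
      (fromBlocks (1 - e) (e * x) (f * y) (1 - f)).map φ =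
    (fromBlocks (1 - e) (e * x) (f * y) (1 - f)).map φ * fromBlocks 1 0 0 (bmat φ f (κ γ : A))
  have e1 : e * (1 - e) = 0 := by rw [mul_sub, mul_one, he, sub_self]
  have e2 : (1 - f) * f = 0 := by rw [sub_mul, one_mul, hf, sub_self]
  rw [fromBlocks_map, fromBlocks_multiply, fromBlocks_multiply, bmat_mul_map φ e _ _ (hκ γ),
    bmat_mul_map φ e _ _ (hκ γ), map_mul_bmat φ f, map_mul_bmat φ f, e1, e2, h3, h4,
    map_zero_fun, map_zero_fun]
  simp

private theorem rho_sum (φ : B →+* A) (κ : Γ →* Aˣ) (hκ : ∀ γ b, φ b * (κ γ : A) = κ γ * φ b)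
    (a b : IdemMat B) (z : HG Γ n) :
    KQ.cls A n (a.sum b).n (HG.map n (rho φ κ hκ (a.sum b)) z) =
      KQ.cls A n a.n (HG.map n (rho φ κ hκ a) z) + KQ.cls A n b.n (HG.map n (rho φ κ hκ b) z) := by
  refine KQ.cls_sum (rho φ κ hκ a) (rho φ κ hκ b) (rho φ κ hκ (a.sum b)) (fun γ => ?_) z
  change bmat φ ((fromBlocks a.mat 0 0 b.mat).submatrix finSumFinEquiv.symm finSumFinEquiv.symm)
      (κ γ : A) = (fromBlocks (bmat φ a.mat (κ γ : A)) 0 0 (bmat φ b.mat (κ γ : A))).submatrix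
        finSumFinEquiv.symm finSumFinEquiv.symm
  have e1 : bmat φ (fromBlocks a.mat 0 0 b.mat) (κ γ : A) =
      fromBlocks (bmat φ a.mat (κ γ : A)) 0 0 (bmat φ b.mat (κ γ : A)) := by
    rw [bmat, bmat, bmat, Matrix.fromBlocks_map, ← Matrix.fromBlocks_one, Matrix.fromBlocks_add,
      map_zero_fun, map_zero_fun, add_zero]
    simp
  rw [← e1, bmat, bmat, ← Matrix.submatrix_map]
  have e2 : (1 : Matrix (Fin a.n ⊕ Fin b.n) (Fin a.n ⊕ Fin b.n) A).submatrix
      finSumFinEquiv.symm finSumFinEquiv.symm = 1 := submatrix_one_equiv _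
  change 1 + _ = (1 : Matrix (Fin a.n ⊕ Fin b.n) (Fin a.n ⊕ Fin b.n) A).submatrix
      finSumFinEquiv.symm finSumFinEquiv.symm + _
  rw [e2]
  rfl

variable (n) in
/-- The product `K₀(B) × H_{n+1}(Γ) → KQ A n`. -/
noncomputable def asm (φ : B →+* A) (κ : Γ →* Aˣ) (hκ : ∀ γ b, φ b * (κ γ : A) = κ γ * φ b) :
    K0 B →+ (HG Γ n →+ KQ A n) :=
  K0.lift (fun a => (KQ.cls A n a.n).comp (HG.map n (rho φ κ hκ a)))
    (fun a b h => by
      apply AddMonoidHom.ext
      intro z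
      exact rho_equiv φ κ hκ a b h z)
    (fun a b => by
      apply AddMonoidHom.ext
      intro z
      exact rho_sum φ κ hκ a b z)

theorem asm_mk (φ : B →+* A) (κ : Γ →* Aˣ) (hκ : ∀ γ b, φ b * (κ γ : A) = κ γ * φ b)
    (a : IdemMat B) (z : HG Γ n) :
    asm n φ κ hκ (K0.mk a) z = KQ.cls A n a.n (HG.map n (rho φ κ hκ a) z) := by
  rw [asm, K0.lift_mk]
  rfl

private theorem asm_congr {φ φ' : B →+* A} {κ κ' : Γ →* Aˣ} (e : φ = φ') (e' : κ = κ')
    (hκ : ∀ γ b, φ b * (κ γ : A) = κ γ * φ b) (hκ' : ∀ γ b, φ' b * (κ' γ : A) = κ' γ * φ' b)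
    (x : K0 B) (z : HG Γ n) : asm n φ κ hκ x z = asm n φ' κ' hκ' x z := by
  subst e
  subst e'
  rfl

theorem asm_comp {C : Type*} [Ring C] (φ : B →+* A) (ψ : C →+* B) (κ : Γ →* Aˣ)
    (hκ : ∀ γ b, φ b * (κ γ : A) = κ γ * φ b)
    (h : ∀ γ c, (φ.comp ψ) c * (κ γ : A) = κ γ * (φ.comp ψ) c) (x : K0 C) (z : HG Γ n) :
    asm n φ κ hκ (K0.map ψ x) z = asm n (φ.comp ψ) κ h x z := by
  suffices H : (asm n φ κ hκ).comp (K0.map ψ) = asm n (φ.comp ψ) κ h from
    DFunLike.congr_fun (DFunLike.congr_fun H x) z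
  apply K0.hom_ext
  intro a
  apply AddMonoidHom.ext
  intro z
  rw [AddMonoidHom.comp_apply, Pool.Agent.H71.FJ.K0.map_mk', asm_mk, asm_mk]
  rfl

theorem asm_map {Γ' : Type*} [Group Γ'] (φ : B →+* A) (κ : Γ →* Aˣ)
    (hκ : ∀ γ b, φ b * (κ γ : A) = κ γ * φ b) (f : Γ' →* Γ)
    (h : ∀ γ b, φ b * ((κ.comp f) γ : A) = (κ.comp f) γ * φ b) (x : K0 B) (z : HG Γ' n) :
    asm n φ κ hκ x (HG.map n f z) = asm n φ (κ.comp f) h x z := by
  suffices H : (asm n φ κ hκ).compr₂ (AddMonoidHom.id _) = (asm n φ κ hκ) by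
    suffices H' : (AddMonoidHom.compHom.flip (HG.map n f)).comp (asm n φ κ hκ) =
        asm n φ (κ.comp f) h from DFunLike.congr_fun (DFunLike.congr_fun H' x) z
    apply K0.hom_ext
    intro a
    apply AddMonoidHom.ext
    intro z
    change asm n φ κ hκ (K0.mk a) (HG.map n f z) = _
    rw [asm_mk, asm_mk, HG.map_map]
    rfl
  rfl

theorem asm_conj (φ φ' : B →+* A) (κ κ' : Γ →* Aˣ) (g : Aˣ)
    (hκ : ∀ γ b, φ b * (κ γ : A) = κ γ * φ b) (hκ' : ∀ γ b, φ' b * (κ' γ : A) = κ' γ * φ' b)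
    (h : ∀ b, φ' b = g * φ b * ((g⁻¹ : Aˣ) : A)) (h' : ∀ γ, κ' γ = g * κ γ * g⁻¹)
    (x : K0 B) (z : HG Γ n) : asm n φ' κ' hκ' x z = asm n φ κ hκ x z := by
  suffices H : asm n φ' κ' hκ' = asm n φ κ hκ from
    DFunLike.congr_fun (DFunLike.congr_fun H x) z
  apply K0.hom_ext
  intro a
  apply AddMonoidHom.ext
  intro z
  rw [asm_mk, asm_mk]
  congr 1
  have hd1 : (Matrix.diagonal fun _ : Fin a.n => (g : A)) *
      (Matrix.diagonal fun _ : Fin a.n => ((g⁻¹ : Aˣ) : A)) = 1 := by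
    rw [Matrix.diagonal_mul_diagonal, ← Matrix.diagonal_one]
    simp
  have hd2 : (Matrix.diagonal fun _ : Fin a.n => ((g⁻¹ : Aˣ) : A)) *
      (Matrix.diagonal fun _ : Fin a.n => (g : A)) = 1 := by
    rw [Matrix.diagonal_mul_diagonal, ← Matrix.diagonal_one]
    simp
  refine HG.map_conj (rho φ κ hκ a) (rho φ' κ' hκ' a) ⟨_, _, hd1, hd2⟩ (fun γ => ?_) z
  apply Units.ext
  rw [Units.val_mul, Units.val_mul]
  change bmat φ' a.mat (κ' γ : A) = (Matrix.diagonal fun _ : Fin a.n => (g : A)) *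
    bmat φ a.mat (κ γ : A) * (Matrix.diagonal fun _ : Fin a.n => ((g⁻¹ : Aˣ) : A))
  refine Matrix.ext fun i j => ?_
  rw [Matrix.mul_diagonal, Matrix.diagonal_mul, bmat, bmat, Matrix.add_apply, Matrix.add_apply,
    Matrix.map_apply, Matrix.map_apply, mul_add, add_mul]
  congr 1
  · by_cases hij : i = j
    · rw [hij, Matrix.one_apply_eq, mul_one, Units.mul_inv]
    · rw [Matrix.one_apply_ne hij, mul_zero, zero_mul]
  · rw [h, h', Units.val_mul, Units.val_mul]
    have e1 : (g : A) * (κ γ : A) * ((g⁻¹ : Aˣ) : A) - 1 =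
        g * ((κ γ : A) - 1) * ((g⁻¹ : Aˣ) : A) := by
      rw [mul_sub, sub_mul, mul_one, Units.mul_inv]
    rw [e1]
    calc (g : A) * φ (a.mat i j) * ((g⁻¹ : Aˣ) : A) * (g * ((κ γ : A) - 1) * ((g⁻¹ : Aˣ) : A))
        = g * φ (a.mat i j) * (((g⁻¹ : Aˣ) : A) * g) * ((κ γ : A) - 1) * ((g⁻¹ : Aˣ) : A) := by
          simp only [mul_assoc]
      _ = _ := by
        rw [Units.inv_mul, mul_one]
        simp only [mul_assoc]

theorem map_asm {C : Type*} [Ring C] (φ : B →+* A) (κ : Γ →* Aˣ)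
    (hκ : ∀ γ b, φ b * (κ γ : A) = κ γ * φ b) (f : A →+* C)
    (h : ∀ γ b, (f.comp φ) b * (((Units.map (f : A →* C)).comp κ) γ : C) =
      ((Units.map (f : A →* C)).comp κ) γ * (f.comp φ) b) (x : K0 B) (z : HG Γ n) :
    KQ.map f (asm n φ κ hκ x z) = asm n (f.comp φ) ((Units.map (f : A →* C)).comp κ) h x z := by
  suffices H : (AddMonoidHom.compHom (KQ.map f)).comp (asm n φ κ hκ) =
      asm n (f.comp φ) ((Units.map (f : A →* C)).comp κ) h from
    DFunLike.congr_fun (DFunLike.congr_fun H x) z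
  apply K0.hom_ext
  intro a
  apply AddMonoidHom.ext
  intro z
  change KQ.map f (asm n φ κ hκ (K0.mk a) z) = _
  rw [asm_mk, asm_mk, KQ.map_cls, HG.map_map]
  congr 2
  apply congrArg (fun F => HG.map n F)
  apply MonoidHom.ext
  intro γ
  apply Units.ext
  refine Matrix.ext fun i j => ?_
  change f (bmat φ a.mat (κ γ : A) i j) = bmat (f.comp φ) a.mat (f (κ γ : A)) i j
  rw [bmat, bmat, Matrix.add_apply, Matrix.add_apply, Matrix.map_apply, Matrix.map_apply, map_add,
    map_mul, map_sub, map_one]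
  congr 1
  by_cases hij : i = j
  · rw [hij, Matrix.one_apply_eq, Matrix.one_apply_eq, map_one]
  · rw [Matrix.one_apply_ne hij, Matrix.one_apply_ne hij, map_zero]

end

section

variable (R : Type u) [Ring R] (n : ℕ) {G : Type v} [Group G] {H : Type*} [Group H]
  {Γ : Type w} [Group Γ]

/-- The elements of `G` as units of `R[G]`. -/
noncomputable def grpHom (G : Type v) [Group G] : G →* (MonoidAlgebra R G)ˣ :=
  (Units.map (MonoidAlgebra.of R G)).comp toUnits.toMonoidHom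

theorem grpHom_val (g : G) : (grpHom R G g : MonoidAlgebra R G) = MonoidAlgebra.single g 1 := rfl

theorem grpHom_comm (f : H →* G) (κ : Γ →* G) (h : ∀ γ a, f a * κ γ = κ γ * f a) (γ : Γ)
    (b : MonoidAlgebra R H) :
    MonoidAlgebra.mapDomainRingHom R f b * (((grpHom R G).comp κ) γ : MonoidAlgebra R G) =
      ((grpHom R G).comp κ) γ * MonoidAlgebra.mapDomainRingHom R f b := by
  change MonoidAlgebra.mapDomainRingHom R f b * MonoidAlgebra.single (κ γ) 1 =
    MonoidAlgebra.single (κ γ) 1 * MonoidAlgebra.mapDomainRingHom R f b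
  induction b using MonoidAlgebra.induction_linear with
  | zero => simp
  | add a b ha hb => rw [map_add, add_mul, mul_add, ha, hb]
  | single a r =>
    change MonoidAlgebra.mapDomain f (MonoidAlgebra.single a r) * MonoidAlgebra.single (κ γ) 1 =
      MonoidAlgebra.single (κ γ) 1 * MonoidAlgebra.mapDomain f (MonoidAlgebra.single a r)
    rw [MonoidAlgebra.mapDomain_single, MonoidAlgebra.single_mul_single,
      MonoidAlgebra.single_mul_single, h, mul_one, one_mul]

/-- The product `K₀(R[H]) × H_{n+1}(Γ) → KQ (R[G]) n` for commuting homomorphisms `f : H → G`, `κ : Γ → G`: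
`([e], z)` is sent to the class of the image of `z` under `γ ↦ 1 + f(e) (κ γ - 1)`. -/
noncomputable def gasm (f : H →* G) (κ : Γ →* G) (h : ∀ γ a, f a * κ γ = κ γ * f a) :
    K0 (MonoidAlgebra R H) →+ (HG Γ n →+ KQ (MonoidAlgebra R G) n) :=
  asm n (MonoidAlgebra.mapDomainRingHom R f) ((grpHom R G).comp κ) (grpHom_comm R f κ h)

theorem gasm_comp {H' : Type*} [Group H'] (f : H →* G) (ψ : H' →* H) (κ : Γ →* G)
    (h : ∀ γ a, f a * κ γ = κ γ * f a) (h' : ∀ γ a, (f.comp ψ) a * κ γ = κ γ * (f.comp ψ) a)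
    (x : K0 (MonoidAlgebra R H')) (z : HG Γ n) :
    gasm R n f κ h (K0.map (MonoidAlgebra.mapDomainRingHom R ψ) x) z =
      gasm R n (f.comp ψ) κ h' x z := by
  have e : (MonoidAlgebra.mapDomainRingHom R f).comp (MonoidAlgebra.mapDomainRingHom R ψ) =
      MonoidAlgebra.mapDomainRingHom R (f.comp ψ) := (MonoidAlgebra.mapDomainRingHom_comp _ _).symm
  have hc : ∀ γ c, ((MonoidAlgebra.mapDomainRingHom R f).comp
      (MonoidAlgebra.mapDomainRingHom R ψ)) c * (((grpHom R G).comp κ) γ : MonoidAlgebra R G) =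
      ((grpHom R G).comp κ) γ * ((MonoidAlgebra.mapDomainRingHom R f).comp
        (MonoidAlgebra.mapDomainRingHom R ψ)) c := by
    rw [e]
    exact grpHom_comm R (f.comp ψ) κ h'
  exact (asm_comp _ _ _ _ hc x z).trans (asm_congr e rfl _ _ x z)

theorem gasm_map {Γ' : Type*} [Group Γ'] (f : H →* G) (κ : Γ →* G) (ψ : Γ' →* Γ)
    (h : ∀ γ a, f a * κ γ = κ γ * f a) (h' : ∀ γ a, f a * (κ.comp ψ) γ = (κ.comp ψ) γ * f a)
    (x : K0 (MonoidAlgebra R H)) (z : HG Γ' n) :
    gasm R n f κ h x (HG.map n ψ z) = gasm R n f (κ.comp ψ) h' x z := by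
  exact asm_map _ ((grpHom R G).comp κ) _ ψ (grpHom_comm R f (κ.comp ψ) h') x z

theorem gasm_conj (f f' : H →* G) (κ κ' : Γ →* G) (g : G) (h : ∀ γ a, f a * κ γ = κ γ * f a)
    (h' : ∀ γ a, f' a * κ' γ = κ' γ * f' a) (hf : ∀ a, f' a = g * f a * g⁻¹)
    (hκ : ∀ γ, κ' γ = g * κ γ * g⁻¹) (x : K0 (MonoidAlgebra R H)) (z : HG Γ n) :
    gasm R n f' κ' h' x z = gasm R n f κ h x z := by
  have ginv : (((grpHom R G g)⁻¹ : (MonoidAlgebra R G)ˣ) : MonoidAlgebra R G) =
      MonoidAlgebra.single g⁻¹ 1 := by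
    rw [← map_inv]
    rfl
  refine asm_conj _ _ _ _ (grpHom R G g) _ _ (fun b => ?_) (fun γ => ?_) x z
  · rw [ginv]
    induction b using MonoidAlgebra.induction_linear with
    | zero => simp
    | add a b ha hb => rw [map_add, ha, hb, map_add, mul_add, add_mul]
    | single a r =>
      change MonoidAlgebra.mapDomain f' (MonoidAlgebra.single a r) = MonoidAlgebra.single g 1 *
        MonoidAlgebra.mapDomain f (MonoidAlgebra.single a r) * MonoidAlgebra.single g⁻¹ 1
      rw [MonoidAlgebra.mapDomain_single, MonoidAlgebra.mapDomain_single,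
        MonoidAlgebra.single_mul_single, MonoidAlgebra.single_mul_single, hf, mul_one, one_mul]
  · rw [MonoidHom.comp_apply, MonoidHom.comp_apply, hκ, map_mul, map_mul, map_inv]

/-- naturality in the coefficients -/
theorem map_gasm {S : Type*} [Ring S] (θ : R →+* S) (f : H →* G) (κ : Γ →* G)
    (h : ∀ γ a, f a * κ γ = κ γ * f a) (x : K0 (MonoidAlgebra R H)) (z : HG Γ n) :
    KQ.map (MonoidAlgebra.mapRingHom G θ) (gasm R n f κ h x z) =
      gasm S n f κ h (K0.map (MonoidAlgebra.mapRingHom H θ) x) z := by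
  have e : (Units.map ((MonoidAlgebra.mapRingHom G θ : MonoidAlgebra R G →+* MonoidAlgebra S G) :
      MonoidAlgebra R G →* MonoidAlgebra S G)).comp ((grpHom R G).comp κ) =
      (grpHom S G).comp κ := by
    apply MonoidHom.ext
    intro γ
    apply Units.ext
    change MonoidAlgebra.mapRingHom G θ (MonoidAlgebra.single (κ γ) 1) =
      MonoidAlgebra.single (κ γ) 1
    rw [MonoidAlgebra.mapRingHom_single, map_one]
  have e2 : (MonoidAlgebra.mapRingHom G θ).comp (MonoidAlgebra.mapDomainRingHom R f) =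
      (MonoidAlgebra.mapDomainRingHom S f).comp (MonoidAlgebra.mapRingHom H θ) :=
    MonoidAlgebra.mapRingHom_comp_mapDomainRingHom _ _
  have hc : ∀ γ b, ((MonoidAlgebra.mapDomainRingHom S f).comp (MonoidAlgebra.mapRingHom H θ)) b *
      (((grpHom S G).comp κ) γ : MonoidAlgebra S G) = ((grpHom S G).comp κ) γ *
        ((MonoidAlgebra.mapDomainRingHom S f).comp (MonoidAlgebra.mapRingHom H θ)) b :=
    fun γ b => grpHom_comm S f κ h γ _
  have hc' : ∀ γ b, ((MonoidAlgebra.mapRingHom G θ).comp (MonoidAlgebra.mapDomainRingHom R f)) b *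
      (((Units.map ((MonoidAlgebra.mapRingHom G θ : MonoidAlgebra R G →+* MonoidAlgebra S G) :
        MonoidAlgebra R G →* MonoidAlgebra S G)).comp ((grpHom R G).comp κ)) γ :
          MonoidAlgebra S G) =
      ((Units.map ((MonoidAlgebra.mapRingHom G θ : MonoidAlgebra R G →+* MonoidAlgebra S G) :
        MonoidAlgebra R G →* MonoidAlgebra S G)).comp ((grpHom R G).comp κ)) γ *
          ((MonoidAlgebra.mapRingHom G θ).comp (MonoidAlgebra.mapDomainRingHom R f)) b := by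
    rw [e, e2]
    exact hc
  exact (map_asm _ _ _ _ hc' x z).trans ((asm_congr e2 e _ hc x z).trans
    (asm_comp _ _ _ _ _ x z).symm)

end

end Pool.Agent.H71.FQ
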