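import Pool.Agent.H71.FQ.HG

/-!
# Project FQ: homomorphisms from homology to the `p`-adic integers come from cocycles

PROOF. Let `C` be the quotient of the chains of degree `n + 1` by `coi` and `Z` the image of the cycles. `C / Z` embeds
in the chains of degree `n` modulo `coi`, which is a free abelian group (basis: the tuples `(1, x_1, …)`), hence it is
torsion free. A homomorphism `f : Z → ℤ_p` extends to every subgroup `Z + E`, `E` finitely generated, since
`(Z + E) / Z` is finitely generated and torsion free, hence free. By compactness of the product of copies of `ℤ_p`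
(closed conditions: additivity on the finitely generated pieces, agreement with `f` on `Z`) it extends to `C`.
-/

set_option autoImplicit false

universe u v w

namespace Pool.Agent.H71.FQ

/-- extension on finitely generated pieces -/
theorem exists_extension_aux (p : ℕ) [Fact p.Prime] {C : Type v} [AddCommGroup C]
    (Z : AddSubgroup C) (h : ∀ (m : ℤ) (x : C), m ≠ 0 → m • x ∈ Z → x ∈ Z) (f : Z →+ ℤ_[p])
    (S : Finset C) : ∃ g : C → ℤ_[p], (∀ x ∈ S, ∀ y ∈ S, g (x + y) = g x + g y) ∧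
      ∀ z : Z, g z = f z := by
  classical
  let Z' : Submodule ℤ C := AddSubgroup.toIntSubmodule Z
  let E : Submodule ℤ (C ⧸ Z') := Submodule.span ℤ (Z'.mkQ '' (S : Set C))
  have hfin : Module.Finite ℤ E :=
    Module.Finite.span_of_finite ℤ (S.finite_toSet.image _)
  have htf : Module.IsTorsionFree ℤ E := by
    constructor
    intro m hm
    have hm0 : m ≠ 0 := hm.ne_zero
    intro x y hxy
    have h1 : m • (x - y) = 0 := by
      rw [smul_sub, sub_eq_zero]
      exact hxy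
    have h2 : (x - y : E) = 0 := by
      apply Subtype.ext
      obtain ⟨c, hc⟩ := Z'.mkQ_surjective ((x - y : E) : C ⧸ Z')
      have h3 : Z'.mkQ (m • c) = 0 := by
        rw [map_smul, hc]
        exact congrArg Subtype.val h1
      rw [Submodule.mkQ_apply, Submodule.Quotient.mk_eq_zero] at h3
      rw [← hc, Submodule.mkQ_apply]
      exact (Submodule.Quotient.mk_eq_zero Z').2 (h m c hm0 h3)
    exact sub_eq_zero.1 h2
  have hfree : Module.Free ℤ E := Module.free_of_finite_type_torsion_free'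
  obtain ⟨s, hs⟩ := Module.projective_lifting_property Z'.mkQ E.subtype Z'.mkQ_surjective
  have hs' : ∀ e : E, Z'.mkQ (s e) = e := fun e => LinearMap.congr_fun hs e
  have hmem : ∀ (x : C) (hx : Z'.mkQ x ∈ E), x - s ⟨Z'.mkQ x, hx⟩ ∈ Z := by
    intro x hx
    have h1 : Z'.mkQ (x - s ⟨Z'.mkQ x, hx⟩) = 0 := by
      rw [map_sub, hs', sub_self]
    rw [Submodule.mkQ_apply, Submodule.Quotient.mk_eq_zero] at h1
    exact h1
  let g : C → ℤ_[p] := fun x =>
    if hx : Z'.mkQ x ∈ E then f ⟨x - s ⟨Z'.mkQ x, hx⟩, hmem x hx⟩ else 0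
  have hg : ∀ (x : C) (hx : Z'.mkQ x ∈ E), g x = f ⟨x - s ⟨Z'.mkQ x, hx⟩, hmem x hx⟩ :=
    fun x hx => dif_pos hx
  refine ⟨g, ?_, ?_⟩
  · intro x hx y hy
    have hx' : Z'.mkQ x ∈ E := Submodule.subset_span ⟨x, hx, rfl⟩
    have hy' : Z'.mkQ y ∈ E := Submodule.subset_span ⟨y, hy, rfl⟩
    have hxy : Z'.mkQ (x + y) ∈ E := by
      rw [map_add]
      exact E.add_mem hx' hy'
    rw [hg _ hx', hg _ hy', hg _ hxy, ← map_add]
    congr 1
    apply Subtype.ext
    have h1 : (⟨Z'.mkQ (x + y), hxy⟩ : E) = ⟨Z'.mkQ x, hx'⟩ + ⟨Z'.mkQ y, hy'⟩ :=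
      Subtype.ext (map_add _ _ _)
    show x + y - s ⟨Z'.mkQ (x + y), hxy⟩ = (x - s ⟨Z'.mkQ x, hx'⟩) + (y - s ⟨Z'.mkQ y, hy'⟩)
    rw [h1, map_add]
    abel
  · intro z
    have h0 : Z'.mkQ (z : C) = 0 := by
      rw [Submodule.mkQ_apply, Submodule.Quotient.mk_eq_zero]
      exact z.2
    have hz : Z'.mkQ (z : C) ∈ E := by
      rw [h0]
      exact E.zero_mem
    rw [hg _ hz]
    congr 1
    apply Subtype.ext
    have h1 : (⟨Z'.mkQ (z : C), hz⟩ : E) = 0 := Subtype.ext h0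
    show (z : C) - s ⟨Z'.mkQ (z : C), hz⟩ = z
    rw [h1, map_zero, sub_zero]

/-- extension of homomorphisms with values in `ℤ_p` from a subgroup with torsion free quotient -/
theorem exists_extension (p : ℕ) [Fact p.Prime] {C : Type v} [AddCommGroup C] (Z : AddSubgroup C)
    (h : ∀ (m : ℤ) (x : C), m ≠ 0 → m • x ∈ Z → x ∈ Z) (f : Z →+ ℤ_[p]) :
    ∃ F : C →+ ℤ_[p], ∀ z : Z, F z = f z := by
  classical
  let t : C × C → Set (C → ℤ_[p]) := fun q =>
    {g | g (q.1 + q.2) = g q.1 + g q.2} ∩ {g | ∀ z : Z, g z = f z}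
  have hcl : ∀ q, IsClosed (t q) := by
    intro q
    refine IsClosed.inter ?_ ?_
    · exact isClosed_eq (by fun_prop) (by fun_prop)
    · have h1 : {g : C → ℤ_[p] | ∀ z : Z, g z = f z} = ⋂ z : Z, {g | g z = f z} := by
        ext g
        simp
      rw [h1]
      exact isClosed_iInter fun z => isClosed_eq (continuous_apply _) continuous_const
  have hne : ∀ s : Finset (C × C), (⋂ q ∈ s, t q).Nonempty := by
    intro s
    obtain ⟨g, hg1, hg2⟩ := exists_extension_aux p Z h f (s.image Prod.fst ∪ s.image Prod.snd)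
    refine ⟨g, ?_⟩
    simp only [Set.mem_iInter]
    intro q hq
    refine ⟨hg1 _ ?_ _ ?_, hg2⟩
    · exact Finset.mem_union_left _ (Finset.mem_image_of_mem _ hq)
    · exact Finset.mem_union_right _ (Finset.mem_image_of_mem _ hq)
  obtain ⟨g, hg⟩ := CompactSpace.iInter_nonempty hcl hne
  rw [Set.mem_iInter] at hg
  exact ⟨AddMonoidHom.mk' g fun x y => (hg (x, y)).1, fun z => (hg (0, 0)).2 z⟩

/-- the normal form of a chain modulo the relations: move the first entry to `1` -/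
noncomputable def nrm (Γ : Type v) [Group Γ] (n : ℕ) : Cx ℤ Γ n →ₗ[ℤ] Cx ℤ Γ n :=
  Finsupp.linearCombination ℤ fun x : Fin (n + 1) → Γ =>
    Finsupp.single (fun j => (x 0)⁻¹ * x j) (1 : ℤ)

theorem nrm_single {Γ : Type v} [Group Γ] {n : ℕ} (x : Fin (n + 1) → Γ) :
    nrm Γ n (Finsupp.single x 1) = Finsupp.single (fun j => (x 0)⁻¹ * x j) 1 := by
  rw [nrm, Finsupp.linearCombination_single, one_smul]

theorem nrm_coi {Γ : Type v} [Group Γ] {n : ℕ} {c : Cx ℤ Γ n} (hc : c ∈ coi Γ n) :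
    nrm Γ n c = 0 := by
  have h := coi_le_comap (nrm Γ n) (⊥ : Submodule ℤ (Cx ℤ Γ n)) (fun g x => by
    rw [nrm_single, nrm_single]
    have e : (fun j => (g * x 0)⁻¹ * (g * x j)) = fun j => (x 0)⁻¹ * x j := by
      funext j
      group
    rw [e, sub_self]
    exact Submodule.zero_mem _) hc
  exact (Submodule.mem_bot ℤ).1 h

theorem sub_nrm_mem {Γ : Type v} [Group Γ] {n : ℕ} (c : Cx ℤ Γ n) : c - nrm Γ n c ∈ coi Γ n := by
  induction c using Finsupp.induction_linear with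
  | zero => simp
  | add a b ha hb =>
    have h : (a + b) - nrm Γ n (a + b) = (a - nrm Γ n a) + (b - nrm Γ n b) := by
      rw [map_add]
      abel
    rw [h]
    exact Submodule.add_mem _ ha hb
  | single x r =>
    have h : (Finsupp.single x r : Cx ℤ Γ n) = r • Finsupp.single x 1 := by
      rw [Finsupp.smul_single, smul_eq_mul, mul_one]
    rw [h, map_smul, nrm_single, ← smul_sub]
    refine Submodule.smul_mem _ _ ?_
    have h1 : (Finsupp.single (fun j => (x 0)⁻¹ * x j) 1 - Finsupp.single x 1 : Cx ℤ Γ n) ∈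
        coi Γ n := Submodule.subset_span ⟨(x 0)⁻¹, x, rfl⟩
    have h2 := Submodule.neg_mem _ h1
    rwa [neg_sub] at h2

/-- the chains modulo `coi` are torsion free -/
theorem coi_torsionFree {Γ : Type v} [Group Γ] {n : ℕ} (m : ℤ) (hm : m ≠ 0) (c : Cx ℤ Γ n)
    (h : m • c ∈ coi Γ n) : c ∈ coi Γ n := by
  have h1 := nrm_coi h
  rw [map_smul] at h1
  have h2 : nrm Γ n c = 0 := (smul_eq_zero.1 h1).resolve_left hm
  have h3 := sub_nrm_mem c
  rwa [h2, sub_zero] at h3

theorem lc_addHom {Γ : Type v} {n : ℕ} {M : Type w} [AddCommGroup M] (F : Cx ℤ Γ n →+ M)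
    (c : Cx ℤ Γ n) :
    Finsupp.linearCombination ℤ (fun x : Fin (n + 1) → Γ => F (Finsupp.single x 1)) c = F c := by
  have h : Finsupp.linearCombination ℤ (fun x : Fin (n + 1) → Γ => F (Finsupp.single x 1)) =
      F.toIntLinearMap := by
    refine Finsupp.lhom_ext' fun x => LinearMap.ext_ring ?_
    simp only [LinearMap.comp_apply, Finsupp.lsingle_apply]
    rw [Finsupp.linearCombination_single, one_smul]
    rfl
  exact LinearMap.congr_fun h c

theorem coi_le_cyc {Γ : Type v} [Group Γ] {n : ℕ} {c : Cx ℤ Γ (n + 1)}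
    (hc : c ∈ coi Γ (n + 1)) : c ∈ cyc Γ n := by
  show bd ℤ Γ n c ∈ coi Γ n
  refine coi_le_comap (bd ℤ Γ n) (coi Γ n) ?_ hc
  intro g x
  rw [bd_single, bd_single, ← Finset.sum_sub_distrib]
  refine Submodule.sum_mem _ fun i _ => ?_
  rw [← smul_sub]
  exact Submodule.smul_mem _ _ (Submodule.subset_span ⟨g, fun j => x (i.succAbove j), rfl⟩)

theorem bnd_le_cyc {Γ : Type v} [Group Γ] {n : ℕ} {c : Cx ℤ Γ (n + 1)}
    (hc : c ∈ bnd Γ n) : c ∈ cyc Γ n := by
  obtain ⟨_, ⟨b, rfl⟩, d, hd, rfl⟩ := Submodule.mem_sup.1 hc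
  refine Submodule.add_mem _ ?_ (coi_le_cyc hd)
  show bd ℤ Γ n (bd ℤ Γ (n + 1) b) ∈ coi Γ n
  rw [bd_bd]
  exact Submodule.zero_mem _

theorem exists_cocycle (p : ℕ) [Fact p.Prime] {Γ : Type v} [Group Γ] {n : ℕ}
    (f : HG Γ n →+ ℤ_[p]) :
    ∃ (φ : (Fin (n + 2) → Γ) → ℤ_[p]) (hφ : IsCoc Γ n φ), ∀ x, HG.ev hφ x = f x := by
  let f0 : (cyc Γ n).toAddSubgroup →+ ℤ_[p] :=
    f.comp (AddMonoidHom.mk' (fun z : cyc Γ n => HG.mk z) HG.mk_add)
  have hf0 : ∀ z : cyc Γ n, f0 z = f (HG.mk z) := fun z => rfl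
  obtain ⟨F, hF⟩ := exists_extension p (cyc Γ n).toAddSubgroup (by
    intro m x hm hx
    show bd ℤ Γ n x ∈ coi Γ n
    have h1 : bd ℤ Γ n (m • x) ∈ coi Γ n := hx
    rw [map_smul] at h1
    exact coi_torsionFree m hm _ h1) f0
  have hF' : ∀ (c : Cx ℤ Γ (n + 1)) (hc : c ∈ cyc Γ n), F c = f (HG.mk ⟨c, hc⟩) :=
    fun c hc => hF ⟨c, hc⟩
  have hF0 : ∀ c : Cx ℤ Γ (n + 1), c ∈ bnd Γ n → F c = 0 := by
    intro c hc
    rw [hF' c (bnd_le_cyc hc)]
    have h0 : (0 : HG Γ n) = HG.mk 0 := rfl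
    have h1 : HG.mk ⟨c, bnd_le_cyc hc⟩ = (0 : HG Γ n) := by
      rw [h0, HG.mk_eq_iff]
      show c - 0 ∈ bnd Γ n
      rw [sub_zero]
      exact hc
    rw [h1, map_zero]
  have hcoc : IsCoc Γ n fun x => F (Finsupp.single x 1) := by
    constructor
    · intro g x
      rw [← sub_eq_zero, ← map_sub]
      exact hF0 _ (Submodule.mem_sup_right (Submodule.subset_span ⟨g, x, rfl⟩))
    · intro x
      have h1 := hF0 (bd ℤ Γ (n + 1) (Finsupp.single x 1))
        (Submodule.mem_sup_left (LinearMap.mem_range_self _ _))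
      rw [bd_single, map_sum] at h1
      simp only [map_zsmul] at h1
      exact h1
  refine ⟨_, hcoc, ?_⟩
  intro x
  obtain ⟨z, rfl⟩ := HG.mk_surjective x
  rw [HG.ev_mk, lc_addHom]
  exact hF' z z.2

end Pool.Agent.H71.FQ
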