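import Pool.Agent.H71.FQ.Tors
import Pool.Agent.H71.FQ.Uct
import Pool.Agent.H71.DB.Main

/-!
# Rational injectivity of the assembly map for fields of positive characteristic, all degrees
-/

set_option autoImplicit false

open Matrix

universe t u v w

namespace Pool.Agent.H71.FQ

open Pool.Agent.H71.FJ (K0)
open Pool.Agent.H71.DB (BLift bLiftP)
open Pool.Agent.H95.WH (FamSub conjHom FinSub)

theorem ratInj_of {A : Type u} [AddCommGroup A] {B : Type v} [AddCommGroup B]
    (f : A →+ B) (h : ∀ (z : A) (M : ℤ), M ≠ 0 → M • f z = 0 → ∃ m : ℤ, m ≠ 0 ∧ m • z = 0) :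
    RatInj f := by
  rw [RatInj, injective_iff_map_eq_zero]
  intro y hy
  obtain ⟨⟨z, m⟩, hz⟩ := IsLocalizedModule.surj (nonZeroDivisors ℤ)
    (TensorProduct.mk ℤ ℚ A 1) y
  have h1 : TensorProduct.mk ℤ ℚ B 1 (f z) = 0 := by
    have h2 : LinearMap.lTensor ℚ f.toIntLinearMap (TensorProduct.mk ℤ ℚ A 1 z) = 0 := by
      have h3 := congrArg (LinearMap.lTensor ℚ f.toIntLinearMap) hz
      rw [Submonoid.smul_def, map_smul, hy, smul_zero] at h3
      exact h3.symm
    exact h2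
  obtain ⟨M, hM⟩ := (IsLocalizedModule.eq_zero_iff (nonZeroDivisors ℤ)
    (TensorProduct.mk ℤ ℚ B 1)).1 h1
  obtain ⟨m', hm', h4⟩ := h z M (nonZeroDivisors.coe_ne_zero M) hM
  have h5 : TensorProduct.mk ℤ ℚ A 1 z = 0 :=
    (IsLocalizedModule.eq_zero_iff (nonZeroDivisors ℤ)
      (TensorProduct.mk ℤ ℚ A 1)).2 ⟨⟨m', mem_nonZeroDivisors_of_ne_zero hm'⟩, h4⟩
  have h6 : m • y = m • 0 := by rw [hz, h5, smul_zero]
  exact IsLocalizedModule.smul_injective (TensorProduct.mk ℤ ℚ A 1) m h6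

section

variable {k : Type u} [Field k] {K : Type t} [Field K] {G : Type v} [Group G] (X : Ctx k K G)
  {n : ℕ}

theorem kernel_torsion
    (hsep : ∀ D : FamSub G FinSub, IsCyclic D.1 → (∀ h : D.1, (orderOf h : k) ≠ 0) →
      ∀ b : HG (Subgroup.centralizer (D.1 : Set G)) n,
        (∀ (φ : (Fin (n + 2) → Subgroup.centralizer (D.1 : Set G)) → X.L.Lam)
          (hφ : IsCoc (Subgroup.centralizer (D.1 : Set G)) n φ), HG.ev hφ b = 0) →
          ∃ m : ℤ, m ≠ 0 ∧ m • b = 0)
    (z : HnK0 k G n) (M : ℤ) (hM : M ≠ 0) (h : M • assemblyN k n G z = 0) :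
    ∃ m : ℤ, m ≠ 0 ∧ m • z = 0 := by
  apply torsion_of_vanOn X hsep z
  refine ⟨M, hM, fun c _ hc φ hφ m => ?_⟩
  rw [← zsmul_eq_mul, ← map_zsmul, h, map_zero]

end

/-- **Rational injectivity.** -/
theorem main (p : ℕ) [Fact p.Prime] (k : Type u) [Field k] [CharP k p] (G : Type v) [Group G]
    (r : ℕ) (hG : ∀ g : G, (∃ j : ℕ, g ^ p ^ j = 1) → g ^ p ^ r = 1) (n : ℕ)
    (hsep : ∀ C : Subgroup G, Finite C → IsCyclic C → ¬ p ∣ Nat.card C →
      PSep p (Subgroup.centralizer (C : Set G)) n) :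
    RatInj (assemblyN k n G) := by
  apply ratInj_of
  intro z M hM h
  let K := AlgebraicClosure k
  have : CharP K p := charP_of_injective_algebraMap (algebraMap k K).injective p
  have : PerfectRing K p := PerfectField.toPerfectRing p
  let X : Ctx k K G :=
    { L := bLiftP p K
      i := algebraMap k K
      p := p
      hp := Fact.out
      hk := CharP.cast_eq_zero k p
      hq := rfl
      r := r
      hG := hG }
  refine kernel_torsion X ?_ z M hM h
  intro D hD ho b hb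
  have hfin : Finite D.1 := D.2
  have hcard : ¬ p ∣ Nat.card D.1 := by
    intro hdvd
    obtain ⟨g, hg⟩ := IsCyclic.exists_generator (α := D.1)
    have h1 : orderOf g = Nat.card D.1 := orderOf_eq_card_of_forall_mem_zpowers hg
    apply ho g
    rw [h1]
    exact (CharP.cast_eq_zero_iff k p _).2 hdvd
  obtain ⟨ψ, hψ⟩ := Pool.Agent.H71.DB.padic_to_witt p K
  refine hsep D.1 hfin hD hcard b fun f => ?_
  obtain ⟨φ, hφ, hf⟩ := exists_cocycle p f
  have hφ' : IsCoc (Subgroup.centralizer (D.1 : Set G)) n fun x => ψ (φ x) :=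
    ⟨fun g x => by rw [hφ.inv], fun x => by
      have h1 := congrArg ψ (hφ.coc x)
      rw [map_zero, map_sum] at h1
      rw [← h1]
      exact Finset.sum_congr rfl fun i _ => (map_zsmul ψ _ _).symm⟩
  have h2 : HG.ev hφ' b = 0 := hb _ hφ'
  have h3 : HG.ev hφ' b = ψ (HG.ev hφ b) := HG.ev_comp hφ ψ.toAddMonoidHom hφ' b
  rw [hf] at h3
  exact hψ (by rw [map_zero, ← h3]; exact h2)

end Pool.Agent.H71.FQ
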