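import Pool.Agent.H71.FQ.StI

/-!
# Rational injectivity on the `K₀`-part and on the sum of the `K₀`-part and the `K₁`-part
-/

set_option autoImplicit false

universe u v

namespace Pool.Agent.H71.FQ1

open Pool.Agent.H71.FQS (KQ HnK0 IsAssembly RatInj LocRing asmS asmS_isAssembly fromK toK
  toK_fromK toH fromH fromH_toH ratInj_iff asmS1 asmS1_isAssembly1 toH1c fromH1 fromH1_toH1c)
open Pool.Agent.H71.FU0 (H0K1 assembly10 assembly00 ratInj00_main)

section

theorem ratInj_compare {A A' B C : Type*} [AddCommGroup A] [AddCommGroup A'] [AddCommGroup B]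
    [AddCommGroup C] {g : A →+ B} {f : A' →+ C} (i : A → A') (i' : A' →+ A)
    (hi : ∀ x, i' (i x) = x) (t : B →+ C) (h : ∀ x, t (g x) = f (i x)) (hf : FQ.RatInj f)
    (hs : ∀ (x : A) (m : ℤ), i (m • x) = m • i x) : RatInj g := by
  refine (ratInj_iff _).2 fun z M hM hz => ?_
  have h0 : ∀ (z : A') (M : ℤ), M ≠ 0 → M • f z = 0 → ∃ m : ℤ, m ≠ 0 ∧ m • z = 0 :=
    (ratInj_iff _).1 hf
  have h1 : M • f (i z) = 0 := by rw [← h, ← map_zsmul, hz, map_zero]
  obtain ⟨m, hm, h3⟩ := h0 _ M hM h1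
  refine ⟨m, hm, ?_⟩
  rw [← hi (m • z), hs, h3, map_zero]

variable {R : Type u} [Ring R] {G : Type v} [Group G] {n : ℕ}

variable (R G) in
/-- the assembly map on the `K₁`-part -/
noncomputable def asm1 : (n : ℕ) → HnK1 R G n →+ KQ (MonoidAlgebra R G) n
  | 0 => asmL R G
  | n + 1 => (asmS1 R G n).comp conv

theorem asm1_isAssembly1 : IsAssembly1 (R := R) (G := G) (n := n) (asm1 R G n) := by
  rcases n with _ | n
  · exact asmL_isAssembly1
  · intro s σ u z' hσ hu hz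
    change (asmS1 R G n) (conv (HnK1.mk s)) = _
    rw [conv_mk]
    exact asmS1_isAssembly1 ⟨s.F, s.fin, s.N, s.U, ⟨s.z, s.cyc⟩⟩ σ u z' hσ hu hz

theorem ratInj_asmS (h : FQ.RatInj (FQ.assemblyN R n G)) : RatInj (asmS R G n) :=
  ratInj_compare toH fromH fromH_toH toK (fun _ => toK_fromK _) h fun x m => map_zsmul toH m x

theorem ratInj_coprod_zero (h : FQ.RatInj (assembly00 R G)) :
    RatInj ((asmS R G 0).coprod (asm1 R G 0)) :=
  ratInj_compare (fun z => (toH z.1, toL z.2)) (AddMonoidHom.prodMap fromH fromL)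
    (fun x => Prod.ext (fromH_toH x.1) (fromL_toL x.2)) toK
    (fun x => by
      rw [AddMonoidHom.coprod_apply, map_add]
      exact congrArg₂ (· + ·) (toK_fromK _) (toK_fromK _)) h
    fun x m => Prod.ext (map_zsmul toH m x.1) (map_zsmul toL m x.2)

theorem ratInj_coprod_succ (h : FQ.RatInj (Pool.Agent.H16.FU.assembly01 R n G)) :
    RatInj ((asmS R G (n + 1)).coprod (asm1 R G (n + 1))) :=
  ratInj_compare (fun z => (toH z.1, toH1c (conv z.2)))
    (AddMonoidHom.prodMap fromH (vnoc.comp fromH1))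
    (fun x => Prod.ext (fromH_toH x.1)
      ((congrArg vnoc (fromH1_toH1c (conv x.2))).trans (vnoc_conv x.2))) toK
    (fun x => by
      rw [AddMonoidHom.coprod_apply, map_add]
      exact congrArg₂ (· + ·) (toK_fromK _) (toK_fromK _)) h
    fun x m => Prod.ext (map_zsmul toH m x.1)
      ((congrArg toH1c (map_zsmul conv m x.2)).trans (map_zsmul toH1c m (conv x.2)))

theorem ratInj_asm0 (hR : LocRing R)
    (hG : ∀ p : ℕ, p.Prime → p ∣ ringChar R → LocGrp p G {n}) : RatInj (asmS R G n) :=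
  ratInj_asmS (FQS.ratInj_main hR fun p hp hd S => by
    obtain ⟨G', h1, h2, h3⟩ := hG p hp.out hd S
    exact ⟨G', h1, h2, fun C h4 h5 h6 => h3 C h4 h5 h6 n rfl⟩)

theorem ratInj_asm01 (hR : LocRing R)
    (hG : ∀ p : ℕ, p.Prime → p ∣ ringChar R → LocGrp p G {n - 1, n}) :
    RatInj ((asmS R G n).coprod (asm1 R G n)) := by
  rcases n with _ | n
  · refine ratInj_coprod_zero (ratInj00_main hR fun p hp hd S => ?_)
    obtain ⟨G', h1, -, h3⟩ := hG p hp.out hd S
    exact ⟨G', h1, fun C h4 h5 h6 => h3 C h4 h5 h6 0 (Or.inr rfl)⟩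
  · refine ratInj_coprod_succ (FQS.ratInj01_main FQS.fieldCase hR fun p hp hd S => ?_)
    obtain ⟨G', h1, h2, h3⟩ := hG p hp.out hd S
    exact ⟨G', h1, h2, fun C h4 h5 h6 =>
      ⟨h3 C h4 h5 h6 n (Or.inl rfl), h3 C h4 h5 h6 (n + 1) (Or.inr rfl)⟩⟩

/-- **The main theorem.** -/
theorem main01 (hR : LocRing R) (n : ℕ) :
    ∃ (α₀ : HnK0 R G n →+ KQ (MonoidAlgebra R G) n)
      (α₁ : HnK1 R G n →+ KQ (MonoidAlgebra R G) n), IsAssembly α₀ ∧ IsAssembly1 α₁ ∧
      ((∀ p : ℕ, p.Prime → p ∣ ringChar R → LocGrp p G {n}) → RatInj α₀) ∧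
      ((∀ p : ℕ, p.Prime → p ∣ ringChar R → LocGrp p G {n - 1, n}) →
        RatInj (α₀.coprod α₁)) :=
  ⟨asmS R G n, asm1 R G n, asmS_isAssembly, asm1_isAssembly1, ratInj_asm0 hR, ratInj_asm01 hR⟩

end

end Pool.Agent.H71.FQ1
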