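import Pool.Agent.H71.FQ.St3
import Pool.Agent.H71.FQ.StJ
import Pool.Agent.H16.KN.Defs2
import Pool.Agent.H16.KN.LinSN

/-!
# Comparison of the definitions over `ℤ`: the target and the homology groups
-/

set_option autoImplicit false

open Matrix
open scoped LaurentPolynomial

universe u v w

namespace Pool.Agent.H71.FQ3

open Pool.Agent.H71.FQS (Ch bd push coi bnd Cyc GLm blkM RF Cent KQ toHG toHG_surjective fromK
  fromK_cls toK toK_mk toK_fromK map_toHG map_toHG' toHG_add toHG_bnd)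
open Pool.Agent.H71.FQ1 (pri IsCyc HSym1 HnK1 aug aug_bnd sub_aug_mem)
open Pool.Agent.H71.FQ (HG mapGL)
open Pool.Agent.H95.KM (posHom negHom posHom_monomial negHom_monomial lau)
open Pool.Agent.H16.KN (LKQ LKQ.mk LKQ.lift LKQ.mk_pos LKQ.mk_neg LKQ.mk_surjective PSepA)

section

variable {A : Type u} [Ring A] {n : ℕ}

theorem pol_one (f : Polynomial A) : (pol 1 f : Lau A) = posHom A f := by
  conv_rhs => rw [f.as_sum_support, map_sum]
  rw [pol, Polynomial.sum_def]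
  refine Finset.sum_congr rfl fun i _ => ?_
  rw [posHom_monomial, one_mul]
  rfl

theorem pol_neg (f : Polynomial A) : (pol (-1) f : Lau A) = negHom A f := by
  conv_rhs => rw [f.as_sum_support, map_sum]
  rw [pol, Polynomial.sum_def]
  refine Finset.sum_congr rfl fun i _ => ?_
  rw [negHom_monomial, neg_one_mul]
  rfl

/-- the class in the quotient -/
noncomputable def qmk : KQ (Lau A) n →+ LQ A n := QuotientAddGroup.mk' _

theorem qmk_mk (N : ℕ) (z : Cyc (GLm N (Lau A)) n) : qmk (FQS.KQ.mk N z) = LQ.mk N z := rfl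

theorem fromK_map (f : Polynomial A →+* Lau A) (ε : ℤ) (hε : ε = 1 ∨ ε = -1)
    (hf : ∀ x, pol ε x = f x) (x : FQ.KQ (Polynomial A) n) :
    qmk (fromK (A := Lau A) (FQ.KQ.map f x)) = 0 := by
  suffices h : ((qmk (A := A) (n := n)).comp (fromK (A := Lau A))).comp (FQ.KQ.map f) = 0 from
    DFunLike.congr_fun h x
  apply FQ.KQ.hom_ext
  intro N x
  obtain ⟨z, rfl⟩ := toHG_surjective x
  rw [AddMonoidHom.comp_apply, AddMonoidHom.comp_apply, FQ.KQ.map_cls, map_toHG']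
  rw [AddMonoidHom.zero_apply]
  refine (congrArg qmk (fromK_cls (A := Lau A) N (z.map (mapGL f N)))).trans ?_
  refine (QuotientAddGroup.eq_zero_iff _).2 (AddSubgroup.subset_closure
    ⟨ε, N, z, mapGL f N, z.map (mapGL f N), hε, fun u i j => ?_, rfl, rfl⟩)
  exact (hf _).symm

variable (A n) in
/-- the comparison homomorphism of the targets -/
noncomputable def fromLQ : LKQ A n →+ LQ A n :=
  LKQ.lift (qmk.comp (fromK (A := Lau A)))
    (fromK_map (posHom A) 1 (Or.inl rfl) pol_one)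
    (fromK_map (negHom A) (-1) (Or.inr rfl) pol_neg)

theorem fromLQ_mk (x : FQ.KQ A[T;T⁻¹] n) : fromLQ A n (LKQ.mk x) = qmk (fromK (A := Lau A) x) :=
  rfl

theorem fromLQ_cls (N : ℕ) (z : Cyc (GLm N (Lau A)) n) :
    fromLQ A n (LKQ.mk (FQ.KQ.cls A[T;T⁻¹] n N (toHG z))) = LQ.mk N z :=
  congrArg qmk (fromK_cls (A := Lau A) N z)

theorem toK_rel {y : KQ (Lau A) n} (h : y ∈ lRel A n) :
    LKQ.mk (A := A) (toK (A := Lau A) y) = 0 := by
  obtain ⟨ε, N, z, β, z', hε, hβ, hz, rfl⟩ := h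
  refine (congrArg (LKQ.mk (A := A)) (toK_mk (A := Lau A) N z')).trans ?_
  rcases hε with rfl | rfl
  · have h1 : β = mapGL (A' := Lau A) (posHom A) N := funext fun u => Units.ext
      (Matrix.ext fun i j => (hβ u i j).trans (pol_one _))
    subst h1
    refine (congrArg (LKQ.mk (A := A)) ?_).trans (LKQ.mk_pos (FQ.KQ.cls (Polynomial A) n N (toHG z)))
    exact (congrArg (FQ.KQ.cls (Lau A) n N) (map_toHG (mapGL (A' := Lau A) (posHom A) N)
      hz).symm).trans (FQ.KQ.map_cls (posHom A) N (toHG z)).symm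
  · have h1 : β = mapGL (A' := Lau A) (negHom A) N := funext fun u => Units.ext
      (Matrix.ext fun i j => (hβ u i j).trans (pol_neg _))
    subst h1
    refine (congrArg (LKQ.mk (A := A)) ?_).trans (LKQ.mk_neg (FQ.KQ.cls (Polynomial A) n N (toHG z)))
    exact (congrArg (FQ.KQ.cls (Lau A) n N) (map_toHG (mapGL (A' := Lau A) (negHom A) N)
      hz).symm).trans (FQ.KQ.map_cls (negHom A) N (toHG z)).symm

variable (A n) in
/-- the comparison homomorphism in the other direction -/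
noncomputable def toLQ : LQ A n →+ LKQ A n :=
  QuotientAddGroup.lift _ ((LKQ.mk (A := A)).comp (toK (A := Lau A))) (by
    rw [AddSubgroup.closure_le]
    exact fun y hy => toK_rel hy)

theorem toLQ_fromLQ (x : LKQ A n) : toLQ A n (fromLQ A n x) = x := by
  obtain ⟨x, rfl⟩ := LKQ.mk_surjective x
  rw [fromLQ_mk]
  exact congrArg LKQ.mk (toK_fromK (A := Lau A) x)

end

section

variable {Γ : Type v} [Group Γ] {n : ℕ}

theorem isCyc_iff (c : Ch Γ (n + 1)) : IsCyc Γ (n + 1) c ↔ c ∈ FQ.cyc Γ n := by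
  change bd Γ n c ∈ coi Γ n ↔ FQ.bd ℤ Γ n c ∈ FQ.coi Γ n
  rw [FQS.bd_eq, FQS.mem_coi]

theorem mem_Zn {c : Ch Γ (n + 1)} : c ∈ Zn Γ (n + 1) ↔ c ∈ FQ.cyc Γ n := by
  constructor
  · intro h
    have h1 : Zn Γ (n + 1) ≤ (FQ.cyc Γ n).toAddSubgroup := by
      rw [Zn, AddSubgroup.closure_le]
      exact fun x hx => (isCyc_iff x).1 hx
    exact h1 h
  · exact fun h => AddSubgroup.subset_closure ((isCyc_iff c).2 h)

theorem Hn.mk_surjective (x : Hn Γ (n + 1)) : ∃ z : Cyc Γ n, Hn.mk z.ch z.2 = x := by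
  obtain ⟨⟨c, hc⟩, rfl⟩ := QuotientAddGroup.mk_surjective x
  exact ⟨Cyc.of c (mem_Zn.1 hc), rfl⟩

theorem Hn.mk_eq {c c' : Ch Γ n} {h : IsCyc Γ n c} {h' : IsCyc Γ n c'} :
    Hn.mk c h = Hn.mk c' h' ↔ c - c' ∈ bnd Γ n := by
  refine (QuotientAddGroup.eq_iff_sub_mem).trans ?_
  rfl

theorem Hn.mk_add' {c c' c'' : Ch Γ n} {h : IsCyc Γ n c} {h' : IsCyc Γ n c'}
    {h'' : IsCyc Γ n c''} (e : c'' = c + c') : Hn.mk c'' h'' = Hn.mk c h + Hn.mk c' h' := by
  subst e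
  rfl

theorem Hn.mk_bnd {c : Ch Γ n} {h : IsCyc Γ n c} (hc : c ∈ bnd Γ n) : Hn.mk c h = 0 :=
  (QuotientAddGroup.eq_zero_iff _).2 hc

theorem exists_hnHG : ∃ f : Hn Γ (n + 1) →+ HG Γ n, ∀ z : Cyc Γ n, f (Hn.mk z.ch z.2) = toHG z := by
  choose g hg using Hn.mk_surjective (Γ := Γ) (n := n)
  have h3 : ∀ z z' : Cyc Γ n, Hn.mk z.ch z.2 = Hn.mk z'.ch z'.2 → toHG z = toHG z' :=
    fun z z' h => FQS.toHG_eq_iff.2 (Hn.mk_eq.1 h)
  refine ⟨AddMonoidHom.mk' (fun x => toHG (g x)) fun x y => ?_, fun z => h3 _ _ (hg _)⟩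
  rw [← toHG_add (z'' := Cyc.of ((g x).ch + (g y).ch) (Submodule.add_mem _ (g x).mem (g y).mem))
    rfl]
  apply h3
  rw [hg]
  refine Eq.trans (congrArg₂ (· + ·) (hg x).symm (hg y).symm) ?_
  rfl

/-- the comparison homomorphism of the homology groups -/
noncomputable def hnHG : Hn Γ (n + 1) →+ HG Γ n := (exists_hnHG (Γ := Γ) (n := n)).choose

theorem hnHG_mk (z : Cyc Γ n) : hnHG (Hn.mk z.ch z.2) = toHG z :=
  (exists_hnHG (Γ := Γ) (n := n)).choose_spec z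

theorem exists_hgHn : ∃ f : HG Γ n →+ Hn Γ (n + 1), ∀ z : Cyc Γ n, f (toHG z) = Hn.mk z.ch z.2 :=
  FQS.exists_lift (fun z => Hn.mk z.ch z.2) (fun z z' z'' h => Hn.mk_add' h)
    fun z h => Hn.mk_bnd h

/-- the comparison homomorphism in the other direction -/
noncomputable def hgHn : HG Γ n →+ Hn Γ (n + 1) := (exists_hgHn (Γ := Γ) (n := n)).choose

theorem hgHn_toHG (z : Cyc Γ n) : hgHn (toHG z) = Hn.mk z.ch z.2 :=
  (exists_hgHn (Γ := Γ) (n := n)).choose_spec z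

theorem hgHn_hnHG (x : Hn Γ (n + 1)) : hgHn (hnHG x) = x := by
  obtain ⟨z, rfl⟩ := Hn.mk_surjective x
  rw [hnHG_mk, hgHn_toHG]

theorem hnHG_hgHn (x : HG Γ n) : hnHG (hgHn x) = x := by
  obtain ⟨z, rfl⟩ := toHG_surjective x
  rw [hgHn_toHG, hnHG_mk]

theorem psepA_of {p : ℕ} (h : LSep p Γ (n + 1)) : PSepA p (HG Γ n) := by
  intro x hx
  obtain ⟨m, hm, h1⟩ := h (hgHn x) fun f hf => hx (f.comp hgHn) fun y => hf _
  refine ⟨m.natAbs, Int.natAbs_ne_zero.2 hm, ?_⟩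
  have h2 : m • x = 0 := by
    rw [← hnHG_hgHn (m • x), map_zsmul hgHn, h1, map_zero]
  rcases Int.natAbs_eq m with h3 | h3
  · rw [h3, natCast_zsmul] at h2
    exact h2
  · rw [h3, neg_smul, natCast_zsmul, neg_eq_zero] at h2
    exact h2

end

section

variable {Γ : Type v} [Group Γ]

/-- the comparison of `H_0` with `ℤ` -/
theorem exists_hnZ : ∃ f : Hn Γ 0 →+ ℤ, ∀ (c : Ch Γ 0) (h : IsCyc Γ 0 c), f (Hn.mk c h) = aug Γ c :=
  ⟨QuotientAddGroup.lift _ ((aug Γ).comp (Zn Γ 0).subtype) fun x hx => aug_bnd hx,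
    fun _ _ => rfl⟩

/-- the comparison of `H_0` with `ℤ` -/
noncomputable def hnZ : Hn Γ 0 →+ ℤ := (exists_hnZ (Γ := Γ)).choose

theorem hnZ_mk (c : Ch Γ 0) (h : IsCyc Γ 0 c) : hnZ (Hn.mk c h) = aug Γ c :=
  (exists_hnZ (Γ := Γ)).choose_spec c h

/-- the class of the base point -/
noncomputable def ptH (Γ : Type v) [Group Γ] : Hn Γ 0 :=
  Hn.mk (Finsupp.single (fun _ => 1) 1) trivial

theorem smul_hnZ (x : Hn Γ 0) : hnZ x • ptH Γ = x := by
  obtain ⟨⟨c, hc⟩, rfl⟩ := QuotientAddGroup.mk_surjective x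
  have hz : IsCyc Γ 0 c := trivial
  have hp : IsCyc Γ 0 (aug Γ c • (Finsupp.single (fun _ => 1) 1 : Ch Γ 0)) := trivial
  have h1 : aug Γ c • ptH Γ = Hn.mk _ hp := rfl
  have h2 : Hn.mk _ hp = Hn.mk c hz := Hn.mk_eq.2 (by
    rw [← neg_sub]
    exact AddSubgroup.neg_mem _ (sub_aug_mem c))
  exact (congrArg (· • ptH Γ) (hnZ_mk c hz)).trans (h1.trans h2)

end

end Pool.Agent.H71.FQ3
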