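import Pool.Agent.H71.FQ.LocH
import Pool.Agent.H71.FQ.KQ

/-!
# Project FQ: classes of `KQ A n` which die over a larger ring

A class of `KQ A' n` which dies in `KQ A n` dies in `KQ A'' n` for every ring `A''` between `A'` and `A` which
contains a finite set.
-/

set_option autoImplicit false

open Matrix

universe u v w w'

namespace Pool.Agent.H71.FQ

section

variable {A : Type u} [Ring A] {A' : Type v} [Ring A'] {n : ℕ}

theorem mapGL_injective {f : A' →+* A} (hf : Function.Injective f) (N : ℕ) :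
    Function.Injective (mapGL f N) := by
  intro X Y h
  have h1 : (mapGL f N X).val = (mapGL f N Y).val := by rw [h]
  rw [mapGL_val, mapGL_val] at h1
  apply Units.ext
  refine Matrix.ext fun i j => hf ?_
  have h2 := congrFun (congrFun h1 i) j
  rw [Matrix.map_apply, Matrix.map_apply] at h2
  exact h2

theorem mapGL_comp {A'' : Type w} [Ring A''] (f : A' →+* A) (g : A →+* A'') (N : ℕ) :
    (mapGL g N).comp (mapGL f N) = mapGL (g.comp f) N := rfl

theorem exists_mapGL {N : ℕ} (X : GLm N A) : ∃ S : Finset A, ∀ {A' : Type w} [Ring A']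
    (f : A' →+* A), Function.Injective f → (∀ s ∈ S, s ∈ Set.range f) →
      X ∈ Set.range (mapGL f N) := by
  classical
  refine ⟨(Finset.univ.image fun p : Fin N × Fin N => X.val p.1 p.2) ∪
    (Finset.univ.image fun p : Fin N × Fin N => X.inv p.1 p.2), ?_⟩
  intro A' _ f hf hS
  have h1 : ∀ i j, ∃ a, f a = X.val i j := fun i j =>
    hS _ (Finset.mem_union_left _ (Finset.mem_image.2 ⟨(i, j), Finset.mem_univ _, rfl⟩))
  have h2 : ∀ i j, ∃ a, f a = X.inv i j := fun i j =>
    hS _ (Finset.mem_union_right _ (Finset.mem_image.2 ⟨(i, j), Finset.mem_univ _, rfl⟩))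
  choose V hV using h1
  choose W hW using h2
  have e1 : (Matrix.of V).map f = X.val := Matrix.ext hV
  have e2 : (Matrix.of W).map f = X.inv := Matrix.ext hW
  have hinj : Function.Injective fun M : Matrix (Fin N) (Fin N) A' => M.map f := by
    intro M M' h
    refine Matrix.ext fun i j => hf ?_
    exact congrFun (congrFun h i) j
  have hone : (1 : Matrix (Fin N) (Fin N) A').map f = 1 :=
    Matrix.map_one f (map_zero f) (map_one f)
  refine ⟨⟨Matrix.of V, Matrix.of W, ?_, ?_⟩, ?_⟩
  · apply hinj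
    change (Matrix.of V * Matrix.of W).map f = (1 : Matrix (Fin N) (Fin N) A').map f
    rw [Matrix.map_mul, e1, e2, hone]
    exact X.val_inv
  · apply hinj
    change (Matrix.of W * Matrix.of V).map f = (1 : Matrix (Fin N) (Fin N) A').map f
    rw [Matrix.map_mul, e1, e2, hone]
    exact X.inv_val
  · exact Units.ext e1

theorem exists_mapGL_finset {N : ℕ} (T : Finset (GLm N A)) :
    ∃ S : Finset A, ∀ {A' : Type w} [Ring A'] (f : A' →+* A), Function.Injective f →
      (∀ s ∈ S, s ∈ Set.range f) → ∀ X ∈ T, X ∈ Set.range (mapGL f N) := by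
  classical
  choose S hS using fun X : GLm N A => exists_mapGL.{u, w} X
  refine ⟨T.biUnion S, ?_⟩
  intro A' _ f hf h X hX
  exact hS X f hf fun s hs => h s (Finset.mem_biUnion.2 ⟨X, hX, hs⟩)

/-- the homomorphism on pairs of matrices -/
def mapGL2 (f : A' →+* A) (N M : ℕ) : GLm N A' × GLm M A' →* GLm N A × GLm M A :=
  (mapGL f N).prodMap (mapGL f M)

theorem mapGL2_injective {f : A' →+* A} (hf : Function.Injective f) (N M : ℕ) :
    Function.Injective (mapGL2 f N M) :=
  (mapGL_injective hf N).prodMap (mapGL_injective hf M)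

theorem exists_mapGL2_finset {N M : ℕ} (T : Finset (GLm N A × GLm M A)) :
    ∃ S : Finset A, ∀ {A' : Type w} [Ring A'] (f : A' →+* A), Function.Injective f →
      (∀ s ∈ S, s ∈ Set.range f) → ∀ X ∈ T, X ∈ Set.range (mapGL2 f N M) := by
  classical
  obtain ⟨S1, h1⟩ := exists_mapGL_finset.{u, w} (T.image Prod.fst)
  obtain ⟨S2, h2⟩ := exists_mapGL_finset.{u, w} (T.image Prod.snd)
  refine ⟨S1 ∪ S2, ?_⟩
  intro A' _ f hf h X hX
  obtain ⟨Y, hY⟩ := h1 f hf (fun s hs => h s (Finset.mem_union_left _ hs)) X.1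
    (Finset.mem_image_of_mem _ hX)
  obtain ⟨Z, hZ⟩ := h2 f hf (fun s hs => h s (Finset.mem_union_right _ hs)) X.2
    (Finset.mem_image_of_mem _ hX)
  exact ⟨(Y, Z), Prod.ext hY hZ⟩

variable (n) in
/-- Functoriality of the sum of the homology groups. -/
noncomputable def SumH.map (f : A' →+* A) : SumH A' n →+ SumH A n :=
  liftS fun N => (incH A n N).comp (HG.map n (mapGL f N))

theorem SumH.map_incH (f : A' →+* A) (N : ℕ) (x : HG (GLm N A') n) :
    SumH.map n f (incH A' n N x) = incH A n N (HG.map n (mapGL f N) x) :=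
  liftS_incH _ N x

theorem SumH.hom_ext {M : Type w} [AddCommGroup M] {f g : SumH A n →+ M}
    (h : ∀ N x, f (incH A n N x) = g (incH A n N x)) : f = g :=
  DirectSum.addHom_ext fun N x => h N x

theorem SumH.map_map {A'' : Type w} [Ring A''] (f : A' →+* A) (g : A →+* A'') (s : SumH A' n) :
    SumH.map n g (SumH.map n f s) = SumH.map n (g.comp f) s := by
  have h : (SumH.map n g).comp (SumH.map n f) = SumH.map n (g.comp f) := by
    refine SumH.hom_ext fun N x => ?_
    rw [AddMonoidHom.comp_apply, SumH.map_incH, SumH.map_incH, SumH.map_incH, HG.map_map,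
      mapGL_comp]
  exact DFunLike.congr_fun h s

variable (A n) in
/-- the class of an element of the sum -/
noncomputable def KQ.mk : SumH A n →+ KQ A n := QuotientAddGroup.mk' (blkRel A n)

theorem KQ.mk_surjective (y : KQ A n) : ∃ s, KQ.mk A n s = y :=
  QuotientAddGroup.mk'_surjective (blkRel A n) y

theorem KQ.mk_eq_zero (s : SumH A n) : KQ.mk A n s = 0 ↔ s ∈ blkRel A n :=
  QuotientAddGroup.eq_zero_iff s

theorem KQ.map_mk (f : A' →+* A) (s : SumH A' n) :
    KQ.map f (KQ.mk A' n s) = KQ.mk A n (SumH.map n f s) := by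
  have h : (KQ.map f).comp (KQ.mk A' n) = (KQ.mk A n).comp (SumH.map n f) := by
    refine SumH.hom_ext fun N x => ?_
    rw [AddMonoidHom.comp_apply, AddMonoidHom.comp_apply, SumH.map_incH]
    exact KQ.map_cls f N x
  exact DFunLike.congr_fun h s

variable (A n) in
/-- the component of an element of the sum -/
noncomputable def prS (N : ℕ) : SumH A n →+ HG (GLm N A) n :=
  DFinsupp.evalAddMonoidHom (β := fun N => HG (GLm N A) n) N

theorem prS_incH (N : ℕ) (x : HG (GLm N A) n) : prS A n N (incH A n N x) = x :=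
  DirectSum.of_eq_same (β := fun N => HG (GLm N A) n) N x

theorem prS_incH_ne {N M : ℕ} (h : M ≠ N) (x : HG (GLm M A) n) : prS A n N (incH A n M x) = 0 :=
  DirectSum.of_eq_of_ne (β := fun N => HG (GLm N A) n) _ _ _ h.symm

theorem prS_map (f : A' →+* A) (N : ℕ) (s : SumH A' n) :
    prS A n N (SumH.map n f s) = HG.map n (mapGL f N) (prS A' n N s) := by
  have h : (prS A n N).comp (SumH.map n f) = (HG.map n (mapGL f N)).comp (prS A' n N) := by
    refine SumH.hom_ext fun M x => ?_
    rw [AddMonoidHom.comp_apply, AddMonoidHom.comp_apply, SumH.map_incH]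
    by_cases hM : M = N
    · subst hM
      rw [prS_incH, prS_incH]
    · rw [prS_incH_ne hM, prS_incH_ne hM, map_zero]
  exact DFunLike.congr_fun h s

theorem exists_sum (s : SumH A n) : ∃ T : Finset ℕ, s = ∑ N ∈ T, incH A n N (prS A n N s) := by
  classical
  exact ⟨DFinsupp.support s, (DirectSum.sum_support_of s).symm⟩

theorem exists_zero_sum (f : A' →+* A) (s : SumH A' n) (hs : SumH.map n f s = 0) :
    ∃ S : Finset A, ∀ {A'' : Type w} [Ring A''] (g : A'' →+* A) (k : A' →+* A''),
      Function.Injective g → g.comp k = f → (∀ a ∈ S, a ∈ Set.range g) →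
        SumH.map n k s = 0 := by
  classical
  obtain ⟨T, hT⟩ := exists_sum s
  have h1 : ∀ N, HG.map n (mapGL f N) (prS A' n N s) = 0 := by
    intro N
    rw [← prS_map, hs, map_zero]
  choose S0 h2 using fun N => HG.exists_zero.{u, v, w} (mapGL f N) (prS A' n N s) (h1 N)
  choose S1 h3 using fun N => exists_mapGL_finset.{u, w} (S0 N)
  refine ⟨T.biUnion S1, ?_⟩
  intro A'' _ g k hg hgk h
  rw [hT, map_sum]
  refine Finset.sum_eq_zero fun N hN => ?_
  rw [SumH.map_incH, h2 N (mapGL g N) (mapGL k N) (mapGL_injective hg N)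
    (by rw [mapGL_comp, hgk]) (h3 N g hg fun a ha => h a (Finset.mem_biUnion.2 ⟨N, hN, ha⟩)),
    map_zero]

theorem exists_lift_rel (u : SumH A n) (hu : u ∈ blkRel A n) :
    ∃ S : Finset A, ∀ {A'' : Type w} [Ring A''] (g : A'' →+* A),
      Function.Injective g → (∀ a ∈ S, a ∈ Set.range g) →
        ∃ u' ∈ blkRel A'' n, SumH.map n g u' = u := by
  classical
  rw [blkRel] at hu
  induction hu using AddSubgroup.closure_induction with
  | mem y hy =>
    obtain ⟨N, M, w, rfl⟩ := hy
    obtain ⟨S0, h0⟩ := HG.exists_lift'.{u, w} w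
    obtain ⟨S1, h1⟩ := exists_mapGL2_finset.{u, w} S0
    refine ⟨S1, ?_⟩
    intro A'' _ g hg h
    obtain ⟨w', hw'⟩ := h0 (mapGL2 g N M) (mapGL2_injective hg N M) (h1 g hg h)
    refine ⟨_, AddSubgroup.subset_closure ⟨N, M, w', rfl⟩, ?_⟩
    rw [map_sub, map_add, SumH.map_incH, SumH.map_incH, SumH.map_incH, HG.map_map, HG.map_map,
      HG.map_map, ← hw', HG.map_map, HG.map_map, HG.map_map, mapGL_comp_blk]
    rfl
  | zero =>
    refine ⟨∅, ?_⟩
    intro A'' _ g hg h
    exact ⟨0, AddSubgroup.zero_mem _, map_zero _⟩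
  | add x y _ _ hx hy =>
    obtain ⟨S1, h1⟩ := hx
    obtain ⟨S2, h2⟩ := hy
    refine ⟨S1 ∪ S2, ?_⟩
    intro A'' _ g hg h
    obtain ⟨a, ha, ea⟩ := h1 g hg fun s hs => h s (Finset.mem_union_left _ hs)
    obtain ⟨b, hb, eb⟩ := h2 g hg fun s hs => h s (Finset.mem_union_right _ hs)
    exact ⟨a + b, AddSubgroup.add_mem _ ha hb, by rw [map_add, ea, eb]⟩
  | neg x _ hx =>
    obtain ⟨S1, h1⟩ := hx
    refine ⟨S1, ?_⟩
    intro A'' _ g hg h
    obtain ⟨a, ha, ea⟩ := h1 g hg h
    exact ⟨-a, AddSubgroup.neg_mem _ ha, by rw [map_neg, ea]⟩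

/-- the factorization of the inclusion of a subring through an injective homomorphism whose range contains it -/
theorem exists_factor {A'' : Type w} [Ring A''] (g : A'' →+* A) (hg : Function.Injective g)
    (B : Subring A) (hB : B ≤ g.range) : ∃ k : B →+* A'', g.comp k = B.subtype := by
  let e : A'' ≃+* g.range := RingEquiv.ofBijective g.rangeRestrict
    ⟨fun x y h => hg (congrArg Subtype.val h), g.rangeRestrict_surjective⟩
  refine ⟨(e.symm : g.range →+* A'').comp (Subring.inclusion hB), ?_⟩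
  refine RingHom.ext fun b => ?_
  have h1 : e (e.symm (Subring.inclusion hB b)) = Subring.inclusion hB b := e.apply_symm_apply _
  exact congrArg Subtype.val h1

/-- **A class of `KQ A' n` which dies in `KQ A n` dies over the rings which contain a finite set.** -/
theorem KQ.exists_zero (f : A' →+* A) (y : KQ A' n) (hy : KQ.map f y = 0) :
    ∃ S : Finset A, ∀ {A'' : Type w} [Ring A''] (g : A'' →+* A) (k : A' →+* A''),
      Function.Injective g → g.comp k = f → (∀ a ∈ S, a ∈ Set.range g) →
        KQ.map k y = 0 := by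
  classical
  obtain ⟨s, rfl⟩ := KQ.mk_surjective y
  rw [KQ.map_mk, KQ.mk_eq_zero] at hy
  have hu : SumH.map n f s ∈ blkRel A n := hy
  obtain ⟨S1, h1⟩ := exists_lift_rel.{u, u} _ hu
  let B : Subring A := Subring.closure (Set.range f ∪ (S1 : Set A))
  have hfB : ∀ a, f a ∈ B := fun a => Subring.subset_closure (Or.inl ⟨a, rfl⟩)
  let f1 : A' →+* B := f.codRestrict B hfB
  have hf1 : B.subtype.comp f1 = f := RingHom.ext fun a => rfl
  obtain ⟨u1, hu1, e1⟩ := h1 B.subtype Subtype.val_injective fun a ha =>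
    ⟨⟨a, Subring.subset_closure (Or.inr ha)⟩, rfl⟩
  have h2 : SumH.map n B.subtype (SumH.map n f1 s - u1) = 0 := by
    rw [map_sub, SumH.map_map, hf1, e1, sub_self]
  obtain ⟨S2, h3⟩ := exists_zero_sum.{u, u, w} B.subtype _ h2
  refine ⟨S1 ∪ S2, ?_⟩
  intro A'' _ g k hg hgk h
  have hB : B ≤ g.range := by
    rw [Subring.closure_le]
    rintro a (⟨b, rfl⟩ | ha)
    · exact ⟨k b, RingHom.congr_fun hgk b⟩
    · exact h a (Finset.mem_union_left _ ha)
  obtain ⟨k1, hk1⟩ := exists_factor g hg B hB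
  have h4 := h3 g k1 hg hk1 fun a ha => h a (Finset.mem_union_right _ ha)
  have h5 : k1.comp f1 = k := by
    refine RingHom.ext fun a => hg ?_
    have h6 := RingHom.congr_fun hk1 (f1 a)
    have h7 := RingHom.congr_fun hgk a
    exact h6.trans h7.symm
  rw [map_sub, SumH.map_map, h5, sub_eq_zero] at h4
  rw [KQ.map_mk, h4, ← KQ.map_mk, (KQ.mk_eq_zero u1).2 hu1, map_zero]

end

end Pool.Agent.H71.FQ
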