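import Pool.Agent.H71.FQ.MorC

/-!
# Project FQ, Morita invariance, part D: the theorems

`ratInj_of_retract`, `ratInj_matrix`, `ratInj_finExt`.
-/

set_option autoImplicit false

open Matrix
open scoped TensorProduct

universe u v w

namespace Pool.Agent.H71.FQ

open Pool.Agent.H71.FJ (MatEquiv IdemMat K0 K0.mk K0.lift K0.lift_mk K0.hom_ext K0.map K0.flat
  K0.flat_mul K0.push K0.push_mk K0.cls K0.cls_congr K0.cls_fromBlocks K0.flat_idem
  K0.fromBlocks_idem K0.matEquiv_submatrix K0.mk_eq_cls K0.push_congr K0.map_push K0.push_map)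
open Pool.Agent.H95.WH (FamSub conjHom FinSub)

section

variable {R : Type u} [Ring R] {R' : Type w} [Ring R'] {G : Type v} [Group G]

theorem thM_retract {m : ℕ} (ι : R →+* R') (ρ : R' →+* Matrix (Fin m) (Fin m) R)
    (h : ∀ a, ρ (ι a) = Matrix.scalar (Fin m) a) (F : Type v) [Group F] :
    (thM ρ F).comp (MonoidAlgebra.mapRingHom F ι) = Matrix.scalar (Fin m) := by
  apply RingHom.ext
  intro x
  rw [RingHom.comp_apply]
  induction x using MonoidAlgebra.induction_linear with
  | zero => rw [map_zero, map_zero, map_zero]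
  | add a b ha hb => rw [map_add, map_add, ha, hb, map_add]
  | single g a =>
    rw [MonoidAlgebra.mapRingHom_single, thM_single, h, Matrix.scalar_apply, Matrix.scalar_apply]
    refine Matrix.ext fun i j => ?_
    rw [Matrix.map_apply, Matrix.diagonal_apply, Matrix.diagonal_apply]
    by_cases hij : i = j
    · rw [if_pos hij, if_pos hij]
    · rw [if_neg hij, if_neg hij]
      exact MonoidAlgebra.single_zero _

/-- **Retracts up to multiplicity.** -/
theorem ratInj_of_retract {n : ℕ} (m : ℕ) (hm : 0 < m) (ι : R →+* R')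
    (ρ : R' →+* Matrix (Fin m) (Fin m) R) (h : ∀ a, ρ (ι a) = Matrix.scalar (Fin m) a)
    (h' : RatInj (assemblyN R' n G)) : RatInj (assemblyN R n G) :=
  ratInj_of_one n (NatK0.ofHom G ι) (NatK0.ofMat ρ G) (c := m) hm.ne'
    (fun F x => by
      rw [NatK0.ofMat_app, NatK0.ofHom_app, K0.push_map, thM_retract ι ρ h, push_scalar])
    (KQ.map (MonoidAlgebra.mapRingHom G ι)) (NatK0.ofHom_asm ι) h'

/-- the flip of the two factors of `Mat_r(Mat_r(R)[F])` -/
noncomputable def flipM (R : Type u) [Ring R] (r : ℕ) (F : Type v) [Group F] :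
    Matrix (Fin r) (Fin r) (MonoidAlgebra (Matrix (Fin r) (Fin r) R) F) :=
  Matrix.of fun i j => MonoidAlgebra.single 1 (Matrix.single j i 1)

theorem sum_single_one {S : Type u} [Ring S] {F : Type v} [Group F] {κ : Type*} (s : Finset κ)
    (a : κ → S) : ∑ j ∈ s, (MonoidAlgebra.single (1 : F) (a j) : MonoidAlgebra S F) =
      MonoidAlgebra.single 1 (∑ j ∈ s, a j) :=
  (map_sum (MonoidAlgebra.singleOneRingHom : S →+* MonoidAlgebra S F) a s).symm

theorem sum_single_diag (R : Type u) [Ring R] (r : ℕ) :
    ∑ j : Fin r, Matrix.single j j (1 : R) = 1 := by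
  refine Matrix.ext fun a b => ?_
  rw [Matrix.sum_apply]
  by_cases hab : a = b
  · subst hab
    rw [Matrix.one_apply_eq, Finset.sum_eq_single a]
    · exact Matrix.single_apply_same _ _ _
    · intro j _ hj
      exact Matrix.single_apply_of_ne _ _ _ _ _ (fun h => hj h.1)
    · intro h
      exact absurd (Finset.mem_univ _) h
  · rw [Matrix.one_apply_ne hab]
    refine Finset.sum_eq_zero fun j _ => ?_
    exact Matrix.single_apply_of_ne _ _ _ _ _ (fun h => hab (h.1.symm.trans h.2))

theorem flipM_mul (r : ℕ) (F : Type v) [Group F] : flipM R r F * flipM R r F = 1 := by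
  refine Matrix.ext fun i k => ?_
  rw [Matrix.mul_apply]
  have h1 : ∀ j, flipM R r F i j * flipM R r F j k =
      MonoidAlgebra.single 1 (Matrix.single j i (1 : R) * Matrix.single k j (1 : R)) := by
    intro j
    have h2 : flipM R r F i j * flipM R r F j k = MonoidAlgebra.single 1 (Matrix.single j i (1 : R)) *
      MonoidAlgebra.single 1 (Matrix.single k j (1 : R)) := rfl
    rw [h2, MonoidAlgebra.single_mul_single, one_mul]
  rw [Finset.sum_congr rfl fun j _ => h1 j, sum_single_one]
  by_cases hik : i = k
  · subst hik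
    have h3 : ∀ j : Fin r, Matrix.single j i (1 : R) * Matrix.single i j (1 : R) =
        Matrix.single j j 1 := by
      intro j
      rw [Matrix.single_mul_single_same, one_mul]
    rw [Finset.sum_congr rfl fun j _ => h3 j, sum_single_diag, Matrix.one_apply_eq]
    rfl
  · have h3 : ∀ j : Fin r, Matrix.single j i (1 : R) * Matrix.single k j (1 : R) = 0 := by
      intro j
      exact Matrix.single_mul_single_of_ne _ _ _ _ hik _
    rw [Finset.sum_congr rfl fun j _ => h3 j, Finset.sum_const_zero, Matrix.one_apply_ne hik]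
    exact MonoidAlgebra.single_zero _

/-- the flip conjugates the two embeddings -/
theorem flipM_comm (r : ℕ) (F : Type v) [Group F] (s : MonoidAlgebra (Matrix (Fin r) (Fin r) R) F) :
    flipM R r F * Matrix.scalar (Fin r) s =
      ((MonoidAlgebra.mapRingHom F (Matrix.scalar (Fin r) : R →+* Matrix (Fin r) (Fin r) R)).mapMatrix.comp
        (thM (RingHom.id (Matrix (Fin r) (Fin r) R)) F)) s * flipM R r F := by
  induction s using MonoidAlgebra.induction_linear with
  | zero => rw [map_zero, map_zero, mul_zero, zero_mul]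
  | add a b ha hb => rw [map_add, map_add, mul_add, add_mul, ha, hb]
  | single g X =>
    refine Matrix.ext fun i j => ?_
    have h1 : (flipM R r F * Matrix.scalar (Fin r) (MonoidAlgebra.single g X)) i j =
        MonoidAlgebra.single g (Matrix.single j i (1 : R) * X) := by
      have h2 : (flipM R r F * Matrix.scalar (Fin r) (MonoidAlgebra.single g X)) i j =
          MonoidAlgebra.single 1 (Matrix.single j i (1 : R)) * MonoidAlgebra.single g X :=
        Matrix.mul_diagonal _ _ _ _
      rw [h2, MonoidAlgebra.single_mul_single, one_mul]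
    rw [h1, RingHom.comp_apply, thM_single, Matrix.mul_apply]
    have h3 : ∀ k, ((MonoidAlgebra.mapRingHom F
        (Matrix.scalar (Fin r) : R →+* Matrix (Fin r) (Fin r) R)).mapMatrix
          (((RingHom.id (Matrix (Fin r) (Fin r) R)) X).map fun b => MonoidAlgebra.single g b)) i k *
            flipM R r F k j =
        MonoidAlgebra.single g (Matrix.scalar (Fin r) (X i k) * Matrix.single j k (1 : R)) := by
      intro k
      have h4 : ((MonoidAlgebra.mapRingHom F
        (Matrix.scalar (Fin r) : R →+* Matrix (Fin r) (Fin r) R)).mapMatrix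
          (((RingHom.id (Matrix (Fin r) (Fin r) R)) X).map fun b => MonoidAlgebra.single g b)) i k =
          MonoidAlgebra.mapRingHom F
            (Matrix.scalar (Fin r) : R →+* Matrix (Fin r) (Fin r) R)
            (MonoidAlgebra.single g (X i k)) := rfl
      have h5 : flipM R r F k j = MonoidAlgebra.single 1 (Matrix.single j k (1 : R)) := rfl
      rw [h4, h5, MonoidAlgebra.mapRingHom_single, MonoidAlgebra.single_mul_single, mul_one]
    rw [Finset.sum_congr rfl fun k _ => h3 k]
    have h6 : ∀ (a : Fin r → Matrix (Fin r) (Fin r) R),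
        ∑ k, (MonoidAlgebra.single g (a k) : MonoidAlgebra (Matrix (Fin r) (Fin r) R) F) =
          MonoidAlgebra.single g (∑ k, a k) := by
      intro a
      exact (map_sum (MonoidAlgebra.singleAddHom g) a Finset.univ).symm
    rw [h6]
    congr 1
    refine Matrix.ext fun a b => ?_
    rw [Matrix.sum_apply]
    have h7 : ∀ k, (Matrix.scalar (Fin r) (X i k) * Matrix.single j k (1 : R)) a b =
        if j = a ∧ k = b then X i k else 0 := by
      intro k
      rw [Matrix.scalar_apply, Matrix.diagonal_mul, Matrix.single_apply]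
      split_ifs
      · rw [mul_one]
      · rw [mul_zero]
    rw [Finset.sum_congr rfl fun k _ => h7 k]
    by_cases hja : j = a
    · subst hja
      rw [Finset.sum_eq_single b]
      · simp
      · intro k _ hk
        rw [if_neg (fun h => hk h.2)]
      · intro h
        exact absurd (Finset.mem_univ _) h
    · rw [Matrix.single_mul_apply_of_ne _ _ _ _ _ (Ne.symm hja)]
      refine (Finset.sum_eq_zero fun k _ => ?_).symm
      rw [if_neg (fun h => hja h.1)]

/-- **Matrix rings.** -/
theorem ratInj_matrix {n : ℕ} (r : ℕ) (hr : 0 < r) (h : RatInj (assemblyN R n G)) :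
    RatInj (assemblyN (Matrix (Fin r) (Fin r) R) n G) :=
  ratInj_of_one n (NatK0.ofMat (RingHom.id (Matrix (Fin r) (Fin r) R)) G)
    (NatK0.ofHom G (Matrix.scalar (Fin r))) (c := r) hr.ne'
    (fun F x => by
      rw [NatK0.ofMat_app, NatK0.ofHom_app, K0.map_push,
        K0.push_congr _ (Matrix.scalar (Fin r)) (flipM R r F.1) (flipM R r F.1)
          (flipM_mul r F.1) (flipM_mul r F.1) (flipM_comm r F.1), push_scalar])
    (KQ.push (thM (RingHom.id (Matrix (Fin r) (Fin r) R)) G)) (NatK0.ofMat_asm _) h

end

section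

variable (k : Type u) [CommRing k] (L : Type v) [CommRing L] [Algebra k L] (A : Type w) [Ring A]
  [Algebra k A]

/-- the action of `L ⊗ A` on `L ⊗ A`, a free module over `A` -/
noncomputable def extMat {m : ℕ} (b : Module.Basis (Fin m) k L) :
    L ⊗[k] A →ₐ[k] Matrix (Fin m) (Fin m) A :=
  Algebra.TensorProduct.lift
    (((Algebra.ofId k A).mapMatrix).comp (Algebra.leftMulMatrix b))
    (Matrix.scalarAlgHom (Fin m) k)
    (fun x a => by
      rw [Commute, SemiconjBy, AlgHom.comp_apply, Matrix.scalarAlgHom_apply]
      refine Matrix.ext fun i j => ?_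
      rw [Matrix.scalar_apply, Matrix.mul_diagonal, Matrix.diagonal_mul]
      exact Algebra.commutes _ _)

theorem extMat_tmul {m : ℕ} (b : Module.Basis (Fin m) k L) (a : A) :
    extMat k L A b ((1 : L) ⊗ₜ[k] a) = Matrix.scalar (Fin m) a := by
  rw [extMat, Algebra.TensorProduct.lift_tmul, map_one, one_mul, Matrix.scalarAlgHom_apply]

end

/-- **Finite extensions of the ground field.** -/
theorem ratInj_finExt {n : ℕ} {G : Type w} [Group G] (k : Type u) [Field k] (L : Type v) [Field L]
    [Algebra k L] [Module.Finite k L] (A : Type u) [Ring A] [Algebra k A]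
    (h : RatInj (assemblyN (L ⊗[k] A) n G)) : RatInj (assemblyN A n G) :=
  ratInj_of_retract (Module.finrank k L) Module.finrank_pos
    (Algebra.TensorProduct.includeRight : A →ₐ[k] L ⊗[k] A).toRingHom
    (extMat k L A (Module.finBasis k L)).toRingHom
    (fun a => extMat_tmul k L A (Module.finBasis k L) a) h

end Pool.Agent.H71.FQ
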