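import Pool.Agent.H71.FQ.Fun

/-!
# Project FQ: finite products of rings

A homomorphism `f : R → S` of rings without unit induces `k0n f : K₀(R) → K₀(S)`, `[e] ↦ [f(e)]`. For a finite product of
rings the projections and the inclusions of the factors decompose `K₀` of the group rings: `e = ∑ e_i` with pairwise
orthogonal idempotent matrices `e_i`, and `[e + f] = [e] + [f]` if `e f = f e = 0`.
-/

set_option autoImplicit false

open Matrix

universe u u' v w

namespace Pool.Agent.H71.FQ

open Pool.Agent.H71.FJ (MatEquiv IdemMat K0 K0.mk K0.map K0.lift K0.lift_mk K0.hom_ext K0.mk_sum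
  K0.mk_eq_of_equiv K0.map_mk' K0.mk_eq_cls K0.cls_congr K0.cls_fromBlocks K0.fromBlocks_idem)
open Pool.Agent.H95.WH (FamSub conjHom FinSub)

section Nonunital

variable {R : Type*} [Ring R] {S : Type*} [Ring S]

theorem nmap_mul (f : R →ₙ+* S) {ι κ l : Type*} [Fintype κ] (x : Matrix ι κ R)
    (y : Matrix κ l R) : (x * y).map f = x.map f * y.map f := by
  ext i j
  simp only [Matrix.map_apply, Matrix.mul_apply, map_sum, map_mul]

/-- The image of an idempotent matrix under a homomorphism of rings without unit. -/
def nidem (f : R →ₙ+* S) (a : IdemMat R) : IdemMat S where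
  n := a.n
  mat := a.mat.map f
  idem := by rw [← nmap_mul, a.idem]

theorem nidem_sum (f : R →ₙ+* S) (a b : IdemMat R) :
    nidem f (a.sum b) = (nidem f a).sum (nidem f b) := by
  have h1 : (a.sum b).mat.map f = ((nidem f a).sum (nidem f b)).mat := by
    change ((fromBlocks a.mat 0 0 b.mat).submatrix finSumFinEquiv.symm
      finSumFinEquiv.symm).map f = (fromBlocks (a.mat.map f) 0 0 (b.mat.map f)).submatrix
        finSumFinEquiv.symm finSumFinEquiv.symm
    rw [← Matrix.submatrix_map, Matrix.fromBlocks_map]
    simp only [Matrix.map_zero _ (map_zero f)]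
  unfold nidem
  simp only [h1]
  rfl

theorem nequiv (f : R →ₙ+* S) {ι κ : Type*} [Fintype ι] [Fintype κ] {e : Matrix ι ι R}
    {g : Matrix κ κ R} (h : MatEquiv e g) : MatEquiv (e.map f) (g.map f) := by
  obtain ⟨x, y, h1, h2⟩ := h
  exact ⟨x.map f, y.map f, by rw [← nmap_mul, h1], by rw [← nmap_mul, h2]⟩

/-- The homomorphism `K₀(R) → K₀(S)` of a homomorphism of rings without unit. -/
noncomputable def k0n (f : R →ₙ+* S) : K0 R →+ K0 S :=
  K0.lift (fun a => K0.mk (nidem f a))
    (fun a b h => K0.mk_eq_of_equiv (nequiv f h))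
    (fun a b => by rw [nidem_sum, K0.mk_sum])

theorem k0n_mk (f : R →ₙ+* S) (a : IdemMat R) : k0n f (K0.mk a) = K0.mk (nidem f a) :=
  K0.lift_mk _ _ _ a

theorem k0n_square {R' : Type*} [Ring R'] {S' : Type*} [Ring S'] (f : R →ₙ+* S) (g : R →+* R')
    (f' : R' →ₙ+* S') (g' : S →+* S') (h : ∀ x, f' (g x) = g' (f x)) (x : K0 R) :
    k0n f' (K0.map g x) = K0.map g' (k0n f x) := by
  have h1 : (k0n f').comp (K0.map g) = (K0.map g').comp (k0n f) := by
    apply K0.hom_ext
    intro a
    rw [AddMonoidHom.comp_apply, AddMonoidHom.comp_apply, K0.map_mk', k0n_mk, k0n_mk, K0.map_mk']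
    congr 1
    have h2 : (a.mat.map g).map f' = (a.mat.map f).map g' := by
      ext i j
      exact h _
    unfold nidem IdemMat.map
    simp only [h2]
  exact DFunLike.congr_fun h1 x

/-- orthogonal idempotent matrices -/
theorem mk_orth {n : ℕ} (e f : Matrix (Fin n) (Fin n) R) (he : e * e = e) (hf : f * f = f)
    (hef : e * f = 0) (hfe : f * e = 0) (h : (e + f) * (e + f) = e + f) :
    K0.mk (⟨n, e + f, h⟩ : IdemMat R) = K0.mk ⟨n, e, he⟩ + K0.mk ⟨n, f, hf⟩ := by
  rw [K0.mk_eq_cls, K0.mk_eq_cls, K0.mk_eq_cls, ← K0.cls_fromBlocks]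
  apply K0.cls_congr
  refine ⟨fromCols e f, fromRows e f, ?_, ?_⟩
  · rw [fromCols_mul_fromRows, he, hf]
  · rw [fromRows_mul_fromCols, he, hf, hef, hfe]

theorem mk_zero {n : ℕ} (h : (0 : Matrix (Fin n) (Fin n) R) * 0 = 0) :
    K0.mk (⟨n, 0, h⟩ : IdemMat R) = 0 := by
  have h1 : ∀ (e : Matrix (Fin n) (Fin n) R) (he : e * e = e), e = 0 →
      K0.mk (⟨n, e, he⟩ : IdemMat R) = K0.mk ⟨n, 0, h⟩ := by
    intro e he h0
    subst h0
    rfl
  have h2 := mk_orth (0 : Matrix (Fin n) (Fin n) R) 0 h h h h (by simp)
  rw [h1 _ _ (add_zero _)] at h2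
  exact left_eq_add.1 h2

theorem mk_orth_sum {ι : Type*} (s : Finset ι) {n : ℕ} (e : ι → Matrix (Fin n) (Fin n) R)
    (h1 : ∀ i, e i * e i = e i) (h2 : ∀ i j, i ≠ j → e i * e j = 0)
    (h : (∑ i ∈ s, e i) * (∑ i ∈ s, e i) = ∑ i ∈ s, e i) :
    K0.mk (⟨n, ∑ i ∈ s, e i, h⟩ : IdemMat R) = ∑ i ∈ s, K0.mk ⟨n, e i, h1 i⟩ := by
  classical
  have key : ∀ (t : Finset ι) (f : Matrix (Fin n) (Fin n) R) (hf : f * f = f),
      f = ∑ i ∈ t, e i → K0.mk (⟨n, f, hf⟩ : IdemMat R) = ∑ i ∈ t, K0.mk ⟨n, e i, h1 i⟩ := by
    intro t
    induction t using Finset.induction_on with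
    | empty =>
      intro f hf h0
      rw [Finset.sum_empty] at h0
      subst h0
      rw [Finset.sum_empty]
      exact mk_zero hf
    | insert a t ha ih =>
      intro f hf h0
      rw [Finset.sum_insert ha] at h0 ⊢
      subst h0
      have h3 : e a * ∑ i ∈ t, e i = 0 := by
        rw [Finset.mul_sum]
        exact Finset.sum_eq_zero fun i hi => h2 a i fun h4 => ha (by rw [h4]; exact hi)
      have h4 : (∑ i ∈ t, e i) * e a = 0 := by
        rw [Finset.sum_mul]
        exact Finset.sum_eq_zero fun i hi => h2 i a fun h4 => ha (by rw [← h4]; exact hi)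
      have h5 : (∑ i ∈ t, e i) * (∑ i ∈ t, e i) = ∑ i ∈ t, e i := by
        rw [Finset.sum_mul]
        refine Finset.sum_congr rfl fun i hi => ?_
        rw [Finset.mul_sum, Finset.sum_eq_single i (fun j _ hj => h2 i j (Ne.symm hj))
          (fun h6 => absurd hi h6), h1]
      rw [mk_orth (e a) (∑ i ∈ t, e i) (h1 a) h5 h3 h4 hf, ih _ h5 rfl]
  exact key s _ h rfl

/-- The coefficientwise homomorphism of monoid rings. -/
noncomputable def coefN (H : Type*) [Monoid H] (f : R →ₙ+* S) :
    MonoidAlgebra R H →ₙ+* MonoidAlgebra S H where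
  toFun := MonoidAlgebra.map (f : R →+ S)
  map_mul' x y := by
    induction x using MonoidAlgebra.induction_linear with
    | zero => rw [zero_mul, MonoidAlgebra.map_zero, zero_mul]
    | add a b ha hb =>
      rw [add_mul, MonoidAlgebra.map_add, MonoidAlgebra.map_add, ha, hb, add_mul]
    | single m r =>
      induction y using MonoidAlgebra.induction_linear with
      | zero => rw [mul_zero, MonoidAlgebra.map_zero, mul_zero]
      | add a b ha hb =>
        rw [mul_add, MonoidAlgebra.map_add, MonoidAlgebra.map_add, ha, hb, mul_add]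
      | single m' r' =>
        rw [MonoidAlgebra.single_mul_single, MonoidAlgebra.map_single, MonoidAlgebra.map_single,
          MonoidAlgebra.map_single, MonoidAlgebra.single_mul_single]
        congr 1
        exact map_mul f r r'
  map_zero' := MonoidAlgebra.map_zero _
  map_add' := MonoidAlgebra.map_add _

theorem coefN_single (H : Type*) [Monoid H] (f : R →ₙ+* S) (h : H) (r : R) :
    coefN H f (MonoidAlgebra.single h r) = MonoidAlgebra.single h (f r) :=
  MonoidAlgebra.map_single _ _ _

theorem coefN_mapDomain {H H' : Type*} [Monoid H] [Monoid H'] (f : R →ₙ+* S) (c : H →* H')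
    (x : MonoidAlgebra R H) : coefN H' f (MonoidAlgebra.mapDomainRingHom R c x) =
      MonoidAlgebra.mapDomainRingHom S c (coefN H f x) := by
  induction x using MonoidAlgebra.induction_linear with
  | zero => rw [map_zero, map_zero, map_zero, map_zero]
  | add a b ha hb => rw [map_add, map_add, map_add, map_add, ha, hb]
  | single m r =>
    rw [coefN_single]
    simp only [MonoidAlgebra.mapDomainRingHom_apply, MonoidAlgebra.mapDomain_single]
    rw [coefN_single]

/-- The family of a homomorphism of rings without unit. -/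
noncomputable def NatK0.ofN (f : R →ₙ+* S) (G : Type v) [Group G] : NatK0 R S G where
  app F := k0n (coefN F.1 f)
  nat F F' g h x := k0n_square _ _ _ _ (fun y => coefN_mapDomain f (conjHom g F.1 F'.1 h) y) x

end Nonunital

section

variable {ι : Type w} [DecidableEq ι] (T : ι → Type u) [∀ i, Ring (T i)]

/-- the inclusion of a factor -/
def injN (i : ι) : T i →ₙ+* (∀ i, T i) where
  toFun := Pi.single i
  map_mul' x y := by
    funext j
    by_cases h : j = i
    · subst h
      simp
    · simp [h]
  map_zero' := Pi.single_zero i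
  map_add' x y := Pi.single_add i x y

/-- The sum over the factors of the composition of the projection and the inclusion is the identity. -/
theorem sum_injN [Fintype ι] (H : Type v) [Monoid H] (x : K0 (MonoidAlgebra (∀ i, T i) H)) :
    ∑ i, k0n (coefN H (injN T i))
      (K0.map (MonoidAlgebra.mapRingHom H (Pi.evalRingHom T i)) x) = x := by
  have h1 : ∑ i, (k0n (coefN H (injN T i))).comp
      (K0.map (MonoidAlgebra.mapRingHom H (Pi.evalRingHom T i))) =
      AddMonoidHom.id (K0 (MonoidAlgebra (∀ i, T i) H)) := by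
    apply K0.hom_ext
    intro a
    rw [AddMonoidHom.finsetSum_apply, AddMonoidHom.id_apply]
    -- the components
    set q : ι → MonoidAlgebra (∀ i, T i) H → MonoidAlgebra (∀ i, T i) H := fun i y =>
      coefN H (injN T i) (MonoidAlgebra.mapRingHom H (Pi.evalRingHom T i) y) with hq
    have hq1 : ∀ i m r, q i (MonoidAlgebra.single m r) =
        MonoidAlgebra.single m (Pi.single i (r i)) := by
      intro i m r
      rw [hq]
      show coefN H (injN T i) (MonoidAlgebra.mapRingHom H (Pi.evalRingHom T i)
        (MonoidAlgebra.single m r)) = _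
      rw [MonoidAlgebra.mapRingHom_single, coefN_single]
      rfl
    have hq2 : ∀ i, q i 0 = 0 := fun i => by
      show coefN H (injN T i) (MonoidAlgebra.mapRingHom H (Pi.evalRingHom T i) 0) = 0
      rw [map_zero, map_zero]
    have hq3 : ∀ i y z, q i (y + z) = q i y + q i z := fun i y z => by
      show coefN H (injN T i) (MonoidAlgebra.mapRingHom H (Pi.evalRingHom T i) (y + z)) = _
      rw [map_add, map_add]
    have hq4 : ∀ i y z, q i (y * z) = q i y * q i z := fun i y z => by
      show coefN H (injN T i) (MonoidAlgebra.mapRingHom H (Pi.evalRingHom T i) (y * z)) = _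
      rw [map_mul, map_mul]
    have hsum : ∀ y, ∑ i, q i y = y := by
      intro y
      induction y using MonoidAlgebra.induction_linear with
      | zero => exact Finset.sum_eq_zero fun i _ => hq2 i
      | add a b ha hb =>
        rw [Finset.sum_congr rfl fun i _ => hq3 i a b, Finset.sum_add_distrib, ha, hb]
      | single m r =>
        rw [Finset.sum_congr rfl fun i _ => hq1 i m r]
        have h3 : ∀ f : ι → (∀ i, T i), ∑ i, MonoidAlgebra.single m (f i) =
            MonoidAlgebra.single m (∑ i, f i) := by
          intro f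
          exact (map_sum (MonoidAlgebra.singleAddHom m) f Finset.univ).symm
        rw [h3, Finset.univ_sum_single]
    have horth : ∀ i j, i ≠ j → ∀ y z, q i y * q j z = 0 := by
      intro i j hij y z
      induction y using MonoidAlgebra.induction_linear with
      | zero => rw [hq2, zero_mul]
      | add a b ha hb => rw [hq3, add_mul, ha, hb, add_zero]
      | single m r =>
        induction z using MonoidAlgebra.induction_linear with
        | zero => rw [hq2, mul_zero]
        | add a b ha hb => rw [hq3, mul_add, ha, hb, add_zero]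
        | single m' r' =>
          rw [hq1, hq1, MonoidAlgebra.single_mul_single]
          have h4 : (Pi.single i (r i) : ∀ i, T i) * Pi.single j (r' j) = 0 := by
            funext l
            by_cases h5 : l = i
            · subst h5
              simp [hij]
            · simp [h5]
          rw [h4, MonoidAlgebra.single_zero]
    have he1 : ∀ i, a.mat.map (q i) * a.mat.map (q i) = a.mat.map (q i) := by
      intro i
      conv_rhs => rw [← a.idem]
      refine Matrix.ext fun k l => ?_
      simp only [Matrix.map_apply, Matrix.mul_apply]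
      have h6 : ∀ s : Finset (Fin a.n), q i (∑ c ∈ s, a.mat k c * a.mat c l) =
          ∑ c ∈ s, q i (a.mat k c) * q i (a.mat c l) := by
        intro s
        classical
        induction s using Finset.induction_on with
        | empty => rw [Finset.sum_empty, Finset.sum_empty, hq2]
        | insert c s hc ih => rw [Finset.sum_insert hc, Finset.sum_insert hc, hq3, hq4, ih]
      exact (h6 _).symm
    have he2 : ∀ i j, i ≠ j → a.mat.map (q i) * a.mat.map (q j) = 0 := by
      intro i j hij
      refine Matrix.ext fun k l => ?_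
      rw [Matrix.mul_apply, Matrix.zero_apply]
      exact Finset.sum_eq_zero fun c _ => horth i j hij _ _
    have he3 : ∑ i, a.mat.map (q i) = a.mat := by
      refine Matrix.ext fun k l => ?_
      rw [Matrix.sum_apply]
      exact hsum _
    have h7 := mk_orth_sum Finset.univ (fun i => a.mat.map (q i)) he1 he2 (by rw [he3, a.idem])
    have h8 : ∀ (f : Matrix (Fin a.n) (Fin a.n) (MonoidAlgebra (∀ i, T i) H)) (hf : f * f = f),
        f = a.mat → K0.mk (⟨a.n, f, hf⟩ : IdemMat _) = K0.mk a := by
      intro f hf h9
      subst h9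
      rfl
    rw [h8 _ _ he3] at h7
    refine Eq.trans (Finset.sum_congr rfl fun i _ => ?_) h7.symm
    rw [AddMonoidHom.comp_apply, K0.map_mk', k0n_mk]
    rfl
  have h2 := DFunLike.congr_fun h1 x
  rw [AddMonoidHom.finsetSum_apply, AddMonoidHom.id_apply] at h2
  exact h2

end

/-- **Finite products of rings.** -/
theorem ratInj_pi {ι : Type w} [Finite ι] (T : ι → Type u) [∀ i, Ring (T i)] {G : Type v} [Group G]
    (n : ℕ) (h : ∀ i, RatInj (assemblyN (T i) n G)) : RatInj (assemblyN (∀ i, T i) n G) := by
  classical
  have := Fintype.ofFinite ι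
  refine ratInj_of_family Finset.univ T n (fun i => NatK0.ofHom G (Pi.evalRingHom T i))
    (fun i => NatK0.ofN (injN T i) G) one_ne_zero (fun F x => ?_)
    (fun i => KQ.map (MonoidAlgebra.mapRingHom G (Pi.evalRingHom T i)))
    (fun i _ F x z => NatK0.ofHom_asm (Pi.evalRingHom T i) F x z) (fun i _ => h i)
  rw [one_smul]
  exact sum_injN T F.1 x

end Pool.Agent.H71.FQ
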