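import Pool.Agent.H71.FQ.Word

/-!
# Project FQ: the free ring and its functionals, first part

`FR G ι B` is the monoid ring of the words with coefficients in the matrices over `B`; `io l a` is the element of
degree one with label `l` defined by a matrix `a` over `B[G]`: the sum over `x ∈ G` of the coefficient of `a` at `x`
(a matrix over `B`) times the letter `(x, l)`. `lam Ψ X` is the sum over the words `W` of the trace of the coefficient
of `X` at `W` times `Ψ W`.

PROOFS: everything is additive in the matrices; check on `Matrix.single i j (MonoidAlgebra.single x r)` and on the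
monomials `MonoidAlgebra.single W A`.
-/

set_option autoImplicit false

open Matrix

universe u v w

namespace Pool.Agent.H71.FQ

/-- the free ring -/
abbrev FR (G : Type u) (ι : Type v) [Fintype ι] [DecidableEq ι] (B : Type w) [CommRing B] :
    Type (max u v w) := MonoidAlgebra (Matrix ι ι B) (Wd G)

section

variable {G : Type u} [Group G] {ι : Type v} [Fintype ι] [DecidableEq ι] {B : Type w} [CommRing B]

/-- the coefficient at `x` of a matrix over `B[G]` -/
def cof (a : Matrix ι ι (MonoidAlgebra B G)) (x : G) : Matrix ι ι B := a.map fun b => b.coeff x

/-- induction on matrices over a monoid ring -/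
theorem mat_induction {M : Type*} {P : Matrix ι ι (MonoidAlgebra B M) → Prop} (h0 : P 0)
    (hadd : ∀ a b, P a → P b → P (a + b))
    (h1 : ∀ i j x r, P (Matrix.single i j (MonoidAlgebra.single x r)))
    (a : Matrix ι ι (MonoidAlgebra B M)) : P a := by
  have h2 : ∀ i j (b : MonoidAlgebra B M), P (Matrix.single i j b) := by
    intro i j b
    induction b using MonoidAlgebra.induction_linear with
    | zero => rw [Matrix.single_zero]; exact h0
    | add f g hf hg => rw [Matrix.single_add]; exact hadd _ _ hf hg
    | single x r => exact h1 i j x r
  have hsum : ∀ {κ : Type v} (s : Finset κ) (f : κ → Matrix ι ι (MonoidAlgebra B M)),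
      (∀ k, P (f k)) → P (∑ k ∈ s, f k) := by
    intro κ s f hf
    classical
    induction s using Finset.induction_on with
    | empty => simpa using h0
    | insert k s hk ih => rw [Finset.sum_insert hk]; exact hadd _ _ (hf k) ih
  rw [Matrix.matrix_eq_sum_single a]
  exact hsum _ _ fun i => hsum _ _ fun j => h2 i j _

/-- The element with label `l` defined by a matrix. -/
noncomputable def io (l : ℕ) : Matrix ι ι (MonoidAlgebra B G) →+ FR G ι B where
  toFun a := ∑ i, ∑ j, (a i j).coeff.sum fun x r => MonoidAlgebra.single (let1 x l) (Matrix.single i j r)
  map_zero' := by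
    simp
  map_add' a b := by
    rw [← Finset.sum_add_distrib]
    refine Finset.sum_congr rfl fun i _ => ?_
    rw [← Finset.sum_add_distrib]
    refine Finset.sum_congr rfl fun j _ => ?_
    rw [Matrix.add_apply, MonoidAlgebra.coeff_add]
    exact Finsupp.sum_add_index' (fun x => by simp) (fun x r s => by
      rw [Matrix.single_add, MonoidAlgebra.single_add])

theorem io_apply (l : ℕ) (a : Matrix ι ι (MonoidAlgebra B G)) : (io l a : FR G ι B) =
    ∑ i, ∑ j, (a i j).coeff.sum fun x r => MonoidAlgebra.single (let1 x l) (Matrix.single i j r) := rfl

theorem io_single (l : ℕ) (i j : ι) (x : G) (r : B) :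
    io l (Matrix.single i j (MonoidAlgebra.single x r)) =
      MonoidAlgebra.single (let1 x l) (Matrix.single i j r) := by
  rw [io_apply, Finset.sum_eq_single i, Finset.sum_eq_single j]
  · rw [Matrix.single_apply_same, MonoidAlgebra.coeff_single, Finsupp.sum_single_index]
    simp
  · intro j' _ hj'
    rw [Matrix.single_apply_of_ne]
    · simp
    · rintro ⟨_, rfl⟩
      exact hj' rfl
  · intro h
    exact absurd (Finset.mem_univ _) h
  · intro i' _ hi'
    refine Finset.sum_eq_zero fun j' _ => ?_
    rw [Matrix.single_apply_of_ne]
    · simp
    · rintro ⟨rfl, _⟩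
      exact hi' rfl
  · intro h
    exact absurd (Finset.mem_univ _) h

theorem let1_injective (l : ℕ) {x y : G} (h : let1 x l = let1 y l) : x = y := by
  have := FreeMonoid.of_injective h
  exact (Prod.mk.inj this).1

theorem io_coeff (l : ℕ) (a : Matrix ι ι (MonoidAlgebra B G)) (x : G) :
    (io l a).coeff (let1 x l) = cof a x := by
  induction a using mat_induction with
  | h0 => rw [map_zero]; ext i j; simp [cof]
  | hadd a b ha hb =>
      rw [map_add, MonoidAlgebra.coeff_add, Finsupp.add_apply, ha, hb]
      ext i j
      simp [cof]
  | h1 i j y r =>
      classical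
      rw [io_single, MonoidAlgebra.coeff_single, Finsupp.single_apply]
      ext i' j'
      by_cases hxy : y = x
      · subst hxy
        simp only [if_true, cof, Matrix.map_apply]
        by_cases h : i = i' ∧ j = j'
        · obtain ⟨rfl, rfl⟩ := h
          simp
        · rw [Matrix.single_apply_of_ne _ _ _ _ _ h, Matrix.single_apply_of_ne _ _ _ _ _ h]
          simp
      · rw [if_neg (fun h => hxy (let1_injective l h))]
        simp only [cof, Matrix.map_apply, Matrix.zero_apply]
        by_cases h : i = i' ∧ j = j'
        · obtain ⟨rfl, rfl⟩ := h
          simp [Finsupp.single_apply, hxy]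
        · rw [Matrix.single_apply_of_ne _ _ _ _ _ h]
          simp

theorem io_support (l : ℕ) (a : Matrix ι ι (MonoidAlgebra B G)) {W : Wd G}
    (h : W ∈ (io l a).coeff.support) : ∃ x, W = let1 x l := by
  by_contra hW
  push_neg at hW
  rw [Finsupp.mem_support_iff] at h
  apply h
  induction a using mat_induction with
  | h0 => simp
  | hadd a b ha hb =>
      have ha' : (io l a : FR G ι B).coeff W = 0 := by
        by_contra h'
        exact h' (ha h')
      have hb' : (io l b : FR G ι B).coeff W = 0 := by
        by_contra h'
        exact h' (hb h')
      rw [map_add, MonoidAlgebra.coeff_add, Finsupp.add_apply, ha', hb', add_zero]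
  | h1 i j y r =>
      classical
      rw [io_single, MonoidAlgebra.coeff_single, Finsupp.single_apply, if_neg (fun h => hW y h.symm)]

/-- The functional defined by a function of words. -/
noncomputable def lam (Ψ : Wd G → B) : FR G ι B →+ B where
  toFun X := X.coeff.sum fun W A => A.trace * Ψ W
  map_zero' := by
    simp
  map_add' X Y := by
    rw [MonoidAlgebra.coeff_add]
    exact Finsupp.sum_add_index' (fun W => by simp) (fun W A A' => by
      rw [Matrix.trace_add, add_mul])

theorem lam_apply (Ψ : Wd G → B) (X : FR G ι B) :
    lam Ψ X = X.coeff.sum fun W A => A.trace * Ψ W := rfl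

theorem lam_single (Ψ : Wd G → B) (W : Wd G) (A : Matrix ι ι B) :
    lam Ψ (MonoidAlgebra.single W A) = A.trace * Ψ W := by
  rw [lam_apply, MonoidAlgebra.coeff_single, Finsupp.sum_single_index]
  simp

theorem lam_congr {Ψ Ψ' : Wd G → B} {X : FR G ι B} (h : ∀ W ∈ X.coeff.support, Ψ W = Ψ' W) :
    lam Ψ X = lam Ψ' X := by
  rw [lam_apply, lam_apply]
  exact Finset.sum_congr rfl fun W hW => by simp only [h W hW]

theorem lam_sum {κ : Type*} (s : Finset κ) (a : κ → ℤ) (Ψ : κ → Wd G → B) (X : FR G ι B) :
    lam (fun W => ∑ i ∈ s, a i • Ψ i W) X = ∑ i ∈ s, a i • lam (Ψ i) X := by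
  simp only [lam_apply, Finsupp.sum, Finset.mul_sum, Finset.smul_sum]
  rw [Finset.sum_comm]
  refine Finset.sum_congr rfl fun k _ => Finset.sum_congr rfl fun W _ => ?_
  rw [mul_smul_comm]

theorem lam_mul (Ψ : Wd G → B) (X Y : FR G ι B) :
    lam Ψ (X * Y) = ∑ V ∈ X.coeff.support, ∑ W ∈ Y.coeff.support,
      (X.coeff V * Y.coeff W).trace * Ψ (V * W) := by
  rw [MonoidAlgebra.mul_def]
  simp only [Finsupp.sum, map_sum, lam_single]

theorem lam_comm {Ψ : Wd G → B} {X Y : FR G ι B}
    (h : ∀ V ∈ X.coeff.support, ∀ W ∈ Y.coeff.support, Ψ (V * W) = Ψ (W * V)) :
    lam Ψ (X * Y) = lam Ψ (Y * X) := by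
  rw [lam_mul, lam_mul, Finset.sum_comm]
  refine Finset.sum_congr rfl fun W hW => Finset.sum_congr rfl fun V hV => ?_
  rw [h V hV W hW, Matrix.trace_mul_comm]

theorem lam_merge {Ψ : Wd G → B} {l i : ℕ}
    (h : ∀ V W x y, Ψ (V * let1 x l * let1 y i * W) = Ψ (V * let1 (x * y) l * W))
    (X Y : FR G ι B) (a b : Matrix ι ι (MonoidAlgebra B G)) :
    lam Ψ (X * io l a * io i b * Y) = lam Ψ (X * io l (a * b) * Y) := by
  induction X using MonoidAlgebra.induction_linear with
  | zero => simp
  | add f g hf hg => simp only [add_mul, map_add, hf, hg]
  | single V A =>
    induction Y using MonoidAlgebra.induction_linear with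
    | zero => simp
    | add f g hf hg => simp only [mul_add, map_add, hf, hg]
    | single W A' =>
      induction a using mat_induction with
      | h0 => simp
      | hadd a a' ha ha' => simp only [add_mul, mul_add, map_add, ha, ha']
      | h1 i1 j1 x r =>
        induction b using mat_induction with
        | h0 => simp
        | hadd b b' hb hb' => simp only [add_mul, mul_add, map_add, hb, hb']
        | h1 i2 j2 y s =>
          rw [io_single, io_single, MonoidAlgebra.single_mul_single, MonoidAlgebra.single_mul_single,
            MonoidAlgebra.single_mul_single, lam_single, h]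
          by_cases hji : j1 = i2
          · subst hji
            rw [Matrix.single_mul_single_same, MonoidAlgebra.single_mul_single, io_single,
              MonoidAlgebra.single_mul_single, MonoidAlgebra.single_mul_single, lam_single,
              mul_assoc A, Matrix.single_mul_single_same]
          · rw [Matrix.single_mul_single_of_ne _ _ _ _ hji, map_zero, mul_zero, zero_mul, map_zero,
              mul_assoc A, Matrix.single_mul_single_of_ne _ _ _ _ hji, mul_zero, zero_mul,
              Matrix.trace_zero, zero_mul]

/-- a matrix over `B[D]` between two factors -/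
theorem lam_move (D : Subgroup G) {Ψ : Wd G → B} {l i : ℕ}
    (h : ∀ V W x y, ∀ s ∈ D, Ψ (V * let1 (x * s) l * let1 y i * W) = Ψ (V * let1 x l * let1 (s * y) i * W))
    (X Y : FR G ι B) (a b : Matrix ι ι (MonoidAlgebra B G)) (s : Matrix ι ι (MonoidAlgebra B D)) :
    lam Ψ (X * io l (a * s.map (MonoidAlgebra.mapDomainRingHom B D.subtype)) * io i b * Y) =
      lam Ψ (X * io l a * io i (s.map (MonoidAlgebra.mapDomainRingHom B D.subtype) * b) * Y) := by
  induction X using MonoidAlgebra.induction_linear with
  | zero => simp
  | add f g hf hg => simp only [add_mul, map_add, hf, hg]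
  | single V A =>
    induction Y using MonoidAlgebra.induction_linear with
    | zero => simp
    | add f g hf hg => simp only [mul_add, map_add, hf, hg]
    | single W A' =>
      induction a using mat_induction with
      | h0 => simp
      | hadd a a' ha ha' => simp only [add_mul, mul_add, map_add, ha, ha']
      | h1 i1 j1 x r =>
        induction b using mat_induction with
        | h0 => simp
        | hadd b b' hb hb' => simp only [add_mul, mul_add, map_add, hb, hb']
        | h1 i2 j2 y r' =>
          induction s using mat_induction with
          | h0 => simp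
          | hadd s s' hs hs' =>
              rw [Matrix.map_add _ (map_add _)]
              simp only [add_mul, mul_add, map_add, hs, hs']
          | h1 i3 j3 t r3 =>
            have hm : (Matrix.single i3 j3 (MonoidAlgebra.single t r3)).map
                (MonoidAlgebra.mapDomainRingHom B D.subtype)
                = Matrix.single i3 j3 (MonoidAlgebra.single (t : G) r3) := by
              rw [Matrix.map_single]
              simp
            rw [hm]
            by_cases h1 : j1 = i3
            · subst h1
              by_cases h2 : j3 = i2
              · subst h2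
                rw [Matrix.single_mul_single_same, Matrix.single_mul_single_same,
                  MonoidAlgebra.single_mul_single, MonoidAlgebra.single_mul_single, io_single,
                  io_single, io_single, io_single]
                simp only [MonoidAlgebra.single_mul_single, lam_single]
                rw [h _ _ _ _ _ t.2]
                simp only [mul_assoc A, Matrix.single_mul_single_same]
                rw [mul_assoc]
              · rw [Matrix.single_mul_single_same, Matrix.single_mul_single_of_ne _ _ _ _ h2,
                  MonoidAlgebra.single_mul_single, io_single, io_single, map_zero]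
                simp only [MonoidAlgebra.single_mul_single, lam_single, mul_zero, zero_mul, map_zero]
                simp only [mul_assoc A, Matrix.single_mul_single_of_ne _ _ _ _ h2, mul_zero,
                  zero_mul, Matrix.trace_zero]
            · by_cases h2 : j3 = i2
              · subst h2
                rw [Matrix.single_mul_single_of_ne _ _ _ _ h1, Matrix.single_mul_single_same,
                  MonoidAlgebra.single_mul_single, map_zero]
                simp only [io_single, MonoidAlgebra.single_mul_single, lam_single, mul_zero, zero_mul,
                  map_zero]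
                simp only [mul_assoc A, Matrix.single_mul_single_of_ne _ _ _ _ h1, mul_zero,
                  zero_mul, Matrix.trace_zero]
              · rw [Matrix.single_mul_single_of_ne _ _ _ _ h1,
                  Matrix.single_mul_single_of_ne _ _ _ _ h2, map_zero, map_zero]
                simp

end

end Pool.Agent.H71.FQ
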