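import Pool.Agent.H71.FQ.Uct

/-!
# Project FQ: homology classes and relations come from subgroups containing finite sets

PROOFS. The normal form `nrm` commutes with `push f` and `push f` is injective for injective `f`; a chain lies in
`coi` if and only if its normal form vanishes.
-/

set_option autoImplicit false

universe u v w w'

namespace Pool.Agent.H71.FQ

section

variable {X : Type u} {Y : Type v}

theorem push_inj {f : X → Y} (hf : Function.Injective f) (m : ℕ) :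
    Function.Injective (push ℤ f m) := by
  intro a b hab
  rw [push_apply_eq_mapDomain, push_apply_eq_mapDomain] at hab
  exact Finsupp.mapDomain_injective hf.comp_left hab

/-- the vertices of a chain -/
theorem exists_push {m : ℕ} (c : Cx ℤ Y m) : ∃ S : Finset Y, ∀ {X : Type w} (f : X → Y),
    Function.Injective f → (∀ s ∈ S, s ∈ Set.range f) → ∃ c' : Cx ℤ X m, push ℤ f m c' = c := by
  classical
  refine ⟨c.support.biUnion fun x => Finset.univ.image x, ?_⟩
  intro X f hf hS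
  refine ⟨Finsupp.comapDomain (fun x j => f (x j)) c (hf.comp_left.injOn), ?_⟩
  rw [push_apply_eq_mapDomain]
  refine Finsupp.mapDomain_comapDomain _ hf.comp_left c ?_
  intro x hx
  have h1 : ∀ j, x j ∈ Set.range f := fun j =>
    hS _ (Finset.mem_biUnion.2 ⟨x, hx, Finset.mem_image_of_mem _ (Finset.mem_univ _)⟩)
  choose y hy using h1
  exact ⟨y, funext hy⟩

end

section

variable {Γ : Type v} [Group Γ] {Γ' : Type w} [Group Γ'] {n : ℕ}

theorem nrm_push (f : Γ' →* Γ) (c : Cx ℤ Γ' n) :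
    nrm Γ n (push ℤ f n c) = push ℤ f n (nrm Γ' n c) := by
  have h : (nrm Γ n).comp (push ℤ f n) = (push ℤ f n).comp (nrm Γ' n) := by
    refine Finsupp.lhom_ext' fun x => LinearMap.ext_ring ?_
    simp only [LinearMap.comp_apply, Finsupp.lsingle_apply]
    rw [push_single, nrm_single, nrm_single, push_single]
    congr 1
    funext j
    rw [map_mul, map_inv]
  exact LinearMap.congr_fun h c

theorem mem_coi_iff (c : Cx ℤ Γ n) : c ∈ coi Γ n ↔ nrm Γ n c = 0 := by
  constructor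
  · exact nrm_coi
  · intro h
    have h1 := sub_nrm_mem c
    rwa [h, sub_zero] at h1

theorem coi_of_push {f : Γ' →* Γ} (hf : Function.Injective f) {c : Cx ℤ Γ' n}
    (hc : push ℤ f n c ∈ coi Γ n) : c ∈ coi Γ' n := by
  rw [mem_coi_iff] at hc ⊢
  rw [nrm_push] at hc
  exact push_inj hf n (hc.trans (map_zero _).symm)

/-- every homology class comes from all groups `Γ' ⊆ Γ` which contain a finite set -/
theorem HG.exists_lift' (x : HG Γ n) :
    ∃ S : Finset Γ, ∀ {Γ' : Type w} [Group Γ'] (f : Γ' →* Γ), Function.Injective f →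
      (∀ s ∈ S, s ∈ Set.range f) → ∃ y : HG Γ' n, HG.map n f y = x := by
  obtain ⟨z, rfl⟩ := HG.mk_surjective x
  obtain ⟨S, hS⟩ := exists_push.{v, w} (z : Cx ℤ Γ (n + 1))
  refine ⟨S, ?_⟩
  intro Γ' _ f hf h
  obtain ⟨c, hc⟩ := hS f hf h
  have hcyc : c ∈ cyc Γ' n := by
    show bd ℤ Γ' n c ∈ coi Γ' n
    apply coi_of_push hf
    rw [← bd_push, hc]
    exact z.2
  refine ⟨HG.mk ⟨c, hcyc⟩, ?_⟩
  rw [HG.map_mk]
  congr 1
  exact Subtype.ext hc

/-- every homology class comes from all subgroups which contain a finite set -/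
theorem HG.exists_lift (x : HG Γ n) :
    ∃ S : Finset Γ, ∀ Γ' : Subgroup Γ, (∀ s ∈ S, s ∈ Γ') →
      ∃ y : HG Γ' n, HG.map n Γ'.subtype y = x := by
  obtain ⟨S, hS⟩ := HG.exists_lift'.{v, v} x
  exact ⟨S, fun Γ' h => hS Γ'.subtype Γ'.subtype_injective fun s hs => ⟨⟨s, h s hs⟩, rfl⟩⟩

theorem HG.mk_eq_zero {z : cyc Γ n} : HG.mk z = 0 ↔ (z : Cx ℤ Γ (n + 1)) ∈ bnd Γ n := by
  have h0 : (0 : HG Γ n) = HG.mk 0 := rfl
  rw [h0, HG.mk_eq_iff]
  change (z : Cx ℤ Γ (n + 1)) - 0 ∈ bnd Γ n ↔ _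
  rw [sub_zero]

/-- a homology class which dies in `Γ` dies in all groups `Γ'' ⊆ Γ` which contain a finite set -/
theorem HG.exists_zero (f : Γ' →* Γ) (x : HG Γ' n) (hx : HG.map n f x = 0) :
    ∃ S : Finset Γ, ∀ {Γ'' : Type w'} [Group Γ''] (g : Γ'' →* Γ) (k : Γ' →* Γ''),
      Function.Injective g → g.comp k = f → (∀ s ∈ S, s ∈ Set.range g) →
        HG.map n k x = 0 := by
  obtain ⟨z, rfl⟩ := HG.mk_surjective x
  rw [HG.map_mk, HG.mk_eq_zero] at hx
  obtain ⟨_, ⟨b, rfl⟩, d, hd, hbd⟩ := Submodule.mem_sup.1 hx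
  obtain ⟨S, hS⟩ := exists_push.{v, w'} b
  refine ⟨S, ?_⟩
  intro Γ'' _ g k hg hgk h
  obtain ⟨b', hb'⟩ := hS g hg h
  rw [HG.map_mk, HG.mk_eq_zero]
  have e1 : push ℤ k (n + 1) (z : Cx ℤ Γ' (n + 1)) - bd ℤ Γ'' (n + 1) b' ∈ coi Γ'' (n + 1) := by
    apply coi_of_push hg
    rw [map_sub, ← bd_push, hb', push_push]
    have e2 : (fun x => g (k x)) = f := by
      rw [← hgk]
      rfl
    rw [e2]
    have e3 : push ℤ f (n + 1) (z : Cx ℤ Γ' (n + 1)) - bd ℤ Γ (n + 1) b = d := by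
      have e5 : bd ℤ Γ (n + 1) b + d = push ℤ f (n + 1) (z : Cx ℤ Γ' (n + 1)) := hbd
      rw [← e5]
      abel
    rw [e3]
    exact hd
  have e4 : push ℤ k (n + 1) (z : Cx ℤ Γ' (n + 1)) = bd ℤ Γ'' (n + 1) b' +
      (push ℤ k (n + 1) (z : Cx ℤ Γ' (n + 1)) - bd ℤ Γ'' (n + 1) b') := by
    abel
  show push ℤ k (n + 1) (z : Cx ℤ Γ' (n + 1)) ∈ bnd Γ'' n
  rw [e4]
  exact Submodule.add_mem_sup (LinearMap.mem_range_self _ _) e1

end

end Pool.Agent.H71.FQ
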