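import Mathlib

/-!
# Project FQ: chains of tuples

`Cx R X n` is the module of chains with `n + 1` vertices in `X`, `bd` the boundary (the alternating sum of the
omissions of a vertex), `push f` the chain map of a map `f : X → Y`, `vmap A` the map of a vertex map `A` with values
in measures: the tuple `x` goes to the product of the measures `A (x i)`.

PROOFS. `bd_bd`: the usual identity (`Fin.succAbove` twice). `bd_vmap`: the marginals of a product measure. Homotopy:
`H (n + 1) x = cone over b (x 0) of (vmap A x - vmap B x - μ H n (bd x))`, recursively; `bd (cone y c) + cone y (bd c) = c`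
(for `n = 0`: `bd (cone y c) = c - (sum of the coefficients of c) y`).
-/

set_option autoImplicit false

universe u v w

namespace Pool.Agent.H71.FQ

section

variable (R : Type u) [CommRing R] (X : Type v) (n : ℕ)

/-- chains with `n + 1` vertices in `X` -/
abbrev Cx : Type (max u v) := (Fin (n + 1) → X) →₀ R

/-- the boundary: the alternating sum of the omissions of a vertex -/
noncomputable def bd : Cx R X (n + 1) →ₗ[R] Cx R X n :=
  Finsupp.linearCombination R fun x : Fin (n + 2) → X =>
    ∑ i : Fin (n + 2), (-1 : R) ^ (i : ℕ) • Finsupp.single (fun j => x (i.succAbove j)) (1 : R)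

end

section

variable {R : Type u} [CommRing R] {X : Type v} {Y : Type w}

theorem bd_single (n : ℕ) (x : Fin (n + 2) → X) : bd R X n (Finsupp.single x 1) =
    ∑ i : Fin (n + 2), (-1 : R) ^ (i : ℕ) • Finsupp.single (fun j => x (i.succAbove j)) (1 : R) := by
  rw [bd, Finsupp.linearCombination_single, one_smul]

theorem bd_bd_single (n : ℕ) (x : Fin (n + 3) → X) :
    bd R X n (bd R X (n + 1) (Finsupp.single x 1)) = 0 := by
  rw [bd_single, map_sum]
  have h1 : ∀ i : Fin (n + 3), bd R X n ((-1 : R) ^ (i : ℕ) •
      Finsupp.single (fun j => x (i.succAbove j)) (1 : R)) =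
      ∑ j : Fin (n + 2), ((-1 : R) ^ ((i : ℕ) + (j : ℕ))) •
        Finsupp.single (fun k => x (i.succAbove (j.succAbove k))) (1 : R) := by
    intro i
    rw [map_smul, bd_single, Finset.smul_sum]
    refine Finset.sum_congr rfl fun j _ => ?_
    rw [smul_smul, ← pow_add]
  rw [Finset.sum_congr rfl fun i _ => h1 i, Finset.sum_sigma']
  refine Finset.sum_involution
    (fun p _ => (⟨p.1.succAbove p.2, p.2.predAbove p.1⟩ : (_ : Fin (n + 3)) × Fin (n + 2))) ?_ ?_ ?_ ?_
  · rintro ⟨i, j⟩ -
    have h2 : (fun k => x ((i.succAbove j).succAbove ((j.predAbove i).succAbove k))) =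
        fun k => x (i.succAbove (j.succAbove k)) := by
      funext k
      rw [Fin.succAbove_succAbove_succAbove_predAbove]
    dsimp only
    rw [h2, ← add_smul, Fin.neg_one_pow_succAbove_add_predAbove, add_neg_cancel, zero_smul]
  · rintro ⟨i, j⟩ - - h3
    have h4 : i.succAbove j = i := congrArg Sigma.fst h3
    exact Fin.succAbove_ne i j h4
  · intro a _
    simp
  · rintro ⟨i, j⟩ -
    dsimp only
    rw [Fin.succAbove_succAbove_predAbove, Fin.predAbove_predAbove_succAbove]

/-- linear maps on chains which agree on the tuples agree -/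
theorem cx_ext {M : Type*} [AddCommMonoid M] [Module R M] {n : ℕ} {f g : Cx R X n →ₗ[R] M}
    (h : ∀ x, f (Finsupp.single x 1) = g (Finsupp.single x 1)) (c : Cx R X n) : f c = g c := by
  have h1 : f = g := by
    refine Finsupp.lhom_ext' fun x => LinearMap.ext_ring ?_
    exact h x
  rw [h1]

theorem bd_bd (n : ℕ) (c : Cx R X (n + 2)) : bd R X n (bd R X (n + 1) c) = 0 :=
  cx_ext (f := (bd R X n).comp (bd R X (n + 1))) (g := 0) (bd_bd_single n) c

/-- the chain map of a map of the vertices -/
noncomputable def push (R : Type u) [CommRing R] (f : X → Y) (n : ℕ) : Cx R X n →ₗ[R] Cx R Y n :=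
  Finsupp.linearCombination R fun x : Fin (n + 1) → X => Finsupp.single (fun j => f (x j)) (1 : R)

theorem push_single (f : X → Y) (n : ℕ) (x : Fin (n + 1) → X) :
    push R f n (Finsupp.single x 1) = Finsupp.single (fun j => f (x j)) 1 := by
  rw [push, Finsupp.linearCombination_single, one_smul]

theorem bd_push (f : X → Y) (n : ℕ) (c : Cx R X (n + 1)) :
    bd R Y n (push R f (n + 1) c) = push R f n (bd R X n c) := by
  refine cx_ext (f := (bd R Y n).comp (push R f (n + 1))) (g := (push R f n).comp (bd R X n)) ?_ c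
  intro x
  rw [LinearMap.comp_apply, LinearMap.comp_apply, push_single, bd_single, bd_single, map_sum]
  refine Finset.sum_congr rfl fun i _ => ?_
  rw [map_smul, push_single]

theorem push_push {Z : Type*} (f : X → Y) (g : Y → Z) (n : ℕ) (c : Cx R X n) :
    push R g n (push R f n c) = push R (fun x => g (f x)) n c := by
  refine cx_ext (f := (push R g n).comp (push R f n)) (g := push R (fun x => g (f x)) n) ?_ c
  intro x
  rw [LinearMap.comp_apply, push_single, push_single, push_single]

theorem push_id (n : ℕ) (c : Cx R X n) : push R (fun x : X => x) n c = c := by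
  refine cx_ext (f := push R (fun x : X => x) n) (g := LinearMap.id) ?_ c
  intro x
  rw [push_single, LinearMap.id_apply]

theorem push_apply_eq_mapDomain (f : X → Y) (n : ℕ) (c : Cx R X n) :
    push R f n c = c.mapDomain fun x j => f (x j) := by
  refine cx_ext (f := push R f n) (g := Finsupp.lmapDomain R R fun (x : Fin (n + 1) → X) j => f (x j))
    ?_ c
  intro x
  rw [push_single, Finsupp.lmapDomain_apply, Finsupp.mapDomain_single]

open Classical in
/-- the product of the measures `A (x i)` -/
noncomputable def tens (A : X → Y →₀ R) (n : ℕ) (x : Fin (n + 1) → X) : Cx R Y n :=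
  Finsupp.onFinset (Fintype.piFinset fun i => (A (x i)).support) (fun y => ∏ i, A (x i) (y i))
    (by
      intro y hy
      rw [Fintype.mem_piFinset]
      intro i
      rw [Finsupp.mem_support_iff]
      intro h
      exact hy (Finset.prod_eq_zero (Finset.mem_univ i) h))

theorem tens_apply (A : X → Y →₀ R) (n : ℕ) (x : Fin (n + 1) → X) (y : Fin (n + 1) → Y) :
    tens A n x y = ∏ i, A (x i) (y i) := rfl

/-- the map of a vertex map with values in measures -/
noncomputable def vmap (A : X → Y →₀ R) (n : ℕ) : Cx R X n →ₗ[R] Cx R Y n :=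
  Finsupp.linearCombination R fun x : Fin (n + 1) → X => tens A n x

theorem vmap_single (A : X → Y →₀ R) (n : ℕ) (x : Fin (n + 1) → X) :
    vmap A n (Finsupp.single x 1) = tens A n x := by
  rw [vmap, Finsupp.linearCombination_single, one_smul]

theorem tens_point (f : X → Y) (n : ℕ) (x : Fin (n + 1) → X) :
    tens (fun a => Finsupp.single (f a) (1 : R)) n x = Finsupp.single (fun j => f (x j)) 1 := by
  classical
  ext y
  rw [tens_apply, Finsupp.single_apply]
  by_cases h : (fun j => f (x j)) = y
  · rw [if_pos h]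
    refine Finset.prod_eq_one fun i _ => ?_
    rw [← h, Finsupp.single_eq_same]
  · rw [if_neg h]
    obtain ⟨i, hi⟩ := Function.ne_iff.1 h
    refine Finset.prod_eq_zero (Finset.mem_univ i) ?_
    rw [Finsupp.single_apply, if_neg hi]

theorem tens_smul_point (μ : R) (f : X → Y) (n : ℕ) (x : Fin (n + 1) → X) :
    tens (fun a => Finsupp.single (f a) μ) n x = μ ^ (n + 1) • Finsupp.single (fun j => f (x j)) 1 := by
  classical
  ext y
  rw [tens_apply, Finsupp.smul_apply, Finsupp.single_apply]
  by_cases h : (fun j => f (x j)) = y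
  · rw [if_pos h, Finset.prod_congr rfl (g := fun _ => μ), Finset.prod_const, Finset.card_univ,
      Fintype.card_fin, smul_eq_mul, mul_one]
    intro i _
    rw [← h, Finsupp.single_eq_same]
  · rw [if_neg h, smul_zero]
    obtain ⟨i, hi⟩ := Function.ne_iff.1 h
    refine Finset.prod_eq_zero (Finset.mem_univ i) ?_
    rw [Finsupp.single_apply, if_neg hi]

/-- the sum of the coefficients -/
noncomputable def mass (a : Y →₀ R) : R := a.sum fun _ r => r

/-! ### Products of measures -/

open Classical in
/-- the product of the measures `a i` -/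
noncomputable def tenf {m : ℕ} (a : Fin m → Y →₀ R) : (Fin m → Y) →₀ R :=
  Finsupp.onFinset (Fintype.piFinset fun i => (a i).support) (fun y => ∏ i, a i (y i))
    (by
      intro y hy
      rw [Fintype.mem_piFinset]
      intro i
      rw [Finsupp.mem_support_iff]
      intro h
      exact hy (Finset.prod_eq_zero (Finset.mem_univ i) h))

theorem tenf_apply {m : ℕ} (a : Fin m → Y →₀ R) (y : Fin m → Y) : tenf a y = ∏ i, a i (y i) := rfl

theorem tens_eq_tenf (A : X → Y →₀ R) (n : ℕ) (x : Fin (n + 1) → X) :
    tens A n x = tenf fun i => A (x i) := by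
  ext y
  rw [tens_apply, tenf_apply]

open Classical in
/-- the product of sums -/
theorem tenf_sum {Z : Type*} {m : ℕ} (a : Fin m → Y →₀ R) (g : Fin m → Y → Z →₀ R) :
    tenf (fun i => (a i).sum fun y r => r • g i y) =
      ∑ y ∈ Fintype.piFinset fun i => (a i).support, (∏ i, a i (y i)) • tenf fun i => g i (y i) := by
  ext z
  rw [tenf_apply, Finsupp.finsetSum_apply]
  have h1 : ∀ i, ((a i).sum fun y r => r • g i y) (z i) =
      ∑ y ∈ (a i).support, a i y * g i y (z i) := by
    intro i
    rw [Finsupp.sum, Finsupp.finsetSum_apply]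
    exact Finset.sum_congr rfl fun y _ => by rw [Finsupp.smul_apply, smul_eq_mul]
  rw [Finset.prod_congr rfl fun i _ => h1 i, Finset.prod_univ_sum]
  refine Finset.sum_congr rfl fun y _ => ?_
  rw [Finsupp.smul_apply, tenf_apply, smul_eq_mul, Finset.prod_mul_distrib]

open Classical in
theorem tenf_eq_sum {m : ℕ} (a : Fin m → Y →₀ R) :
    tenf a = ∑ y ∈ Fintype.piFinset fun i => (a i).support,
      (∏ i, a i (y i)) • Finsupp.single y (1 : R) := by
  have h1 : ∀ y ∈ Fintype.piFinset fun i => (a i).support, y ∉ (tenf a).support →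
      (∏ i, a i (y i)) • Finsupp.single y (1 : R) = 0 := by
    intro y _ hy
    rw [Finsupp.notMem_support_iff, tenf_apply] at hy
    rw [hy, zero_smul]
  have h2 : (tenf a).support ⊆ Fintype.piFinset fun i => (a i).support :=
    Finsupp.support_onFinset_subset
  rw [← Finset.sum_subset h2 h1]
  conv_lhs => rw [← Finsupp.sum_single (tenf a)]
  refine Finset.sum_congr rfl fun y _ => ?_
  rw [Finsupp.smul_single, smul_eq_mul, mul_one, tenf_apply]

/-- the image of a product of measures -/
theorem vmap_tenf {Z : Type*} (B : Y → Z →₀ R) (n : ℕ) (a : Fin (n + 1) → Y →₀ R) :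
    vmap B n (tenf a) = tenf fun i => (a i).sum fun y r => r • B y := by
  classical
  rw [tenf_sum a fun _ => B, tenf_eq_sum, map_sum]
  refine Finset.sum_congr rfl fun y _ => ?_
  rw [map_smul, vmap_single, tens_eq_tenf]

/-- the sum of the coefficients of a product of measures -/
theorem total_tenf {m : ℕ} (a : Fin m → Y →₀ R) :
    Finsupp.linearCombination R (fun _ => (1 : R)) (tenf a) = ∏ i, mass (a i) := by
  classical
  rw [tenf_eq_sum, map_sum]
  have h1 : ∀ i, mass (a i) = ∑ y ∈ (a i).support, a i y := fun i => rfl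
  rw [Finset.prod_congr rfl fun i _ => h1 i, Finset.prod_univ_sum]
  refine Finset.sum_congr rfl fun y _ => ?_
  rw [map_smul, Finsupp.linearCombination_single, smul_eq_mul, smul_eq_mul, mul_one, mul_one]

theorem mapDomain_insertNth {m : ℕ} (i : Fin (m + 1)) (b : Y) (c : (Fin m → Y) →₀ R)
    (y : Fin (m + 1) → Y) [Decidable (b = y i)] :
    c.mapDomain (fun z => (i.insertNth b z : Fin (m + 1) → Y)) y =
      if b = y i then c (fun j => y (i.succAbove j)) else 0 := by
  split_ifs with h
  · have h1 : (i.insertNth b (fun j => y (i.succAbove j)) : Fin (m + 1) → Y) = y := by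
      rw [h]
      exact Fin.insertNth_self_removeNth i y
    have h2 : Function.Injective fun z => (i.insertNth b z : Fin (m + 1) → Y) := by
      intro z z' hz
      exact ((Fin.insertNth_inj).1 hz).2
    conv_lhs => rw [← h1]
    exact Finsupp.mapDomain_apply h2 c fun j => y (i.succAbove j)
  · refine Finsupp.mapDomain_of_notMem_range _ _ ?_
    rintro ⟨z, rfl⟩
    exact h (Fin.insertNth_apply_same (α := fun _ => Y) i b z).symm

theorem tenf_split {m : ℕ} (i : Fin (m + 1)) (a : Fin (m + 1) → Y →₀ R) :
    tenf a = (a i).sum fun b r =>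
      r • (tenf fun j => a (i.succAbove j)).mapDomain fun z => (i.insertNth b z : Fin (m + 1) → Y) := by
  classical
  ext y
  rw [tenf_apply, Fin.prod_univ_succAbove _ i, Finsupp.sum, Finsupp.finsetSum_apply]
  have h1 : ∀ b ∈ (a i).support, (a i b • (tenf fun j => a (i.succAbove j)).mapDomain
      fun z => (i.insertNth b z : Fin (m + 1) → Y)) y =
      if b = y i then a i b * tenf (fun j => a (i.succAbove j)) (fun j => y (i.succAbove j)) else 0 := by
    intro b _
    rw [Finsupp.smul_apply, mapDomain_insertNth, smul_eq_mul]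
    split_ifs
    · rfl
    · exact mul_zero _
  rw [Finset.sum_congr rfl h1, Finset.sum_ite_eq', tenf_apply]
  split_ifs with h
  · rfl
  · rw [Finsupp.notMem_support_iff] at h
    rw [h, zero_mul]

/-- the marginals of a product of measures -/
theorem face_tenf {m : ℕ} (i : Fin (m + 1)) (a : Fin (m + 1) → Y →₀ R) :
    (tenf a).mapDomain (fun y j => y (i.succAbove j)) =
      mass (a i) • tenf fun j => a (i.succAbove j) := by
  rw [tenf_split i a, Finsupp.sum, Finsupp.mapDomain_finsetSum, mass, Finsupp.sum, Finset.sum_smul]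
  refine Finset.sum_congr rfl fun b _ => ?_
  rw [Finsupp.mapDomain_smul, ← Finsupp.mapDomain_comp]
  have h1 : ((fun (y : Fin (m + 1) → Y) j => y (i.succAbove j)) ∘
      fun z => (i.insertNth b z : Fin (m + 1) → Y)) = id := by
    funext z j
    exact Fin.insertNth_apply_succAbove (α := fun _ => Y) i b z j
  rw [h1, Finsupp.mapDomain_id]

theorem bd_apply_eq (n : ℕ) (c : Cx R Y (n + 1)) :
    bd R Y n c = ∑ i : Fin (n + 2), (-1 : R) ^ (i : ℕ) •
      c.mapDomain (fun y j => y (i.succAbove j)) := by
  have h1 := cx_ext (f := bd R Y n) (g := ∑ i : Fin (n + 2), (-1 : R) ^ (i : ℕ) •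
    Finsupp.lmapDomain R R fun (y : Fin (n + 2) → Y) j => y (i.succAbove j)) ?_ c
  · rw [h1, LinearMap.sum_apply]
    exact Finset.sum_congr rfl fun i _ => rfl
  · intro x
    rw [bd_single, LinearMap.sum_apply]
    refine Finset.sum_congr rfl fun i _ => ?_
    rw [LinearMap.smul_apply, Finsupp.lmapDomain_apply, Finsupp.mapDomain_single]

theorem bd_vmap (A : X → Y →₀ R) (μ : R) (hA : ∀ x, mass (A x) = μ) (n : ℕ) (c : Cx R X (n + 1)) :
    bd R Y n (vmap A (n + 1) c) = μ • vmap A n (bd R X n c) := by
  refine cx_ext (f := (bd R Y n).comp (vmap A (n + 1))) (g := μ • (vmap A n).comp (bd R X n)) ?_ c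
  intro x
  rw [LinearMap.comp_apply, LinearMap.smul_apply, LinearMap.comp_apply, vmap_single, bd_single,
    map_sum, bd_apply_eq, Finset.smul_sum]
  refine Finset.sum_congr rfl fun i _ => ?_
  rw [map_smul, vmap_single, tens_eq_tenf, tens_eq_tenf, face_tenf, hA, smul_comm]

/-- composition of vertex maps with values in measures -/
theorem vmap_comp_push (A : Y → X →₀ R) (f : X → Y) (n : ℕ) (c : Cx R X n) :
    vmap A n (push R f n c) = vmap (fun x => A (f x)) n c := by
  refine cx_ext (f := (vmap A n).comp (push R f n)) (g := vmap (fun x => A (f x)) n) ?_ c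
  intro x
  rw [LinearMap.comp_apply, push_single, vmap_single, vmap_single, tens_eq_tenf, tens_eq_tenf]

theorem push_eq_vmap (f : X → Y) (n : ℕ) (c : Cx R X n) :
    push R f n c = vmap (fun x => Finsupp.single (f x) (1 : R)) n c := by
  refine cx_ext (f := push R f n) (g := vmap (fun x => Finsupp.single (f x) (1 : R)) n) ?_ c
  intro x
  rw [push_single, vmap_single, tens_point]

theorem vmap_vmap {Z : Type*} (A : X → Y →₀ R) (B : Y → Z →₀ R) (n : ℕ) (c : Cx R X n) :
    vmap B n (vmap A n c) = vmap (fun x => (A x).sum fun y r => r • B y) n c := by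
  refine cx_ext (f := (vmap B n).comp (vmap A n))
    (g := vmap (fun x => (A x).sum fun y r => r • B y) n) ?_ c
  intro x
  rw [LinearMap.comp_apply, vmap_single, vmap_single, tens_eq_tenf, tens_eq_tenf, vmap_tenf]

theorem push_vmap {Z : Type*} (A : X → Y →₀ R) (f : Y → Z) (n : ℕ) (c : Cx R X n) :
    push R f n (vmap A n c) = vmap (fun x => (A x).mapDomain f) n c := by
  rw [push_eq_vmap, vmap_vmap]
  congr 2
  funext x
  rw [Finsupp.mapDomain]
  refine Finset.sum_congr rfl fun y _ => ?_
  change (A x y) • Finsupp.single (f y) (1 : R) = Finsupp.single (f y) (A x y)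
  rw [Finsupp.smul_single, smul_eq_mul, mul_one]

/-- the cone over the point `y` -/
noncomputable def cone (R : Type u) [CommRing R] (y : Y) (n : ℕ) : Cx R Y n →ₗ[R] Cx R Y (n + 1) :=
  Finsupp.linearCombination R fun z : Fin (n + 1) → Y =>
    Finsupp.single (Fin.cons y z : Fin (n + 2) → Y) (1 : R)

theorem cone_single (y : Y) (n : ℕ) (z : Fin (n + 1) → Y) :
    cone R y n (Finsupp.single z 1) = Finsupp.single (Fin.cons y z : Fin (n + 2) → Y) 1 := by
  rw [cone, Finsupp.linearCombination_single, one_smul]

theorem bd_cone (y : Y) (n : ℕ) (c : Cx R Y (n + 1)) :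
    bd R Y (n + 1) (cone R y (n + 1) c) = c - cone R y n (bd R Y n c) := by
  refine cx_ext (f := (bd R Y (n + 1)).comp (cone R y (n + 1)))
    (g := LinearMap.id - (cone R y n).comp (bd R Y n)) ?_ c
  intro z
  rw [LinearMap.comp_apply, LinearMap.sub_apply, LinearMap.comp_apply, cone_single, bd_single,
    bd_single, LinearMap.id_apply, Fin.sum_univ_succ, sub_eq_add_neg, map_sum, ← Finset.sum_neg_distrib]
  congr 1
  · rw [Fin.val_zero, pow_zero, one_smul]
    rfl
  · refine Finset.sum_congr rfl fun i _ => ?_
    rw [map_smul, cone_single, Fin.val_succ, pow_succ, mul_neg_one, neg_smul]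
    congr 3
    funext j
    refine Fin.cases ?_ (fun k => ?_) j
    · rw [Fin.succ_succAbove_zero, Fin.cons_zero, Fin.cons_zero]
    · rw [Fin.succ_succAbove_succ, Fin.cons_succ, Fin.cons_succ]

theorem bd_cone_zero (y : Y) (c : Cx R Y 0) :
    bd R Y 0 (cone R y 0 c) = c - Finsupp.linearCombination R (fun _ => (1 : R)) c •
      Finsupp.single (fun _ => y) (1 : R) := by
  refine cx_ext (f := (bd R Y 0).comp (cone R y 0))
    (g := LinearMap.id - (Finsupp.linearCombination R (fun _ => (1 : R))).smulRight
      (Finsupp.single (fun _ => y) (1 : R))) ?_ c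
  intro z
  rw [LinearMap.comp_apply, LinearMap.sub_apply, LinearMap.smulRight_apply, cone_single, bd_single,
    LinearMap.id_apply, Finsupp.linearCombination_single, one_smul, one_smul, Fin.sum_univ_two,
    sub_eq_add_neg]
  congr 1
  · rw [Fin.val_zero, pow_zero, one_smul]
    rfl
  · rw [Fin.val_one, pow_one, neg_smul, one_smul]
    congr 2
    funext j
    rw [Subsingleton.elim (α := Fin 1) j 0]
    rfl

theorem push_cone (t : Y → Y) (y : Y) (n : ℕ) (c : Cx R Y n) :
    push R t (n + 1) (cone R y n c) = cone R (t y) n (push R t n c) := by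
  refine cx_ext (f := (push R t (n + 1)).comp (cone R y n))
    (g := (cone R (t y) n).comp (push R t n)) ?_ c
  intro z
  rw [LinearMap.comp_apply, LinearMap.comp_apply, push_single, cone_single, cone_single, push_single]
  congr 1
  funext j
  refine Fin.cases ?_ (fun k => ?_) j
  · rfl
  · rfl

/-- the homotopy -/
noncomputable def hom (A B : X → Y →₀ R) (μ : R) (b : X → Y) : ∀ n, Cx R X n →ₗ[R] Cx R Y (n + 1)
  | 0 => Finsupp.linearCombination R fun x : Fin 1 → X =>
      cone R (b (x 0)) 0 (tens A 0 x - tens B 0 x)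
  | n + 1 => Finsupp.linearCombination R fun x : Fin (n + 2) → X =>
      cone R (b (x 0)) (n + 1) (tens A (n + 1) x - tens B (n + 1) x -
        μ • hom A B μ b n (bd R X n (Finsupp.single x 1)))

theorem hom_zero_single (A B : X → Y →₀ R) (μ : R) (b : X → Y) (x : Fin 1 → X) :
    hom A B μ b 0 (Finsupp.single x 1) = cone R (b (x 0)) 0 (tens A 0 x - tens B 0 x) := by
  rw [hom, Finsupp.linearCombination_single, one_smul]

theorem hom_succ_single (A B : X → Y →₀ R) (μ : R) (b : X → Y) (n : ℕ) (x : Fin (n + 2) → X) :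
    hom A B μ b (n + 1) (Finsupp.single x 1) = cone R (b (x 0)) (n + 1)
      (tens A (n + 1) x - tens B (n + 1) x - μ • hom A B μ b n (bd R X n (Finsupp.single x 1))) := by
  rw [hom, Finsupp.linearCombination_single, one_smul]

theorem bd_hom_zero (A B : X → Y →₀ R) (μ : R) (hA : ∀ x, mass (A x) = μ)
    (hB : ∀ x, mass (B x) = μ) (b : X → Y) (c : Cx R X 0) :
    bd R Y 0 (hom A B μ b 0 c) = vmap A 0 c - vmap B 0 c := by
  refine cx_ext (f := (bd R Y 0).comp (hom A B μ b 0)) (g := vmap A 0 - vmap B 0) ?_ c
  intro x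
  rw [LinearMap.comp_apply, LinearMap.sub_apply, hom_zero_single, bd_cone_zero, vmap_single,
    vmap_single, map_sub, tens_eq_tenf, tens_eq_tenf, total_tenf, total_tenf,
    Finset.prod_congr rfl fun i _ => hA (x i), Finset.prod_congr rfl fun i _ => hB (x i), sub_self,
    zero_smul, sub_zero]

theorem bd_hom_succ (A B : X → Y →₀ R) (μ : R) (hA : ∀ x, mass (A x) = μ)
    (hB : ∀ x, mass (B x) = μ) (b : X → Y) : ∀ (n : ℕ) (c : Cx R X (n + 1)),
    bd R Y (n + 1) (hom A B μ b (n + 1) c) + μ • hom A B μ b n (bd R X n c) =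
      vmap A (n + 1) c - vmap B (n + 1) c := by
  intro n
  induction n with
  | zero =>
    intro c
    refine cx_ext (f := (bd R Y 1).comp (hom A B μ b 1) + μ • (hom A B μ b 0).comp (bd R X 0))
      (g := vmap A 1 - vmap B 1) ?_ c
    intro x
    have hw : bd R Y 0 (tens A 1 x - tens B 1 x -
        μ • hom A B μ b 0 (bd R X 0 (Finsupp.single x 1))) = 0 := by
      rw [map_sub, map_sub, map_smul, bd_hom_zero A B μ hA hB, ← vmap_single, ← vmap_single,
        bd_vmap A μ hA, bd_vmap B μ hB, smul_sub, sub_self]
    rw [LinearMap.add_apply, LinearMap.comp_apply, LinearMap.smul_apply, LinearMap.comp_apply,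
      LinearMap.sub_apply, hom_succ_single, bd_cone, hw, map_zero, sub_zero, sub_add_cancel,
      vmap_single, vmap_single]
  | succ n ih =>
    intro c
    refine cx_ext (f := (bd R Y (n + 2)).comp (hom A B μ b (n + 2)) +
      μ • (hom A B μ b (n + 1)).comp (bd R X (n + 1)))
      (g := vmap A (n + 2) - vmap B (n + 2)) ?_ c
    intro x
    have h1 := ih (bd R X (n + 1) (Finsupp.single x 1))
    rw [bd_bd, map_zero, smul_zero, add_zero] at h1
    have hw : bd R Y (n + 1) (tens A (n + 2) x - tens B (n + 2) x -
        μ • hom A B μ b (n + 1) (bd R X (n + 1) (Finsupp.single x 1))) = 0 := by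
      rw [map_sub, map_sub, map_smul, h1, ← vmap_single, ← vmap_single,
        bd_vmap A μ hA, bd_vmap B μ hB, smul_sub, sub_self]
    rw [LinearMap.add_apply, LinearMap.comp_apply, LinearMap.smul_apply, LinearMap.comp_apply,
      LinearMap.sub_apply, hom_succ_single, bd_cone, hw, map_zero, sub_zero, sub_add_cancel,
      vmap_single, vmap_single]

theorem hom_push (A B : X → Y →₀ R) (μ : R) (b : X → Y) (s : X → X) (t : Y → Y)
    (hA : ∀ x, (A x).mapDomain t = A (s x)) (hB : ∀ x, (B x).mapDomain t = B (s x))
    (hb : ∀ x, t (b x) = b (s x)) : ∀ (n : ℕ) (c : Cx R X n),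
    hom A B μ b n (push R s n c) = push R t (n + 1) (hom A B μ b n c) := by
  have hA' : ∀ (n : ℕ) (x : Fin (n + 1) → X),
      tens A n (fun j => s (x j)) = push R t n (tens A n x) := by
    intro n x
    rw [← vmap_single A n x, push_vmap, vmap_single, tens_eq_tenf, tens_eq_tenf]
    congr 1
    funext i
    exact (hA (x i)).symm
  have hB' : ∀ (n : ℕ) (x : Fin (n + 1) → X),
      tens B n (fun j => s (x j)) = push R t n (tens B n x) := by
    intro n x
    rw [← vmap_single B n x, push_vmap, vmap_single, tens_eq_tenf, tens_eq_tenf]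
    congr 1
    funext i
    exact (hB (x i)).symm
  intro n
  induction n with
  | zero =>
    intro c
    refine cx_ext (f := (hom A B μ b 0).comp (push R s 0))
      (g := (push R t 1).comp (hom A B μ b 0)) ?_ c
    intro x
    rw [LinearMap.comp_apply, LinearMap.comp_apply, push_single, hom_zero_single, hom_zero_single,
      push_cone, hA', hB', hb, ← map_sub]
  | succ n ih =>
    intro c
    refine cx_ext (f := (hom A B μ b (n + 1)).comp (push R s (n + 1)))
      (g := (push R t (n + 2)).comp (hom A B μ b (n + 1))) ?_ c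
    intro x
    rw [LinearMap.comp_apply, LinearMap.comp_apply, push_single, hom_succ_single, hom_succ_single,
      push_cone, hA', hB', hb, ← push_single, bd_push, ih, ← map_sub, ← map_smul, ← map_sub]

/-- **The homotopy between two vertex maps with values in measures of the same mass.** -/
theorem exists_homotopy (A B : X → Y →₀ R) (μ : R) (hA : ∀ x, mass (A x) = μ)
    (hB : ∀ x, mass (B x) = μ) (b : X → Y) :
    ∃ H : ∀ n, Cx R X n →ₗ[R] Cx R Y (n + 1),
      (∀ n (c : Cx R X (n + 1)), bd R Y (n + 1) (H (n + 1) c) + μ • H n (bd R X n c) =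
        vmap A (n + 1) c - vmap B (n + 1) c) ∧
      ∀ (s : X → X) (t : Y → Y), (∀ x, (A x).mapDomain t = A (s x)) →
        (∀ x, (B x).mapDomain t = B (s x)) → (∀ x, t (b x) = b (s x)) →
        ∀ n (c : Cx R X n), H n (push R s n c) = push R t (n + 1) (H n c) :=
  ⟨hom A B μ b, bd_hom_succ A B μ hA hB b, fun s t h1 h2 h3 => hom_push A B μ b s t h1 h2 h3⟩

end

end Pool.Agent.H71.FQ
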