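import Pool.Agent.H71.FQ.Word

/-!
# Project FQ: the path of a periodic word

`P` is the word with the letters `(z_j⁻¹ z_{j+1}, j)`, `j = 0, …, k` (`z_{k+1} = z_0`); its product is `1`. In
`P ^ r * P'`, `P'` the word `P` with the last letter multiplied by `x` from the right, the vertex before each letter
with label `j` is `u * z_0⁻¹ * z_j`.
-/

set_option autoImplicit false

universe u v w

namespace Pool.Agent.H71.FQ

section

variable {G : Type u} [Group G] {k : ℕ}

/-- the letters `(z_j⁻¹ z_{j+1}, j)` -/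
def perL (z : Fin (k + 1) → G) : List (G × ℕ) :=
  List.ofFn fun j : Fin (k + 1) => ((z j)⁻¹ * z (j + 1), (j : ℕ))

/-- the letters except the last one -/
def perI (z : Fin (k + 1) → G) : List (G × ℕ) :=
  List.ofFn fun j : Fin k => ((z j.castSucc)⁻¹ * z j.succ, (j : ℕ))

theorem perL_eq (z : Fin (k + 1) → G) :
    perL z = perI z ++ [((z (Fin.last k))⁻¹ * z 0, k)] := by
  rw [perL, List.ofFn_succ', List.concat_eq_append, perI]
  congr 1
  · congr 1
    funext j
    rw [Fin.coeSucc_eq_succ, Fin.val_castSucc]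
  · rw [Fin.last_add_one, Fin.val_last]

theorem perI_succ (z : Fin (k + 2) → G) :
    perI z = perI (fun j : Fin (k + 1) => z j.castSucc) ++
      [((z (Fin.last k).castSucc)⁻¹ * z (Fin.last (k + 1)), k)] := by
  rw [perI, List.ofFn_succ', List.concat_eq_append, perI]
  congr 1

/-- the word of a list of letters -/
def wdL (L : List (G × ℕ)) : Wd G := (L.map fun a => let1 a.1 a.2).prod

omit [Group G] in
theorem wdL_nil : wdL ([] : List (G × ℕ)) = 1 := rfl

omit [Group G] in
theorem wdL_append (L M : List (G × ℕ)) : wdL (L ++ M) = wdL L * wdL M := by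
  rw [wdL, List.map_append, List.prod_append, wdL, wdL]

omit [Group G] in
theorem wdL_singleton (x : G) (l : ℕ) : wdL [(x, l)] = let1 x l := by
  rw [wdL, List.map_singleton, List.prod_singleton]

theorem prd_perI (z : Fin (k + 1) → G) : prd (wdL (perI z)) = (z 0)⁻¹ * z (Fin.last k) := by
  induction k with
  | zero =>
    rw [show perI z = [] from rfl, wdL_nil, map_one]
    exact (inv_mul_cancel _).symm
  | succ k ih =>
    rw [perI_succ, wdL_append, map_mul, ih, wdL_singleton, prd_let1]
    change (z 0)⁻¹ * z (Fin.last k).castSucc * _ = _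
    group

theorem prd_perL (z : Fin (k + 1) → G) : prd (wdL (perL z)) = 1 := by
  rw [perL_eq, wdL_append, map_mul, prd_perI, wdL_singleton, prd_let1]
  group

theorem occ_perI (z : Fin (k + 1) → G) (y : G) (m : ℕ) :
    occ m (wdL (perI z)) (y * z 0) =
      if h : m < k then [y * z ⟨m, h.trans (Nat.lt_succ_self k)⟩] else [] := by
  induction k with
  | zero => rw [show perI z = [] from rfl, wdL_nil, dif_neg (Nat.not_lt_zero m), occ_one]
  | succ k ih =>
    rw [perI_succ, wdL_append, occ_mul, wdL_singleton, occ_let1, prd_perI]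
    have h0 := ih (fun j : Fin (k + 1) => z j.castSucc)
    change occ m (wdL (perI fun j : Fin (k + 1) => z j.castSucc)) (y * z 0) = _ at h0
    rw [h0]
    change _ ++ (if k = m then [y * z 0 * ((z 0)⁻¹ * z (Fin.last k).castSucc)] else []) = _
    rcases lt_trichotomy m k with h | h | h
    · rw [dif_pos h, dif_pos (h.trans (Nat.lt_succ_self k)), if_neg h.ne', List.append_nil]
      rfl
    · subst h
      rw [dif_neg (lt_irrefl m), dif_pos (Nat.lt_succ_self m), if_pos rfl, List.nil_append]
      congr 1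
      rw [mul_assoc, mul_inv_cancel_left]
      rfl
    · rw [dif_neg h.not_gt, dif_neg (by omega), if_neg h.ne, List.nil_append]

theorem occ_perL (z : Fin (k + 1) → G) (y : G) (j : Fin (k + 1)) :
    occ (j : ℕ) (wdL (perL z)) (y * z 0) = [y * z j] := by
  rw [perL_eq, wdL_append, occ_mul, wdL_singleton, occ_let1, prd_perI, occ_perI]
  by_cases h : (j : ℕ) < k
  · rw [dif_pos h, if_neg h.ne', List.append_nil]
  · have hj : j = Fin.last k := Fin.ext (by have := j.2; rw [Fin.val_last]; omega)
    rw [dif_neg h, if_pos (by rw [hj, Fin.val_last]), List.nil_append, mul_assoc,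
      mul_inv_cancel_left, hj]

theorem prd_rep (r : ℕ) (z : Fin (k + 1) → G) :
    prd (wdL (List.replicate r (perL z)).flatten) = 1 := by
  induction r with
  | zero => rw [List.replicate_zero, List.flatten_nil, wdL_nil, map_one]
  | succ r ih => rw [List.replicate_succ, List.flatten_cons, wdL_append, map_mul, prd_perL, ih, one_mul]

theorem occ_rep (r : ℕ) (z : Fin (k + 1) → G) (y : G) (j : Fin (k + 1)) :
    occ (j : ℕ) (wdL (List.replicate r (perL z)).flatten) (y * z 0) =
      List.replicate r (y * z j) := by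
  induction r with
  | zero => rw [List.replicate_zero, List.flatten_nil, wdL_nil, occ_one, List.replicate_zero]
  | succ r ih =>
    rw [List.replicate_succ, List.flatten_cons, wdL_append, occ_mul, prd_perL, mul_one, ih,
      occ_perL, List.replicate_succ, List.singleton_append]

/-- the list of the letters of `P ^ r * (P without the last letter)` -/
def perT (r : ℕ) (z : Fin (k + 1) → G) : List (G × ℕ) :=
  (List.replicate r (perL z)).flatten ++ perI z

theorem prd_per (r : ℕ) (z : Fin (k + 1) → G) (x : G) :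
    prd (wdL (perT r z) * let1 ((z (Fin.last k))⁻¹ * z 0 * x) k) = x := by
  rw [map_mul, perT, wdL_append, map_mul, prd_rep, one_mul, prd_perI, prd_let1]
  group

theorem occ_per (r : ℕ) (z : Fin (k + 1) → G) (x u : G) (j : Fin (k + 1)) :
    occ (j : ℕ) (wdL (perT r z) * let1 ((z (Fin.last k))⁻¹ * z 0 * x) k) u =
      List.replicate (r + 1) (u * (z 0)⁻¹ * z j) := by
  have e : u = u * (z 0)⁻¹ * z 0 := by group
  have h1 : occ (j : ℕ) (wdL (perT r z) * let1 ((z (Fin.last k))⁻¹ * z 0 * x) k)
      (u * (z 0)⁻¹ * z 0) = List.replicate (r + 1) (u * (z 0)⁻¹ * z j) := by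
    rw [occ_mul, perT, wdL_append, occ_mul, map_mul, prd_rep, one_mul, mul_one, occ_rep, occ_perI,
      occ_let1, prd_perI, List.replicate_succ', List.append_assoc]
    congr 1
    by_cases h : (j : ℕ) < k
    · rw [dif_pos h, if_neg h.ne', List.append_nil]
    · have hj : j = Fin.last k := Fin.ext (by have := j.2; rw [Fin.val_last]; omega)
      rw [dif_neg h, if_pos (by rw [hj, Fin.val_last]), List.nil_append,
        mul_assoc _ (z 0) ((z 0)⁻¹ * z (Fin.last k)), mul_inv_cancel_left, hj]
  rw [← e] at h1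
  exact h1

/-- The value of `wf` on the periodic word. -/
theorem wf_per {B : Type v} [CommRing B] {c : G} {q : ℕ} (hq : 0 < q)
    {Φ : (Fin (k + 1) → Fin q → G) → B} (hΦ : IsInv c Φ) (z : Fin (k + 1) → G) (x u : G)
    (hu : u * x * u⁻¹ = c) (hz : ∀ j, z j * x = x * z j) :
    wf c Φ (fun j => (j : ℕ))
      (wdL (perT (q - 1) z) * let1 ((z (Fin.last k))⁻¹ * z 0 * x) k) = Φ fun j _ => u * z j := by
  have hq1 : q - 1 + 1 = q := by omega
  have hcnt : ∀ j : Fin (k + 1), cnt (j : ℕ)
      (wdL (perT (q - 1) z) * let1 ((z (Fin.last k))⁻¹ * z 0 * x) k) = q := by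
    intro j
    rw [cnt, occ_per, List.length_replicate, hq1]
  rw [wf_eq hΦ _ _ hcnt (u * z 0) (by
    rw [prd_per, ← hu, mul_assoc u, hz 0]
    group)]
  congr 1
  funext j t
  rw [rd, occ_per, List.getD_eq_getElem _ _ (by rw [List.length_replicate, hq1]; exact t.2),
    List.getElem_replicate]
  group

theorem wf_per_zero {B : Type v} [CommRing B] {c : G} {q : ℕ}
    (Φ : (Fin (k + 1) → Fin q → G) → B) (z : Fin (k + 1) → G) (x : G)
    (hu : ∀ u : G, u * x * u⁻¹ ≠ c) :
    wf c Φ (fun j => (j : ℕ))
      (wdL (perT (q - 1) z) * let1 ((z (Fin.last k))⁻¹ * z 0 * x) k) = 0 := by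
  refine wf_of_prd _ _ _ fun y => ?_
  rw [prd_per]
  exact hu y

end

end Pool.Agent.H71.FQ
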