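import Pool.Agent.H71.FJ.Nil

/-!
# Project FQ: finite rings

`exists_wedderburn`: a finite ring has a surjection with nilpotent kernel onto a finite product of matrix rings over
finite fields (Wedderburn-Artin, Wedderburn's little theorem, nilpotency of the radical).
-/

set_option autoImplicit false

open Matrix

universe u v w

namespace Pool.Agent.H71.FQ

open Pool.Agent.H71.FJ (NilKer)

section

variable (R : Type u) [Ring R]

variable {R} in
/-- a homomorphism whose kernel is in a nilpotent two-sided ideal -/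
theorem nilKer_of_pow {S : Type v} [Ring S] (φ : R →+* S) (I : Ideal R) [I.IsTwoSided] {N : ℕ}
    (hN : I ^ N = ⊥) (h : ∀ x, φ x = 0 → x ∈ I) : NilKer φ := by
  refine ⟨N, fun j => (I ^ j).toAddSubgroup, ?_, ?_, ?_⟩
  · intro x
    show x ∈ I ^ 0
    rw [Submodule.pow_zero, Ideal.one_eq_top]
    exact Submodule.mem_top
  · intro x hx
    have hx' : x ∈ I ^ N := hx
    rw [hN] at hx'
    exact hx'
  · intro j x y hx hy
    have hx' : φ x = 0 := hx
    have hy' : y ∈ I ^ j := hy
    show x * y ∈ I ^ (j + 1)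
    rw [Ideal.IsTwoSided.pow_succ]
    exact Ideal.mul_mem_mul (h x hx') hy'

variable {R} in
/-- a homomorphism whose kernel is nilpotent as an ideal -/
theorem nilKer_of_ker_pow {S : Type v} [Ring S] (φ : R →+* S) {N : ℕ}
    (hN : RingHom.ker φ ^ N = ⊥) : NilKer φ :=
  nilKer_of_pow φ (RingHom.ker φ) hN fun _ h => h

/-- The projection onto the quotient by the radical of a semiprimary ring has a nilpotent kernel. -/
theorem nilKer_jacobson [IsSemiprimaryRing R] {S : Type v} [Ring S]
    (f : R ⧸ Ring.jacobson R →+* S) (hf : Function.Injective f) :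
    NilKer (f.comp (Ideal.Quotient.mk (Ring.jacobson R))) := by
  obtain ⟨N, hN⟩ := IsSemiprimaryRing.isNilpotent (R := R)
  refine nilKer_of_pow _ (Ring.jacobson R) hN fun x hx => ?_
  exact Ideal.Quotient.eq_zero_iff_mem.1 ((map_eq_zero_iff f hf).1 hx)

/-- A finite division ring is a field. -/
theorem exists_field_of_finite (D : Type u) [hD : DivisionRing D] [Finite D] :
    ∃ F : Field D, F.toDivisionRing = hD :=
  ⟨littleWedderburn D, rfl⟩

/-- **Finite rings.** -/
theorem exists_wedderburn [Finite R] :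
    ∃ (n : ℕ) (F : Fin n → Type u) (_ : ∀ i, Field (F i)) (d : Fin n → ℕ)
      (f : R →+* ∀ i, Matrix (Fin (d i)) (Fin (d i)) (F i)),
      (∀ i, Finite (F i)) ∧ (∀ i, 0 < d i) ∧ Function.Surjective f ∧ NilKer f := by
  obtain ⟨n, D, d, hD, hd, ⟨e⟩⟩ :=
    IsSemisimpleRing.exists_ringEquiv_pi_matrix_divisionRing (R ⧸ Ring.jacobson R)
  have h1 : Finite (R ⧸ Ring.jacobson R) :=
    Finite.of_surjective (Ideal.Quotient.mk (Ring.jacobson R)) Ideal.Quotient.mk_surjective
  have h2 : Finite (∀ i, Matrix (Fin (d i)) (Fin (d i)) (D i)) := Finite.of_equiv _ e.toEquiv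
  have hfin : ∀ i, Finite (D i) := by
    intro i
    have : NeZero (d i) := hd i
    refine Finite.of_surjective
      (fun g : ∀ i, Matrix (Fin (d i)) (Fin (d i)) (D i) => g i 0 0) ?_
    intro x
    classical
    exact ⟨Function.update 0 i (fun _ _ => x), by simp⟩
  refine ⟨n, D, fun i => littleWedderburn (D i), d,
    RingHom.comp (γ := ∀ i, Matrix (Fin (d i)) (Fin (d i)) (D i)) e.toRingHom
      (Ideal.Quotient.mk (Ring.jacobson R)), hfin,
    fun i => Nat.pos_of_ne_zero (hd i).out, ?_, ?_⟩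
  · exact e.surjective.comp Ideal.Quotient.mk_surjective
  · exact nilKer_jacobson R (S := ∀ i, Matrix (Fin (d i)) (Fin (d i)) (D i)) e.toRingHom e.injective

/-- The same, `ι` finite. -/
theorem exists_semisimple_quotient [Finite R] :
    ∃ (ι : Type) (_ : Finite ι) (k : ι → Type u) (_ : ∀ i, Field (k i)) (_ : ∀ i, Finite (k i))
      (r : ι → ℕ) (_ : ∀ i, 0 < r i) (φ : R →+* (∀ i, Matrix (Fin (r i)) (Fin (r i)) (k i))),
      Function.Surjective φ ∧ NilKer φ := by
  obtain ⟨n, F, hF, d, f, h1, h2, h3, h4⟩ := exists_wedderburn R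
  exact ⟨Fin n, inferInstance, F, hF, h1, d, h2, f, h3, h4⟩

/-- The same with the characteristics. -/
theorem exists_wedderburn_char [Finite R] :
    ∃ (n : ℕ) (F : Fin n → Type u) (_ : ∀ i, Field (F i)) (d : Fin n → ℕ) (p : Fin n → ℕ)
      (f : R →+* ∀ i, Matrix (Fin (d i)) (Fin (d i)) (F i)),
      (∀ i, Finite (F i)) ∧ (∀ i, 0 < d i) ∧ (∀ i, (p i).Prime) ∧ (∀ i, CharP (F i) (p i)) ∧
        Function.Surjective f ∧ NilKer f := by
  obtain ⟨n, F, hF, d, f, h1, h2, h3, h4⟩ := exists_wedderburn R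
  choose p hp using fun i => CharP.exists (F i)
  refine ⟨n, F, hF, d, p, f, h1, h2, fun i => ?_, hp, h3, h4⟩
  have : Finite (F i) := h1 i
  have := hp i
  exact CharP.char_is_prime (F i) (p i)

end

end Pool.Agent.H71.FQ
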