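import Mathlib
import Pool.Agent.H71.FJ.Nil
import Pool.Agent.H71.FQ.Wed

/-!
# Project FQ: finite dimensional algebras split over a finite extension
-/

set_option autoImplicit false

open Matrix TensorProduct

universe u

namespace Pool.Agent.H71.FQ

open Pool.Agent.H71.FJ (NilKer)

section

theorem nilKer_comap {R S T U : Type*} [Ring R] [Ring S] [Ring T] [Ring U] {f : S →+* T} (hf : NilKer f)
    (j : R → S) (hadd : ∀ x y, j (x + y) = j x + j y) (hmul : ∀ x y, j (x * y) = j x * j y)
    (hj : Function.Injective j) (φ : R →+* U) (h : ∀ x, φ x = 0 → f (j x) = 0) : NilKer φ := by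
  obtain ⟨N, J, h0, hN, hJ⟩ := hf
  let ja : R →+ S := AddMonoidHom.mk' j hadd
  refine ⟨N, fun n => (J n).comap ja, fun x => h0 (j x), fun x hx => ?_, fun n x y hx hy => ?_⟩
  · have h1 : ja x = 0 := hN _ hx
    exact hj (h1.trans (map_zero ja).symm)
  · have h1 : j x * j y ∈ J (n + 1) := hJ n _ _ (h x hx) hy
    rw [← hmul] at h1
    exact h1

/-- over an algebraically closed field -/
theorem exists_splitting_closed (K : Type u) [Field K] [IsAlgClosed K] (B : Type u) [Ring B] [Algebra K B]
    [Module.Finite K B] : ∃ (m : ℕ) (r : Fin m → ℕ) (f : B →ₐ[K] ∀ i, Matrix (Fin (r i)) (Fin (r i)) K),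
      (∀ i, 0 < r i) ∧ Function.Surjective f ∧ NilKer f.toRingHom := by
  have hB : IsArtinianRing B := IsArtinianRing.of_finite K B
  obtain ⟨m, r, hr, ⟨e⟩⟩ :=
    IsSemisimpleRing.exists_algEquiv_pi_matrix_of_isAlgClosed K (B ⧸ Ring.jacobson B)
  refine ⟨m, r, e.toAlgHom.comp (Ideal.Quotient.mkₐ K (Ring.jacobson B)),
    fun i => Nat.pos_of_ne_zero (hr i).out, ?_, ?_⟩
  · exact e.surjective.comp Ideal.Quotient.mk_surjective
  · exact nilKer_jacobson B (S := ∀ i, Matrix (Fin (r i)) (Fin (r i)) K) (e : _ →+* _) e.injective

variable (k : Type u) [Field k] (A : Type u) [Ring A] [Algebra k A] [Module.Finite k A]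

/-- **Splitting over a finite extension.** -/
theorem exists_splitting : ∃ (L : Type u) (_ : Field L) (_ : Algebra k L) (_ : Module.Finite k L) (m : ℕ)
    (r : Fin m → ℕ) (φ : TensorProduct k L A →+* ∀ i, Matrix (Fin (r i)) (Fin (r i)) L),
      (∀ i, 0 < r i) ∧ Function.Surjective φ ∧ NilKer φ := by
  classical
  obtain ⟨m, r, f, hr, hf, hnil⟩ := exists_splitting_closed (AlgebraicClosure k) (AlgebraicClosure k ⊗[k] A)
  obtain ⟨N, s, hs⟩ := Module.Finite.exists_fin (R := k) (M := A)
  let T : Set (AlgebraicClosure k) := Set.range fun t : Fin N × (Σ i : Fin m, Fin (r i) × Fin (r i)) =>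
    f (1 ⊗ₜ s t.1) t.2.1 t.2.2.1 t.2.2.2
  let L : IntermediateField k (AlgebraicClosure k) := IntermediateField.adjoin k T
  have hfin : FiniteDimensional k L := by
    have hT : T.Finite := Set.finite_range _
    have hT' : Finite T := hT
    exact IntermediateField.finiteDimensional_adjoin (K := k) (S := T) fun x _ => Algebra.IsIntegral.isIntegral x
  have hmem : ∀ (a : A) (i : Fin m) (x y : Fin (r i)), f (1 ⊗ₜ a) i x y ∈ L := by
    intro a i x y
    have ha : a ∈ Submodule.span k (Set.range s) := by rw [hs]; trivial
    induction ha using Submodule.span_induction with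
    | mem a h =>
      obtain ⟨t, rfl⟩ := h
      exact IntermediateField.subset_adjoin k T ⟨(t, ⟨i, x, y⟩), rfl⟩
    | zero =>
      rw [TensorProduct.tmul_zero, map_zero]
      exact L.zero_mem
    | add a b _ _ ha hb =>
      rw [TensorProduct.tmul_add, map_add]
      exact L.add_mem ha hb
    | smul c a _ ha =>
      have h1 : f (1 ⊗ₜ (c • a)) i x y = c • f (1 ⊗ₜ a) i x y := by
        have h2 : ((1 : AlgebraicClosure k) ⊗ₜ[k] (c • a)) = (algebraMap k (AlgebraicClosure k) c) • ((1 : AlgebraicClosure k) ⊗ₜ[k] a) := by
          rw [TensorProduct.smul_tmul', TensorProduct.tmul_smul, TensorProduct.smul_tmul', smul_eq_mul, mul_one, Algebra.smul_def, mul_one]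
        rw [h2, map_smul]
        simp [Algebra.smul_def]
      rw [h1]
      exact L.smul_mem ha
  -- the matrices over `L` and over the algebraic closure
  let ι : (∀ i, Matrix (Fin (r i)) (Fin (r i)) L) →+* (∀ i, Matrix (Fin (r i)) (Fin (r i)) (AlgebraicClosure k)) :=
    RingHom.pi fun i => (algebraMap L (AlgebraicClosure k)).mapMatrix.comp (Pi.evalRingHom _ i)
  have hι : ∀ v i x y, ι v i x y = algebraMap L (AlgebraicClosure k) (v i x y) := fun v i x y => rfl
  have hιinj : Function.Injective ι := by
    intro v w h
    funext i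
    refine Matrix.ext fun x y => ?_
    have h1 := congrFun (congrFun (congrFun h i) x) y
    rw [hι, hι] at h1
    exact (algebraMap L (AlgebraicClosure k)).injective h1
  let g0 : A → ∀ i, Matrix (Fin (r i)) (Fin (r i)) L := fun a i => Matrix.of fun x y =>
    (⟨f (1 ⊗ₜ a) i x y, hmem a i x y⟩ : L)
  have hg0 : ∀ a, ι (g0 a) = f (1 ⊗ₜ a) := fun a => rfl
  let g : A →ₐ[k] ∀ i, Matrix (Fin (r i)) (Fin (r i)) L :=
    { toFun := g0
      map_one' := hιinj (by
        rw [hg0, map_one ι, ← map_one f]
        rfl)
      map_mul' := fun a b => hιinj (by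
        rw [map_mul ι, hg0, hg0, hg0, ← map_mul f, Algebra.TensorProduct.tmul_mul_tmul, one_mul])
      map_zero' := hιinj (by rw [hg0, map_zero ι, TensorProduct.tmul_zero, map_zero])
      map_add' := fun a b => hιinj (by rw [map_add ι, hg0, hg0, hg0, ← map_add f, TensorProduct.tmul_add])
      commutes' := fun c => hιinj (by
        rw [hg0]
        have h1 : ((1 : AlgebraicClosure k) ⊗ₜ[k] algebraMap k A c) =
            algebraMap (AlgebraicClosure k) (AlgebraicClosure k ⊗[k] A) (algebraMap k (AlgebraicClosure k) c) := by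
          rw [Algebra.algebraMap_eq_smul_one c, TensorProduct.tmul_smul, TensorProduct.smul_tmul',
            Algebra.TensorProduct.algebraMap_apply, Algebra.algebraMap_eq_smul_one c]
          rfl
        rw [h1, AlgHom.commutes]
        funext i
        refine Matrix.ext fun x y => ?_
        rw [hι, Pi.algebraMap_apply, Pi.algebraMap_apply, Matrix.algebraMap_matrix_apply,
          Matrix.algebraMap_matrix_apply]
        split_ifs
        · exact IsScalarTower.algebraMap_apply k L (AlgebraicClosure k) c
        · exact (map_zero _).symm) }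
  let φ : L ⊗[k] A →ₐ[L] ∀ i, Matrix (Fin (r i)) (Fin (r i)) L :=
    Algebra.TensorProduct.lift (Algebra.ofId L _) g fun x y => Algebra.commutes x (g y)
  let j : L ⊗[k] A →ₐ[k] AlgebraicClosure k ⊗[k] A := Algebra.TensorProduct.map L.val (AlgHom.id k A)
  have hj : Function.Injective j := by
    have h1 := Module.Flat.rTensor_preserves_injective_linearMap (M := A) L.val.toLinearMap L.val.injective
    exact h1
  have key : ∀ z, ι (φ z) = f (j z) := by
    intro z
    induction z using TensorProduct.induction_on with
    | zero => rw [map_zero, map_zero, map_zero, map_zero]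
    | add z w hz hw => rw [map_add, map_add, map_add, map_add, hz, hw]
    | tmul l a =>
      have h1 : j (l ⊗ₜ a) = (l : AlgebraicClosure k) • ((1 : AlgebraicClosure k) ⊗ₜ[k] a) := by
        rw [TensorProduct.smul_tmul', smul_eq_mul, mul_one]
        rfl
      have h2 : φ (l ⊗ₜ a) = algebraMap L _ l * g a := rfl
      rw [h1, map_smul, h2, map_mul, Algebra.smul_def]
      congr 1
      funext i
      refine Matrix.ext fun x y => ?_
      rw [hι, Pi.algebraMap_apply, Pi.algebraMap_apply, Matrix.algebraMap_matrix_apply,
        Matrix.algebraMap_matrix_apply]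
      split_ifs
      · rfl
      · exact map_zero _
  have hker : ∀ x, φ x = 0 → f (j x) = 0 := by
    intro x h1
    have h2 := key x
    rw [h1, map_zero] at h2
    exact h2.symm
  have hsurj : Function.Surjective φ := by
    by_contra hns
    have hlt : LinearMap.range φ.toLinearMap < ⊤ := by
      rw [lt_top_iff_ne_top]
      intro h
      exact hns (LinearMap.range_eq_top.1 h)
    obtain ⟨lam, hlam, hle⟩ := Submodule.exists_le_ker_of_lt_top _ hlt
    apply hlam
    -- the coefficients
    have hdec : ∀ v : (∀ i, Matrix (Fin (r i)) (Fin (r i)) L), v = ∑ i, ∑ x, ∑ y, v i x y •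
        (Pi.single i (Matrix.single x y (1 : L)) : ∀ i, Matrix (Fin (r i)) (Fin (r i)) L) := by
      intro v
      have h1 : ∀ i, (Pi.single i (v i) : ∀ i, Matrix (Fin (r i)) (Fin (r i)) L) = ∑ x, ∑ y, v i x y •
          (Pi.single i (Matrix.single x y (1 : L)) : ∀ i, Matrix (Fin (r i)) (Fin (r i)) L) := by
        intro i
        have h2 : v i = ∑ x, ∑ y, v i x y • Matrix.single x y (1 : L) := by
          conv_lhs => rw [Matrix.matrix_eq_sum_single (v i)]
          simp only [Matrix.smul_single, smul_eq_mul, mul_one]
        show LinearMap.single L (fun i => Matrix (Fin (r i)) (Fin (r i)) L) i (v i) = _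
        conv_lhs => rw [h2]
        simp only [map_sum, map_smul]
        rfl
      conv_lhs => rw [← Finset.univ_sum_single v]
      exact Finset.sum_congr rfl fun i _ => h1 i
    have hlam' : ∀ v : (∀ i, Matrix (Fin (r i)) (Fin (r i)) L), lam v = ∑ i, ∑ x, ∑ y, v i x y *
        lam (Pi.single i (Matrix.single x y (1 : L))) := by
      intro v
      conv_lhs => rw [hdec v]
      simp only [map_sum, map_smul, smul_eq_mul]
    have hlamK : ∀ z : AlgebraicClosure k ⊗[k] A, ∑ i, ∑ x, ∑ y, f z i x y *
        algebraMap L (AlgebraicClosure k) (lam (Pi.single i (Matrix.single x y (1 : L)))) = 0 := by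
      intro z
      induction z using TensorProduct.induction_on with
      | zero =>
        rw [map_zero]
        simp
      | add z w hz hw =>
        rw [map_add]
        simp only [Pi.add_apply, Matrix.add_apply, add_mul, Finset.sum_add_distrib]
        rw [hz, hw, add_zero]
      | tmul c a =>
        have h1 : (c ⊗ₜ a : AlgebraicClosure k ⊗[k] A) = c • ((1 : AlgebraicClosure k) ⊗ₜ[k] a) := by
          rw [TensorProduct.smul_tmul', smul_eq_mul, mul_one]
        have h2 : lam (g a) = 0 := by
          have h3 : g a ∈ LinearMap.range φ.toLinearMap := ⟨1 ⊗ₜ a, by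
            show algebraMap L _ (1 : L) * g a = g a
            rw [map_one, one_mul]⟩
          exact LinearMap.mem_ker.1 (hle h3)
        have h4 : ∑ i, ∑ x, ∑ y, f (1 ⊗ₜ a) i x y *
            algebraMap L (AlgebraicClosure k) (lam (Pi.single i (Matrix.single x y (1 : L)))) = 0 := by
          have h5 := congrArg (algebraMap L (AlgebraicClosure k)) ((hlam' (g a)).symm.trans h2)
          simp only [map_sum, map_mul, map_zero] at h5
          exact h5
        rw [h1, map_smul]
        simp only [Pi.smul_apply, Matrix.smul_apply, smul_eq_mul, mul_assoc]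
        simp only [← Finset.mul_sum]
        rw [h4, mul_zero]
    have hz : ∀ i x y, lam (Pi.single i (Matrix.single x y (1 : L))) = 0 := by
      intro i x y
      obtain ⟨z, hz⟩ := hf (Pi.single i (Matrix.single x y 1))
      have h1 := hlamK z
      rw [hz, Finset.sum_eq_single i, Finset.sum_eq_single x, Finset.sum_eq_single y, Pi.single_eq_same,
        Matrix.single_apply_same, one_mul] at h1
      · exact (algebraMap L (AlgebraicClosure k)).injective (h1.trans (map_zero _).symm)
      · intro y' _ hy'
        rw [Pi.single_eq_same, Matrix.single_apply_of_ne _ _ _ _ _ (fun h => hy' h.2.symm), zero_mul]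
      · intro h
        exact absurd (Finset.mem_univ _) h
      · intro x' _ hx'
        refine Finset.sum_eq_zero fun y' _ => ?_
        rw [Pi.single_eq_same, Matrix.single_apply_of_ne _ _ _ _ _ (fun h => hx' h.1.symm), zero_mul]
      · intro h
        exact absurd (Finset.mem_univ _) h
      · intro i' _ hi'
        refine Finset.sum_eq_zero fun x' _ => Finset.sum_eq_zero fun y' _ => ?_
        rw [Pi.single_eq_of_ne hi', Matrix.zero_apply, zero_mul]
      · intro h
        exact absurd (Finset.mem_univ _) h
    refine LinearMap.ext fun v => ?_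
    rw [hdec v]
    simp only [map_sum, map_smul, hz, smul_zero, Finset.sum_const_zero, LinearMap.zero_apply]
  have hnilφ : NilKer φ.toRingHom :=
    nilKer_comap hnil j (fun x y => map_add j x y) (fun x y => map_mul j x y) hj _ hker
  exact ⟨L, inferInstance, inferInstance, hfin, m, r, φ.toRingHom, hr, hsurj, hnilφ⟩

end

end Pool.Agent.H71.FQ
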