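import Pool.Agent.H71.FQ.Main
import Pool.Agent.H71.FQ.Prod
import Pool.Agent.H71.FQ.MorD
import Pool.Agent.H71.FQ.Split
import Pool.Agent.H71.FQ.Wed

/-!
# Rational injectivity for finite rings and finite-dimensional algebras

`main_fd`: finite-dimensional algebras over fields of positive characteristic. `main_nil`: rings with a surjection with
nilpotent kernel onto a finite product of such algebras. `main_finite`: finite rings.
-/

set_option autoImplicit false

open Matrix

universe u v

namespace Pool.Agent.H71.FQ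

open Pool.Agent.H71.FJ (NilKer)

/-- The conditions on the group for the prime `p` and the degree `n`. -/
structure CondP (p : ℕ) [Fact p.Prime] (G : Type v) [Group G] (n : ℕ) : Prop where
  /-- the orders of the elements of order a power of `p` are bounded -/
  tors : ∃ r : ℕ, ∀ g : G, (∃ j : ℕ, g ^ p ^ j = 1) → g ^ p ^ r = 1
  /-- the homology of the centralizers is separated -/
  sep : ∀ C : Subgroup G, Finite C → IsCyclic C → ¬ p ∣ Nat.card C →
    PSep p (Subgroup.centralizer (C : Set G)) n

theorem main_field (p : ℕ) [Fact p.Prime] (k : Type u) [Field k] [CharP k p] (G : Type v) [Group G]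
    (n : ℕ) (h : CondP p G n) : RatInj (assemblyN k n G) := by
  obtain ⟨r, hr⟩ := h.tors
  exact main p k G r hr n h.sep

/-- **Finite-dimensional algebras.** -/
theorem main_fd (p : ℕ) [Fact p.Prime] (k : Type u) [Field k] [CharP k p] (A : Type u) [Ring A]
    [Algebra k A] [Module.Finite k A] (G : Type v) [Group G] (n : ℕ) (h : CondP p G n) :
    RatInj (assemblyN A n G) := by
  obtain ⟨L, _, _, _, m, r, φ, hr, hs, hn⟩ := exists_splitting k A
  have : CharP L p := charP_of_injective_algebraMap (algebraMap k L).injective p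
  refine ratInj_finExt k L A (ratInj_of_nilKer n hs hn (ratInj_pi _ n fun i => ?_))
  exact ratInj_matrix (r i) (hr i) (main_field p L G n h)

/-- **Rings with a nilpotent ideal and a finite product of finite-dimensional algebras as quotient.** -/
theorem main_nil {ι : Type} [Finite ι] (p : ι → ℕ) [∀ i, Fact (p i).Prime] (k : ι → Type u)
    [∀ i, Field (k i)] [∀ i, CharP (k i) (p i)] (A : ι → Type u) [∀ i, Ring (A i)]
    [∀ i, Algebra (k i) (A i)] [∀ i, Module.Finite (k i) (A i)] (R : Type u) [Ring R]
    (φ : R →+* ∀ i, A i) (hs : Function.Surjective φ) (hn : NilKer φ) (G : Type v) [Group G]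
    (n : ℕ) (h : ∀ i, CondP (p i) G n) : RatInj (assemblyN R n G) :=
  ratInj_of_nilKer n hs hn (ratInj_pi _ n fun i => main_fd (p i) (k i) (A i) G n (h i))

/-- **Finite rings.** -/
theorem main_finite (R : Type u) [Ring R] [Finite R] (G : Type v) [Group G] (n : ℕ)
    (h : ∀ (p : ℕ) [Fact p.Prime], p ∣ Nat.card R → CondP p G n) : RatInj (assemblyN R n G) := by
  obtain ⟨m, F, hF, d, p, φ, hfin, hd, hp, hc, hs, hn⟩ := exists_wedderburn_char R
  refine ratInj_of_nilKer n hs hn (ratInj_pi _ n fun i => ?_)
  have : Fact (p i).Prime := ⟨hp i⟩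
  refine ratInj_matrix (d i) (hd i) (main_field (p i) (F i) G n (h (p i) ?_))
  have h1 : ((Nat.card R : ℕ) : R) = 0 := by
    rw [← nsmul_one]
    exact card_nsmul_eq_zero'
  have h2 : φ ((Nat.card R : ℕ) : R) i = 0 := by
    rw [h1, map_zero]
    rfl
  have h3 : ((Nat.card R : ℕ) : Matrix (Fin (d i)) (Fin (d i)) (F i)) = 0 := by
    rw [map_natCast] at h2
    exact h2
  have h4 := congrArg (fun M : Matrix (Fin (d i)) (Fin (d i)) (F i) => M ⟨0, hd i⟩ ⟨0, hd i⟩) h3
  have : CharP (F i) (p i) := hc i
  refine (CharP.cast_eq_zero_iff (F i) (p i) _).1 ?_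
  simpa [Matrix.natCast_apply] using h4

end Pool.Agent.H71.FQ
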