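import Pool.Agent.H71.FQ.Asm

/-!
# Project FQ, Morita invariance, part A: flattening of matrices over matrix rings
-/

set_option autoImplicit false

open Matrix

universe u v w

namespace Pool.Agent.H71.FQ

open Pool.Agent.H71.FJ (MatEquiv IdemMat K0 K0.mk K0.lift K0.lift_mk K0.hom_ext K0.map K0.flat
  K0.flat_mul K0.push K0.push_mk K0.cls K0.cls_congr K0.cls_fromBlocks K0.flat_idem
  K0.fromBlocks_idem K0.matEquiv_submatrix)
open Pool.Agent.H71.DB (bmat bU bmat_mul bmat_one)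

section

variable {A : Type u} [Ring A] {n : ℕ} {Γ : Type w} [Group Γ]

/-- **Isomorphic representations give the same class.** -/
theorem KQ.cls_iso {N M : ℕ} (f : Γ →* GLm N A) (g : Γ →* GLm M A)
    (P : Matrix (Fin N) (Fin M) A) (Q : Matrix (Fin M) (Fin N) A) (hPQ : P * Q = 1)
    (hQP : Q * P = 1) (h : ∀ γ, (f γ).val * P = P * (g γ).val) (x : HG Γ n) :
    KQ.cls A n N (HG.map n f x) = KQ.cls A n M (HG.map n g x) := by
  have hW : fromBlocks 0 P Q 0 * fromBlocks 0 P Q 0 = 1 := by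
    rw [fromBlocks_multiply, ← fromBlocks_one]
    simp [hPQ, hQP]
  refine KQ.cls_congr f g ⟨fromBlocks 0 P Q 0, fromBlocks 0 P Q 0, hW, hW⟩ (fun γ => ?_) x
  show fromBlocks (f γ).val 0 0 1 * fromBlocks 0 P Q 0 =
    fromBlocks 0 P Q 0 * fromBlocks 1 0 0 (g γ).val
  rw [fromBlocks_multiply, fromBlocks_multiply]
  simp [h γ]

/-- representations which differ by the numbering of the basis -/
theorem KQ.cls_reindex {N M : ℕ} {ι : Type*} [Fintype ι] [DecidableEq ι] (e : Fin N ≃ ι)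
    (e' : Fin M ≃ ι) (X : Γ → Matrix ι ι A) (f : Γ →* GLm N A) (g : Γ →* GLm M A)
    (hf : ∀ γ, (f γ).val = (X γ).submatrix e e) (hg : ∀ γ, (g γ).val = (X γ).submatrix e' e')
    (x : HG Γ n) : KQ.cls A n N (HG.map n f x) = KQ.cls A n M (HG.map n g x) := by
  refine KQ.cls_iso f g ((1 : Matrix ι ι A).submatrix e e') ((1 : Matrix ι ι A).submatrix e' e)
    ?_ ?_ (fun γ => ?_) x
  · rw [submatrix_mul_equiv, Matrix.one_mul, submatrix_one_equiv]
  · rw [submatrix_mul_equiv, Matrix.one_mul, submatrix_one_equiv]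
  · rw [hf, hg, submatrix_mul_equiv, submatrix_mul_equiv, Matrix.mul_one, Matrix.one_mul]

end

section

variable {A : Type u} [Ring A] {A' : Type v} [Ring A'] {n r : ℕ}

/-- the numbering of the flattened basis -/
def fE (N r : ℕ) : Fin (N * r) ≃ Fin N × Fin r := finProdFinEquiv.symm

theorem flat_one (φ : A →+* Matrix (Fin r) (Fin r) A') {ι : Type*} [DecidableEq ι] :
    K0.flat φ (1 : Matrix ι ι A) = 1 := by
  ext ⟨i, a⟩ ⟨j, b⟩
  by_cases hij : i = j
  · subst hij
    simp [K0.flat, Matrix.one_apply]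
  · simp [K0.flat, Matrix.one_apply, hij]

/-- The homomorphism `GL_N(A) → GL_{Nr}(A')` induced by a homomorphism `A → Mat_r(A')`. -/
def flatGL (φ : A →+* Matrix (Fin r) (Fin r) A') (N : ℕ) : GLm N A →* GLm (N * r) A' where
  toFun X :=
    { val := (K0.flat φ X.val).submatrix (fE N r) (fE N r)
      inv := (K0.flat φ X.inv).submatrix (fE N r) (fE N r)
      val_inv := by
        rw [submatrix_mul_equiv, ← K0.flat_mul, Units.val_inv, flat_one, submatrix_one_equiv]
      inv_val := by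
        rw [submatrix_mul_equiv, ← K0.flat_mul, Units.inv_val, flat_one, submatrix_one_equiv] }
  map_one' := by
    apply Units.ext
    show (K0.flat φ (1 : Matrix (Fin N) (Fin N) A)).submatrix (fE N r) (fE N r) = 1
    rw [flat_one, submatrix_one_equiv]
  map_mul' X Y := by
    apply Units.ext
    show (K0.flat φ (X.val * Y.val)).submatrix (fE N r) (fE N r) =
      (K0.flat φ X.val).submatrix (fE N r) (fE N r) * (K0.flat φ Y.val).submatrix (fE N r) (fE N r)
    rw [submatrix_mul_equiv, K0.flat_mul]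

theorem flatGL_val (φ : A →+* Matrix (Fin r) (Fin r) A') (N : ℕ) (X : GLm N A) :
    (flatGL φ N X).val = (K0.flat φ X.val).submatrix (fE N r) (fE N r) := rfl

theorem flat_fromBlocks (φ : A →+* Matrix (Fin r) (Fin r) A') {ι κ : Type*} (e : Matrix ι ι A)
    (f : Matrix κ κ A) : K0.flat φ (fromBlocks e 0 0 f) =
      (fromBlocks (K0.flat φ e) 0 0 (K0.flat φ f)).submatrix (Equiv.sumProdDistrib ι κ (Fin r))
        (Equiv.sumProdDistrib ι κ (Fin r)) := by
  ext ⟨i, a⟩ ⟨j, b⟩
  rcases i with i | i <;> rcases j with j | j <;> simp [K0.flat]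

theorem KQ.push_aux (φ : A →+* Matrix (Fin r) (Fin r) A') (N M : ℕ)
    (w : HG (GLm N A × GLm M A) n) :
    KQ.cls A' n ((N + M) * r) (HG.map n (flatGL φ (N + M)) (HG.map n (blk N M A) w)) =
      KQ.cls A' n (N * r) (HG.map n (flatGL φ N) (HG.map n (MonoidHom.fst (GLm N A) (GLm M A)) w)) +
        KQ.cls A' n (M * r)
          (HG.map n (flatGL φ M) (HG.map n (MonoidHom.snd (GLm N A) (GLm M A)) w)) := by
  rw [HG.map_map, HG.map_map, HG.map_map, ← KQ.cls_pair]
  refine KQ.cls_reindex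
    ((fE (N + M) r).trans ((Equiv.prodCongr finSumFinEquiv.symm (Equiv.refl (Fin r))).trans
      (Equiv.sumProdDistrib (Fin N) (Fin M) (Fin r))))
    (finSumFinEquiv.symm.trans (Equiv.sumCongr (fE N r) (fE M r)))
    (fun w => fromBlocks (K0.flat φ w.1.val) 0 0 (K0.flat φ w.2.val)) _ _ (fun w => ?_)
    (fun w => ?_) w
  · show (K0.flat φ (blkM w.1.val w.2.val)).submatrix (fE (N + M) r) (fE (N + M) r) = _
    have h1 : K0.flat φ (blkM w.1.val w.2.val) =
        (K0.flat φ (fromBlocks w.1.val 0 0 w.2.val)).submatrix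
          (Equiv.prodCongr finSumFinEquiv.symm (Equiv.refl (Fin r)))
          (Equiv.prodCongr finSumFinEquiv.symm (Equiv.refl (Fin r))) := rfl
    rw [h1, flat_fromBlocks]
    rfl
  · show blkM ((K0.flat φ w.1.val).submatrix (fE N r) (fE N r))
      ((K0.flat φ w.2.val).submatrix (fE M r) (fE M r)) = _
    rw [blkM]
    have h2 : fromBlocks ((K0.flat φ w.1.val).submatrix (fE N r) (fE N r)) 0 0
        ((K0.flat φ w.2.val).submatrix (fE M r) (fE M r)) =
        (fromBlocks (K0.flat φ w.1.val) 0 0 (K0.flat φ w.2.val)).submatrix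
          (Equiv.sumCongr (fE N r) (fE M r)) (Equiv.sumCongr (fE N r) (fE M r)) := by
      ext i j
      rcases i with i | i <;> rcases j with j | j <;> rfl
    rw [h2]
    rfl

/-- The homomorphism `KQ A n → KQ A' n` induced by a homomorphism `A → Mat_r(A')`. -/
noncomputable def KQ.push (φ : A →+* Matrix (Fin r) (Fin r) A') : KQ A n →+ KQ A' n :=
  KQ.lift (fun N => (KQ.cls A' n (N * r)).comp (HG.map n (flatGL φ N))) (KQ.push_aux φ)

theorem KQ.push_cls (φ : A →+* Matrix (Fin r) (Fin r) A') (N : ℕ) (x : HG (GLm N A) n) :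
    KQ.push φ (KQ.cls A n N x) = KQ.cls A' n (N * r) (HG.map n (flatGL φ N) x) :=
  KQ.lift_cls _ _ N x

end

section

variable {A : Type u} [Ring A] {A' : Type v} [Ring A'] {B : Type*} [Ring B] {B' : Type*} [Ring B']
  {Γ : Type w} [Group Γ] {n r : ℕ}

/-- **Flattening and the product.** -/
theorem push_asm (φ : A →+* Matrix (Fin r) (Fin r) A') (φ' : B →+* Matrix (Fin r) (Fin r) B')
    (ψ : B →+* A) (ψ' : B' →+* A') (κ : Γ →* Aˣ) (κ' : Γ →* A'ˣ)
    (hκ : ∀ γ b, ψ b * (κ γ : A) = κ γ * ψ b) (hκ' : ∀ γ b, ψ' b * (κ' γ : A') = κ' γ * ψ' b)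
    (h1 : ∀ b, φ (ψ b) = (φ' b).map ψ')
    (h2 : ∀ γ, φ (κ γ : A) = Matrix.diagonal fun _ => (κ' γ : A')) (x : K0 B) (z : HG Γ n) :
    KQ.push φ (asm n ψ κ hκ x z) = asm n ψ' κ' hκ' (K0.push φ' x) z := by
  suffices H : (AddMonoidHom.compHom (KQ.push φ)).comp (asm n ψ κ hκ) =
      (asm n ψ' κ' hκ').comp (K0.push φ') from
    DFunLike.congr_fun (DFunLike.congr_fun H x) z
  apply K0.hom_ext
  intro a
  apply AddMonoidHom.ext
  intro z
  change KQ.push φ (asm n ψ κ hκ (K0.mk a) z) = asm n ψ' κ' hκ' (K0.push φ' (K0.mk a)) z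
  rw [asm_mk, KQ.push_cls, HG.map_map, K0.push_mk, K0.cls, asm_mk]
  refine KQ.cls_reindex (fE a.n r) (Fintype.equivFin (Fin a.n × Fin r)).symm
    (fun γ => bmat ψ' (K0.flat φ' a.mat) (κ' γ : A')) _ _ (fun γ => ?_) (fun γ => ?_) z
  · change (K0.flat φ (bmat ψ a.mat (κ γ : A))).submatrix (fE a.n r) (fE a.n r) = _
    congr 1
    ext ⟨i, c⟩ ⟨j, d⟩
    have h3 : φ (ψ (a.mat i j) * ((κ γ : A) - 1)) =
        (φ' (a.mat i j)).map ψ' * Matrix.diagonal fun _ => ((κ' γ : A') - 1) := by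
      rw [map_mul, map_sub, map_one, h1, h2, ← Matrix.diagonal_one, Matrix.diagonal_sub]
    have h4 : φ ((1 : Matrix (Fin a.n) (Fin a.n) A) i j) c d =
        (1 : Matrix (Fin a.n × Fin r) (Fin a.n × Fin r) A') (i, c) (j, d) := by
      have h5 := congrFun (congrFun (flat_one φ (ι := Fin a.n)) (i, c)) (j, d)
      exact h5
    change φ (bmat ψ a.mat (κ γ : A) i j) c d =
      bmat ψ' (K0.flat φ' a.mat) (κ' γ : A') (i, c) (j, d)
    rw [bmat, bmat, Matrix.add_apply, Matrix.add_apply, Matrix.map_apply, Matrix.map_apply, map_add,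
      Matrix.add_apply, h4, h3, Matrix.mul_diagonal, Matrix.map_apply]
    rfl
  · change bmat ψ' ((K0.flat φ' a.mat).submatrix (Fintype.equivFin (Fin a.n × Fin r)).symm
      (Fintype.equivFin (Fin a.n × Fin r)).symm) (κ' γ : A') = _
    rw [bmat, bmat, ← Matrix.submatrix_map]
    have e2 : (1 : Matrix (Fin a.n × Fin r) (Fin a.n × Fin r) A').submatrix
        (Fintype.equivFin (Fin a.n × Fin r)).symm (Fintype.equivFin (Fin a.n × Fin r)).symm = 1 :=
      submatrix_one_equiv _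
    conv_lhs => rw [← e2]
    rfl

end

end Pool.Agent.H71.FQ
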