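import Pool.Agent.H71.FQ.MorA
import Pool.Agent.H71.FQ.Fun

/-!
# Project FQ, Morita invariance, part B: matrix rings

`ratInj_matrix`: rational injectivity of the assembly map for `R` implies rational injectivity for the matrix rings
over `R`.
-/

set_option autoImplicit false

open Matrix

universe u v w

namespace Pool.Agent.H71.FQ

open Pool.Agent.H71.FJ (MatEquiv IdemMat K0 K0.mk K0.lift K0.lift_mk K0.hom_ext K0.map K0.flat
  K0.flat_mul K0.push K0.push_mk K0.cls K0.cls_congr K0.cls_fromBlocks K0.flat_idem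
  K0.fromBlocks_idem K0.matEquiv_submatrix K0.mk_eq_cls K0.push_congr K0.map_push K0.push_map)
open Pool.Agent.H95.WH (FamSub conjHom FinSub)

section Scalar

variable {S : Type u} [Ring S]

theorem cls_empty {ι : Type*} [Fintype ι] [DecidableEq ι] [IsEmpty ι] (e : Matrix ι ι S)
    (he : e * e = e) : K0.cls e he = 0 := by
  have h := K0.cls_fromBlocks he he
  have h1 : K0.cls (fromBlocks e 0 0 e) (K0.fromBlocks_idem he he) = K0.cls e he :=
    K0.cls_congr _ _ ⟨0, 0, Subsingleton.elim _ _, Subsingleton.elim _ _⟩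
  rw [h1] at h
  exact left_eq_add.1 h

/-- the last element of `Fin (r + 1)` split off -/
def splitE (ι : Type*) (r : ℕ) : (ι × Fin r) ⊕ ι ≃ ι × Fin (r + 1) where
  toFun := Sum.elim (fun p => (p.1, p.2.castSucc)) fun i => (i, Fin.last r)
  invFun p := Fin.lastCases (motive := fun _ => (ι × Fin r) ⊕ ι) (Sum.inr p.1)
    (fun j => Sum.inl (p.1, j)) p.2
  left_inv := by
    rintro (⟨i, j⟩ | i)
    · show Fin.lastCases (motive := fun _ => (ι × Fin r) ⊕ ι) (Sum.inr i)
        (fun j => Sum.inl (i, j)) j.castSucc = _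
      rw [Fin.lastCases_castSucc]
    · show Fin.lastCases (motive := fun _ => (ι × Fin r) ⊕ ι) (Sum.inr i)
        (fun j => Sum.inl (i, j)) (Fin.last r) = _
      rw [Fin.lastCases_last]
  right_inv := by
    rintro ⟨i, j⟩
    induction j using Fin.lastCases with
    | last =>
      show Sum.elim _ _ (Fin.lastCases (motive := fun _ => (ι × Fin r) ⊕ ι) (Sum.inr i)
        (fun j => Sum.inl (i, j)) (Fin.last r)) = _
      rw [Fin.lastCases_last]
      rfl
    | cast j =>
      show Sum.elim _ _ (Fin.lastCases (motive := fun _ => (ι × Fin r) ⊕ ι) (Sum.inr i)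
        (fun j => Sum.inl (i, j)) j.castSucc) = _
      rw [Fin.lastCases_castSucc]
      rfl

theorem cls_flat_scalar {ι : Type*} [Fintype ι] [DecidableEq ι] (e : Matrix ι ι S)
    (he : e * e = e) (r : ℕ) :
    K0.cls (K0.flat (Matrix.scalar (Fin r)) e) (K0.flat_idem _ he) = r • K0.cls e he := by
  induction r with
  | zero => rw [cls_empty, zero_smul]
  | succ r ih =>
    rw [succ_nsmul, ← ih, ← K0.cls_fromBlocks]
    apply K0.cls_congr
    have h : fromBlocks (K0.flat (Matrix.scalar (Fin r)) e) 0 0 e =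
        (K0.flat (Matrix.scalar (Fin (r + 1))) e).submatrix (splitE ι r) (splitE ι r) := by
      ext i j
      rcases i with ⟨i, a⟩ | i <;> rcases j with ⟨j, b⟩ | j
      · show Matrix.scalar (Fin r) (e i j) a b =
          Matrix.scalar (Fin (r + 1)) (e i j) a.castSucc b.castSucc
        rw [Matrix.scalar_apply, Matrix.scalar_apply, Matrix.diagonal_apply, Matrix.diagonal_apply]
        simp
      · show 0 = Matrix.scalar (Fin (r + 1)) (e i j) a.castSucc (Fin.last r)
        rw [Matrix.scalar_apply, Matrix.diagonal_apply, if_neg (Fin.castSucc_lt_last a).ne]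
      · show 0 = Matrix.scalar (Fin (r + 1)) (e i j) (Fin.last r) b.castSucc
        rw [Matrix.scalar_apply, Matrix.diagonal_apply, if_neg (Fin.castSucc_lt_last b).ne']
      · show e i j = Matrix.scalar (Fin (r + 1)) (e i j) (Fin.last r) (Fin.last r)
        rw [Matrix.scalar_apply, Matrix.diagonal_apply_eq]
    obtain ⟨x, y, h1, h2⟩ := K0.matEquiv_submatrix _ (K0.flat_idem (Matrix.scalar (Fin (r + 1))) he)
      (splitE ι r)
    exact ⟨y, x, h2, by rw [h1, h]⟩

/-- the diagonal embedding into the matrices multiplies by the size -/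
theorem push_scalar (r : ℕ) (x : K0 S) : K0.push (Matrix.scalar (Fin r)) x = r • x := by
  have h : K0.push (Matrix.scalar (Fin r) : S →+* _) = r • AddMonoidHom.id (K0 S) := by
    apply K0.hom_ext
    intro a
    rw [K0.push_mk, cls_flat_scalar _ a.idem, ← K0.mk_eq_cls]
    rfl
  rw [h]
  rfl

end Scalar

section Mat

variable {R : Type u} [Ring R] {R' : Type w} [Ring R'] {r : ℕ}

/-- the group elements as diagonal matrices over the group ring -/
noncomputable def scG (R : Type u) [Ring R] (r : ℕ) (F : Type v) [Group F] :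
    F →* Matrix (Fin r) (Fin r) (MonoidAlgebra R F) where
  toFun g := Matrix.diagonal fun _ => MonoidAlgebra.single g 1
  map_one' := by
    rw [← Matrix.diagonal_one]
    rfl
  map_mul' g h := by
    rw [Matrix.diagonal_mul_diagonal]
    congr 1
    funext _
    rw [MonoidAlgebra.single_mul_single, mul_one]

/-- the constants -/
noncomputable def coM (ρ : R' →+* Matrix (Fin r) (Fin r) R) (F : Type v) [Group F] :
    R' →+* Matrix (Fin r) (Fin r) (MonoidAlgebra R F) :=
  (MonoidAlgebra.singleOneRingHom : R →+* MonoidAlgebra R F).mapMatrix.comp ρ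

theorem coM_mul (ρ : R' →+* Matrix (Fin r) (Fin r) R) (F : Type v) [Group F] (a : R') (g : F) :
    coM ρ F a * scG R r F g = (ρ a).map fun b => MonoidAlgebra.single g b := by
  refine Matrix.ext fun i j => ?_
  have h1 : (coM ρ F a * scG R r F g) i j =
      coM ρ F a i j * MonoidAlgebra.single g (1 : R) := Matrix.mul_diagonal _ _ _ _
  rw [h1]
  have h2 : coM ρ F a i j = MonoidAlgebra.single 1 (ρ a i j) := rfl
  rw [h2, MonoidAlgebra.single_mul_single, one_mul, mul_one, Matrix.map_apply]

theorem mul_coM (ρ : R' →+* Matrix (Fin r) (Fin r) R) (F : Type v) [Group F] (a : R') (g : F) :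
    scG R r F g * coM ρ F a = (ρ a).map fun b => MonoidAlgebra.single g b := by
  refine Matrix.ext fun i j => ?_
  have h1 : (scG R r F g * coM ρ F a) i j =
      MonoidAlgebra.single g (1 : R) * coM ρ F a i j := Matrix.diagonal_mul _ _ _ _
  rw [h1]
  have h2 : coM ρ F a i j = MonoidAlgebra.single 1 (ρ a i j) := rfl
  rw [h2, MonoidAlgebra.single_mul_single, one_mul, mul_one, Matrix.map_apply]

/-- The ring homomorphism `R'[F] → Mat_r(R[F])` for a homomorphism `R' → Mat_r(R)`. -/
noncomputable def thM (ρ : R' →+* Matrix (Fin r) (Fin r) R) (F : Type v) [Group F] :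
    MonoidAlgebra R' F →+* Matrix (Fin r) (Fin r) (MonoidAlgebra R F) :=
  MonoidAlgebra.liftNCRingHom (coM ρ F) (scG R r F)
    (fun a g => (coM_mul ρ F a g).trans (mul_coM ρ F a g).symm)

theorem thM_single (ρ : R' →+* Matrix (Fin r) (Fin r) R) (F : Type v) [Group F] (g : F) (a : R') :
    thM ρ F (MonoidAlgebra.single g a) = (ρ a).map fun b => MonoidAlgebra.single g b :=
  (MonoidAlgebra.liftNCRingHom_single _ _ _ _ _).trans (coM_mul ρ F a g)

end Mat

end Pool.Agent.H71.FQ
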