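import Pool.Agent.H71.FQ.MorB

/-!
# Project FQ, Morita invariance, part C
-/

set_option autoImplicit false

open Matrix

universe u v w

namespace Pool.Agent.H71.FQ

open Pool.Agent.H71.FJ (MatEquiv IdemMat K0 K0.mk K0.lift K0.lift_mk K0.hom_ext K0.map K0.flat
  K0.flat_mul K0.push K0.push_mk K0.cls K0.cls_congr K0.cls_fromBlocks K0.flat_idem
  K0.fromBlocks_idem K0.matEquiv_submatrix K0.mk_eq_cls K0.push_congr K0.map_push K0.push_map)
open Pool.Agent.H95.WH (FamSub conjHom FinSub)

section

variable {R : Type u} [Ring R] {R' : Type w} [Ring R'] {r : ℕ}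

/-- compatibility with homomorphisms of groups -/
theorem thM_mapDomain (ρ : R' →+* Matrix (Fin r) (Fin r) R) {F : Type v} [Group F] {F' : Type v}
    [Group F'] (f : F →* F') (x : MonoidAlgebra R' F) :
    thM ρ F' (MonoidAlgebra.mapDomainRingHom R' f x) =
      (thM ρ F x).map (MonoidAlgebra.mapDomainRingHom R f) := by
  induction x using MonoidAlgebra.induction_linear with
  | zero =>
    rw [map_zero, map_zero, map_zero]
    exact (Matrix.map_zero _ (map_zero _)).symm
  | add a b ha hb =>
    rw [map_add, map_add, ha, hb, map_add]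
    exact (Matrix.map_add _ (fun x y => map_add _ x y) _ _).symm
  | single g a =>
    have h1 : MonoidAlgebra.mapDomainRingHom R' f (MonoidAlgebra.single g a) =
        MonoidAlgebra.single (f g) a := MonoidAlgebra.mapDomain_single
    rw [h1, thM_single, thM_single]
    refine Matrix.ext fun i j => ?_
    rw [Matrix.map_apply, Matrix.map_apply, Matrix.map_apply]
    exact (MonoidAlgebra.mapDomain_single (f := f) (a := g) (r := ρ a i j)).symm

/-- **Flattening and the product for group rings.** -/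
theorem push_gasm (ρ : R' →+* Matrix (Fin r) (Fin r) R) {n : ℕ} {G : Type v} [Group G]
    {H : Type v} [Group H] {Γ : Type v} [Group Γ]
    (f : H →* G) (κ : Γ →* G) (h : ∀ γ a, f a * κ γ = κ γ * f a)
    (x : K0 (MonoidAlgebra R' H)) (z : HG Γ n) :
    KQ.push (thM ρ G) (gasm R' n f κ h x z) = gasm R n f κ h (K0.push (thM ρ H) x) z := by
  refine push_asm (thM ρ G) (thM ρ H) _ _ _ _ _ _ (fun b => thM_mapDomain ρ f b)
    (fun γ => ?_) x z
  have h1 : (((grpHom R' G).comp κ) γ : MonoidAlgebra R' G) = MonoidAlgebra.single (κ γ) 1 := rfl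
  have h2 : (((grpHom R G).comp κ) γ : MonoidAlgebra R G) = MonoidAlgebra.single (κ γ) 1 := rfl
  rw [h1, h2, thM_single, map_one]
  refine Matrix.ext fun i j => ?_
  rw [Matrix.map_apply, Matrix.diagonal_apply]
  by_cases hij : i = j
  · rw [if_pos hij, hij, Matrix.one_apply_eq]
  · rw [if_neg hij, Matrix.one_apply_ne hij]
    exact MonoidAlgebra.single_zero _

/-- The family of a homomorphism `R' → Mat_r(R)`. -/
noncomputable def NatK0.ofMat (ρ : R' →+* Matrix (Fin r) (Fin r) R) (G : Type v) [Group G] :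
    NatK0 R' R G where
  app F := K0.push (thM ρ F.1)
  nat F F' g h x := by
    rw [K0.push_map, K0.map_push]
    have h1 : (thM ρ F'.1).comp (MonoidAlgebra.mapDomainRingHom R' (conjHom g F.1 F'.1 h)) =
        (MonoidAlgebra.mapDomainRingHom R (conjHom g F.1 F'.1 h)).mapMatrix.comp (thM ρ F.1) :=
      RingHom.ext fun y => thM_mapDomain ρ _ y
    rw [h1]

theorem NatK0.ofMat_app (ρ : R' →+* Matrix (Fin r) (Fin r) R) (G : Type v) [Group G]
    (F : FamSub G FinSub) (x : K0 (MonoidAlgebra R' F.1)) :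
    (NatK0.ofMat ρ G).app F x = K0.push (thM ρ F.1) x := rfl

theorem NatK0.ofMat_asm (ρ : R' →+* Matrix (Fin r) (Fin r) R) {n : ℕ} {G : Type v} [Group G]
    (F : FamSub G FinSub) (x : K0 (MonoidAlgebra R' F.1))
    (z : HG (Subgroup.centralizer (F.1 : Set G)) n) :
    KQ.push (thM ρ G) (assemblyN R' n G (sy F x z)) =
      assemblyN R n G (sy F ((NatK0.ofMat ρ G).app F x) z) := by
  rw [asmN_sy, asmN_sy, push_gasm]
  rfl

end

end Pool.Agent.H71.FQ
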