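import Pool.Agent.H71.FQ.Cx
import Pool.Agent.FQ.Avg

/-!
# Project FQ: invariant measures on a group, `exists_nu`

A set `X` with an action of a group `Z` and a permutation `σ` commuting with it: the vertex maps
`X → Z →₀ ℤ` of constant mass `D`, `Z`-equivariant and `σ`-invariant.

PROOF. `FQ.exists_mset` gives finite sets `M x` with the same equivariance whose cardinality divides `D`;
`ν x` is `D / card (M x)` times the sum of the point masses.
-/

set_option autoImplicit false

universe u v w

namespace Pool.Agent.H71.FQ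

open Finset

theorem mass_sum_single {Z : Type*} (M : Finset Z) (r : ℤ) :
    mass (∑ z ∈ M, Finsupp.single z r) = M.card * r := by
  classical
  rw [mass]
  induction M using Finset.induction_on with
  | empty => simp
  | insert a s ha ih =>
      rw [sum_insert ha, Finsupp.sum_add_index' (by simp) (by simp), ih, Finsupp.sum_single_index rfl,
        card_insert_of_notMem ha]
      push_cast
      ring

theorem exists_nu {X Z : Type*} [Group Z] [MulAction Z X] (σ : Equiv.Perm X)
    (hσ : ∀ (z : Z) (x : X), σ (z • x) = z • σ x) (D : ℕ) (hD : 0 < D)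
    (hfin : ∀ x : X, {z : Z | ∃ j : ℤ, z • x = (σ ^ j) x}.Finite)
    (hcard : ∀ x : X, Nat.card {z : Z | ∃ j : ℤ, z • x = (σ ^ j) x} ∣ D) :
    ∃ ν : X → Z →₀ ℤ, (∀ x, mass (ν x) = D) ∧
      (∀ (z : Z) (x : X), ν (z • x) = (ν x).mapDomain fun y => z * y) ∧ ∀ x, ν (σ x) = ν x := by
  obtain ⟨M, h1, h2, h3, h4⟩ := _root_.FQ.exists_mset (Z := Z) (X := X) hσ (D := D) hfin hcard
  refine ⟨fun x => ∑ z ∈ M x, Finsupp.single z ((D / (M x).card : ℕ) : ℤ), ?_, ?_, ?_⟩
  · intro x
    rw [mass_sum_single, ← Nat.cast_mul, Nat.mul_div_cancel' (h3 x)]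
  · intro z x
    simp only [h1, card_map, sum_map]
    rw [Finsupp.mapDomain_finset_sum]
    refine sum_congr rfl fun y _ => ?_
    rw [Finsupp.mapDomain_single]
    rfl
  · intro x
    simp only [h2]

end Pool.Agent.H71.FQ
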