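import Mathlib
import Pool.Agent.FQ.Cnt

/-!
# Project FQ: powers and trace functionals

`lam` is a function on a ring `A` with the trace property on a subring `S`, with values in a ring `B` in which
`p ^ (m + 1) = 0`. Then `lam ((x + p y) ^ (p ^ m)) = lam (x ^ (p ^ m))`.

PROOF. Expand the product in subsets of `Fin q`, `q = p ^ m`; `lam` of the word of a subset is invariant under the
cyclic shift. Then `j c_j = q e_j` for the sum `c_j` of the words of the subsets with `j` elements
(`FQ.mul_sum_card`). Write `j = p ^ v u`; `u` is a unit of `B`, so `p ^ v c_j ∈ p ^ m B`, and `v < j` gives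
`p ^ j c_j = 0` for `j ≥ 1`.
-/

set_option autoImplicit false

namespace Pool.Agent.H71.FQ

open Finset

/-- the word of a subset: `y` at the places of `S`, `x` elsewhere -/
noncomputable def wordOf {A : Type*} [Ring A] (q : ℕ) (x y : A) (S : Finset (Fin q)) : A :=
  (List.ofFn (S.piecewise (fun _ => y) (fun _ => x))).prod

theorem add_pow_words {A : Type*} [Ring A] (q : ℕ) (x y : A) :
    (x + y) ^ q = ∑ S : Finset (Fin q), wordOf q x y S := by
  have h := (MultilinearMap.mkPiAlgebraFin ℤ q A).map_add_univ (fun _ => y) (fun _ => x)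
  simp only [MultilinearMap.mkPiAlgebraFin_apply, Pi.add_apply] at h
  have h2 : (List.ofFn ((fun _ => y) + (fun _ => x) : Fin q → A)).prod = (x + y) ^ q := by
    have : ((fun _ => y) + (fun _ => x) : Fin q → A) = fun _ => x + y := by
      funext i
      simp [add_comm]
    rw [this, List.ofFn_const, List.prod_replicate]
  rw [h2] at h
  exact h

theorem wordOf_nsmul {A : Type*} [Ring A] (q : ℕ) (x y : A) (p : ℕ) (S : Finset (Fin q)) :
    wordOf q x (p • y) S = (p ^ S.card) • wordOf q x y S := by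
  have h := (MultilinearMap.mkPiAlgebraFin ℤ q A).map_piecewise_smul (fun _ => (p : ℤ))
    (S.piecewise (fun _ => y) (fun _ => x)) S
  simp only [MultilinearMap.mkPiAlgebraFin_apply, prod_const] at h
  have h2 : S.piecewise (fun i => (p : ℤ) • (S.piecewise (fun _ => y) (fun _ => x) : Fin q → A) i)
      (S.piecewise (fun _ => y) (fun _ => x)) = S.piecewise (fun _ => p • y) (fun _ => x) := by
    funext i
    by_cases hi : i ∈ S
    · simp [Finset.piecewise, hi]
    · simp [Finset.piecewise, hi]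
  rw [h2] at h
  rw [wordOf, wordOf, h, ← Nat.cast_pow, natCast_zsmul]

/-- cyclic invariance of the words under a trace function -/
theorem lam_word_rotate {A B : Type*} [Ring A] [CommRing B] (lam : A →+ B) (S : Subring A)
    (h : ∀ x ∈ S, ∀ y ∈ S, lam (x * y) = lam (y * x)) (k : ℕ) (f : Fin (k + 1) → A)
    (hf : ∀ i, f i ∈ S) :
    lam (List.ofFn (fun i => f (finRotate (k + 1) i))).prod = lam (List.ofFn f).prod := by
  have h1 : (List.ofFn f).prod = f 0 * (List.ofFn fun i : Fin k => f i.succ).prod := by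
    rw [List.ofFn_succ, List.prod_cons]
  have h2 : (List.ofFn (fun i => f (finRotate (k + 1) i))).prod
      = (List.ofFn fun i : Fin k => f i.succ).prod * f 0 := by
    rw [List.ofFn_succ', List.concat_eq_append, List.prod_append, List.prod_singleton]
    congr 2
    · congr 1
      congr 1
      funext i
      congr 1
      simp [finRotate_succ_apply, Fin.ext_iff]
    · simp
  rw [h1, h2]
  refine (h _ (hf 0) _ ?_).symm
  refine Subring.list_prod_mem S ?_
  intro a ha
  rw [List.mem_ofFn] at ha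
  obtain ⟨i, rfl⟩ := ha
  exact hf _

theorem isUnit_of_not_dvd {B : Type*} [CommRing B] {p : ℕ} (hp : p.Prime) {m : ℕ}
    (hB : (p : B) ^ (m + 1) = 0) {u : ℕ} (hu : ¬ p ∣ u) : IsUnit (u : B) := by
  have hc : IsCoprime (u : ℤ) ((p : ℤ) ^ (m + 1)) := by
    have : Nat.Coprime u (p ^ (m + 1)) :=
      Nat.Coprime.pow_right _ ((hp.coprime_iff_not_dvd.mpr hu).symm)
    have h2 := Nat.isCoprime_iff_coprime.mpr this
    simpa using h2
  obtain ⟨a, b, hab⟩ := hc
  have h3 : (a : B) * (u : B) + (b : B) * (p : B) ^ (m + 1) = 1 := by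
    have := congrArg (fun z : ℤ => (z : B)) hab
    simpa using this
  rw [hB, mul_zero, add_zero] at h3
  exact IsUnit.of_mul_eq_one_right _ h3

theorem lam_pow {A B : Type*} [Ring A] [CommRing B] (lam : A →+ B) (S : Subring A)
    (h : ∀ x ∈ S, ∀ y ∈ S, lam (x * y) = lam (y * x)) {p : ℕ} (hp : p.Prime) {m : ℕ}
    (hB : (p : B) ^ (m + 1) = 0) {x y : A} (hx : x ∈ S) (hy : y ∈ S) :
    lam ((x + p • y) ^ p ^ m) = lam (x ^ p ^ m) := by
  obtain ⟨k, hk⟩ : ∃ k, p ^ m = k + 1 := Nat.exists_eq_succ_of_ne_zero (pow_pos hp.pos m).ne'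
  set T : Finset (Fin (p ^ m)) → B := fun S => lam (wordOf (p ^ m) x y S) with hTdef
  have h1 : lam ((x + p • y) ^ p ^ m) = ∑ S : Finset (Fin (p ^ m)), (p : B) ^ S.card * T S := by
    rw [add_pow_words, map_sum]
    refine sum_congr rfl fun U _ => ?_
    rw [wordOf_nsmul, map_nsmul, nsmul_eq_mul, Nat.cast_pow]
  have h2 : lam (x ^ p ^ m) = T ∅ := by
    rw [hTdef]
    simp only [wordOf, Finset.piecewise_empty]
    rw [List.ofFn_const, List.prod_replicate]
  have hrot : ∀ U : Finset (Fin (p ^ m)), T (U.map (finRotate (p ^ m)).toEmbedding) = T U := by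
    rw [hTdef]
    clear_value T
    rw [hk]
    intro U
    simp only [wordOf]
    have h3 : (U.piecewise (fun _ => y) (fun _ => x) : Fin (k + 1) → A) = fun i =>
        ((U.map (finRotate (k + 1)).toEmbedding).piecewise (fun _ => y) (fun _ => x) :
          Fin (k + 1) → A) (finRotate (k + 1) i) := by
      funext i
      simp only [Finset.piecewise, mem_map_equiv, Equiv.symm_apply_apply]
    rw [h3]
    refine (lam_word_rotate lam S h k _ ?_).symm
    intro i
    simp only [Finset.piecewise]
    split_ifs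
    · exact hy
    · exact hx
  have htr : ∀ i : Fin (p ^ m), ∃ j : ℕ, ((finRotate (p ^ m)) ^ j) ⟨0, pow_pos hp.pos m⟩ = i := by
    intro i
    refine ⟨i, ?_⟩
    have h5 : ∀ (j : ℕ) (hj : j < p ^ m), ((finRotate (p ^ m)) ^ j) ⟨0, pow_pos hp.pos m⟩ = ⟨j, hj⟩ := by
      intro j
      induction j with
      | zero => intro hj; simp
      | succ j ih =>
          intro hj
          rw [pow_succ', Equiv.Perm.mul_apply, ih (by omega)]
          have h6 : ∀ (N : ℕ) (hN : N = k + 1) (h7 : j < N) (h8 : j + 1 < N),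
              finRotate N ⟨j, h7⟩ = ⟨j + 1, h8⟩ := by
            rintro N rfl h7 h8
            exact finRotate_of_lt (by omega)
          exact h6 _ hk _ _
    exact h5 i i.2
  have hcard : Fintype.card (Fin (p ^ m)) = p ^ m := Fintype.card_fin _
  have h0 : (∑ S : Finset (Fin (p ^ m)), (p : B) ^ S.card * T S)
      = ∑ j ∈ range (Fintype.card (Fin (p ^ m)) + 1),
          (p : B) ^ j * ∑ S ∈ powersetCard j (univ : Finset (Fin (p ^ m))), T S := by
    have h1 := Finset.sum_powerset (univ : Finset (Fin (p ^ m))) (fun S => (p : B) ^ S.card * T S)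
    rw [Finset.powerset_univ, card_univ] at h1
    rw [h1]
    refine sum_congr rfl fun j _ => ?_
    rw [mul_sum]
    refine sum_congr rfl fun S hS => ?_
    rw [mem_powersetCard] at hS
    rw [hS.2]
  rw [h1, h2, h0, sum_range_succ']
  have h3 : (p : B) ^ 0 * ∑ S ∈ powersetCard 0 (univ : Finset (Fin (p ^ m))), T S = T ∅ := by
    simp
  rw [h3]
  convert zero_add _
  refine sum_eq_zero fun j _ => ?_
  have h4 := FQ.mul_sum_card (finRotate (p ^ m)) T hrot _ htr (j + 1)
  rw [hcard, Nat.cast_pow] at h4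
  obtain ⟨v, u, hpu, hju⟩ := Nat.exists_eq_pow_mul_and_not_dvd (Nat.succ_ne_zero j) p hp.ne_one
  have hv : v + 1 ≤ j + 1 := by
    have h5 : p ^ v ≤ j + 1 := by
      rw [← Nat.succ_eq_add_one, hju]
      exact Nat.le_mul_of_pos_right _ (Nat.pos_of_ne_zero (by rintro rfl; simp at hpu))
    exact (Nat.lt_pow_self hp.one_lt).trans_le h5
  obtain ⟨U, hU⟩ := isUnit_of_not_dvd hp hB hpu
  set c := ∑ S ∈ powersetCard (j + 1) (univ : Finset (Fin (p ^ m))), T S with hc
  have h6 : (p : B) ^ v * c = (p : B) ^ m * (((U⁻¹ : Bˣ) : B) *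
      ∑ S ∈ (powersetCard (j + 1) (univ : Finset (Fin (p ^ m)))).filter
        (fun S => ⟨0, pow_pos hp.pos m⟩ ∈ S), T S) := by
    have h7 : ((j + 1 : ℕ) : B) = (p : B) ^ v * (u : B) := by
      rw [← Nat.succ_eq_add_one, hju]; push_cast; ring
    rw [h7, ← hU] at h4
    calc (p : B) ^ v * c = ((U⁻¹ : Bˣ) : B) * ((p : B) ^ v * (U : B) * c) := by
          rw [show ((U⁻¹ : Bˣ) : B) * ((p : B) ^ v * (U : B) * c)
            = (((U⁻¹ : Bˣ) : B) * (U : B)) * ((p : B) ^ v * c) by ring, Units.inv_mul, one_mul]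
      _ = _ := by rw [h4]; ring
  obtain ⟨r, hr⟩ := Nat.exists_eq_add_of_le hv
  rw [show j + 1 = r + 1 + v by omega, pow_add, mul_assoc, h6, ← mul_assoc, ← pow_add,
    show r + 1 + m = r + (m + 1) by omega, pow_add, hB, mul_zero, zero_mul]

end Pool.Agent.H71.FQ
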