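import Mathlib

/-!
# Homomorphisms to the `p`-adic integers

`exists_hom`: if an element `x` of a torsion-free abelian group `T` is not divisible by all powers of `p`, there is a
homomorphism `T → ℤ_[p]` which does not vanish at `x`.

PROOF. Let `p ^ (j + 1)` not divide `x` and `p ^ j` divide `x`. Every finitely generated subgroup `F` containing `x` is
free and has a homomorphism to `ℤ_[p]` with value `p ^ j` at `x`; the space of all functions `T → ℤ_[p]` is compact.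
-/

set_option autoImplicit false

universe u

namespace Pool.Agent.H71.FQ

section

variable {p : ℕ} [Fact p.Prime]

theorem int_dvd_padic {a : ℤ} {j : ℕ} (h : ¬ ((p : ℤ) ^ (j + 1) ∣ a)) :
    ∃ c : ℤ_[p], c * (a : ℤ_[p]) = (p : ℤ_[p]) ^ j := by
  have hp : p.Prime := Fact.out
  have ha : a ≠ 0 := fun h0 => h (h0 ▸ dvd_zero _)
  obtain ⟨i, u, hu, rfl⟩ : ∃ (i : ℕ) (u : ℤ), ¬ (p : ℤ) ∣ u ∧ a = (p : ℤ) ^ i * u := by
    have hfin : FiniteMultiplicity (p : ℤ) a :=
      Int.finiteMultiplicity_iff.2 ⟨by simpa using hp.ne_one, ha⟩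
    obtain ⟨u, h1, h2⟩ := hfin.exists_eq_pow_mul_and_not_dvd
    exact ⟨_, u, h2, h1⟩
  have hij : i ≤ j := by
    by_contra hlt
    exact h (Dvd.dvd.mul_right (pow_dvd_pow _ (by omega)) _)
  have hu' : IsUnit (u : ℤ_[p]) := by
    rw [PadicInt.isUnit_iff]
    refine le_antisymm (PadicInt.norm_le_one _) (not_lt.1 fun h1 => hu ?_)
    exact (PadicInt.norm_int_lt_one_iff_dvd u).1 h1
  obtain ⟨v, hv⟩ := hu'
  refine ⟨(p : ℤ_[p]) ^ (j - i) * ((v⁻¹ : (ℤ_[p])ˣ) : ℤ_[p]), ?_⟩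
  push_cast
  rw [← hv]
  calc (p : ℤ_[p]) ^ (j - i) * ((v⁻¹ : (ℤ_[p])ˣ) : ℤ_[p]) * ((p : ℤ_[p]) ^ i * (v : ℤ_[p]))
      = ((p : ℤ_[p]) ^ (j - i) * (p : ℤ_[p]) ^ i) * (((v⁻¹ : (ℤ_[p])ˣ) : ℤ_[p]) * v) := by ring
    _ = _ := by
      rw [Units.inv_mul, mul_one, ← pow_add, Nat.sub_add_cancel hij]

theorem exists_hom_free {F : Type u} [AddCommGroup F] [Module.Finite ℤ F] [Module.Free ℤ F]
    {x : F} {j : ℕ} (h : ¬ ∃ y : F, x = (p : ℤ) ^ (j + 1) • y) :
    ∃ f : F →+ ℤ_[p], f x = (p : ℤ_[p]) ^ j := by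
  let b := Module.Free.chooseBasis ℤ F
  have h1 : ∃ i, ¬ ((p : ℤ) ^ (j + 1) ∣ b.repr x i) := by
    by_contra hall
    push Not at hall
    choose c hc using hall
    refine h ⟨∑ i, c i • b i, ?_⟩
    rw [Finset.smul_sum]
    conv_lhs => rw [← b.sum_repr x]
    refine Finset.sum_congr rfl fun i _ => ?_
    rw [hc i, mul_smul]
  obtain ⟨i, hi⟩ := h1
  obtain ⟨c, hc⟩ := int_dvd_padic hi
  refine ⟨(AddMonoidHom.mulLeft c).comp ((Int.castAddHom ℤ_[p]).comp (b.coord i).toAddMonoidHom), ?_⟩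
  exact hc

theorem exists_hom {T : Type u} [AddCommGroup T] [Module.IsTorsionFree ℤ T] {x : T} {j : ℕ}
    (h : ¬ ∃ y : T, x = (p : ℤ) ^ (j + 1) • y) :
    ∃ f : T →+ ℤ_[p], f x = (p : ℤ_[p]) ^ j := by
  classical
  let t : Option (T × T) → Set (T → ℤ_[p]) := fun o =>
    match o with
    | none => {f | f x = (p : ℤ_[p]) ^ j}
    | some q => {f | f (q.1 + q.2) = f q.1 + f q.2}
  have htc : ∀ o, IsClosed (t o) := by
    rintro (_ | q)
    · exact isClosed_eq (continuous_apply x) continuous_const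
    · exact isClosed_eq (continuous_apply _) (by fun_prop)
  obtain ⟨f, hf⟩ := CompactSpace.iInter_nonempty htc (by
    intro s
    let S : Finset T := insert x ((s.biUnion fun o => match o with
      | none => ∅
      | some q => {q.1, q.2}))
    let F : Submodule ℤ T := Submodule.span ℤ (S : Set T)
    have hx : x ∈ F := Submodule.subset_span (by simp [S])
    have hF : ∀ q : T × T, some q ∈ s → q.1 ∈ F ∧ q.2 ∈ F := by
      intro q hq
      constructor
      · refine Submodule.subset_span ?_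
        simp only [S, Finset.coe_insert, Finset.coe_biUnion, Set.mem_insert_iff, Set.mem_iUnion]
        exact Or.inr ⟨some q, hq, by simp⟩
      · refine Submodule.subset_span ?_
        simp only [S, Finset.coe_insert, Finset.coe_biUnion, Set.mem_insert_iff, Set.mem_iUnion]
        exact Or.inr ⟨some q, hq, by simp⟩
    have hfin : Module.Finite ℤ F := Module.Finite.span_finset ℤ S
    obtain ⟨g, hg⟩ := exists_hom_free (F := F) (x := ⟨x, hx⟩) (p := p) (j := j) (by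
      rintro ⟨y, hy⟩
      exact h ⟨y, congrArg Subtype.val hy⟩)
    refine ⟨fun y => if hy : y ∈ F then g ⟨y, hy⟩ else 0, ?_⟩
    simp only [Set.mem_iInter]
    rintro (_ | q) ho
    · change (if hy : x ∈ F then g ⟨x, hy⟩ else 0) = _
      rw [dif_pos hx, hg]
    · obtain ⟨h1, h2⟩ := hF q ho
      change (if hy : q.1 + q.2 ∈ F then g ⟨q.1 + q.2, hy⟩ else 0) =
        (if hy : q.1 ∈ F then g ⟨q.1, hy⟩ else 0) + (if hy : q.2 ∈ F then g ⟨q.2, hy⟩ else 0)
      rw [dif_pos (F.add_mem h1 h2), dif_pos h1, dif_pos h2, ← map_add]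
      rfl)
  rw [Set.mem_iInter] at hf
  exact ⟨AddMonoidHom.mk' f fun a b => hf (some (a, b)), hf none⟩

/-- If `x` is not, modulo torsion, divisible by all powers of `p`, a homomorphism to `ℤ_[p]` does not vanish at `x`. -/
theorem exists_hom_ne_zero {B : Type u} [AddCommGroup B] {x : B}
    (h : ¬ ∀ k : ℕ, ∃ (y : B) (m : ℤ), m ≠ 0 ∧ m • (x - (p : ℤ) ^ k • y) = 0) :
    ∃ f : B →+ ℤ_[p], f x ≠ 0 := by
  have hp : p.Prime := Fact.out
  let T := B ⧸ Submodule.torsion ℤ B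
  let π : B →ₗ[ℤ] T := (Submodule.torsion ℤ B).mkQ
  have hπ : ∀ b : B, π b = 0 → ∃ m : ℤ, m ≠ 0 ∧ m • b = 0 := by
    intro b hb
    have h1 : b ∈ Submodule.torsion ℤ B := (Submodule.Quotient.mk_eq_zero _).1 hb
    obtain ⟨m, hm⟩ := (Submodule.mem_torsion_iff b).1 h1
    exact ⟨m, nonZeroDivisors.coe_ne_zero m, hm⟩
  have h2 : ∃ k : ℕ, ¬ ∃ y : T, π x = (p : ℤ) ^ k • y := by
    by_contra hall
    push Not at hall
    refine h fun k => ?_
    obtain ⟨y, hy⟩ := hall k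
    obtain ⟨y, rfl⟩ := Submodule.mkQ_surjective _ y
    obtain ⟨m, hm, hm'⟩ := hπ (x - (p : ℤ) ^ k • y) (by
      rw [map_sub, map_smul, hy, sub_self])
    exact ⟨y, m, hm, hm'⟩
  obtain ⟨k, hk⟩ := h2
  obtain ⟨j, rfl⟩ : ∃ j, k = j + 1 := by
    refine ⟨k - 1, ?_⟩
    have : k ≠ 0 := by
      rintro rfl
      exact hk ⟨π x, by simp⟩
    omega
  obtain ⟨f, hf⟩ := exists_hom (p := p) hk
  refine ⟨f.comp π.toAddMonoidHom, ?_⟩
  change f (π x) ≠ 0
  rw [hf]
  exact pow_ne_zero _ (by exact_mod_cast hp.ne_zero)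

end

end Pool.Agent.H71.FQ
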