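import Pool.Agent.H71.FQ.St

/-!
# The assembly map on the `K₁`-part of the rational source: definitions, all degrees

`HnK1 R G n` is generated by the symbols `[F, U, z]`, `F` a finite subgroup of `G`, `U` an invertible matrix over `R[F]`
and `z` a cycle of degree `n` of the centralizer `Z_G(F)`, modulo the relations of `K₁(R[F])` in `U`, the relations
of `H_n(Z_G(F); ℤ)` in `z` and `[F', c_g(U), z'] = [F, U, c_{g⁻¹}(z')]` for `g F g⁻¹ ⊆ F'`.

The assembly map sends `[F, U, z]` to `[N, z']` where `N` is the size of `U` and `z'` is the product of the image of `z`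
under the scalar matrices `Z_G(F) → GL_N(R[G])` with the commuting element `U` of `GL_N(R[G])` (the prism `pri`), a cycle
of degree `n + 1`.
-/

set_option autoImplicit false

open Matrix

universe u v w

namespace Pool.Agent.H71.FQ1

open Pool.Agent.H71.FQS (Ch bd push coi bnd Cyc PSep GLm blkM RF Cent KQ)

section

/-- the prism: the tuple `(x_0, …, x_m)` is sent to the alternating sum of the `(x_0, …, x_i, x_i u, …, x_m u)` -/
noncomputable def pri {Λ : Type v} [Group Λ] {m : ℕ} (u : Λ) (c : Ch Λ m) : Ch Λ (m + 1) :=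
  c.sum fun x a => ∑ i : Fin (m + 1), Finsupp.single
    (fun j : Fin (m + 2) => if i.castSucc < j then x (i.predAbove j) * u else x (i.predAbove j))
    ((-1) ^ (i : ℕ) * a)

/-- `c` is a cycle of degree `n` modulo the relations `(g x_0, …, g x_n) = (x_0, …, x_n)` -/
def IsCyc (Γ : Type v) [Group Γ] : (n : ℕ) → Ch Γ n → Prop
  | 0, _ => True
  | n + 1, c => bd Γ n c ∈ coi Γ n

variable (R : Type u) [Ring R] (G : Type v) [Group G] (n : ℕ)

/-- the symbols `[F, U, z]` -/
structure HSym1 where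
  /-- a finite subgroup -/
  F : Subgroup G
  fin : Finite F
  /-- the size of the matrix -/
  N : ℕ
  /-- an invertible matrix over the group ring of `F` -/
  U : GLm N (RF R F)
  /-- a cycle of the centralizer of `F` -/
  z : Ch (Cent F) n
  cyc : IsCyc (Cent F) n z

/-- the relations `[F, U V, z] = [F, U, z] + [F, V, z]` and `[F, U ⊕ 1, z] = [F, U, z]` -/
def relU : Set (FreeAbelianGroup (HSym1 R G n)) :=
  {y | ∃ (F : Subgroup G) (hF : Finite F) (N : ℕ) (U V : GLm N (RF R F)) (z : Ch (Cent F) n)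
      (hz : IsCyc (Cent F) n z),
      y = FreeAbelianGroup.of ⟨F, hF, N, U * V, z, hz⟩ -
        (FreeAbelianGroup.of ⟨F, hF, N, U, z, hz⟩ + FreeAbelianGroup.of ⟨F, hF, N, V, z, hz⟩)} ∪
    {y | ∃ (F : Subgroup G) (hF : Finite F) (N : ℕ) (U : GLm N (RF R F))
      (V : GLm (N + 1) (RF R F)) (z : Ch (Cent F) n) (hz : IsCyc (Cent F) n z),
      V.val = blkM U.val (1 : Matrix (Fin 1) (Fin 1) (RF R F)) ∧
      y = FreeAbelianGroup.of ⟨F, hF, N + 1, V, z, hz⟩ - FreeAbelianGroup.of ⟨F, hF, N, U, z, hz⟩}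

/-- additivity in `z` and boundaries -/
def relZ1 : Set (FreeAbelianGroup (HSym1 R G n)) :=
  {y | ∃ (F : Subgroup G) (hF : Finite F) (N : ℕ) (U : GLm N (RF R F))
      (z z' : Ch (Cent F) n) (hz : IsCyc (Cent F) n z) (hz' : IsCyc (Cent F) n z')
      (h : IsCyc (Cent F) n (z + z')),
      y = FreeAbelianGroup.of ⟨F, hF, N, U, z + z', h⟩ -
        (FreeAbelianGroup.of ⟨F, hF, N, U, z, hz⟩ + FreeAbelianGroup.of ⟨F, hF, N, U, z', hz'⟩)} ∪
    {y | ∃ (F : Subgroup G) (hF : Finite F) (N : ℕ) (U : GLm N (RF R F))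
      (z : Ch (Cent F) n) (hz : IsCyc (Cent F) n z), z ∈ bnd (Cent F) n ∧
      y = FreeAbelianGroup.of ⟨F, hF, N, U, z, hz⟩}

/-- the relation `[F', c_g(U), z'] = [F, U, c_{g⁻¹}(z')]` for `g F g⁻¹ ⊆ F'` -/
def relC1 : Set (FreeAbelianGroup (HSym1 R G n)) :=
  {y | ∃ (F F' : Subgroup G) (hF : Finite F) (hF' : Finite F') (g : G) (N : ℕ)
      (U : GLm N (RF R F)) (U' : GLm N (RF R F')) (z : Ch (Cent F) n) (z' : Ch (Cent F') n)
      (hz : IsCyc (Cent F) n z) (hz' : IsCyc (Cent F') n z')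
      (c : F → F') (κ : Cent F' → Cent F),
      (∀ a, (c a : G) = g * a * g⁻¹) ∧ (∀ γ, (κ γ).val = g⁻¹ * γ.val * g) ∧
      (∀ i j, U'.val i j = MonoidAlgebra.mapDomain c (U.val i j)) ∧ z = push κ z' ∧
      y = FreeAbelianGroup.of ⟨F', hF', N, U', z', hz'⟩ - FreeAbelianGroup.of ⟨F, hF, N, U, z, hz⟩}

/-- The group generated by the symbols `[F, U, z]`. -/
def HnK1 : Type (max u v) :=
  FreeAbelianGroup (HSym1 R G n) ⧸ AddSubgroup.closure (relU R G n ∪ relZ1 R G n ∪ relC1 R G n)

instance instHnK1 : AddCommGroup (HnK1 R G n) := QuotientAddGroup.Quotient.addCommGroup _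

variable {R G n}

/-- the class of `[F, U, z]` -/
def HnK1.mk (s : HSym1 R G n) : HnK1 R G n := QuotientAddGroup.mk (FreeAbelianGroup.of s)

/-- `α` is the assembly map on the `K₁`-part: `α [F, U, z] = [N, z']`, where `z'` is the prism over the image of `z` under
the scalar matrices, with the matrix `U`. -/
def IsAssembly1 (α : HnK1 R G n → KQ (MonoidAlgebra R G) n) : Prop :=
  ∀ (s : HSym1 R G n) (σ : Cent s.F → GLm s.N (MonoidAlgebra R G))
    (u : GLm s.N (MonoidAlgebra R G)) (z' : Cyc (GLm s.N (MonoidAlgebra R G)) n),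
    (∀ γ, (σ γ).val = Matrix.diagonal fun _ => MonoidAlgebra.single γ.val 1) →
    (∀ i j, u.val i j = MonoidAlgebra.mapDomain (fun a : s.F => (a : G)) (s.U.val i j)) →
    z'.ch = pri u (push σ s.z) → α (HnK1.mk s) = FQS.KQ.mk s.N z'

end

/-- The condition on the group in the degrees `n + 1` for `n ∈ D`: every finite subset of `G` lies in a subgroup `G'` in
which the elements of `p`-power order have bounded order and such that `PSep p Z n` holds for `n ∈ D` and the centralizers
`Z` in `G'` of the finite cyclic subgroups of order prime to `p`. -/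
def LocGrp (p : ℕ) (G : Type v) [Group G] (D : Set ℕ) : Prop :=
  ∀ S : Finset G, ∃ G' : Subgroup G, (∀ g ∈ S, g ∈ G') ∧
    (∃ r : ℕ, ∀ g : G', (∃ j : ℕ, g ^ p ^ j = 1) → g ^ p ^ r = 1) ∧
    ∀ C : Subgroup G', Finite C → IsCyclic C → ¬ p ∣ Nat.card C → ∀ n ∈ D, PSep p (Cent C) n

end Pool.Agent.H71.FQ1
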