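import Pool.Agent.H71.FQ.St
import Pool.Agent.H71.FQ.Main
import Pool.Agent.H71.FQ.Sep

/-!
# Comparison of the definitions: cycles and homology
-/

set_option autoImplicit false

open Matrix

universe u v w

namespace Pool.Agent.H71.FQS

open Pool.Agent.H71.FQ (Cx HG)

section

variable {Γ : Type v} {Γ' : Type w} {n : ℕ}

theorem bd_eq (c : Ch Γ (n + 1)) : bd Γ n c = FQ.bd ℤ Γ n c := by
  rw [bd, FQ.bd, Finsupp.linearCombination_apply]
  refine Finsupp.sum_congr fun x _ => ?_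
  rw [Finset.smul_sum]
  refine Finset.sum_congr rfl fun i _ => ?_
  rw [smul_smul, Finsupp.smul_single, smul_eq_mul, mul_one, mul_comm]

theorem push_eq (f : Γ → Γ') (c : Ch Γ n) : push f c = FQ.push ℤ f n c := by
  rw [push, FQ.push, Finsupp.linearCombination_apply, Finsupp.mapDomain]
  refine Finsupp.sum_congr fun x _ => ?_
  rw [Finsupp.smul_single, smul_eq_mul, mul_one]

variable [Group Γ] [Group Γ']

theorem mem_coi {c : Ch Γ n} : c ∈ coi Γ n ↔ c ∈ FQ.coi Γ n := by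
  rw [coi, FQ.coi, ← Submodule.mem_toAddSubgroup, Submodule.span_int_eq_addSubgroupClosure]

theorem mem_bnd {c : Ch Γ (n + 1)} : c ∈ bnd Γ (n + 1) ↔ c ∈ FQ.bnd Γ n := by
  have h1 : bnd Γ (n + 1) = (FQ.bnd Γ n).toAddSubgroup := by
    apply le_antisymm
    · rw [bnd, AddSubgroup.closure_le]
      rintro x (hx | ⟨b, rfl⟩)
      · exact Submodule.mem_sup_right (mem_coi.1 hx)
      · exact Submodule.mem_sup_left ⟨b, (bd_eq b).symm⟩
    · intro x hx
      obtain ⟨y, ⟨b, rfl⟩, z, hz, rfl⟩ := Submodule.mem_sup.1 hx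
      refine AddSubgroup.add_mem _ (AddSubgroup.subset_closure (Or.inr ⟨b, (bd_eq b).symm⟩))
        (AddSubgroup.subset_closure (Or.inl (mem_coi.2 hz)))
  rw [h1]
  rfl

theorem Cyc.mem (z : Cyc Γ n) : z.ch ∈ FQ.cyc Γ n := by
  change FQ.bd ℤ Γ n z.ch ∈ FQ.coi Γ n
  rw [← bd_eq, ← mem_coi]
  exact z.2

/-- a cycle from a chain -/
def Cyc.of (c : Ch Γ (n + 1)) (h : c ∈ FQ.cyc Γ n) : Cyc Γ n := ⟨c, by
  rw [bd_eq, mem_coi]
  exact h⟩

theorem Cyc.ch_of (c : Ch Γ (n + 1)) (h : c ∈ FQ.cyc Γ n) : (Cyc.of c h).ch = c := rfl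

theorem Cyc.ext {z z' : Cyc Γ n} (h : z.ch = z'.ch) : z = z' := Subtype.ext h

/-- the homology class of a cycle -/
noncomputable def toHG (z : Cyc Γ n) : HG Γ n := HG.mk ⟨z.ch, z.mem⟩

theorem toHG_surjective (x : HG Γ n) : ∃ z : Cyc Γ n, toHG z = x := by
  obtain ⟨z, rfl⟩ := HG.mk_surjective x
  exact ⟨Cyc.of z.1 z.2, rfl⟩

theorem toHG_add {z z' z'' : Cyc Γ n} (h : z''.ch = z.ch + z'.ch) :
    toHG z'' = toHG z + toHG z' := by
  rw [toHG, toHG, toHG, ← HG.mk_add]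
  congr 1
  exact Subtype.ext h

theorem toHG_eq_iff {z z' : Cyc Γ n} : toHG z = toHG z' ↔ z.ch - z'.ch ∈ bnd Γ (n + 1) := by
  rw [toHG, toHG, HG.mk_eq_iff, mem_bnd]

theorem toHG_bnd {z : Cyc Γ n} (h : z.ch ∈ bnd Γ (n + 1)) : toHG z = 0 := by
  have h0 : toHG (Cyc.of (0 : Ch Γ (n + 1)) (Submodule.zero_mem _)) = 0 := by
    have h1 := toHG_add (z := Cyc.of (0 : Ch Γ (n + 1)) (Submodule.zero_mem _))
      (z' := Cyc.of (0 : Ch Γ (n + 1)) (Submodule.zero_mem _))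
      (z'' := Cyc.of (0 : Ch Γ (n + 1)) (Submodule.zero_mem _)) (by
        rw [Cyc.ch_of, add_zero])
    exact left_eq_add.1 h1
  rw [← h0, toHG_eq_iff, Cyc.ch_of, sub_zero]
  exact h

theorem map_toHG (f : Γ →* Γ') {z : Cyc Γ n} {z' : Cyc Γ' n} (h : z'.ch = push f z.ch) :
    HG.map n f (toHG z) = toHG z' := by
  rw [toHG, HG.map_mk, toHG]
  congr 1
  apply Subtype.ext
  change FQ.push ℤ f (n + 1) z.ch = z'.ch
  rw [h, push_eq]

/-- the image of a cycle under a homomorphism -/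
noncomputable def Cyc.map (f : Γ →* Γ') (z : Cyc Γ n) : Cyc Γ' n :=
  Cyc.of (push f z.ch) (by
    rw [push_eq]
    exact FQ.push_cyc f z.mem)

theorem Cyc.ch_map (f : Γ →* Γ') (z : Cyc Γ n) : (z.map f).ch = push f z.ch := rfl

theorem map_toHG' (f : Γ →* Γ') (z : Cyc Γ n) : HG.map n f (toHG z) = toHG (z.map f) :=
  map_toHG f (z.ch_map f)

/-- homomorphisms on homology from functions on cycles -/
theorem exists_lift {M : Type*} [AddCommGroup M] (f : Cyc Γ n → M)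
    (h1 : ∀ z z' z'' : Cyc Γ n, z''.ch = z.ch + z'.ch → f z'' = f z + f z')
    (h2 : ∀ z : Cyc Γ n, z.ch ∈ bnd Γ (n + 1) → f z = 0) :
    ∃ F : HG Γ n →+ M, ∀ z, F (toHG z) = f z := by
  have h3 : ∀ z z' : Cyc Γ n, toHG z = toHG z' → f z = f z' := by
    intro z z' h
    rw [toHG_eq_iff] at h
    let d : Cyc Γ n := Cyc.of (z.ch - z'.ch) (Submodule.sub_mem _ z.mem z'.mem)
    have h4 := h1 z' d z (by
      rw [Cyc.ch_of]
      abel)
    rw [h4, h2 d h, add_zero]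
  choose g hg using toHG_surjective (Γ := Γ) (n := n)
  refine ⟨AddMonoidHom.mk' (fun x => f (g x)) fun x y => ?_, fun z => h3 _ _ (hg _)⟩
  rw [← h1 (g x) (g y) (Cyc.of ((g x).ch + (g y).ch) (Submodule.add_mem _ (g x).mem (g y).mem))
    rfl]
  apply h3
  rw [hg, toHG_add (z := g x) (z' := g y) rfl, hg, hg]

theorem toHG_zsmul (m : ℤ) (z : Cyc Γ n) :
    m • toHG z = toHG (Cyc.of (m • z.ch) (Submodule.smul_mem _ m z.mem)) := by
  rw [toHG, toHG]
  rfl

theorem bnd_of_toHG {z : Cyc Γ n} (h : toHG z = 0) : z.ch ∈ bnd Γ (n + 1) := by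
  have h0 : toHG (Cyc.of (0 : Ch Γ (n + 1)) (Submodule.zero_mem _)) = 0 :=
    toHG_bnd (by
      rw [Cyc.ch_of]
      exact AddSubgroup.zero_mem _)
  rw [← h0, toHG_eq_iff, Cyc.ch_of, sub_zero] at h
  exact h

theorem psep_of {p : ℕ} [Fact p.Prime] (h : PSep p Γ n) : FQ.PSep p Γ n := by
  intro x hx
  obtain ⟨z, rfl⟩ := toHG_surjective x
  obtain ⟨m, hm, h1⟩ := h z (by
    intro k
    by_contra hk
    obtain ⟨f, hf⟩ := FQ.exists_hom_ne_zero (p := p) (x := toHG z) (by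
      intro hall
      obtain ⟨y, m, hm, h2⟩ := hall k
      obtain ⟨y, rfl⟩ := toHG_surjective y
      refine hk ⟨y, m, hm, ?_⟩
      have h3 : m • (toHG z - (p : ℤ) ^ k • toHG y) =
          toHG (Cyc.of (m • (z.ch - (p : ℤ) ^ k • y.ch)) (Submodule.smul_mem _ m
            (Submodule.sub_mem _ z.mem (Submodule.smul_mem _ _ y.mem)))) := by
        rw [toHG, toHG, toHG]
        rfl
      rw [h3] at h2
      exact bnd_of_toHG h2)
    exact hf (hx f))
  refine ⟨m, hm, ?_⟩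
  rw [toHG_zsmul]
  exact toHG_bnd h1

end

end Pool.Agent.H71.FQS
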