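import Pool.Agent.H71.FQ.StA

/-!
# Comparison of the definitions: the K-groups
-/

set_option autoImplicit false

open Matrix

universe u v w

namespace Pool.Agent.H71.FQS

open Pool.Agent.H71.FQ (Cx HG)

section

variable {A : Type u} [Ring A] {n : ℕ}

theorem KQ.mk_add (N : ℕ) (z z' z'' : Cyc (GLm N A) n) (h : z''.ch = z.ch + z'.ch) :
    KQ.mk N z'' = KQ.mk N z + KQ.mk N z' := by
  refine (QuotientAddGroup.eq_iff_sub_mem).2 ?_
  exact AddSubgroup.subset_closure (Or.inl (Or.inl ⟨N, z, z', z'', h, rfl⟩))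

theorem KQ.mk_bnd (N : ℕ) (z : Cyc (GLm N A) n) (h : z.ch ∈ bnd (GLm N A) (n + 1)) :
    KQ.mk N z = 0 := by
  refine (QuotientAddGroup.eq_zero_iff _).2 ?_
  exact AddSubgroup.subset_closure (Or.inl (Or.inr ⟨N, z, h, rfl⟩))

theorem KQ.mk_blk (N M : ℕ) (w : Cyc (GLm N A × GLm M A) n)
    (β : GLm N A × GLm M A → GLm (N + M) A) (z : Cyc (GLm (N + M) A) n) (a : Cyc (GLm N A) n)
    (b : Cyc (GLm M A) n) (hβ : ∀ u, (β u).val = blkM u.1.val u.2.val)
    (hz : z.ch = push β w.ch) (ha : a.ch = push Prod.fst w.ch) (hb : b.ch = push Prod.snd w.ch) :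
    KQ.mk (N + M) z = KQ.mk N a + KQ.mk M b := by
  refine (QuotientAddGroup.eq_iff_sub_mem).2 ?_
  exact AddSubgroup.subset_closure (Or.inr ⟨N, M, w, β, z, a, b, hβ, hz, ha, hb, rfl⟩)

theorem KQ.hom_ext {M : Type*} [AddCommGroup M] {f g : KQ A n →+ M}
    (h : ∀ N z, f (KQ.mk N z) = g (KQ.mk N z)) : f = g := by
  apply QuotientAddGroup.addMonoidHom_ext
  apply FreeAbelianGroup.lift_ext
  rintro ⟨N, z⟩
  exact h N z

/-- the homomorphism from the homology of `GL_N(A)` -/
theorem exists_hom (N : ℕ) : ∃ F : HG (GLm N A) n →+ KQ A n, ∀ z, F (toHG z) = KQ.mk N z :=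
  exists_lift (KQ.mk N) (KQ.mk_add N) (KQ.mk_bnd N)

variable (A n) in
/-- the homomorphism from the homology of `GL_N(A)` -/
noncomputable def homN (N : ℕ) : HG (GLm N A) n →+ KQ A n := (exists_hom N).choose

theorem homN_toHG (N : ℕ) (z : Cyc (GLm N A) n) : homN A n N (toHG z) = KQ.mk N z :=
  (exists_hom N).choose_spec z

theorem homN_blk (N M : ℕ) (w : HG (GLm N A × GLm M A) n) :
    homN A n (N + M) (HG.map n (FQ.blk N M A) w) =
      homN A n N (HG.map n (MonoidHom.fst (GLm N A) (GLm M A)) w) +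
        homN A n M (HG.map n (MonoidHom.snd (GLm N A) (GLm M A)) w) := by
  obtain ⟨w, rfl⟩ := toHG_surjective w
  have e1 := map_toHG' (FQ.blk N M A) w
  have e2 := map_toHG' (MonoidHom.fst (GLm N A) (GLm M A)) w
  have e3 := map_toHG' (MonoidHom.snd (GLm N A) (GLm M A)) w
  rw [e1, e2, e3, homN_toHG, homN_toHG, homN_toHG]
  exact KQ.mk_blk N M w (FQ.blk N M A) _ _ _ (fun _ => rfl) rfl rfl rfl

/-- the comparison homomorphism -/
noncomputable def fromK : FQ.KQ A n →+ KQ A n := FQ.KQ.lift (homN A n) homN_blk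

theorem fromK_cls (N : ℕ) (z : Cyc (GLm N A) n) :
    fromK (FQ.KQ.cls A n N (toHG z)) = KQ.mk N z := by
  rw [fromK, FQ.KQ.lift_cls, homN_toHG]

/-- its inverse -/
noncomputable def toK : KQ A n →+ FQ.KQ A n :=
  QuotientAddGroup.lift _ (FreeAbelianGroup.lift fun s : KSym A n =>
    FQ.KQ.cls A n s.N (toHG s.z)) (by
      rw [AddSubgroup.closure_le]
      rintro y ((⟨N, z, z', z'', h, rfl⟩ | ⟨N, z, h, rfl⟩) |
        ⟨N, M, w, β, z, a, b, hβ, hz, ha, hb, rfl⟩)
      · change FreeAbelianGroup.lift _ _ = 0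
        rw [map_sub, map_add, FreeAbelianGroup.lift_apply_of, FreeAbelianGroup.lift_apply_of,
          FreeAbelianGroup.lift_apply_of, toHG_add h, map_add, sub_self]
      · change FreeAbelianGroup.lift _ _ = 0
        rw [FreeAbelianGroup.lift_apply_of, toHG_bnd h, map_zero]
      · change FreeAbelianGroup.lift _ _ = 0
        rw [map_sub, map_add, FreeAbelianGroup.lift_apply_of, FreeAbelianGroup.lift_apply_of,
          FreeAbelianGroup.lift_apply_of, sub_eq_zero]
        have hβ' : β = FQ.blk N M A := funext fun u => Units.ext (hβ u)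
        have e1 := map_toHG (FQ.blk N M A) (z := w) (z' := z) (by rw [hz, hβ'])
        have e2 := map_toHG (MonoidHom.fst (GLm N A) (GLm M A)) (z := w) (z' := a) ha
        have e3 := map_toHG (MonoidHom.snd (GLm N A) (GLm M A)) (z := w) (z' := b) hb
        rw [← e1, ← e2, ← e3]
        exact FQ.KQ.cls_blk (toHG w))

theorem toK_mk (N : ℕ) (z : Cyc (GLm N A) n) : toK (KQ.mk N z) = FQ.KQ.cls A n N (toHG z) := by
  change FreeAbelianGroup.lift _ (FreeAbelianGroup.of _) = _
  rw [FreeAbelianGroup.lift_apply_of]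

theorem toK_fromK (x : FQ.KQ A n) : toK (fromK x) = x := by
  have h : (toK (A := A) (n := n)).comp fromK = AddMonoidHom.id _ := by
    apply FQ.KQ.hom_ext
    intro N x
    obtain ⟨z, rfl⟩ := toHG_surjective x
    rw [AddMonoidHom.comp_apply, fromK_cls, toK_mk]
    rfl
  exact DFunLike.congr_fun h x

end

end Pool.Agent.H71.FQS
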