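import Pool.Agent.H71.FQ.StC

/-!
# Comparison of the definitions: the assembly map
-/

set_option autoImplicit false

open Matrix

universe u v w

namespace Pool.Agent.H71.FQS

open Pool.Agent.H71.FQ (Cx HG)
open Pool.Agent.H71.FJ (IdemMat K0 K0.mk)
open Pool.Agent.H95.WH (FamSub FinSub)

section

variable (R : Type u) [Ring R] (G : Type v) [Group G] (n : ℕ)

/-- the assembly map -/
noncomputable def asmS : HnK0 R G n →+ KQ (MonoidAlgebra R G) n :=
  fromK.comp ((FQ.assemblyN R n G).comp toH)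

variable {R G n}

/-- the homomorphism of the definition of `assemblyN` -/
noncomputable def rhoG (F : Subgroup G) (a : IdemMat (MonoidAlgebra R F)) :
    Subgroup.centralizer (F : Set G) →* GLm a.n (MonoidAlgebra R G) :=
  FQ.rho (MonoidAlgebra.mapDomainRingHom R F.subtype)
    ((FQ.grpHom R G).comp (Subgroup.centralizer (F : Set G)).subtype)
    (FQ.grpHom_comm R F.subtype (Subgroup.centralizer (F : Set G)).subtype (FQ.cent_comm F)) a

theorem rhoG_val (F : Subgroup G) (a : IdemMat (MonoidAlgebra R F))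
    (γ : Subgroup.centralizer (F : Set G)) (i j : Fin a.n) :
    (rhoG F a γ).val i j = (if i = j then 1 else 0) +
      (MonoidAlgebra.mapDomain (fun b : F => (b : G) * γ.val) (a.mat i j) -
        MonoidAlgebra.mapDomain (fun b : F => (b : G)) (a.mat i j)) := by
  rw [rhoG, FQ.rho_val, Matrix.add_apply, Matrix.one_apply, Matrix.map_apply]
  congr 1
  change MonoidAlgebra.mapDomain F.subtype (a.mat i j) *
    (MonoidAlgebra.single γ.val (1 : R) - 1) = _
  rw [mul_sub, mul_one]
  congr 1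
  generalize a.mat i j = x
  induction x using MonoidAlgebra.induction_linear with
  | zero => simp
  | add x y hx hy => rw [MonoidAlgebra.mapDomain_add, add_mul, hx, hy, MonoidAlgebra.mapDomain_add]
  | single b r =>
    rw [MonoidAlgebra.mapDomain_single, MonoidAlgebra.mapDomain_single,
      MonoidAlgebra.single_mul_single, mul_one]
    rfl

theorem rhoG_eq (F : Subgroup G) (a : IdemMat (MonoidAlgebra R F))
    (ρ : Subgroup.centralizer (F : Set G) → GLm a.n (MonoidAlgebra R G))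
    (h : IsRho F a.mat ρ) : ρ = rhoG F a := by
  funext γ
  apply Units.ext
  refine Matrix.ext fun i j => ?_
  rw [rhoG_val]
  exact h γ i j

theorem asmS_isAssembly : IsAssembly (R := R) (G := G) (n := n) (asmS R G n) := by
  rintro ⟨F, hF, N, e, he, z⟩ ρ z' hρ hz
  change z'.ch = push ρ z.ch at hz
  have h1 : toH (HnK0.mk ⟨F, hF, N, e, he, z⟩) = hsy ⟨F, hF, N, e, he, z⟩ := toH_mk _
  change fromK (FQ.assemblyN R n G (toH (HnK0.mk ⟨F, hF, N, e, he, z⟩))) = _
  rw [h1, hsy, FQ.asmN_sy, FQ.gasm, FQ.asm_mk]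
  have h2 := rhoG_eq F ⟨N, e, he⟩ ρ hρ
  subst h2
  have h3 := map_toHG (Γ := Subgroup.centralizer (F : Set G)) (rhoG F ⟨N, e, he⟩) (z := z)
    (z' := z') hz
  refine Eq.trans ?_ (fromK_cls N z')
  exact congrArg (fun x => fromK (FQ.KQ.cls (MonoidAlgebra R G) n N x)) h3

end

section

theorem ratInj_iff {A : Type u} [AddCommGroup A] {B : Type v} [AddCommGroup B] (f : A →+ B) :
    RatInj f ↔ ∀ (z : A) (M : ℤ), M ≠ 0 → M • f z = 0 → ∃ m : ℤ, m ≠ 0 ∧ m • z = 0 := by
  constructor
  · intro h z M hM hz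
    have h1 : TensorProduct.mk ℤ ℚ B 1 (f z) = 0 :=
      (IsLocalizedModule.eq_zero_iff (nonZeroDivisors ℤ) (TensorProduct.mk ℤ ℚ B 1)).2
        ⟨⟨M, mem_nonZeroDivisors_of_ne_zero hM⟩, hz⟩
    have h2 : TensorProduct.mk ℤ ℚ A 1 z = 0 := by
      apply h
      rw [map_zero]
      exact h1
    obtain ⟨m, hm⟩ := (IsLocalizedModule.eq_zero_iff (nonZeroDivisors ℤ)
      (TensorProduct.mk ℤ ℚ A 1)).1 h2
    exact ⟨m, nonZeroDivisors.coe_ne_zero m, hm⟩
  · exact FQ.ratInj_of f

variable {R : Type u} [Ring R] {G : Type v} [Group G] {n : ℕ}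

/-- The comparison of the two forms of the statement. -/
theorem transfer (h : FQ.RatInj (FQ.assemblyN R n G)) :
    ∃ α : HnK0 R G n →+ KQ (MonoidAlgebra R G) n, IsAssembly α ∧ RatInj α := by
  refine ⟨asmS R G n, asmS_isAssembly, (ratInj_iff _).2 fun z M hM hz => ?_⟩
  have h0 : ∀ (z : FQ.HnK0 R G n) (M : ℤ), M ≠ 0 → M • FQ.assemblyN R n G z = 0 →
      ∃ m : ℤ, m ≠ 0 ∧ m • z = 0 := (ratInj_iff _).1 h
  have h1 : M • FQ.assemblyN R n G (toH z) = 0 := by
    have h2 : toK (M • asmS R G n z) = M • FQ.assemblyN R n G (toH z) := by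
      rw [map_zsmul]
      exact congrArg (M • ·) (toK_fromK _)
    rw [← h2, hz, map_zero]
  obtain ⟨m, hm, h3⟩ := h0 _ M hM h1
  refine ⟨m, hm, ?_⟩
  rw [← fromH_toH (m • z), map_zsmul toH, h3, map_zero]

end

end Pool.Agent.H71.FQS
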