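import Pool.Agent.H71.FQ.StD
import Pool.Agent.H71.FQ.LocR
import Pool.Agent.H71.FQ.FinRings

/-!
# Rational injectivity: the classes of rings and groups
-/

set_option autoImplicit false

open Matrix

universe u v w

namespace Pool.Agent.H71.FQS

open Pool.Agent.H71.FJ (IdemMat K0 K0.mk K0.lift K0.hom_ext NilKer)
open Pool.Agent.H95.WH (FamSub FinSub)

section

variable {R : Type u} [Ring R] {G : Type v} [Group G] {n : ℕ}

theorem condP_of {p : ℕ} [Fact p.Prime] {G' : Type v} [Group G']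
    (h1 : ∃ r : ℕ, ∀ g : G', (∃ j : ℕ, g ^ p ^ j = 1) → g ^ p ^ r = 1)
    (h2 : ∀ C : Subgroup G', Finite C → IsCyclic C → ¬ p ∣ Nat.card C → PSep p (Cent C) n) :
    FQ.CondP p G' n :=
  ⟨h1, fun C hC hc hp => psep_of (Γ := Subgroup.centralizer (C : Set G')) (h2 C hC hc hp)⟩

theorem ratInj_fd {p : ℕ} [Fact p.Prime] (k : Type u) [Field k] [CharP k p] (A : Type u) [Ring A]
    [Algebra k A] [Module.Finite k A] (h : LocGrp p G n) : FQ.RatInj (FQ.assemblyN A n G) := by
  refine FQ.ratInj_directed (fun G' : Subgroup G => FQ.CondP p G' n) (fun S => ?_)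
    fun G' hG' => FQ.main_fd p k A G' n hG'
  obtain ⟨G', h1, h2, h3⟩ := h S
  exact ⟨G', condP_of h2 h3, h1⟩

theorem k0_subsingleton [Subsingleton R] (x : K0 R) : x = 0 := by
  have h1 : (AddMonoidHom.id (K0 R)) = 0 := by
    apply K0.hom_ext
    intro a
    change K0.mk a = 0
    have h2 : K0.mk a = K0.mk (a.sum a) :=
      Pool.Agent.H71.FJ.K0.mk_eq_of_equiv ⟨0, 0, Subsingleton.elim _ _, Subsingleton.elim _ _⟩
    rw [Pool.Agent.H71.FJ.K0.mk_sum] at h2
    exact left_eq_add.1 h2
  exact DFunLike.congr_fun h1 x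

theorem hnK0_subsingleton [Subsingleton R] (x : FQ.HnK0 R G n) : x = 0 := by
  induction x using FQ.hnk0_induction with
  | h0 => rfl
  | h1 F x z =>
    have : Subsingleton (MonoidAlgebra R F.1) := inferInstance
    have h1 : x = 0 := k0_subsingleton x
    rw [h1, ← FQ.syH_apply, map_zero]
  | h2 a b ha hb => rw [ha, hb, add_zero]
  | h3 a ha => rw [ha, neg_zero]

theorem ratInj_subsingleton [Subsingleton R] : FQ.RatInj (FQ.assemblyN R n G) := by
  apply FQ.ratInj_of
  intro z M hM h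
  exact ⟨1, one_ne_zero, by rw [hnK0_subsingleton z, smul_zero]⟩

theorem ratInj_nilFin (h : NilFin R)
    (hG : ∀ (p : ℕ) [Fact p.Prime], p ∣ ringChar R → LocGrp p G n) :
    FQ.RatInj (FQ.assemblyN R n G) := by
  obtain ⟨m, A, hA, φ, hs, ⟨N, hN⟩, h⟩ := h
  refine FQ.ratInj_of_nilKer n hs (FQ.nilKer_of_ker_pow φ hN) (FQ.ratInj_pi _ n fun i => ?_)
  obtain ⟨p, k, _, _, hp, hk, hf⟩ := h i
  have : Fact p.Prime := ⟨hp⟩
  rcases subsingleton_or_nontrivial (A i) with hi | hi
  · exact ratInj_subsingleton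
  · refine ratInj_fd k (A i) (hG p ?_)
    have h1 : ((ringChar R : ℕ) : A i) = 0 := by
      have h2 : φ ((ringChar R : ℕ) : R) i = 0 := by
        rw [CharP.cast_eq_zero, map_zero]
        rfl
      rw [map_natCast] at h2
      exact h2
    have : CharP (A i) p := charP_of_injective_algebraMap (algebraMap k (A i)).injective p
    exact (CharP.cast_eq_zero_iff (A i) p _).1 h1

theorem ker_pow_of_nilKer {S : Type v} [Ring S] {φ : R →+* S} (h : NilKer φ) :
    ∃ N : ℕ, RingHom.ker φ ^ N = ⊥ := by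
  obtain ⟨N, J, h0, hN, hJ⟩ := h
  have key : ∀ j : ℕ, ∀ x ∈ RingHom.ker φ ^ j, x ∈ J j := by
    intro j
    induction j with
    | zero => exact fun x _ => h0 x
    | succ j ih =>
      intro x hx
      rw [Ideal.IsTwoSided.pow_succ] at hx
      refine Submodule.smul_induction_on hx (fun r hr y hy => hJ j r y hr (ih y hy))
        fun x y hx hy => (J (j + 1)).add_mem hx hy
  refine ⟨N, ?_⟩
  rw [Submodule.eq_bot_iff]
  exact fun x hx => hN x (key N x hx)

theorem nilFin_of_finite [Finite R] : NilFin R := by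
  obtain ⟨m, F, hF, d, p, φ, hfin, hd, hp, hc, hs, hn⟩ := FQ.exists_wedderburn_char R
  exact ⟨m, fun i => Matrix (Fin (d i)) (Fin (d i)) (F i), inferInstance, φ, hs,
    ker_pow_of_nilKer hn, fun i => ⟨p i, F i, hF i, inferInstance, hp i, hc i, inferInstance⟩⟩

/-- **Rational injectivity of the assembly map.** -/
theorem ratInj_main (hR : LocRing R)
    (hG : ∀ (p : ℕ) [Fact p.Prime], p ∣ ringChar R → LocGrp p G n) :
    FQ.RatInj (FQ.assemblyN R n G) := by
  refine FQ.ratInj_directed_ring (fun R' : Subring R => Finite R' ∨ NilFin R') (fun S => ?_)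
    fun R' hR' => ?_
  · obtain ⟨R', h1, h2⟩ := hR S
    exact ⟨R', h2, h1⟩
  · have h1 : ringChar R' = ringChar R := by
      have h2 := ringChar.charP R
      have h3 : CharP R' (ringChar R) := inferInstance
      exact ringChar.eq R' (ringChar R)
    have h2 : NilFin R' := hR'.elim (fun h => nilFin_of_finite) id
    refine ratInj_nilFin h2 fun p hp hd => hG p ?_
    rw [← h1]
    exact hd

/-- **The main theorem.** -/
theorem main (hR : LocRing R)
    (hG : ∀ (p : ℕ) [Fact p.Prime], p ∣ ringChar R → LocGrp p G n) :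
    ∃ α : HnK0 R G n →+ KQ (MonoidAlgebra R G) n, IsAssembly α ∧ RatInj α :=
  transfer (ratInj_main hR hG)

end

end Pool.Agent.H71.FQS
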