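import Pool.Agent.H71.FQ.StD
import Pool.Agent.H71.FQ.St1
import Pool.Agent.H16.FU.Defs1

/-!
# Comparison of the definitions: the assembly map on the `K₁`-part
-/

set_option autoImplicit false

open Matrix

universe u v w

namespace Pool.Agent.H71.FQS

open Pool.Agent.H71.FQ (Cx HG centConj grpHom cent_comm mapGL)
open Pool.Agent.H95.WH (K1 FamSub conjHom FinSub stab)

section

variable {Λ : Type v} [Group Λ] {m : ℕ}

theorem pri_eq (u : Λ) (c : Ch Λ m) : pri u c = Pool.Agent.H16.FU.pri u m c := by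
  rw [pri, Pool.Agent.H16.FU.pri, Finsupp.linearCombination_apply]
  refine Finsupp.sum_congr fun x _ => ?_
  rw [Finset.smul_sum]
  refine Finset.sum_congr rfl fun i _ => ?_
  rw [smul_smul, Finsupp.smul_single, smul_eq_mul, mul_one, mul_comm]
  rfl

theorem cr_toHG {Γ : Type w} [Group Γ] {n : ℕ} (f : Γ →* Λ) (u : Λ)
    (hu : ∀ γ, f γ * u = u * f γ) {z : Cyc Γ n} {z' : Cyc Λ (n + 1)}
    (h : z'.ch = pri u (push f z.ch)) :
    Pool.Agent.H16.FU.HG.cr f u hu (toHG z) = toHG z' := by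
  rw [toHG, Pool.Agent.H16.FU.HG.cr_mk, toHG]
  congr 1
  apply Subtype.ext
  change Pool.Agent.H16.FU.pri u (n + 1) (FQ.push ℤ f (n + 1) z.ch) = z'.ch
  rw [h, pri_eq, push_eq]

end

section

variable {R : Type u} [Ring R] {G : Type v} [Group G] {n : ℕ}

theorem mk1_eq {s t : HSym1 R G n} (h : FreeAbelianGroup.of s - FreeAbelianGroup.of t ∈
    relU R G n ∪ relZ1 R G n ∪ relC1 R G n) : HnK1.mk s = HnK1.mk t :=
  (QuotientAddGroup.eq_iff_sub_mem).2 (AddSubgroup.subset_closure h)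

theorem mk1_add {s t r : HSym1 R G n} (h : FreeAbelianGroup.of s -
    (FreeAbelianGroup.of t + FreeAbelianGroup.of r) ∈
      relU R G n ∪ relZ1 R G n ∪ relC1 R G n) :
    HnK1.mk s = HnK1.mk t + HnK1.mk r :=
  (QuotientAddGroup.eq_iff_sub_mem).2 (AddSubgroup.subset_closure h)

theorem exists_g1 (F : FamSub G FinSub) {N : ℕ} (U : GLm N (RF R F.1)) :
    ∃ f : HG (Cent F.1) n →+ HnK1 R G n, ∀ z, f (toHG z) = HnK1.mk ⟨F.1, F.2, N, U, z⟩ := by
  apply exists_lift
  · intro z z' z'' h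
    exact mk1_add (Or.inl (Or.inr (Or.inl ⟨F.1, F.2, N, U, z, z', z'', h, rfl⟩)))
  · intro z h
    exact (QuotientAddGroup.eq_zero_iff _).2 (AddSubgroup.subset_closure
      (Or.inl (Or.inr (Or.inr ⟨F.1, F.2, N, U, z, h, rfl⟩))))

/-- the homomorphism in the variable `z` -/
noncomputable def gz1 (F : FamSub G FinSub) {N : ℕ} (U : GLm N (RF R F.1)) :
    HG (Cent F.1) n →+ HnK1 R G n := (exists_g1 F U).choose

theorem gz1_toHG (F : FamSub G FinSub) {N : ℕ} (U : GLm N (RF R F.1))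
    (z : Cyc (Cent F.1) n) : gz1 F U (toHG z) = HnK1.mk ⟨F.1, F.2, N, U, z⟩ :=
  (exists_g1 F U).choose_spec z

/-- the biadditive map -/
noncomputable def gb1 (F : FamSub G FinSub) :
    K1 (MonoidAlgebra R F.1) →+ (HG (Cent F.1) n →+ HnK1 R G n) :=
  K1.lift (fun _ U => gz1 F U)
    (fun N U V => by
      apply DFunLike.ext
      intro x
      obtain ⟨z, rfl⟩ := toHG_surjective x
      rw [AddMonoidHom.add_apply]
      refine (gz1_toHG F _ z).trans ?_
      refine Eq.trans ?_ (congrArg₂ (· + ·) (gz1_toHG F U z).symm (gz1_toHG F V z).symm)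
      exact mk1_add (Or.inl (Or.inl (Or.inl ⟨F.1, F.2, N, U, V, z, rfl⟩))))
    (fun N U => by
      apply DFunLike.ext
      intro x
      obtain ⟨z, rfl⟩ := toHG_surjective x
      refine (gz1_toHG F _ z).trans ?_
      refine Eq.trans ?_ (gz1_toHG F U z).symm
      exact mk1_eq (Or.inl (Or.inl (Or.inr ⟨F.1, F.2, N, U, _, z, rfl, rfl⟩))))

theorem gb1_mk (F : FamSub G FinSub) {N : ℕ} (U : GLm N (RF R F.1))
    (z : Cyc (Cent F.1) n) :
    gb1 F (K1.mk (R := MonoidAlgebra R F.1) U) (toHG z) = HnK1.mk ⟨F.1, F.2, N, U, z⟩ := by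
  have h : gb1 (n := n) F (K1.mk (R := MonoidAlgebra R F.1) U) = gz1 F U := K1.lift_mk _ _ _ _
  rw [h, gz1_toHG]

theorem gb1_conj (F F' : FamSub G FinSub) (g : G) (h : ∀ x ∈ F.1, g * x * g⁻¹ ∈ F'.1)
    (x : K1 (MonoidAlgebra R F.1)) (z : HG (Cent F'.1) n) :
    gb1 F' (K1.map (MonoidAlgebra.mapDomainRingHom R (conjHom g F.1 F'.1 h)) x) z =
      gb1 F x (HG.map n (centConj g F.1 F'.1 h) z) := by
  obtain ⟨z, rfl⟩ := toHG_surjective z
  suffices H : (AddMonoidHom.eval (toHG z)).comp ((gb1 (n := n) F').comp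
      (K1.map (MonoidAlgebra.mapDomainRingHom R (conjHom g F.1 F'.1 h)))) =
      (AddMonoidHom.eval (HG.map n (centConj g F.1 F'.1 h) (toHG z))).comp (gb1 F) from
    DFunLike.congr_fun H x
  apply K1.hom_ext
  intro N U
  change gb1 F' (K1.map _ (K1.mk U)) (toHG z) = gb1 F (K1.mk U) (HG.map n _ (toHG z))
  have e1 := map_toHG' (centConj g F.1 F'.1 h) z
  rw [K1.map_mk]
  refine (gb1_mk F' _ z).trans ?_
  refine Eq.trans ?_ (congrArg (gb1 F (K1.mk U)) e1).symm
  refine Eq.trans ?_ (gb1_mk F U _).symm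
  exact mk1_eq (Or.inr ⟨F.1, F'.1, F.2, F'.2, g, N, U,
    K1.mapU (MonoidAlgebra.mapDomainRingHom R (conjHom g F.1 F'.1 h)) U,
    z.map (centConj g F.1 F'.1 h), z, conjHom g F.1 F'.1 h, centConj g F.1 F'.1 h,
    fun _ => rfl, fun _ => rfl, fun _ _ => rfl, rfl, rfl⟩)

/-- the comparison homomorphism -/
noncomputable def fromH1 : Pool.Agent.H16.FU.HnK1 R G n →+ HnK1 R G n :=
  Pool.Agent.H16.FU.lift1 (fun F => gb1 F) gb1_conj

theorem fromH1_sy (F : FamSub G FinSub) {N : ℕ} (U : GLm N (RF R F.1)) (z : Cyc (Cent F.1) n) :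
    fromH1 (Pool.Agent.H16.FU.sy1 F (K1.mk (R := MonoidAlgebra R F.1) U)
      (toHG (Γ := Subgroup.centralizer (F.1 : Set G)) z)) = HnK1.mk ⟨F.1, F.2, N, U, z⟩ :=
  (Pool.Agent.H16.FU.lift1_sy1 _ _ F _ _).trans (gb1_mk F U z)

/-- the class in the first definition -/
noncomputable def hsy1 (s : HSym1 R G n) : Pool.Agent.H16.FU.HnK1 R G n :=
  Pool.Agent.H16.FU.sy1 ⟨s.F, s.fin⟩ (K1.mk (R := MonoidAlgebra R s.F) s.U)
    (toHG (Γ := Subgroup.centralizer (s.F : Set G)) s.z)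

/-- the comparison homomorphism in the other direction -/
noncomputable def toH1c : HnK1 R G n →+ Pool.Agent.H16.FU.HnK1 R G n :=
  QuotientAddGroup.lift _ (FreeAbelianGroup.lift hsy1) (by
    rw [AddSubgroup.closure_le]
    rintro w (((⟨F, hF, N, U, V, z, rfl⟩ | ⟨F, hF, N, U, V, z, h, rfl⟩) |
        (⟨F, hF, N, U, z, z', z'', h, rfl⟩ | ⟨F, hF, N, U, z, h, rfl⟩)) |
        ⟨F, F', hF, hF', g, N, U, U', z, z', c, κ, hc, hκ, hee, hz, rfl⟩)
    · change FreeAbelianGroup.lift hsy1 _ = 0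
      rw [map_sub, map_add, FreeAbelianGroup.lift_apply_of, FreeAbelianGroup.lift_apply_of,
        FreeAbelianGroup.lift_apply_of, sub_eq_zero]
      exact (congrArg (fun x => Pool.Agent.H16.FU.sy1 (⟨F, hF⟩ : FamSub G FinSub) x
        (toHG (Γ := Subgroup.centralizer (F : Set G)) z))
        (K1.mk_mul (R := MonoidAlgebra R F) U V)).trans (Pool.Agent.H16.FU.sy1_add _ _ _ _)
    · change FreeAbelianGroup.lift hsy1 _ = 0
      rw [map_sub, FreeAbelianGroup.lift_apply_of, FreeAbelianGroup.lift_apply_of, sub_eq_zero]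
      have h1 : V = stab (R := MonoidAlgebra R F) U := Units.ext h
      subst h1
      exact congrArg (fun x => Pool.Agent.H16.FU.sy1 (⟨F, hF⟩ : FamSub G FinSub) x
        (toHG (Γ := Subgroup.centralizer (F : Set G)) z))
        (K1.mk_stab (R := MonoidAlgebra R F) U)
    · change FreeAbelianGroup.lift hsy1 _ = 0
      rw [map_sub, map_add, FreeAbelianGroup.lift_apply_of, FreeAbelianGroup.lift_apply_of,
        FreeAbelianGroup.lift_apply_of, sub_eq_zero]
      exact (congrArg (fun x => Pool.Agent.H16.FU.sy1 (⟨F, hF⟩ : FamSub G FinSub)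
        (K1.mk (R := MonoidAlgebra R F) U) x)
        (toHG_add (Γ := Subgroup.centralizer (F : Set G)) h)).trans
          (Pool.Agent.H16.FU.sy1_addz _ _ _ _)
    · change FreeAbelianGroup.lift hsy1 _ = 0
      rw [FreeAbelianGroup.lift_apply_of]
      exact (congrArg (fun x => Pool.Agent.H16.FU.syB1 (⟨F, hF⟩ : FamSub G FinSub)
        (K1.mk (R := MonoidAlgebra R F) U) x)
        (toHG_bnd (Γ := Subgroup.centralizer (F : Set G)) h)).trans (map_zero _)
    · change FreeAbelianGroup.lift hsy1 _ = 0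
      rw [map_sub, FreeAbelianGroup.lift_apply_of, FreeAbelianGroup.lift_apply_of, sub_eq_zero]
      have hg : ∀ x ∈ F, g * x * g⁻¹ ∈ F' := fun x hx => by
        rw [← hc ⟨x, hx⟩]
        exact (c ⟨x, hx⟩).2
      have h1 : c = conjHom g F F' hg := funext fun a => Subtype.ext (hc a)
      have h2 : κ = centConj g F F' hg := funext fun γ => Subtype.ext (hκ γ)
      subst h1
      subst h2
      have h3 := Pool.Agent.H16.FU.sy1_conj (⟨F, hF⟩ : FamSub G FinSub) ⟨F', hF'⟩ g hg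
        (K1.mk (R := MonoidAlgebra R F) U)
        (toHG (Γ := Subgroup.centralizer (F' : Set G)) z')
      have h4 : K1.mapU (MonoidAlgebra.mapDomainRingHom R (conjHom g F F' hg)) U = U' :=
        Units.ext (Matrix.ext fun i j => (hee i j).symm)
      have h5 : K1.map (MonoidAlgebra.mapDomainRingHom R (conjHom g F F' hg))
          (K1.mk (R := MonoidAlgebra R F) U) = K1.mk (R := MonoidAlgebra R F') U' :=
        (K1.map_mk _ _).trans (congrArg (fun V => K1.mk (R := MonoidAlgebra R F') V) h4)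
      refine Eq.trans ?_ (h3.trans ?_)
      · exact congrArg (fun x => Pool.Agent.H16.FU.sy1 (⟨F', hF'⟩ : FamSub G FinSub) x
          (toHG (Γ := Subgroup.centralizer (F' : Set G)) z')) h5.symm
      · exact congrArg (fun x => Pool.Agent.H16.FU.sy1 (⟨F, hF⟩ : FamSub G FinSub)
          (K1.mk (R := MonoidAlgebra R F) U) x) (map_toHG (Γ := Subgroup.centralizer (F' : Set G))
            (Γ' := Subgroup.centralizer (F : Set G)) (centConj g F F' hg) hz))

theorem toH1c_mk (s : HSym1 R G n) : toH1c (HnK1.mk s) = hsy1 s :=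
  FreeAbelianGroup.lift_apply_of _ _

theorem fromH1_toH1c (x : HnK1 R G n) : fromH1 (toH1c x) = x := by
  have h : (fromH1 (R := R) (G := G) (n := n)).comp toH1c = AddMonoidHom.id _ := by
    apply QuotientAddGroup.addMonoidHom_ext
    apply FreeAbelianGroup.lift_ext
    intro s
    change fromH1 (toH1c (HnK1.mk s)) = HnK1.mk s
    rw [toH1c_mk]
    exact fromH1_sy (⟨s.F, s.fin⟩ : FamSub G FinSub) s.U s.z
  exact DFunLike.congr_fun h x

variable (R G n) in
/-- the assembly map on the `K₁`-part -/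
noncomputable def asmS1 : HnK1 R G n →+ KQ (MonoidAlgebra R G) (n + 1) :=
  fromK.comp ((Pool.Agent.H16.FU.assembly1 R n G).comp toH1c)

theorem asmS1_isAssembly1 : IsAssembly1 (R := R) (G := G) (n := n) (asmS1 R G n) := by
  rintro ⟨F, hF, N, U, z⟩ σ u z' hσ hu hz
  change z'.ch = pri u (push σ z.ch) at hz
  have h1 : toH1c (HnK1.mk ⟨F, hF, N, U, z⟩) = hsy1 ⟨F, hF, N, U, z⟩ := toH1c_mk _
  change fromK (Pool.Agent.H16.FU.assembly1 R n G (toH1c (HnK1.mk ⟨F, hF, N, U, z⟩))) = _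
  rw [h1, hsy1, Pool.Agent.H16.FU.asm1_sy1, Pool.Agent.H16.FU.gasm1]
  refine (congrArg fromK (Pool.Agent.H16.FU.asm1_mk (n := n)
    (MonoidAlgebra.mapDomainRingHom R F.subtype)
    ((grpHom R G).comp (Subgroup.centralizer (F : Set G)).subtype)
    (FQ.grpHom_comm R F.subtype (Subgroup.centralizer (F : Set G)).subtype (cent_comm F))
    (B := MonoidAlgebra R F) U (toHG (Γ := Subgroup.centralizer (F : Set G)) z))).trans ?_
  refine Eq.trans ?_ (fromK_cls N z')
  refine congrArg (fun x => fromK (FQ.KQ.cls (MonoidAlgebra R G) (n + 1) N x)) ?_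
  have h2 : σ = Pool.Agent.H16.FU.scal N
      ((grpHom R G).comp (Subgroup.centralizer (F : Set G)).subtype) :=
    funext fun γ => Units.ext (hσ γ)
  have h3 : u = mapGL (MonoidAlgebra.mapDomainRingHom R F.subtype) N U :=
    Units.ext (Matrix.ext fun i j => hu i j)
  refine cr_toHG (Γ := Subgroup.centralizer (F : Set G)) _ _ _ ?_
  rw [hz, h2, h3]
  rfl

end

section

variable {R : Type u} [Ring R] {G : Type v} [Group G] {n : ℕ}

/-- The comparison of the two forms of the statement. -/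
theorem transfer1 (h : FQ.RatInj (Pool.Agent.H16.FU.assembly01 R n G)) :
    ∃ (α₀ : HnK0 R G (n + 1) →+ KQ (MonoidAlgebra R G) (n + 1))
      (α₁ : HnK1 R G n →+ KQ (MonoidAlgebra R G) (n + 1)),
      IsAssembly α₀ ∧ IsAssembly1 α₁ ∧ RatInj (α₀.coprod α₁) := by
  refine ⟨asmS R G (n + 1), asmS1 R G n, asmS_isAssembly, asmS1_isAssembly1,
    (ratInj_iff _).2 fun z M hM hz => ?_⟩
  have h0 : ∀ (z : FQ.HnK0 R G (n + 1) × Pool.Agent.H16.FU.HnK1 R G n) (M : ℤ), M ≠ 0 →
      M • Pool.Agent.H16.FU.assembly01 R n G z = 0 → ∃ m : ℤ, m ≠ 0 ∧ m • z = 0 :=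
    (ratInj_iff _).1 h
  have h1 : M • Pool.Agent.H16.FU.assembly01 R n G (toH z.1, toH1c z.2) = 0 := by
    have h2 : toK (M • ((asmS R G (n + 1)).coprod (asmS1 R G n)) z) =
        M • Pool.Agent.H16.FU.assembly01 R n G (toH z.1, toH1c z.2) := by
      rw [map_zsmul, AddMonoidHom.coprod_apply, map_add]
      exact congrArg (M • ·) (congrArg₂ (· + ·) (toK_fromK _) (toK_fromK _))
    rw [← h2, hz, map_zero]
  obtain ⟨m, hm, h3⟩ := h0 _ M hM h1
  refine ⟨m, hm, ?_⟩
  have h4 := congrArg Prod.fst h3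
  have h5 := congrArg Prod.snd h3
  change m • toH z.1 = 0 at h4
  change m • toH1c z.2 = 0 at h5
  refine Prod.ext ?_ ?_
  · change m • z.1 = 0
    rw [← fromH_toH (m • z.1), map_zsmul toH, h4, map_zero]
  · change m • z.2 = 0
    rw [← fromH1_toH1c (m • z.2), map_zsmul toH1c, h5, map_zero]

end

end Pool.Agent.H71.FQS
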