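import Pool.Agent.H71.FQ.StG
import Pool.Agent.H16.FU.Fin2

/-!
# Rational injectivity on the `K₀`-part and the `K₁`-part: the final statement
-/

set_option autoImplicit false

universe u v

namespace Pool.Agent.H71.FQS

section

variable {R : Type u} [Ring R] {G : Type v} [Group G] {n : ℕ}

theorem fieldCase : FieldCase.{u, v} := fun p _ k _ _ G _ r h1 n h2 =>
  Pool.Agent.H16.FU.main p k G r h1 n h2

/-- **The main theorem in the degree `n + 2`.** -/
theorem main1 (hR : LocRing R)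
    (hG : ∀ p : ℕ, p.Prime → p ∣ ringChar R → LocGrpD p G {n, n + 1}) :
    ∃ (α₀ : HnK0 R G (n + 1) →+ KQ (MonoidAlgebra R G) (n + 1))
      (α₁ : HnK1 R G n →+ KQ (MonoidAlgebra R G) (n + 1)),
      IsAssembly α₀ ∧ IsAssembly1 α₁ ∧ RatInj (α₀.coprod α₁) := by
  refine transfer1 (ratInj01_main fieldCase hR fun p hp hd S => ?_)
  obtain ⟨G', h1, h2, h3⟩ := hG p hp.out hd S
  exact ⟨G', h1, h2, fun C h4 h5 h6 =>
    ⟨h3 C h4 h5 h6 n (Or.inl rfl), h3 C h4 h5 h6 (n + 1) (Or.inr rfl)⟩⟩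

/-- **The main theorem on the `K₀`-part in the degree `n + 1`.** -/
theorem main0 (hR : LocRing R)
    (hG : ∀ p : ℕ, p.Prime → p ∣ ringChar R → LocGrpD p G {n}) :
    ∃ α : HnK0 R G n →+ KQ (MonoidAlgebra R G) n, IsAssembly α ∧ RatInj α := by
  refine main hR fun p hp hd S => ?_
  obtain ⟨G', h1, h2, h3⟩ := hG p hp.out hd S
  exact ⟨G', h1, h2, fun C h4 h5 h6 => h3 C h4 h5 h6 n rfl⟩

end

end Pool.Agent.H71.FQS
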