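import Pool.Agent.H71.FQ.St2
import Pool.Agent.H71.FQ.StH
import Pool.Agent.H71.FU0.Main0

/-!
# Comparison of the definitions: the assembly map on the `K₁`-part in all degrees
-/

set_option autoImplicit false

open Matrix

universe u v w

namespace Pool.Agent.H71.FQ1

open Pool.Agent.H71.FQS (Ch bd push coi bnd Cyc PSep GLm blkM RF Cent KQ HnK0 IsAssembly RatInj
  LocRing toHG fromK fromK_cls toK toK_fromK asmS asmS_isAssembly ratInj_iff toH fromH_toH bd_eq
  push_eq mem_coi)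
open Pool.Agent.H71.FQ (Cx HG centConj grpHom)
open Pool.Agent.H71.FU0 (H0K1 cl cl_conj lift10 lift10_cl h0k1_ext e1 mk_single cyc0 kq1 kq1_mk
  assembly10 assembly10_cl assembly00 assembly00_apply ratInj00_main LocGrp0)
open Pool.Agent.H95.WH (K1 K1.mk K1.lift K1.lift_mk K1.hom_ext K1.mk_mul K1.mk_stab K1.map
  K1.map_mk K1.mapU FamSub conjHom FinSub stab)

section

variable {R : Type u} [Ring R] {G : Type v} [Group G] {n : ℕ}

theorem mk_eq {s t : HSym1 R G n} (h : FreeAbelianGroup.of s - FreeAbelianGroup.of t ∈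
    relU R G n ∪ relZ1 R G n ∪ relC1 R G n) : HnK1.mk s = HnK1.mk t :=
  (QuotientAddGroup.eq_iff_sub_mem).2 (AddSubgroup.subset_closure h)

theorem mk_add {s t r : HSym1 R G n} (h : FreeAbelianGroup.of s -
    (FreeAbelianGroup.of t + FreeAbelianGroup.of r) ∈
      relU R G n ∪ relZ1 R G n ∪ relC1 R G n) :
    HnK1.mk s = HnK1.mk t + HnK1.mk r :=
  (QuotientAddGroup.eq_iff_sub_mem).2 (AddSubgroup.subset_closure h)

theorem mk_zero {s : HSym1 R G n} (h : FreeAbelianGroup.of s ∈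
    relU R G n ∪ relZ1 R G n ∪ relC1 R G n) : HnK1.mk s = 0 :=
  (QuotientAddGroup.eq_zero_iff _).2 (AddSubgroup.subset_closure h)

/-- homomorphisms out of `HnK1` -/
noncomputable def lift {M : Type*} [AddCommGroup M] (f : HSym1 R G n → M)
    (h1 : ∀ (F : Subgroup G) (hF : Finite F) (N : ℕ) (U V : GLm N (RF R F)) (z : Ch (Cent F) n)
      (hz : IsCyc (Cent F) n z), f ⟨F, hF, N, U * V, z, hz⟩ =
        f ⟨F, hF, N, U, z, hz⟩ + f ⟨F, hF, N, V, z, hz⟩)
    (h2 : ∀ (F : Subgroup G) (hF : Finite F) (N : ℕ) (U : GLm N (RF R F))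
      (V : GLm (N + 1) (RF R F)) (z : Ch (Cent F) n) (hz : IsCyc (Cent F) n z),
      V.val = blkM U.val (1 : Matrix (Fin 1) (Fin 1) (RF R F)) →
      f ⟨F, hF, N + 1, V, z, hz⟩ = f ⟨F, hF, N, U, z, hz⟩)
    (h3 : ∀ (F : Subgroup G) (hF : Finite F) (N : ℕ) (U : GLm N (RF R F))
      (z z' : Ch (Cent F) n) (hz : IsCyc (Cent F) n z) (hz' : IsCyc (Cent F) n z')
      (h : IsCyc (Cent F) n (z + z')), f ⟨F, hF, N, U, z + z', h⟩ =
        f ⟨F, hF, N, U, z, hz⟩ + f ⟨F, hF, N, U, z', hz'⟩)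
    (h4 : ∀ (F : Subgroup G) (hF : Finite F) (N : ℕ) (U : GLm N (RF R F))
      (z : Ch (Cent F) n) (hz : IsCyc (Cent F) n z), z ∈ bnd (Cent F) n →
      f ⟨F, hF, N, U, z, hz⟩ = 0)
    (h5 : ∀ (F F' : Subgroup G) (hF : Finite F) (hF' : Finite F') (g : G) (N : ℕ)
      (U : GLm N (RF R F)) (U' : GLm N (RF R F')) (z : Ch (Cent F) n) (z' : Ch (Cent F') n)
      (hz : IsCyc (Cent F) n z) (hz' : IsCyc (Cent F') n z')
      (c : F → F') (κ : Cent F' → Cent F),
      (∀ a, (c a : G) = g * a * g⁻¹) → (∀ γ, (κ γ).val = g⁻¹ * γ.val * g) →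
      (∀ i j, U'.val i j = MonoidAlgebra.mapDomain c (U.val i j)) → z = push κ z' →
      f ⟨F', hF', N, U', z', hz'⟩ = f ⟨F, hF, N, U, z, hz⟩) : HnK1 R G n →+ M :=
  QuotientAddGroup.lift _ (FreeAbelianGroup.lift f) (by
    rw [AddSubgroup.closure_le]
    rintro w (((⟨F, hF, N, U, V, z, hz, rfl⟩ | ⟨F, hF, N, U, V, z, hz, h, rfl⟩) |
        (⟨F, hF, N, U, z, z', hz, hz', h, rfl⟩ | ⟨F, hF, N, U, z, hz, h, rfl⟩)) |
        ⟨F, F', hF, hF', g, N, U, U', z, z', hz, hz', c, κ, hc, hκ, hee, hzz, rfl⟩)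
    · change FreeAbelianGroup.lift f _ = 0
      rw [map_sub, map_add, FreeAbelianGroup.lift_apply_of, FreeAbelianGroup.lift_apply_of,
        FreeAbelianGroup.lift_apply_of, sub_eq_zero]
      exact h1 F hF N U V z hz
    · change FreeAbelianGroup.lift f _ = 0
      rw [map_sub, FreeAbelianGroup.lift_apply_of, FreeAbelianGroup.lift_apply_of, sub_eq_zero]
      exact h2 F hF N U V z hz h
    · change FreeAbelianGroup.lift f _ = 0
      rw [map_sub, map_add, FreeAbelianGroup.lift_apply_of, FreeAbelianGroup.lift_apply_of,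
        FreeAbelianGroup.lift_apply_of, sub_eq_zero]
      exact h3 F hF N U z z' hz hz' h
    · change FreeAbelianGroup.lift f _ = 0
      rw [FreeAbelianGroup.lift_apply_of]
      exact h4 F hF N U z hz h
    · change FreeAbelianGroup.lift f _ = 0
      rw [map_sub, FreeAbelianGroup.lift_apply_of, FreeAbelianGroup.lift_apply_of, sub_eq_zero]
      exact h5 F F' hF hF' g N U U' z z' hz hz' c κ hc hκ hee hzz)

theorem hom_ext {M : Type*} [AddCommGroup M] {f g : HnK1 R G n →+ M}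
    (h : ∀ s, f (HnK1.mk s) = g (HnK1.mk s)) : f = g := by
  apply QuotientAddGroup.addMonoidHom_ext
  apply FreeAbelianGroup.lift_ext
  exact h

/-- the homomorphism to the group of the first definition -/
noncomputable def conv : HnK1 R G (n + 1) →+ FQS.HnK1 R G n :=
  lift (fun s => FQS.HnK1.mk ⟨s.F, s.fin, s.N, s.U, ⟨s.z, s.cyc⟩⟩)
    (fun F hF N U V z hz => FQS.mk1_add (Or.inl (Or.inl (Or.inl ⟨F, hF, N, U, V, ⟨z, hz⟩, rfl⟩))))
    (fun F hF N U V z hz h => FQS.mk1_eq (Or.inl (Or.inl (Or.inr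
      ⟨F, hF, N, U, V, ⟨z, hz⟩, h, rfl⟩))))
    (fun F hF N U z z' hz hz' h => FQS.mk1_add (Or.inl (Or.inr (Or.inl
      ⟨F, hF, N, U, ⟨z, hz⟩, ⟨z', hz'⟩, ⟨z + z', h⟩, rfl, rfl⟩))))
    (fun F hF N U z hz h => (QuotientAddGroup.eq_zero_iff _).2 (AddSubgroup.subset_closure
      (Or.inl (Or.inr (Or.inr ⟨F, hF, N, U, ⟨z, hz⟩, h, rfl⟩)))))
    (fun F F' hF hF' g N U U' z z' hz hz' c κ hc hκ hee hzz => FQS.mk1_eq (Or.inr
      ⟨F, F', hF, hF', g, N, U, U', ⟨z, hz⟩, ⟨z', hz'⟩, c, κ, hc, hκ, hee, hzz, rfl⟩))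

theorem conv_mk (s : HSym1 R G (n + 1)) :
    conv (HnK1.mk s) = FQS.HnK1.mk ⟨s.F, s.fin, s.N, s.U, ⟨s.z, s.cyc⟩⟩ :=
  FreeAbelianGroup.lift_apply_of _ _

/-- the homomorphism in the other direction -/
noncomputable def vnoc : FQS.HnK1 R G n →+ HnK1 R G (n + 1) :=
  QuotientAddGroup.lift _ (FreeAbelianGroup.lift fun s : FQS.HSym1 R G n =>
    (HnK1.mk ⟨s.F, s.fin, s.N, s.U, s.z.1, s.z.2⟩ : HnK1 R G (n + 1))) (by
    rw [AddSubgroup.closure_le]
    rintro w (((⟨F, hF, N, U, V, z, rfl⟩ | ⟨F, hF, N, U, V, z, h, rfl⟩) |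
        (⟨F, hF, N, U, z, z', z'', h, rfl⟩ | ⟨F, hF, N, U, z, h, rfl⟩)) |
        ⟨F, F', hF, hF', g, N, U, U', z, z', c, κ, hc, hκ, hee, hz, rfl⟩)
    · change FreeAbelianGroup.lift _ _ = 0
      rw [map_sub, map_add, FreeAbelianGroup.lift_apply_of, FreeAbelianGroup.lift_apply_of,
        FreeAbelianGroup.lift_apply_of, sub_eq_zero]
      exact mk_add (Or.inl (Or.inl (Or.inl ⟨F, hF, N, U, V, z.1, z.2, rfl⟩)))
    · change FreeAbelianGroup.lift _ _ = 0
      rw [map_sub, FreeAbelianGroup.lift_apply_of, FreeAbelianGroup.lift_apply_of, sub_eq_zero]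
      exact mk_eq (Or.inl (Or.inl (Or.inr ⟨F, hF, N, U, V, z.1, z.2, h, rfl⟩)))
    · change FreeAbelianGroup.lift _ _ = 0
      rw [map_sub, map_add, FreeAbelianGroup.lift_apply_of, FreeAbelianGroup.lift_apply_of,
        FreeAbelianGroup.lift_apply_of, sub_eq_zero]
      obtain ⟨z, hz⟩ := z
      obtain ⟨z', hz'⟩ := z'
      obtain ⟨z'', hz''⟩ := z''
      change z'' = z + z' at h
      subst h
      exact mk_add (Or.inl (Or.inr (Or.inl ⟨F, hF, N, U, z, z', hz, hz', hz'', rfl⟩)))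
    · change FreeAbelianGroup.lift _ _ = 0
      rw [FreeAbelianGroup.lift_apply_of]
      exact mk_zero (Or.inl (Or.inr (Or.inr ⟨F, hF, N, U, z.1, z.2, h, rfl⟩)))
    · change FreeAbelianGroup.lift _ _ = 0
      rw [map_sub, FreeAbelianGroup.lift_apply_of, FreeAbelianGroup.lift_apply_of, sub_eq_zero]
      exact mk_eq (Or.inr ⟨F, F', hF, hF', g, N, U, U', z.1, z'.1, z.2, z'.2, c, κ, hc, hκ, hee,
        hz, rfl⟩))

theorem vnoc_conv (x : HnK1 R G (n + 1)) : vnoc (conv x) = x := by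
  have h : (vnoc (R := R) (G := G) (n := n)).comp conv = AddMonoidHom.id _ := by
    apply hom_ext
    intro s
    rw [AddMonoidHom.comp_apply, conv_mk]
    exact FreeAbelianGroup.lift_apply_of _ _
  exact DFunLike.congr_fun h x

/-- the transfer in the degrees `n + 2` -/
theorem transfer_succ (h : ∃ (α₀ : HnK0 R G (n + 1) →+ KQ (MonoidAlgebra R G) (n + 1))
      (α₁ : FQS.HnK1 R G n →+ KQ (MonoidAlgebra R G) (n + 1)),
      IsAssembly α₀ ∧ FQS.IsAssembly1 α₁ ∧ RatInj (α₀.coprod α₁)) :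
    ∃ (α₀ : HnK0 R G (n + 1) →+ KQ (MonoidAlgebra R G) (n + 1))
      (α₁ : HnK1 R G (n + 1) →+ KQ (MonoidAlgebra R G) (n + 1)),
      IsAssembly α₀ ∧ IsAssembly1 α₁ ∧ RatInj (α₀.coprod α₁) := by
  obtain ⟨α₀, α₁, h0, h1, h2⟩ := h
  refine ⟨α₀, α₁.comp conv, h0, ?_, (ratInj_iff _).2 fun z M hM hz => ?_⟩
  · intro s σ u z' hσ hu hz
    rw [AddMonoidHom.comp_apply, conv_mk]
    exact h1 ⟨s.F, s.fin, s.N, s.U, ⟨s.z, s.cyc⟩⟩ σ u z' hσ hu hz
  · obtain ⟨m, hm, h3⟩ := (ratInj_iff _).1 h2 (z.1, conv z.2) M hM hz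
    refine ⟨m, hm, ?_⟩
    have h4 : m • z.1 = 0 := congrArg Prod.fst h3
    have h5 : m • conv z.2 = 0 := congrArg Prod.snd h3
    refine Prod.ext h4 ?_
    change m • z.2 = 0
    rw [← vnoc_conv z.2, ← map_zsmul, h5, map_zero]

end

/-! ### Degree one -/

section

variable {Γ : Type v} [Group Γ]

/-- the sum of the coefficients -/
noncomputable def aug (Γ : Type v) : Ch Γ 0 →+ ℤ := Finsupp.liftAddHom fun _ => AddMonoidHom.id ℤ

theorem aug_single (x : Fin (0 + 1) → Γ) (a : ℤ) : aug Γ (Finsupp.single x a) = a :=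
  Finsupp.liftAddHom_apply_single _ _ _

theorem aug_bnd {c : Ch Γ 0} (h : c ∈ bnd Γ 0) : aug Γ c = 0 := by
  have h1 : bnd Γ 0 ≤ (aug Γ).ker := by
    rw [bnd, AddSubgroup.closure_le]
    rintro c (hc | ⟨b, rfl⟩)
    · have h2 : coi Γ 0 ≤ (aug Γ).ker := by
        rw [coi, AddSubgroup.closure_le]
        rintro c ⟨g, x, rfl⟩
        change aug Γ _ = 0
        rw [map_sub, aug_single, aug_single, sub_self]
      exact h2 hc
    · change aug Γ _ = 0
      rw [bd, Finsupp.sum, map_sum]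
      refine Finset.sum_eq_zero fun x _ => ?_
      rw [map_sum, Fin.sum_univ_two, aug_single, aug_single]
      simp
  exact h1 h

theorem aug_push {Γ' : Type w} [Group Γ'] (f : Γ → Γ') (c : Ch Γ 0) :
    aug Γ' (push f c) = aug Γ c := by
  induction c using Finsupp.induction_linear with
  | zero => rw [push, Finsupp.mapDomain_zero, map_zero, map_zero]
  | add a b ha hb =>
    rw [push] at ha hb ⊢
    rw [Finsupp.mapDomain_add, map_add, map_add, ha, hb]
  | single x r => rw [push, Finsupp.mapDomain_single, aug_single, aug_single]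

theorem sub_aug_mem (c : Ch Γ 0) :
    c - aug Γ c • (Finsupp.single (fun _ => 1) 1 : Ch Γ 0) ∈ bnd Γ 0 := by
  induction c using Finsupp.induction_linear with
  | zero =>
    rw [map_zero, zero_smul, sub_zero]
    exact AddSubgroup.zero_mem _
  | add a b ha hb =>
    have e : a + b - aug Γ (a + b) • (Finsupp.single (fun _ => 1) 1 : Ch Γ 0) =
        (a - aug Γ a • (Finsupp.single (fun _ => 1) 1 : Ch Γ 0)) +
          (b - aug Γ b • (Finsupp.single (fun _ => 1) 1 : Ch Γ 0)) := by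
      rw [map_add, add_smul]
      abel
    rw [e]
    exact AddSubgroup.add_mem _ ha hb
  | single x r =>
    have hx : x = fun j => x 0 * (fun _ : Fin (0 + 1) => (1 : Γ)) j := by
      funext j
      have hj : j = 0 := Fin.ext (by omega)
      rw [hj, mul_one]
    have e : (Finsupp.single x r : Ch Γ 0) -
        aug Γ (Finsupp.single x r) • (Finsupp.single (fun _ => 1) 1 : Ch Γ 0) =
        r • ((Finsupp.single (fun j => x 0 * (fun _ : Fin (0 + 1) => (1 : Γ)) j) 1 : Ch Γ 0) -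
          Finsupp.single (fun _ => 1) 1) := by
      rw [aug_single, smul_sub, Finsupp.smul_single, Finsupp.smul_single, smul_eq_mul, mul_one]
      exact congrArg (fun y => Finsupp.single y r - (Finsupp.single (fun _ => 1) r : Ch Γ 0)) hx
    rw [e]
    have hm : (Finsupp.single (fun j => x 0 * (fun _ : Fin (0 + 1) => (1 : Γ)) j) 1 : Ch Γ 0) -
        Finsupp.single (fun _ => 1) 1 ∈ bnd Γ 0 := AddSubgroup.subset_closure (Or.inl
      (AddSubgroup.subset_closure ⟨x 0, fun _ => 1, rfl⟩))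
    exact AddSubgroup.zsmul_mem _ hm r

/-- the class of the prism over a chain of degree zero -/
theorem toHG_pri {Λ : Type w} [Group Λ] (σ : Γ → Λ) (u : Λ) (c : Ch Γ 0) (z' : Cyc Λ 0)
    (h : z'.ch = pri u (push σ c)) : toHG z' = aug Γ c • e1 u := by
  have key : ∀ (c : Ch Λ 0), (HG.mk ⟨pri u c, cyc0 _⟩ : HG Λ 0) = aug Λ c • e1 u := by
    intro c
    induction c using Finsupp.induction_linear with
    | zero =>
      rw [map_zero, zero_smul]
      have e : (⟨pri u (0 : Ch Λ 0), cyc0 _⟩ : FQ.cyc Λ 0) = 0 := Subtype.ext (by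
        rw [pri, Finsupp.sum_zero_index]
        rfl)
      rw [e]
      rfl
    | add a b ha hb =>
      have e : (⟨pri u (a + b), cyc0 _⟩ : FQ.cyc Λ 0) = ⟨pri u a, cyc0 _⟩ + ⟨pri u b, cyc0 _⟩ :=
        Subtype.ext (by
          change pri u (a + b) = pri u a + pri u b
          rw [pri, pri, pri]
          refine Finsupp.sum_add_index' (fun x => ?_) fun x r s => ?_
          · simp
          · rw [← Finset.sum_add_distrib]
            refine Finset.sum_congr rfl fun i _ => ?_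
            rw [mul_add, Finsupp.single_add])
      rw [e, HG.mk_add, ha, hb, map_add, add_smul]
    | single x r =>
      rw [aug_single]
      have e : (⟨pri u (Finsupp.single x r), cyc0 _⟩ : FQ.cyc Λ 0) =
          r • ⟨Finsupp.single (fun j : Fin (0 + 2) => if (0 : Fin (0 + 1)).castSucc < j then
            x ((0 : Fin (0 + 1)).predAbove j) * u else x ((0 : Fin (0 + 1)).predAbove j)) 1,
              cyc0 _⟩ :=
        Subtype.ext (by
          change pri u (Finsupp.single x r) = r • _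
          rw [pri, Finsupp.sum_single_index (by simp), Fin.sum_univ_one, Finsupp.smul_single,
            smul_eq_mul, mul_one]
          simp)
      rw [e]
      change r • (HG.mk ⟨Finsupp.single _ 1, cyc0 _⟩ : HG Λ 0) = _
      rw [mk_single]
      congr 2
      simp
  rw [← aug_push σ c, ← key]
  exact congrArg HG.mk (Subtype.ext h)

end

section

variable {R : Type u} [Ring R] {G : Type v} [Group G]

/-- the homomorphism to the colimit -/
noncomputable def toL : HnK1 R G 0 →+ H0K1 R G :=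
  lift (fun s => aug (Cent s.F) s.z • cl (⟨s.F, s.fin⟩ : FamSub G FinSub)
      (K1.mk (R := MonoidAlgebra R s.F) s.U))
    (fun F hF N U V z hz => by
      change aug (Cent F) z • cl (⟨F, hF⟩ : FamSub G FinSub)
        (K1.mk (R := MonoidAlgebra R F) (U * V)) = _
      rw [← smul_add]
      congr 1
      rw [← map_add]
      exact congrArg (cl (⟨F, hF⟩ : FamSub G FinSub)) (K1.mk_mul (R := MonoidAlgebra R F) U V))
    (fun F hF N U V z hz h => by
      have h1 : V = stab (R := MonoidAlgebra R F) U := Units.ext h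
      subst h1
      exact congrArg (fun y => aug (Cent F) z • cl (⟨F, hF⟩ : FamSub G FinSub) y)
        (K1.mk_stab (R := MonoidAlgebra R F) U))
    (fun F hF N U z z' hz hz' h => by
      change aug (Cent F) (z + z') • _ = aug (Cent F) z • _ + aug (Cent F) z' • _
      rw [map_add, add_smul])
    (fun F hF N U z hz h => by
      change aug (Cent F) z • _ = 0
      rw [aug_bnd h, zero_smul])
    (fun F F' hF hF' g N U U' z z' hz hz' c κ hc hκ hee hzz => by
      change aug (Cent F') z' • _ = aug (Cent F) z • _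
      have hg : ∀ x ∈ F, g * x * g⁻¹ ∈ F' := fun x hx => by
        rw [← hc ⟨x, hx⟩]
        exact (c ⟨x, hx⟩).2
      have h1 : c = conjHom g F F' hg := funext fun a => Subtype.ext (hc a)
      subst h1
      rw [hzz, aug_push]
      congr 1
      have h3 := cl_conj (⟨F, hF⟩ : FamSub G FinSub) ⟨F', hF'⟩ g hg
        (K1.mk (R := MonoidAlgebra R F) U)
      have h4 : K1.mapU (MonoidAlgebra.mapDomainRingHom R (conjHom g F F' hg)) U = U' :=
        Units.ext (Matrix.ext fun i j => (hee i j).symm)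
      have h5 : K1.map (MonoidAlgebra.mapDomainRingHom R (conjHom g F F' hg))
          (K1.mk (R := MonoidAlgebra R F) U) = K1.mk (R := MonoidAlgebra R F') U' :=
        (K1.map_mk _ _).trans (congrArg (fun V => K1.mk (R := MonoidAlgebra R F') V) h4)
      refine Eq.trans ?_ h3
      exact congrArg (cl (⟨F', hF'⟩ : FamSub G FinSub)) h5.symm)

theorem toL_mk (s : HSym1 R G 0) : toL (HnK1.mk s) = aug (Cent s.F) s.z •
    cl (⟨s.F, s.fin⟩ : FamSub G FinSub) (K1.mk (R := MonoidAlgebra R s.F) s.U) :=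
  FreeAbelianGroup.lift_apply_of _ _

/-- the base point -/
noncomputable def pt (Γ : Type v) [Group Γ] : Ch Γ 0 := Finsupp.single (fun _ => 1) 1

/-- the homomorphism in the variable `U` -/
noncomputable def fU (F : FamSub G FinSub) : K1 (MonoidAlgebra R F.1) →+ HnK1 R G 0 :=
  K1.lift (fun N U => HnK1.mk ⟨F.1, F.2, N, U, pt (Cent F.1), trivial⟩)
    (fun N U V => mk_add (Or.inl (Or.inl (Or.inl ⟨F.1, F.2, N, U, V, pt _, trivial, rfl⟩))))
    (fun N U => mk_eq (Or.inl (Or.inl (Or.inr ⟨F.1, F.2, N, U, _, pt _, trivial, rfl, rfl⟩))))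

theorem fU_mk (F : FamSub G FinSub) {N : ℕ} (U : GLm N (RF R F.1)) :
    fU F (K1.mk (R := MonoidAlgebra R F.1) U) =
      HnK1.mk ⟨F.1, F.2, N, U, pt (Cent F.1), trivial⟩ := K1.lift_mk _ _ _ _

theorem fU_conj (F F' : FamSub G FinSub) (g : G) (h : ∀ x ∈ F.1, g * x * g⁻¹ ∈ F'.1)
    (x : K1 (MonoidAlgebra R F.1)) :
    fU F' (K1.map (MonoidAlgebra.mapDomainRingHom R (conjHom g F.1 F'.1 h)) x) = fU F x := by
  suffices H : (fU F').comp (K1.map (MonoidAlgebra.mapDomainRingHom R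
      (conjHom g F.1 F'.1 h))) = (fU F : K1 (MonoidAlgebra R F.1) →+ HnK1 R G 0) from
    DFunLike.congr_fun H x
  apply K1.hom_ext
  intro N U
  rw [AddMonoidHom.comp_apply, K1.map_mk]
  refine (fU_mk F' _).trans ?_
  refine Eq.trans ?_ (fU_mk F U).symm
  refine mk_eq (Or.inr ⟨F.1, F'.1, F.2, F'.2, g, N, U,
    K1.mapU (MonoidAlgebra.mapDomainRingHom R (conjHom g F.1 F'.1 h)) U,
    pt _, pt _, trivial, trivial, conjHom g F.1 F'.1 h, centConj g F.1 F'.1 h,
    fun _ => rfl, fun _ => rfl, fun _ _ => rfl, ?_, rfl⟩)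
  refine Eq.symm ((Finsupp.mapDomain_single (a := fun _ => (1 : Cent F'.1)) (b := (1 : ℤ))).trans ?_)
  refine congrArg (fun y => (Finsupp.single y 1 : Ch (Cent F.1) 0)) ?_
  funext j
  exact map_one (centConj g F.1 F'.1 h)

/-- the homomorphism from the colimit -/
noncomputable def fromL : H0K1 R G →+ HnK1 R G 0 := lift10 fU fU_conj

theorem fromL_cl (F : FamSub G FinSub) (x : K1 (MonoidAlgebra R F.1)) :
    fromL (cl F x) = fU F x := lift10_cl _ _ F x

/-- the homomorphism in the variable `z` -/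
noncomputable def fZ (F : Subgroup G) (hF : Finite F) (N : ℕ) (U : GLm N (RF R F)) :
    Ch (Cent F) 0 →+ HnK1 R G 0 :=
  AddMonoidHom.mk' (fun z => HnK1.mk ⟨F, hF, N, U, z, trivial⟩) fun z z' =>
    mk_add (Or.inl (Or.inr (Or.inl ⟨F, hF, N, U, z, z', trivial, trivial, trivial, rfl⟩)))

theorem fromL_toL (x : HnK1 R G 0) : fromL (toL x) = x := by
  have h : (fromL (R := R) (G := G)).comp toL = AddMonoidHom.id _ := by
    apply hom_ext
    rintro ⟨F, hF, N, U, z, hz⟩
    rw [AddMonoidHom.comp_apply, toL_mk, map_zsmul, fromL_cl, AddMonoidHom.id_apply]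
    have h1 : fU (⟨F, hF⟩ : FamSub G FinSub) (K1.mk (R := MonoidAlgebra R F) U) =
        fZ F hF N U (pt (Cent F)) := fU_mk _ _
    have h2 : fZ F hF N U (z - aug (Cent F) z • pt (Cent F)) = 0 :=
      mk_zero (Or.inl (Or.inr (Or.inr ⟨F, hF, N, U, _, trivial, sub_aug_mem z, rfl⟩)))
    rw [map_sub, map_zsmul, sub_eq_zero] at h2
    refine (congrArg (fun y => aug (Cent F) z • y) h1).trans h2.symm
  exact DFunLike.congr_fun h x

variable (R G) in
/-- the assembly map -/
noncomputable def asmL : HnK1 R G 0 →+ KQ (MonoidAlgebra R G) 0 :=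
  fromK.comp ((assembly10 R G).comp toL)

theorem asmL_isAssembly1 : IsAssembly1 (R := R) (G := G) (n := 0) (asmL R G) := by
  rintro ⟨F, hF, N, U, z, hc⟩ σ u z' hσ hu hz
  change z'.ch = pri u (push σ z) at hz
  change fromK (assembly10 R G (toL (HnK1.mk ⟨F, hF, N, U, z, hc⟩))) = _
  rw [toL_mk, map_zsmul, map_zsmul]
  have h3 : u = K1.mapU (MonoidAlgebra.mapDomainRingHom R F.subtype) U :=
    Units.ext (Matrix.ext fun i j => hu i j)
  have h4 : assembly10 R G (cl (⟨F, hF⟩ : FamSub G FinSub) (K1.mk (R := MonoidAlgebra R F) U)) =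
      FQ.KQ.cls (MonoidAlgebra R G) 0 N (e1 u) := by
    rw [assembly10_cl]
    refine (congrArg kq1 (K1.map_mk _ _)).trans ?_
    rw [h3]
    exact kq1_mk _
  refine (congrArg (fun y => aug (Cent F) z • fromK y) h4).trans ?_
  rw [← map_zsmul, ← map_zsmul, ← toHG_pri σ u z z' hz]
  exact fromK_cls N z'

/-- the transfer in degree one -/
theorem transfer_zero (h : FQ.RatInj (assembly00 R G)) :
    ∃ (α₀ : HnK0 R G 0 →+ KQ (MonoidAlgebra R G) 0)
      (α₁ : HnK1 R G 0 →+ KQ (MonoidAlgebra R G) 0),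
      IsAssembly α₀ ∧ IsAssembly1 α₁ ∧ RatInj (α₀.coprod α₁) := by
  refine ⟨asmS R G 0, asmL R G, asmS_isAssembly, asmL_isAssembly1,
    (ratInj_iff _).2 fun z M hM hz => ?_⟩
  have h0 : ∀ (z : FQ.HnK0 R G 0 × H0K1 R G) (M : ℤ), M ≠ 0 →
      M • assembly00 R G z = 0 → ∃ m : ℤ, m ≠ 0 ∧ m • z = 0 := (ratInj_iff _).1 h
  have h1 : M • assembly00 R G (toH z.1, toL z.2) = 0 := by
    have h2 : toK (M • ((asmS R G 0).coprod (asmL R G)) z) =
        M • assembly00 R G (toH z.1, toL z.2) := by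
      rw [map_zsmul, AddMonoidHom.coprod_apply, map_add]
      exact congrArg (M • ·) (congrArg₂ (· + ·) (toK_fromK _) (toK_fromK _))
    rw [← h2, hz, map_zero]
  obtain ⟨m, hm, h3⟩ := h0 _ M hM h1
  refine ⟨m, hm, ?_⟩
  have h4 := congrArg Prod.fst h3
  have h5 := congrArg Prod.snd h3
  change m • toH z.1 = 0 at h4
  change m • toL z.2 = 0 at h5
  refine Prod.ext ?_ ?_
  · change m • z.1 = 0
    rw [← fromH_toH (m • z.1), map_zsmul toH, h4, map_zero]
  · change m • z.2 = 0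
    rw [← fromL_toL (m • z.2), map_zsmul toL, h5, map_zero]

end

section

variable {R : Type u} [Ring R] {G : Type v} [Group G]

/-- **The main theorem.** -/
theorem main (hR : LocRing R) (n : ℕ)
    (hG : ∀ p : ℕ, p.Prime → p ∣ ringChar R → LocGrp p G {n - 1, n}) :
    ∃ (α₀ : HnK0 R G n →+ KQ (MonoidAlgebra R G) n)
      (α₁ : HnK1 R G n →+ KQ (MonoidAlgebra R G) n),
      IsAssembly α₀ ∧ IsAssembly1 α₁ ∧ RatInj (α₀.coprod α₁) := by
  rcases n with _ | n
  · refine transfer_zero (ratInj00_main hR fun p hp hd S => ?_)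
    obtain ⟨G', h1, -, h3⟩ := hG p hp.out hd S
    exact ⟨G', h1, fun C h4 h5 h6 => h3 C h4 h5 h6 0 (Or.inr rfl)⟩
  · refine transfer_succ (FQS.main1 hR fun p hp hd => ?_)
    exact hG p hp hd

end

end Pool.Agent.H71.FQ1
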