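import Pool.Agent.H71.FQ.StK

/-!
# Comparison of the definitions over `ℤ`: the `K₋₁`-part
-/

set_option autoImplicit false

open Matrix
open scoped LaurentPolynomial

universe u v w

namespace Pool.Agent.H71.FQ3

open Pool.Agent.H71.FQS (Ch bd push coi bnd Cyc GLm blkM RF Cent KQ MatEquiv Idem toHG
  toHG_surjective map_toHG map_toHG' toHG_add toHG_bnd)
open Pool.Agent.H71.FQ (HG mapGL centConj)
open Pool.Agent.H71.FJ (IdemMat K0 K0.mk K0.lift K0.lift_mk K0.hom_ext K0.map)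
open Pool.Agent.H95.KM (posHom negHom lau Km1 ind)
open Pool.Agent.H95.WH (FamSub conjHom FinSub)
open Pool.Agent.H16.KN (sym symH symHz sym_add sym_addz sym_conj)

section

variable {R : Type u} [Ring R] {G : Type v} [Group G] {n : ℕ}

/-- the symbol of an idempotent matrix -/
def hsM (F : FamSub G FinSub) (a : IdemMat (MonoidAlgebra R F.1)[T;T⁻¹]) (z : Cyc (Cent F.1) n) :
    HSymM R G n := ⟨F.1, F.2, a.n, a.mat, a.idem, z⟩

theorem mkM_eq {s t : HSymM R G n} (h : FreeAbelianGroup.of s - FreeAbelianGroup.of t ∈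
    relES R G n ∪ relT R G n ∪ relZM R G n ∪ relCM R G n) : HnKm1.mk s = HnKm1.mk t :=
  (QuotientAddGroup.eq_iff_sub_mem).2 (AddSubgroup.subset_closure h)

theorem mkM_add {s t r : HSymM R G n} (h : FreeAbelianGroup.of s -
    (FreeAbelianGroup.of t + FreeAbelianGroup.of r) ∈
      relES R G n ∪ relT R G n ∪ relZM R G n ∪ relCM R G n) :
    HnKm1.mk s = HnKm1.mk t + HnKm1.mk r :=
  (QuotientAddGroup.eq_iff_sub_mem).2 (AddSubgroup.subset_closure h)

theorem mkM_zero {s : HSymM R G n} (h : FreeAbelianGroup.of s ∈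
    relES R G n ∪ relT R G n ∪ relZM R G n ∪ relCM R G n) : HnKm1.mk s = 0 :=
  (QuotientAddGroup.eq_zero_iff _).2 (AddSubgroup.subset_closure h)

theorem exists_gM (F : FamSub G FinSub) (a : IdemMat (MonoidAlgebra R F.1)[T;T⁻¹]) :
    ∃ f : HG (Cent F.1) n →+ HnKm1 R G n, ∀ z, f (toHG z) = HnKm1.mk (hsM F a z) := by
  apply FQS.exists_lift
  · intro z z' z'' h
    exact mkM_add (Or.inl (Or.inr (Or.inl
      ⟨F.1, F.2, a.n, a.mat, a.idem, z, z', z'', h, rfl⟩)))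
  · intro z h
    exact mkM_zero (Or.inl (Or.inr (Or.inr ⟨F.1, F.2, a.n, a.mat, a.idem, z, h, rfl⟩)))

/-- the homomorphism in the variable `z` -/
noncomputable def gzM (F : FamSub G FinSub) (a : IdemMat (MonoidAlgebra R F.1)[T;T⁻¹]) :
    HG (Cent F.1) n →+ HnKm1 R G n := (exists_gM F a).choose

theorem gzM_toHG (F : FamSub G FinSub) (a : IdemMat (MonoidAlgebra R F.1)[T;T⁻¹])
    (z : Cyc (Cent F.1) n) : gzM F a (toHG z) = HnKm1.mk (hsM F a z) :=
  (exists_gM F a).choose_spec z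

/-- the biadditive map on `K₀` -/
noncomputable def gbM0 (F : FamSub G FinSub) :
    K0 (MonoidAlgebra R F.1)[T;T⁻¹] →+ (HG (Cent F.1) n →+ HnKm1 R G n) :=
  K0.lift (gzM F)
    (fun a b h => by
      apply DFunLike.ext
      intro x
      obtain ⟨z, rfl⟩ := toHG_surjective x
      rw [gzM_toHG, gzM_toHG]
      exact mkM_eq (Or.inl (Or.inl (Or.inl (Or.inl
        ⟨F.1, F.2, a.n, b.n, a.mat, b.mat, a.idem, b.idem, z, h, rfl⟩)))))
    (fun a b => by
      apply DFunLike.ext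
      intro x
      obtain ⟨z, rfl⟩ := toHG_surjective x
      rw [AddMonoidHom.add_apply, gzM_toHG, gzM_toHG, gzM_toHG]
      exact mkM_add (Or.inl (Or.inl (Or.inl (Or.inr
        ⟨F.1, F.2, a.n, b.n, a.mat, b.mat, a.idem, b.idem, (a.sum b).idem, z, rfl⟩)))))

theorem gbM0_mk (F : FamSub G FinSub) (a : IdemMat (MonoidAlgebra R F.1)[T;T⁻¹])
    (z : Cyc (Cent F.1) n) : gbM0 F (K0.mk a) (toHG z) = HnKm1.mk (hsM F a z) := by
  rw [gbM0, K0.lift_mk, gzM_toHG]

theorem gbM0_map (F : FamSub G FinSub)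
    (f : Polynomial (MonoidAlgebra R F.1) →+* (MonoidAlgebra R F.1)[T;T⁻¹]) (ε : ℤ)
    (hε : ε = 1 ∨ ε = -1) (hf : ∀ x, (pol ε x : Lau (MonoidAlgebra R F.1)) = f x)
    (x : K0 (Polynomial (MonoidAlgebra R F.1))) :
    gbM0 (n := n) F (K0.map f x) = 0 := by
  suffices h : (gbM0 (n := n) F).comp (K0.map f) = 0 from DFunLike.congr_fun h x
  apply K0.hom_ext
  intro a
  rw [AddMonoidHom.comp_apply, Pool.Agent.H71.FJ.K0.map_mk', AddMonoidHom.zero_apply]
  apply DFunLike.ext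
  intro z
  obtain ⟨z, rfl⟩ := toHG_surjective z
  rw [gbM0_mk, AddMonoidHom.zero_apply]
  exact mkM_zero (Or.inl (Or.inl (Or.inr ⟨F.1, F.2, ε, a.n, a.mat, (a.map f).mat,
    (a.map f).idem, z, hε, a.idem, fun i j => (hf _).symm, rfl⟩)))

/-- the biadditive map -/
noncomputable def gbM (F : FamSub G FinSub) :
    Km1 (MonoidAlgebra R F.1) →+ (HG (Cent F.1) n →+ HnKm1 R G n) :=
  Pool.Agent.H95.KM.Km1.lift (gbM0 F)
    (gbM0_map F (posHom _) 1 (Or.inl rfl) pol_one)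
    (gbM0_map F (negHom _) (-1) (Or.inr rfl) pol_neg)

theorem gbM_mk (F : FamSub G FinSub) (a : IdemMat (MonoidAlgebra R F.1)[T;T⁻¹])
    (z : Cyc (Cent F.1) n) :
    gbM F (Pool.Agent.H95.KM.Km1.mk (K0.mk a)) (toHG z) = HnKm1.mk (hsM F a z) :=
  gbM0_mk F a z

theorem gbM_conj (F F' : FamSub G FinSub) (g : G) (h : ∀ x ∈ F.1, g * x * g⁻¹ ∈ F'.1)
    (x : Km1 (MonoidAlgebra R F.1)) (z : HG (Cent F'.1) n) :
    gbM F' (ind R (conjHom g F.1 F'.1 h) x) z =
      gbM F x (HG.map n (centConj g F.1 F'.1 h) z) := by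
  obtain ⟨z, rfl⟩ := toHG_surjective z
  obtain ⟨x, rfl⟩ := Pool.Agent.H95.KM.Km1.mk_surjective x
  suffices H : (AddMonoidHom.eval (toHG z)).comp ((gbM0 (n := n) F').comp
      (K0.map (lau (MonoidAlgebra.mapDomainRingHom R (conjHom g F.1 F'.1 h))))) =
      (AddMonoidHom.eval (HG.map n (centConj g F.1 F'.1 h) (toHG z))).comp (gbM0 F) from
    DFunLike.congr_fun H x
  apply K0.hom_ext
  intro a
  change gbM0 F' (K0.map _ (K0.mk a)) (toHG z) = gbM0 F (K0.mk a) (HG.map n _ (toHG z))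
  have e1 := map_toHG' (centConj g F.1 F'.1 h) z
  rw [Pool.Agent.H71.FJ.K0.map_mk', gbM0_mk]
  refine Eq.trans ?_ (congrArg (gbM0 F (K0.mk a)) e1).symm
  refine Eq.trans ?_ (gbM0_mk F a _).symm
  exact mkM_eq (Or.inr ⟨F.1, F'.1, F.2, F'.2, g, a.n, a.mat,
    (a.map (lau (MonoidAlgebra.mapDomainRingHom R (conjHom g F.1 F'.1 h)))).mat, a.idem,
    (a.map (lau (MonoidAlgebra.mapDomainRingHom R (conjHom g F.1 F'.1 h)))).idem,
    z.map (centConj g F.1 F'.1 h), z, conjHom g F.1 F'.1 h, centConj g F.1 F'.1 h,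
    fun _ => rfl, fun _ => rfl, fun _ _ _ => rfl, rfl, rfl⟩)

/-- the comparison homomorphism -/
noncomputable def fromHM : Pool.Agent.H16.KN.HnKm1 R G n →+ HnKm1 R G n :=
  Pool.Agent.H16.KN.HnKm1.lift (fun F => gbM F) gbM_conj

theorem fromHM_sym (F : FamSub G FinSub) (a : IdemMat (MonoidAlgebra R F.1)[T;T⁻¹])
    (z : Cyc (Cent F.1) n) :
    fromHM (sym F (Pool.Agent.H95.KM.Km1.mk (K0.mk a))
      (toHG (Γ := Subgroup.centralizer (F.1 : Set G)) z)) = HnKm1.mk (hsM F a z) :=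
  (Pool.Agent.H16.KN.HnKm1.lift_sym _ _ F _ _).trans (gbM_mk F a z)

/-- the class in the first definition -/
noncomputable def hsyM (s : HSymM R G n) : Pool.Agent.H16.KN.HnKm1 R G n :=
  sym ⟨s.F, s.fin⟩ (Pool.Agent.H95.KM.Km1.mk (K0.mk
    (⟨s.N, s.e, s.idem⟩ : IdemMat (MonoidAlgebra R s.F)[T;T⁻¹])))
    (toHG (Γ := Subgroup.centralizer (s.F : Set G)) s.z)

theorem sym_zero_of (F : FamSub G FinSub)
    (f : Polynomial (MonoidAlgebra R F.1) →+* (MonoidAlgebra R F.1)[T;T⁻¹])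
    (hf : ∀ x, Pool.Agent.H95.KM.Km1.mk (K0.map f x) = 0)
    {N : ℕ} {e₀ : Matrix (Fin N) (Fin N) (Polynomial (MonoidAlgebra R F.1))}
    {e : Matrix (Fin N) (Fin N) (MonoidAlgebra R F.1)[T;T⁻¹]} (he₀ : e₀ * e₀ = e₀)
    (he : e * e = e) (h : ∀ i j, e i j = f (e₀ i j))
    (z : HG (Subgroup.centralizer (F.1 : Set G)) n) :
    sym F (Pool.Agent.H95.KM.Km1.mk (K0.mk
      (⟨N, e, he⟩ : IdemMat (MonoidAlgebra R F.1)[T;T⁻¹]))) z = 0 := by
  have h1 : (⟨N, e, he⟩ : IdemMat (MonoidAlgebra R F.1)[T;T⁻¹]) =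
      (⟨N, e₀, he₀⟩ : IdemMat (Polynomial (MonoidAlgebra R F.1))).map f := by
    have h2 : e = e₀.map f := Matrix.ext h
    subst h2
    rfl
  rw [h1, ← Pool.Agent.H71.FJ.K0.map_mk', hf, ← Pool.Agent.H16.KN.symH_apply, map_zero]

/-- the comparison homomorphism in the other direction -/
noncomputable def toHM : HnKm1 R G n →+ Pool.Agent.H16.KN.HnKm1 R G n :=
  QuotientAddGroup.lift _ (FreeAbelianGroup.lift hsyM) (by
    rw [AddSubgroup.closure_le]
    rintro w ((((⟨F, hF, N, M, e, f, he, hf, z, h, rfl⟩ |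
        ⟨F, hF, N, M, e, f, he, hf, h, z, rfl⟩) |
        ⟨F, hF, ε, N, e₀, e, he, z, hε, he₀, h, rfl⟩) |
        (⟨F, hF, N, e, he, z, z', z'', h, rfl⟩ | ⟨F, hF, N, e, he, z, h, rfl⟩)) |
        ⟨F, F', hF, hF', g, N, e, e', he, he', z, z', c, κ, hc, hκ, hee, hz, rfl⟩)
    · change FreeAbelianGroup.lift hsyM _ = 0
      rw [map_sub, FreeAbelianGroup.lift_apply_of, FreeAbelianGroup.lift_apply_of, sub_eq_zero]
      have h1 : (K0.mk ⟨N, e, he⟩ : K0 (MonoidAlgebra R F)[T;T⁻¹]) = K0.mk ⟨M, f, hf⟩ :=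
        Pool.Agent.H71.FJ.K0.mk_eq_of_equiv h
      exact congrArg (fun x => sym (⟨F, hF⟩ : FamSub G FinSub) (Pool.Agent.H95.KM.Km1.mk x)
        (toHG (Γ := Subgroup.centralizer (F : Set G)) z)) h1
    · change FreeAbelianGroup.lift hsyM _ = 0
      rw [map_sub, map_add, FreeAbelianGroup.lift_apply_of, FreeAbelianGroup.lift_apply_of,
        FreeAbelianGroup.lift_apply_of, sub_eq_zero]
      have h1 : (K0.mk ⟨N + M, blkM e f, h⟩ : K0 (MonoidAlgebra R F)[T;T⁻¹]) =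
          K0.mk ⟨N, e, he⟩ + K0.mk ⟨M, f, hf⟩ :=
        Pool.Agent.H71.FJ.K0.mk_sum (⟨N, e, he⟩ : IdemMat (MonoidAlgebra R F)[T;T⁻¹]) ⟨M, f, hf⟩
      exact (congrArg (fun x => sym (⟨F, hF⟩ : FamSub G FinSub) (Pool.Agent.H95.KM.Km1.mk x)
        (toHG (Γ := Subgroup.centralizer (F : Set G)) z)) h1).trans
          ((congrArg (fun x => sym (⟨F, hF⟩ : FamSub G FinSub) x
            (toHG (Γ := Subgroup.centralizer (F : Set G)) z)) (map_add _ _ _)).trans
              (sym_add _ _ _ _))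
    · change FreeAbelianGroup.lift hsyM _ = 0
      rw [FreeAbelianGroup.lift_apply_of]
      rcases hε with rfl | rfl
      · exact sym_zero_of (⟨F, hF⟩ : FamSub G FinSub) (posHom _)
          Pool.Agent.H95.KM.Km1.mk_pos he₀ he (fun i j => (h i j).trans (pol_one _)) _
      · exact sym_zero_of (⟨F, hF⟩ : FamSub G FinSub) (negHom _)
          Pool.Agent.H95.KM.Km1.mk_neg he₀ he (fun i j => (h i j).trans (pol_neg _)) _
    · change FreeAbelianGroup.lift hsyM _ = 0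
      rw [map_sub, map_add, FreeAbelianGroup.lift_apply_of, FreeAbelianGroup.lift_apply_of,
        FreeAbelianGroup.lift_apply_of, sub_eq_zero]
      exact (congrArg (fun x => sym (⟨F, hF⟩ : FamSub G FinSub)
        (Pool.Agent.H95.KM.Km1.mk (K0.mk
          (⟨N, e, he⟩ : IdemMat (MonoidAlgebra R F)[T;T⁻¹]))) x)
        (toHG_add (Γ := Subgroup.centralizer (F : Set G)) h)).trans (sym_addz _ _ _ _)
    · change FreeAbelianGroup.lift hsyM _ = 0
      rw [FreeAbelianGroup.lift_apply_of]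
      exact (congrArg (fun x => symHz (⟨F, hF⟩ : FamSub G FinSub)
        (Pool.Agent.H95.KM.Km1.mk (K0.mk
          (⟨N, e, he⟩ : IdemMat (MonoidAlgebra R F)[T;T⁻¹]))) x)
        (toHG_bnd (Γ := Subgroup.centralizer (F : Set G)) h)).trans (map_zero _)
    · change FreeAbelianGroup.lift hsyM _ = 0
      rw [map_sub, FreeAbelianGroup.lift_apply_of, FreeAbelianGroup.lift_apply_of, sub_eq_zero]
      have hg : ∀ x ∈ F, g * x * g⁻¹ ∈ F' := fun x hx => by
        rw [← hc ⟨x, hx⟩]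
        exact (c ⟨x, hx⟩).2
      have h1 : c = conjHom g F F' hg := funext fun a => Subtype.ext (hc a)
      have h2 : κ = centConj g F F' hg := funext fun γ => Subtype.ext (hκ γ)
      subst h1
      subst h2
      have h3 := sym_conj (⟨F, hF⟩ : FamSub G FinSub) ⟨F', hF'⟩ g hg
        (Pool.Agent.H95.KM.Km1.mk (K0.mk
          (⟨N, e, he⟩ : IdemMat (MonoidAlgebra R F)[T;T⁻¹])))
        (toHG (Γ := Subgroup.centralizer (F' : Set G)) z')
      rw [map_toHG (Γ := Subgroup.centralizer (F' : Set G))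
        (Γ' := Subgroup.centralizer (F : Set G)) (centConj g F F' hg) hz] at h3
      have h4 : (⟨N, e, he⟩ : IdemMat (MonoidAlgebra R F)[T;T⁻¹]).map
          (lau (MonoidAlgebra.mapDomainRingHom R (conjHom g F F' hg))) =
            (⟨N, e', he'⟩ : IdemMat (MonoidAlgebra R F')[T;T⁻¹]) := by
        have h5 : e.map (lau (MonoidAlgebra.mapDomainRingHom R (conjHom g F F' hg))) = e' :=
          Matrix.ext fun i j => AddMonoidAlgebra.ext (Finsupp.ext fun k => (hee i j k).symm)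
        subst h5
        rfl
      refine Eq.trans ?_ h3
      refine congrArg (fun x => sym (⟨F', hF'⟩ : FamSub G FinSub) x
        (toHG (Γ := Subgroup.centralizer (F' : Set G)) z')) ?_
      refine Eq.trans ?_ (congrArg Pool.Agent.H95.KM.Km1.mk
        (Pool.Agent.H71.FJ.K0.map_mk' _ _)).symm
      rw [h4])

theorem toHM_mk (s : HSymM R G n) : toHM (HnKm1.mk s) = hsyM s :=
  FreeAbelianGroup.lift_apply_of _ _

theorem fromHM_toHM (x : HnKm1 R G n) : fromHM (toHM x) = x := by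
  have h : (fromHM (R := R) (G := G) (n := n)).comp toHM = AddMonoidHom.id _ := by
    apply QuotientAddGroup.addMonoidHom_ext
    apply FreeAbelianGroup.lift_ext
    intro s
    change fromHM (toHM (HnKm1.mk s)) = HnKm1.mk s
    rw [toHM_mk]
    exact fromHM_sym (⟨s.F, s.fin⟩ : FamSub G FinSub)
      (⟨s.N, s.e, s.idem⟩ : IdemMat (MonoidAlgebra R s.F)[T;T⁻¹]) s.z
  exact DFunLike.congr_fun h x

end

end Pool.Agent.H71.FQ3
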