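import Pool.Agent.H71.FQ.StL
import Pool.Agent.H39.KL.Tp
import Pool.Agent.H8.KZ.Ev

/-!
# Comparison of the definitions over `ℤ`: the assembly maps
-/

set_option autoImplicit false

open Matrix
open scoped LaurentPolynomial

universe u v w

namespace Pool.Agent.H71.FQ3

open Pool.Agent.H71.FQS (Ch bd push coi bnd Cyc GLm blkM RF Cent KQ MatEquiv Idem toHG
  toHG_surjective map_toHG map_toHG' toHG_add toHG_bnd fromK toK toK_mk toK_fromK pri_eq push_eq
  cr_toHG toH1c fromH1 fromH1_toH1c)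
open Pool.Agent.H71.FQ1 (pri IsCyc HSym1 HnK1 aug toHG_pri toL fromL fromL_toL conv vnoc
  vnoc_conv asm1 asm1_isAssembly1)
open Pool.Agent.H71.FQ (HG mapGL centConj grpHom)
open Pool.Agent.H71.FU0 (H0K1 assembly10 kq1 kq1_mk e1 cyc0)
open Pool.Agent.H71.FJ (IdemMat K0 K0.mk)
open Pool.Agent.H95.KM (posHom negHom lau Km1 ind)
open Pool.Agent.H95.WH (K1 K1.mk K1.unit FamSub conjHom FinSub)
open Pool.Agent.H16.FU (assembly1 scal)
open Pool.Agent.H16.KN (LKQ LKQ.mk sym asmKm1 asmKm1_sym)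
open Pool.Agent.H39.KL (tp tp_cls mono1 cS tS tS_comm)

section

variable {Γ : Type u} [Group Γ] {Λ : Type v} [Group Λ] {Λ' : Type w} [Group Λ']

theorem push_pri {m : ℕ} (f : Λ →* Λ') (u : Λ) (c : Ch Λ m) :
    push f (pri u c) = pri (f u) (push f c) := by
  have h1 : ∀ (c : Ch Λ m), pri u c = Pool.Agent.H16.FU.pri u m c := fun c => pri_eq u c
  have h2 : ∀ (c : Ch Λ' m), pri (f u) c = Pool.Agent.H16.FU.pri (f u) m c := fun c => pri_eq _ c
  rw [h1, h2, push_eq, push_eq]
  exact Pool.Agent.H16.FU.push_pri f u m c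

theorem push_push {X : Type u} {Y : Type v} {Z : Type w} {m : ℕ} (f : Y → Z) (g : X → Y)
    (c : Ch X m) : push f (push g c) = push (fun x => f (g x)) c := by
  rw [push, push, push, ← Finsupp.mapDomain_comp]
  rfl

/-- the prism over a cycle is a cycle -/
theorem exists_priCyc {m : ℕ} (f : Γ →* Λ) (u : Λ) (hu : ∀ γ, f γ * u = u * f γ) (c : Ch Γ m)
    (hc : IsCyc Γ m c) : ∃ z : Cyc Λ m, z.ch = pri u (push f c) := by
  rcases m with _ | m
  · exact ⟨Cyc.of _ (cyc0 _), rfl⟩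
  · refine ⟨Cyc.of (pri u (push f c)) ?_, rfl⟩
    have h1 : pri u (push f c) = Pool.Agent.H16.FU.pri u (m + 1) (FQ.push ℤ f (m + 1) c) :=
      (pri_eq u (push f c)).trans (congrArg _ (push_eq f c))
    rw [h1]
    exact Pool.Agent.H16.FU.cr_cyc f u hu ((isCyc_iff c).1 hc)

end

section

variable (A : Type u) [Ring A] (N : ℕ)

/-- the inclusion of the constants -/
noncomputable def cL : GLm N A →* GLm N (Lau A) := cS A N

/-- the scalar matrix `t` -/
noncomputable def tL : GLm N (Lau A) := tS A N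

theorem cL_val (x : GLm N A) (i j : Fin N) : (cL A N x).val i j = mon 0 (x.val i j) := rfl

theorem tL_val : (tL A N).val = Matrix.diagonal fun _ => mon 1 1 := rfl

variable {A N}

theorem eq_tL {t : GLm N (Lau A)} (h : t.val = Matrix.diagonal fun _ => mon 1 1) : t = tL A N :=
  Units.ext (h.trans (tL_val A N).symm)

theorem eq_cL {X : Type v} {σ : X → GLm N (Lau A)} {σ0 : X → GLm N A}
    (h : ∀ x i j, (σ x).val i j = mon 0 ((σ0 x).val i j)) : σ = fun x => cL A N (σ0 x) :=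
  funext fun x => Units.ext (Matrix.ext fun i j => (h x i j).trans (cL_val A N _ i j).symm)

/-- the value of the product with `t` -/
theorem tp_val {n : ℕ} (z : Cyc (GLm N A) n) (z' : Cyc (GLm N (Lau A)) (n + 1))
    (h : z'.ch = pri (tL A N) (push (cL A N) z.ch)) :
    fromLQ A (n + 1) (LKQ.mk (tp A n (FQ.KQ.cls A n N (toHG z)))) = LQ.mk N z' := by
  rw [tp_cls]
  refine (congrArg (fun x => fromLQ A (n + 1) (LKQ.mk (FQ.KQ.cls A[T;T⁻¹] (n + 1) N x)))
    (cr_toHG (cS A N) (tS A N) (tS_comm A N) (z := z) (z' := z') h)).trans ?_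
  exact fromLQ_cls N z'

theorem mon_diag (N : ℕ) (a : A) (i j : Fin N) :
    (Matrix.diagonal fun _ : Fin N => (mon 0 a : Lau A)) i j =
      mon 0 ((Matrix.diagonal fun _ : Fin N => a) i j) := by
  rw [Matrix.diagonal_apply, Matrix.diagonal_apply]
  split_ifs with hij
  · rfl
  · exact (AddMonoidAlgebra.single_zero 0).symm

end

section

variable (R : Type u) [Ring R] (G : Type v) [Group G]

/-- the assembly map on `H_{n+1}(G; ℤ)` -/
noncomputable def asH (n : ℕ) : Hn G (n + 1) →+ LQ (MonoidAlgebra R G) (n + 1) :=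
  (fromLQ _ _).comp (((LKQ.mk.comp (tp (MonoidAlgebra R G) n)).comp (mono1 R G n)).comp hnHG)

variable {R G}

theorem asH_isAssemblyH {n : ℕ} : IsAssemblyH (R := R) (G := G) (n := n + 1) (asH R G n) := by
  intro z hz σ t z' hσ ht h
  change fromLQ _ _ (LKQ.mk (tp (MonoidAlgebra R G) n (mono1 R G n (hnHG (Hn.mk z hz))))) = _
  have h1 : hnHG (Hn.mk z hz) = toHG (⟨z, hz⟩ : Cyc G n) := hnHG_mk (⟨z, hz⟩ : Cyc G n)
  rw [h1]
  have h2 : mono1 R G n (toHG (⟨z, hz⟩ : Cyc G n)) = FQ.KQ.cls (MonoidAlgebra R G) n 1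
      (toHG (Cyc.map (scal 1 (grpHom R G)) (⟨z, hz⟩ : Cyc G n))) :=
    congrArg (FQ.KQ.cls (MonoidAlgebra R G) n 1) (map_toHG' (scal 1 (grpHom R G)) _)
  rw [h2]
  refine tp_val _ z' ?_
  have h3 : σ = fun x => cL (MonoidAlgebra R G) 1 (scal 1 (grpHom R G) x) :=
    eq_cL fun x i j => (congrFun (congrFun (hσ x) i) j).trans (mon_diag 1 _ i j)
  have h4 : push (cL (MonoidAlgebra R G) 1) (Cyc.map (scal 1 (grpHom R G)) (⟨z, hz⟩ : Cyc G n)).ch =
      push σ z := by
    rw [h3]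
    exact push_push _ _ z
  rw [h4, h, eq_tL ht]

variable (R G) in
/-- the values on the `K₁`-part -/
noncomputable def U1 : (n : ℕ) → HnK1 R G n →+ FQ.KQ (MonoidAlgebra R G) n
  | 0 => (assembly10 R G).comp toL
  | n + 1 => (assembly1 R n G).comp (toH1c.comp conv)

theorem fromK_U1 {n : ℕ} (x : HnK1 R G n) : fromK (U1 R G n x) = asm1 R G n x := by
  rcases n with _ | n
  · rfl
  · rfl

variable (R G) in
/-- the assembly map on the `K₁`-part -/
noncomputable def asU : (n : ℕ) → K1Part R G n →+ LQ (MonoidAlgebra R G) n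
  | 0 => 0
  | n + 1 => (fromLQ _ _).comp ((LKQ.mk.comp (tp (MonoidAlgebra R G) n)).comp (U1 R G n))

theorem asU_isAssemblyU {n : ℕ} : IsAssemblyU (R := R) (G := G) (n := n) (asU R G n) := by
  rcases n with _ | n
  · trivial
  · rintro ⟨F, hF, N, U, z, hz⟩ σ u t z' hσ hu ht h
    change z'.ch = pri t (pri u (push σ z)) at h
    let σ0 : Cent F → GLm N (MonoidAlgebra R G) := fun γ =>
      scal N ((grpHom R G).comp (Subgroup.centralizer (F : Set G)).subtype) γ
    let u0 : GLm N (MonoidAlgebra R G) := mapGL (MonoidAlgebra.mapDomainRingHom R F.subtype) N U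
    obtain ⟨z1, hz1⟩ := exists_priCyc (Γ := Subgroup.centralizer (F : Set G))
      (scal N ((grpHom R G).comp (Subgroup.centralizer (F : Set G)).subtype)) u0
      (fun γ => Pool.Agent.H16.FU.scal_comm _ _ (FQ.grpHom_comm R F.subtype
        (Subgroup.centralizer (F : Set G)).subtype (FQ.cent_comm F)) _ _) z hz
    have h1 := asm1_isAssembly1 (R := R) (G := G) (n := n) ⟨F, hF, N, U, z, hz⟩ σ0 u0 z1
      (fun _ => rfl) (fun _ _ => rfl) hz1
    have h2 : U1 R G n (FQ1.HnK1.mk ⟨F, hF, N, U, z, hz⟩) =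
        FQ.KQ.cls (MonoidAlgebra R G) n N (toHG z1) := by
      rw [← toK_fromK (U1 R G n _), fromK_U1, h1]
      exact toK_mk N z1
    change fromLQ _ _ (LKQ.mk (tp (MonoidAlgebra R G) n (U1 R G n
      (FQ1.HnK1.mk ⟨F, hF, N, U, z, hz⟩)))) = _
    rw [h2]
    refine tp_val z1 z' ?_
    have h3 : u = cL (MonoidAlgebra R G) N u0 := Units.ext (Matrix.ext fun i j => hu i j)
    have h4 : σ = fun x => cL (MonoidAlgebra R G) N (σ0 x) :=
      eq_cL fun x i j => (congrFun (congrFun (hσ x) i) j).trans (mon_diag N _ i j)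
    have h5 : push (cL (MonoidAlgebra R G) N) z1.ch = pri u (push σ z) := by
      rw [hz1, h3, h4]
      exact (push_pri (cL (MonoidAlgebra R G) N) u0 _).trans (congrArg _ (push_push _ _ z))
    rw [h5]
    exact h.trans (congrArg (fun t => pri t (pri u (push σ z))) (eq_tL ht))

end

end Pool.Agent.H71.FQ3
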