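import Pool.Agent.H71.FQ.StM

/-!
# Comparison of the definitions over `ℤ`: the assembly map on the `K₋₁`-part
-/

set_option autoImplicit false

open Matrix
open scoped LaurentPolynomial

universe u v w

namespace Pool.Agent.H71.FQ3

open Pool.Agent.H71.FQS (Ch bd push coi bnd Cyc GLm blkM RF Cent KQ MatEquiv Idem toHG
  toHG_surjective map_toHG)
open Pool.Agent.H71.FQ (HG mapGL centConj grpHom)
open Pool.Agent.H71.FJ (IdemMat K0 K0.mk)
open Pool.Agent.H95.KM (posHom negHom lau Km1 ind)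
open Pool.Agent.H95.WH (FamSub conjHom FinSub)
open Pool.Agent.H16.KN (LKQ LKQ.mk sym asmKm1 asmKm1_sym luH lgrp_comm lgrp)

section

variable {R : Type u} [Ring R] {G : Type v} [Group G] {n : ℕ}

theorem mapDomain_mul (F : Subgroup G) (γ : G) (x : MonoidAlgebra R F) :
    MonoidAlgebra.mapDomain F.subtype x * MonoidAlgebra.single γ 1 =
      MonoidAlgebra.mapDomain (fun b : F => (b : G) * γ) x := by
  induction x using MonoidAlgebra.induction_linear with
  | zero => simp
  | add x y hx hy => rw [MonoidAlgebra.mapDomain_add, add_mul, hx, hy, MonoidAlgebra.mapDomain_add]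
  | single b r =>
    rw [MonoidAlgebra.mapDomain_single, MonoidAlgebra.mapDomain_single,
      MonoidAlgebra.single_mul_single, mul_one]
    rfl

/-- the homomorphism of the definition of `asmKm1` -/
noncomputable def rhoM (F : Subgroup G) (a : IdemMat (MonoidAlgebra R F)[T;T⁻¹]) :
    Subgroup.centralizer (F : Set G) →* GLm a.n (MonoidAlgebra R G)[T;T⁻¹] :=
  FQ.rho (lau (MonoidAlgebra.mapDomainRingHom R F.subtype))
    ((luH (MonoidAlgebra R G)).comp
      ((grpHom R G).comp (Subgroup.centralizer (F : Set G)).subtype))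
    (Pool.Agent.H16.KN.lau_comm _ _ (FQ.grpHom_comm R F.subtype
      (Subgroup.centralizer (F : Set G)).subtype (FQ.cent_comm F))) a

theorem rhoM_val (F : Subgroup G) (a : IdemMat (MonoidAlgebra R F)[T;T⁻¹])
    (γ : Subgroup.centralizer (F : Set G)) (i j : Fin a.n) (k : ℤ) :
    ((rhoM F a γ).val i j).coeff k = (if i = j ∧ k = 0 then 1 else 0) +
      (MonoidAlgebra.mapDomain (fun b : F => (b : G) * γ.val) ((a.mat i j).coeff k) -
        MonoidAlgebra.mapDomain (fun b : F => (b : G)) ((a.mat i j).coeff k)) := by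
  rw [rhoM, FQ.rho_val, Matrix.add_apply, Matrix.one_apply, Matrix.map_apply,
    AddMonoidAlgebra.coeff_add, Finsupp.add_apply]
  congr 1
  · split_ifs with h1 h2 h2
    · obtain ⟨-, rfl⟩ := h2
      exact Finsupp.single_eq_same
    · have h3 : k ≠ 0 := fun h => h2 ⟨h1, h⟩
      exact Finsupp.single_eq_of_ne h3
    · exact absurd h2.1 h1
    · rfl
  · rw [mul_sub, mul_one, AddMonoidAlgebra.coeff_sub, Finsupp.sub_apply]
    have h1 : (lau (MonoidAlgebra.mapDomainRingHom R F.subtype) (a.mat i j)).coeff k =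
        MonoidAlgebra.mapDomain F.subtype ((a.mat i j).coeff k) :=
      AddMonoidAlgebra.coeff_mapRingHom _ _ _
    have h2 : (lau (MonoidAlgebra.mapDomainRingHom R F.subtype) (a.mat i j) *
        ((((luH (MonoidAlgebra R G)).comp ((grpHom R G).comp
          (Subgroup.centralizer (F : Set G)).subtype)) γ : ((MonoidAlgebra R G)[T;T⁻¹])ˣ) :
            (MonoidAlgebra R G)[T;T⁻¹])).coeff k =
        (lau (MonoidAlgebra.mapDomainRingHom R F.subtype) (a.mat i j)).coeff k *
          MonoidAlgebra.single (γ : G) 1 :=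
      AddMonoidAlgebra.coeff_mul_single_zero _ _ _
    rw [h2, h1, mapDomain_mul]
    rfl

variable (R G n) in
/-- the assembly map on the `K₋₁`-part -/
noncomputable def asE : HnKm1 R G n →+ LQ (MonoidAlgebra R G) n :=
  (fromLQ _ _).comp ((asmKm1 R n G).comp toHM)

theorem asE_isAssemblyE : IsAssemblyE (R := R) (G := G) (n := n) (asE R G n) := by
  rintro ⟨F, hF, N, e, he, z⟩ ρ z' hρ hz
  change z'.ch = push ρ z.ch at hz
  have h1 : toHM (HnKm1.mk ⟨F, hF, N, e, he, z⟩) = hsyM ⟨F, hF, N, e, he, z⟩ := toHM_mk _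
  let a : IdemMat (MonoidAlgebra R F)[T;T⁻¹] := ⟨N, e, he⟩
  have h2 : ρ = rhoM F a := by
    funext γ
    refine Units.ext (Matrix.ext fun i j => AddMonoidAlgebra.ext (Finsupp.ext fun k => ?_))
    exact (hρ γ i j k).trans (rhoM_val F a γ i j k).symm
  have h3 : asmKm1 R n G (hsyM ⟨F, hF, N, e, he, z⟩) =
      LKQ.mk (FQ.KQ.cls (MonoidAlgebra R G)[T;T⁻¹] n N
        (HG.map n (rhoM F a) (toHG (Γ := Subgroup.centralizer (F : Set G)) z))) := by
    rw [hsyM, asmKm1_sym]
    exact congrArg LKQ.mk (FQ.asm_mk _ _ _ a _)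
  have h4 : HG.map n (rhoM F a) (toHG (Γ := Subgroup.centralizer (F : Set G)) z) =
      toHG (Γ := GLm N (MonoidAlgebra R G)[T;T⁻¹]) z' :=
    map_toHG (Γ := Subgroup.centralizer (F : Set G)) (rhoM F a)
      (hz.trans (congrArg (fun f => push f z.ch) h2))
  change fromLQ _ _ (asmKm1 R n G (toHM (HnKm1.mk ⟨F, hF, N, e, he, z⟩))) = _
  rw [h1, h3, h4]
  exact fromLQ_cls N z'

end

end Pool.Agent.H71.FQ3
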