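import Pool.Agent.H71.FQ.StN

/-!
# Comparison of the definitions over `ℤ`: the transfer of rational injectivity
-/

set_option autoImplicit false

open Matrix
open scoped LaurentPolynomial

universe u v w

namespace Pool.Agent.H71.FQ3

open Pool.Agent.H71.FQS (Ch bd push coi bnd Cyc GLm blkM RF Cent KQ toHG RatInj toH1c fromH1
  fromH1_toH1c)
open Pool.Agent.H71.FQ1 (pri IsCyc HSym1 HnK1 aug toHG_pri toL fromL fromL_toL conv vnoc
  vnoc_conv ratInj_compare)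
open Pool.Agent.H71.FQ (HG mapGL centConj grpHom)
open Pool.Agent.H71.FU0 (H0K1 assembly10 kq1 kq1_mk e1)
open Pool.Agent.H95.WH (K1 K1.mk K1.unit FamSub conjHom FinSub)
open Pool.Agent.H16.FU (assembly1 scal)
open Pool.Agent.H16.KN (LKQ LKQ.mk asmKm1)
open Pool.Agent.H39.KL (tp mono1)
open Pool.Agent.H8.KZ (uT)

section

variable (R : Type u) [Ring R] (G : Type v) [Group G]

/-- the assembly map on `H_0(G; ℤ)` -/
noncomputable def asH0 : Hn G 0 →+ LQ (MonoidAlgebra R G) 0 :=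
  (fromLQ _ _).comp ((zmultiplesHom (LKQ (MonoidAlgebra R G) 0)
    (LKQ.mk (kq1 (K1.unit (uT (MonoidAlgebra R G)))))).comp hnZ)

variable {R G}

theorem asH0_isAssemblyH : IsAssemblyH (R := R) (G := G) (n := 0) (asH0 R G) := by
  intro z hz σ t z' hσ ht h
  have h1 : hnZ (Hn.mk z hz) = aug G z := hnZ_mk z hz
  have h2 : t = Units.map (Matrix.scalar (Fin 1)).toMonoidHom (uT (MonoidAlgebra R G)) :=
    Units.ext (ht.trans rfl)
  have h3 : kq1 (K1.unit (uT (MonoidAlgebra R G))) = FQ.KQ.cls (MonoidAlgebra R G)[T;T⁻¹] 0 1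
      (e1 (Units.map (Matrix.scalar (Fin 1)).toMonoidHom (uT (MonoidAlgebra R G)))) := kq1_mk _
  have h4 : toHG z' = aug G z • e1 t := toHG_pri σ t z z' h
  have h5 : asH0 R G (Hn.mk z hz) = fromLQ (MonoidAlgebra R G) 0
      (LKQ.mk (FQ.KQ.cls (MonoidAlgebra R G)[T;T⁻¹] 0 1 (aug G z • e1 t))) := by
    change fromLQ _ _ (hnZ (Hn.mk z hz) • LKQ.mk (kq1 (K1.unit (uT (MonoidAlgebra R G))))) = _
    rw [h1, h3, ← map_zsmul, ← map_zsmul, h2]
    rfl
  refine h5.trans ?_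
  refine (congrArg (fun x => fromLQ (MonoidAlgebra R G) 0
      (LKQ.mk (FQ.KQ.cls (MonoidAlgebra R G)[T;T⁻¹] 0 1 x))) h4.symm).trans ?_
  exact fromLQ_cls 1 z'

variable (R G) in
/-- the assembly map on `H_n(G; ℤ)` -/
noncomputable def asHn : (n : ℕ) → Hn G n →+ LQ (MonoidAlgebra R G) n
  | 0 => asH0 R G
  | n + 1 => asH R G n

theorem asHn_isAssemblyH {n : ℕ} : IsAssemblyH (R := R) (G := G) (n := n) (asHn R G n) := by
  rcases n with _ | n
  · exact asH0_isAssemblyH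
  · exact asH_isAssemblyH

theorem toLQ_asH0 (x : Hn G 0) : toLQ (MonoidAlgebra R G) 0 (asHn R G 0 x) =
    zmultiplesHom (LKQ (MonoidAlgebra R G) 0)
      (LKQ.mk (kq1 (K1.unit (uT (MonoidAlgebra R G))))) (hnZ x) := by
  change toLQ (MonoidAlgebra R G) 0 (fromLQ (MonoidAlgebra R G) 0 (zmultiplesHom
    (LKQ (MonoidAlgebra R G) 0) (LKQ.mk (kq1 (K1.unit (uT (MonoidAlgebra R G))))) (hnZ x))) = _
  rw [toLQ_fromLQ]

theorem toLQ_asH {n : ℕ} (x : Hn G (n + 1)) :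
    toLQ (MonoidAlgebra R G) (n + 1) (asHn R G (n + 1) x) =
      LKQ.mk (tp (MonoidAlgebra R G) n (mono1 R G n (hnHG x))) := by
  change toLQ (MonoidAlgebra R G) (n + 1) (fromLQ (MonoidAlgebra R G) (n + 1)
    (LKQ.mk (tp (MonoidAlgebra R G) n (mono1 R G n (hnHG x))))) = _
  rw [toLQ_fromLQ]

theorem toLQ_asU {n : ℕ} (x : HnK1 R G n) :
    toLQ (MonoidAlgebra R G) (n + 1) (asU R G (n + 1) x) =
      LKQ.mk (tp (MonoidAlgebra R G) n (U1 R G n x)) := by
  change toLQ (MonoidAlgebra R G) (n + 1) (fromLQ (MonoidAlgebra R G) (n + 1)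
    (LKQ.mk (tp (MonoidAlgebra R G) n (U1 R G n x)))) = _
  rw [toLQ_fromLQ]

theorem toLQ_asE {n : ℕ} (x : HnKm1 R G n) :
    toLQ (MonoidAlgebra R G) n (asE R G n x) = asmKm1 R n G (toHM x) := by
  change toLQ (MonoidAlgebra R G) n (fromLQ (MonoidAlgebra R G) n (asmKm1 R n G (toHM x))) = _
  rw [toLQ_fromLQ]

/-- degree zero -/
theorem ratInj_zero (h : FQ.RatInj ((zmultiplesHom (LKQ (MonoidAlgebra R G) 0)
    (LKQ.mk (kq1 (K1.unit (uT (MonoidAlgebra R G)))))).coprod (asmKm1 R 0 G))) :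
    RatInj ((asHn R G 0).coprod ((asU R G 0).coprod (asE R G 0))) := by
  refine ratInj_compare (fun z => (hnZ z.1, toHM z.2.2))
    (((zmultiplesHom (Hn G 0) (ptH G)).coprod 0).prod
      (AddMonoidHom.prod (0 : ℤ × _ →+ K1Part R G 0) (fromHM.comp (AddMonoidHom.snd _ _))))
    (fun x => ?_) (toLQ _ _) (fun x => ?_) h
    fun x m => Prod.ext (map_zsmul hnZ m x.1) (map_zsmul toHM m x.2.2)
  · refine Prod.ext ?_ (Prod.ext rfl (fromHM_toHM x.2.2))
    change hnZ x.1 • ptH G + 0 = x.1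
    rw [add_zero]
    exact smul_hnZ x.1
  · change toLQ _ _ (asHn R G 0 x.1 + (0 + asE R G 0 x.2.2)) =
      zmultiplesHom (LKQ (MonoidAlgebra R G) 0)
        (LKQ.mk (kq1 (K1.unit (uT (MonoidAlgebra R G))))) (hnZ x.1) + asmKm1 R 0 G (toHM x.2.2)
    rw [zero_add, map_add]
    exact congrArg₂ (· + ·) (toLQ_asH0 x.1) (toLQ_asE x.2.2)

/-- degree one -/
theorem ratInj_one (h : FQ.RatInj (((LKQ.mk.comp (tp (MonoidAlgebra R G) 0)).comp
    (mono1 R G 0)).coprod (((LKQ.mk.comp (tp (MonoidAlgebra R G) 0)).comp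
      (assembly10 R G)).coprod (asmKm1 R 1 G)))) :
    RatInj ((asHn R G 1).coprod ((asU R G 1).coprod (asE R G 1))) := by
  refine ratInj_compare (fun z => (hnHG z.1, toL z.2.1, toHM z.2.2))
    (AddMonoidHom.prodMap hgHn (AddMonoidHom.prodMap fromL fromHM))
    (fun x => Prod.ext (hgHn_hnHG x.1) (Prod.ext (fromL_toL x.2.1) (fromHM_toHM x.2.2)))
    (toLQ _ _) (fun x => ?_) h
    fun x m => Prod.ext (map_zsmul hnHG m x.1) (Prod.ext (map_zsmul toL m x.2.1)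
      (map_zsmul toHM m x.2.2))
  change toLQ _ _ (asHn R G 1 x.1 + (asU R G 1 x.2.1 + asE R G 1 x.2.2)) =
    LKQ.mk (tp (MonoidAlgebra R G) 0 (mono1 R G 0 (hnHG x.1))) +
      (LKQ.mk (tp (MonoidAlgebra R G) 0 (U1 R G 0 x.2.1)) + asmKm1 R 1 G (toHM x.2.2))
  rw [map_add, map_add, toLQ_asH, toLQ_asE]
  exact congrArg (fun y => _ + (y + _)) (toLQ_asU x.2.1)

/-- the degrees `k + 2` -/
theorem ratInj_succ {k : ℕ} (h : FQ.RatInj (((LKQ.mk.comp (tp (MonoidAlgebra R G) (k + 1))).comp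
    (mono1 R G (k + 1))).coprod (((LKQ.mk.comp (tp (MonoidAlgebra R G) (k + 1))).comp
      (assembly1 R k G)).coprod (asmKm1 R (k + 2) G)))) :
    RatInj ((asHn R G (k + 2)).coprod ((asU R G (k + 2)).coprod (asE R G (k + 2)))) := by
  refine ratInj_compare (fun z => (hnHG z.1, toH1c (conv z.2.1), toHM z.2.2))
    (AddMonoidHom.prodMap hgHn (AddMonoidHom.prodMap (vnoc.comp fromH1) fromHM))
    (fun x => Prod.ext (hgHn_hnHG x.1) (Prod.ext ((congrArg vnoc (fromH1_toH1c (conv x.2.1))).trans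
      (vnoc_conv x.2.1)) (fromHM_toHM x.2.2)))
    (toLQ _ _) (fun x => ?_) h
    fun x m => Prod.ext (map_zsmul hnHG m x.1) (Prod.ext
      ((congrArg toH1c (map_zsmul conv m x.2.1)).trans (map_zsmul toH1c m (conv x.2.1)))
      (map_zsmul toHM m x.2.2))
  change toLQ _ _ (asHn R G (k + 2) x.1 + (asU R G (k + 2) x.2.1 + asE R G (k + 2) x.2.2)) =
    LKQ.mk (tp (MonoidAlgebra R G) (k + 1) (mono1 R G (k + 1) (hnHG x.1))) +
      (LKQ.mk (tp (MonoidAlgebra R G) (k + 1) (U1 R G (k + 1) x.2.1)) +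
        asmKm1 R (k + 2) G (toHM x.2.2))
  rw [map_add, map_add, toLQ_asH, toLQ_asE]
  exact congrArg (fun y => _ + (y + _)) (toLQ_asU x.2.1)

/-- The form of the statement. -/
theorem exists_of_ratInj {n : ℕ}
    (h : RatInj ((asHn R G n).coprod ((asU R G n).coprod (asE R G n)))) :
    ∃ (α : Hn G n →+ LQ (MonoidAlgebra R G) n) (β : K1Part R G n →+ LQ (MonoidAlgebra R G) n)
      (γ : HnKm1 R G n →+ LQ (MonoidAlgebra R G) n),
      IsAssemblyH α ∧ IsAssemblyU β ∧ IsAssemblyE γ ∧ RatInj (α.coprod (β.coprod γ)) :=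
  ⟨asHn R G n, asU R G n, asE R G n, asHn_isAssemblyH, asU_isAssemblyU, asE_isAssemblyE, h⟩

end

end Pool.Agent.H71.FQ3
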