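import Pool.Agent.H71.FQ.StO
import Pool.Agent.H8.KL.LocZ

/-!
# Rational injectivity over `ℤ` on the `K₀`-, `K₁`- and `K₋₁`-parts: the final statement
-/

set_option autoImplicit false

universe u v

namespace Pool.Agent.H71.FQ3

open Pool.Agent.H71.FQS (RatInj)
open Pool.Agent.H39.KL (BddT SepC)
open Pool.Agent.H8.KL (loc_asmAll loc_asmOne loc_asm0)

section

variable {G : Type u} [Group G] {n : ℕ}

theorem sepC_of {k : ℕ} (h : ∀ p : ℕ, p.Prime → ∀ C : Subgroup G, Finite C → IsCyclic C →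
    p ∣ Nat.card C → LSep p (FQS.Cent C) (k + 1)) : SepC G k := fun p hp C hC hc hd =>
  psepA_of (Γ := Subgroup.centralizer (C : Set G)) (h p hp C hC hc hd)

/-- **The main theorem.** -/
theorem main (G : Type u) [Group G] (n : ℕ) (hG : LocGrpZ G n) :
    ∃ (α : Hn G n →+ LQ (MonoidAlgebra ℤ G) n) (β : K1Part ℤ G n →+ LQ (MonoidAlgebra ℤ G) n)
      (γ : HnKm1 ℤ G n →+ LQ (MonoidAlgebra ℤ G) n),
      IsAssemblyH α ∧ IsAssemblyU β ∧ IsAssemblyE γ ∧ RatInj (α.coprod (β.coprod γ)) := by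
  apply exists_of_ratInj
  rcases n with _ | _ | k
  · refine ratInj_zero (loc_asm0 G fun S => ?_)
    obtain ⟨G', h1, h2⟩ := hG S
    exact ⟨G', sepC_of fun p hp C hC hc hd => ((h2 p hp).2 C hC hc hd).2, h1⟩
  · refine ratInj_one (loc_asmOne G fun S => ?_)
    obtain ⟨G', h1, h2⟩ := hG S
    exact ⟨G', ⟨fun p hp => (h2 p hp).1.resolve_left one_ne_zero,
      sepC_of fun p hp C hC hc hd => ((h2 p hp).2 C hC hc hd).2⟩, h1⟩
  · refine ratInj_succ (loc_asmAll G k fun S => ?_)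
    obtain ⟨G', h1, h2⟩ := hG S
    exact ⟨G', ⟨fun p hp => (h2 p hp).1.resolve_left (Nat.succ_ne_zero _),
      sepC_of fun p hp C hC hc hd => ((h2 p hp).2 C hC hc hd).1,
      sepC_of fun p hp C hC hc hd => ((h2 p hp).2 C hC hc hd).2⟩, h1⟩

end

end Pool.Agent.H71.FQ3
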