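import Pool.Agent.H71.FQ.FRing
import Pool.Agent.H71.FQ.Pow

/-!
# Project FQ: the functions `TB`

`TB c Φ b` is the value of the functional of `Φ` on the power `(∏_j io j (b j)) ^ q`.

PROOFS. `TB_congr`: `lam_pow` with the subring `balR`; if `b' j = b j + p • d j` then the product of the `io j (b' j)` is
the product of the `io j (b j)` plus `p • y`, `y` in `balR`. `TB_merge_succ`: in `(∏_j io j (b j)) ^ q` replace
successively each `io i (b i) * io (i + 1) (b (i + 1))` by `io i (b i * b (i + 1))` (`lam_merge`, the label `i + 1` is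
not read), then change the labels (`lam_relR`; extend `succAbove` to an injection of `ℕ`) and use `wf_comp` for the
left side. `TB_merge_zero`: first move the first letter to the end (`wf_rot` with `r = 0`, the label `0` is not read).
-/

set_option autoImplicit false

open Matrix

universe u v w

namespace Pool.Agent.H71.FQ

section

variable {G : Type u} [Group G] {ι : Type v} [Fintype ι] [DecidableEq ι] {B : Type w} [CommRing B]

/-- The value on the power of the product. -/
noncomputable def TB {k q : ℕ} (c : G) (Φ : (Fin k → Fin q → G) → B)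
    (b : Fin k → Matrix ι ι (MonoidAlgebra B G)) : B :=
  lam (wf c Φ fun j => (j : ℕ)) ((List.ofFn fun j : Fin k => (io (j : ℕ) (b j) : FR G ι B)).prod ^ q)

/-- the words in the support have each of the labels `0, …, k - 1` once and no other label -/
def Once (k : ℕ) (X : FR G ι B) : Prop :=
  ∀ W ∈ X.coeff.support, ∀ i, cnt i W = if i < k then 1 else 0

theorem Once.add {k : ℕ} {X Y : FR G ι B} (hX : Once k X) (hY : Once k Y) : Once k (X + Y) := by
  classical
  intro W hW i
  rw [MonoidAlgebra.coeff_add] at hW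
  rcases Finset.mem_union.1 (Finsupp.support_add hW) with h | h
  · exact hX W h i
  · exact hY W h i

theorem Once.mul_io {k : ℕ} {X : FR G ι B} (hX : Once k X)
    (a : Matrix ι ι (MonoidAlgebra B G)) : Once (k + 1) (X * io k a) := by
  classical
  intro W hW i
  obtain ⟨V, hV, U, hU, rfl⟩ := Finset.mem_mul.1 (MonoidAlgebra.support_coeff_mul_subset _ _ hW)
  obtain ⟨x, rfl⟩ := io_support k a hU
  rw [cnt_mul, hX V hV i, cnt_let1]
  by_cases h1 : i < k
  · rw [if_pos h1, if_neg (by omega), if_pos (by omega)]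
  · by_cases h2 : k = i
    · rw [if_neg h1, if_pos h2, if_pos (by omega)]
    · rw [if_neg h1, if_neg h2, if_neg (by omega)]

theorem Once.bal {k : ℕ} {X : FR G ι B} (hX : Once k X) : X ∈ balR G ι B k := by
  intro W hW
  refine ⟨1, fun i hi => ?_⟩
  rw [hX W hW i, if_pos hi]

theorem once_one : Once 0 (1 : FR G ι B) := by
  classical
  intro W hW i
  have h1 : W = 1 := by
    by_contra h
    rw [Finsupp.mem_support_iff] at hW
    apply hW
    rw [MonoidAlgebra.one_def, MonoidAlgebra.coeff_single, Finsupp.single_eq_of_ne h]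
  rw [h1, cnt_one, if_neg (Nat.not_lt_zero i)]

theorem prod_once {k : ℕ} (b : Fin k → Matrix ι ι (MonoidAlgebra B G)) :
    Once k (List.ofFn fun j : Fin k => (io (j : ℕ) (b j) : FR G ι B)).prod := by
  induction k with
  | zero =>
    rw [List.ofFn_zero, List.prod_nil]
    exact once_one
  | succ k ih =>
    rw [List.ofFn_succ', List.concat_eq_append, List.prod_append, List.prod_singleton]
    exact (ih fun j => b j.castSucc).mul_io (b (Fin.last k))

/-- the product of the `io j (b' j)`, `b' = b + p d` -/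
theorem exists_prod_add {p k : ℕ} (b b' : Fin k → Matrix ι ι (MonoidAlgebra B G))
    (h : ∀ j, ∃ d, b' j = b j + p • d) : ∃ y : FR G ι B, Once k y ∧
      (List.ofFn fun j : Fin k => (io (j : ℕ) (b' j) : FR G ι B)).prod =
        (List.ofFn fun j : Fin k => (io (j : ℕ) (b j) : FR G ι B)).prod + p • y := by
  induction k with
  | zero =>
    refine ⟨0, ?_, ?_⟩
    · intro W hW
      rw [MonoidAlgebra.coeff_zero, Finsupp.support_zero] at hW
      exact absurd hW (Finset.notMem_empty W)
    · rw [List.ofFn_zero, List.ofFn_zero, smul_zero, add_zero]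
  | succ k ih =>
    obtain ⟨y, hy, hyp⟩ := ih (fun j => b j.castSucc) (fun j => b' j.castSucc)
      (fun j => h j.castSucc)
    obtain ⟨d, hd⟩ := h (Fin.last k)
    refine ⟨y * io k (b (Fin.last k)) +
      (List.ofFn fun j : Fin k => (io (j : ℕ) (b' j.castSucc) : FR G ι B)).prod * io k d,
      (hy.mul_io _).add ((prod_once fun j => b' j.castSucc).mul_io _), ?_⟩
    rw [List.ofFn_succ', List.concat_eq_append, List.prod_append, List.prod_singleton,
      List.ofFn_succ', List.concat_eq_append, List.prod_append, List.prod_singleton]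
    simp only [Fin.val_castSucc, Fin.val_last]
    rw [hd, map_add, map_nsmul, mul_add, smul_add, mul_smul_comm]
    nth_rewrite 1 [hyp]
    rw [add_mul, smul_mul_assoc, add_assoc]

/-- **Independence of the lifts.** -/
theorem TB_congr {p : ℕ} (hp : p.Prime) {m : ℕ} (hB : (p : B) ^ (m + 1) = 0) {c : G} {k : ℕ}
    {Φ : (Fin k → Fin (p ^ m) → G) → B} (hΦ : IsInv c Φ)
    (b b' : Fin k → Matrix ι ι (MonoidAlgebra B G)) (h : ∀ j, ∃ d, b' j = b j + p • d) :
    TB c Φ b' = TB c Φ b := by
  obtain ⟨y, hy, hyp⟩ := exists_prod_add (p := p) b b' h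
  unfold TB
  rw [hyp]
  exact lam_pow (lam (wf c Φ fun j => (j : ℕ))) (balR G ι B k) (fun x hx z _ => lam_bal hΦ hx) hp hB
    (prod_once b).bal hy.bal

theorem TB_sum {κ : Type*} (s : Finset κ) (a : κ → ℤ) {k q : ℕ} (c : G)
    (Φ : κ → (Fin k → Fin q → G) → B) (b : Fin k → Matrix ι ι (MonoidAlgebra B G)) :
    TB c (fun v => ∑ i ∈ s, a i • Φ i v) b = ∑ i ∈ s, a i • TB c (Φ i) b := by
  unfold TB
  have h : (wf c (fun v => ∑ i ∈ s, a i • Φ i v) fun j : Fin k => (j : ℕ)) =
      fun W => ∑ i ∈ s, a i • wf c (Φ i) (fun j : Fin k => (j : ℕ)) W := by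
    funext W
    exact wf_sum s a Φ _ W
  rw [h]
  exact lam_sum s a _ _

/-- a product with two marked neighbouring factors -/
theorem exists_split {R : Type*} [Monoid R] (n : ℕ) (f : Fin (n + 2) → R) (i : Fin (n + 1)) :
    ∃ A C : R, (List.ofFn f).prod = A * f i.castSucc * f i.succ * C ∧
      ∀ g : Fin (n + 1) → R, (∀ j, j < i → g j = f j.castSucc) → (∀ j, i < j → g j = f j.succ) →
        (List.ofFn g).prod = A * g i * C := by
  induction n with
  | zero =>
    have hi : i = 0 := Fin.ext (by omega)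
    subst hi
    refine ⟨1, 1, ?_, ?_⟩
    · simp [List.ofFn_succ]
    · intro g _ _
      simp [List.ofFn_succ]
  | succ n ih =>
    refine Fin.cases ?_ (fun i' => ?_) i
    · refine ⟨1, (List.ofFn fun j : Fin (n + 1) => f j.succ.succ).prod, ?_, ?_⟩
      · rw [List.ofFn_succ, List.prod_cons, List.ofFn_succ, List.prod_cons, Fin.castSucc_zero,
          one_mul, mul_assoc]
      · intro g _ h2
        rw [List.ofFn_succ, List.prod_cons, one_mul]
        congr 2
        congr 1
        funext j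
        exact h2 j.succ (Fin.succ_pos j)
    · obtain ⟨A, C, h1, h2⟩ := ih (fun j => f j.succ) i'
      refine ⟨f 0 * A, C, ?_, ?_⟩
      · rw [List.ofFn_succ, List.prod_cons, h1, Fin.castSucc_succ]
        simp only [mul_assoc]
      · intro g hg1 hg2
        rw [List.ofFn_succ, List.prod_cons, h2 (fun j => g j.succ)
          (fun j hj => hg1 j.succ (Fin.succ_lt_succ_iff.2 hj))
          (fun j hj => hg2 j.succ (Fin.succ_lt_succ_iff.2 hj)), hg1 0 (Fin.succ_pos i')]
        simp only [mul_assoc, Fin.castSucc_zero]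

/-- merging two neighbouring factors in a power -/
theorem lam_merge_pow {Ψ : Wd G → B} {l i : ℕ}
    (h : ∀ V W x y, Ψ (V * let1 x l * let1 y i * W) = Ψ (V * let1 (x * y) l * W))
    (A C : FR G ι B) (a b : Matrix ι ι (MonoidAlgebra B G)) (q : ℕ) (X Y : FR G ι B) :
    lam Ψ (X * (A * io l a * io i b * C) ^ q * Y) = lam Ψ (X * (A * io l (a * b) * C) ^ q * Y) := by
  induction q generalizing Y with
  | zero => rw [pow_zero, pow_zero]
  | succ q ih =>
    rw [pow_succ, pow_succ, ← mul_assoc, mul_assoc (X * _) _ Y, ih, ← mul_assoc X,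
      mul_assoc (X * _) _ Y]
    have h1 := lam_merge h (X * (A * io l (a * b) * C) ^ q * A) (C * Y) a b
    simp only [mul_assoc] at h1 ⊢
    exact h1

theorem relR_prod_io (ρ : ℕ → ℕ) {k : ℕ} (b : Fin k → Matrix ι ι (MonoidAlgebra B G)) :
    relR ρ (List.ofFn fun j : Fin k => (io (j : ℕ) (b j) : FR G ι B)).prod =
      (List.ofFn fun j : Fin k => (io (ρ j) (b j) : FR G ι B)).prod := by
  rw [map_list_prod, List.map_ofFn]
  congr 2
  funext j
  exact relR_io ρ _ _

/-- the value on a power, the labels changed by an injection -/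
theorem TB_relab {k q : ℕ} {c : G} {Φ : (Fin k → Fin q → G) → B} (hΦ : IsInv c Φ) {ρ : ℕ → ℕ}
    (hρ : Function.Injective ρ) (b : Fin k → Matrix ι ι (MonoidAlgebra B G)) :
    TB c Φ b = lam (wf c Φ fun j => ρ j)
      ((List.ofFn fun j : Fin k => (io (ρ j) (b j) : FR G ι B)).prod ^ q) := by
  rw [← relR_prod_io, ← map_pow, lam_relR ρ fun W => wf_relab hΦ (fun j : Fin k => (j : ℕ)) hρ W]
  rfl

theorem TB_merge_zero {n q : ℕ} (hq : 0 < q) {c : G} {Φ : (Fin (n + 1) → Fin q → G) → B}
    (hΦ : IsInv c Φ) (b : Fin (n + 2) → Matrix ι ι (MonoidAlgebra B G)) :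
    TB c (fun v : Fin (n + 2) → Fin q → G => Φ fun j => v j.succ) b =
      TB c Φ fun j => if j = Fin.last n then b (Fin.last (n + 1)) * b 0 else b j.succ := by
  obtain ⟨k, rfl⟩ : ∃ k, q = k + 1 := ⟨q - 1, by omega⟩
  rw [TB_relab hΦ (ρ := fun j => j + 1) (fun x y h => Nat.succ_injective h)]
  unfold TB
  rw [lam_congr (Ψ' := wf c Φ fun j : Fin (n + 1) => (j : ℕ) + 1) fun W hW => by
    rw [wf_comp (fun j : Fin (n + 1) => j.succ) (fun j => (j : ℕ)) W
      fun j => pow_prod_io_mem (k + 1) b hW j j.2]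
    rfl]
  rw [List.ofFn_succ, List.prod_cons, List.ofFn_succ', List.concat_eq_append, List.prod_append,
    List.prod_singleton]
  rw [List.ofFn_succ' (f := fun j : Fin (n + 1) => (io ((j : ℕ) + 1)
    (if j = Fin.last n then b (Fin.last (n + 1)) * b 0 else b j.succ) : FR G ι B)),
    List.concat_eq_append, List.prod_append, List.prod_singleton]
  set E : FR G ι B := (List.ofFn fun i : Fin n =>
    (io ((i.castSucc.succ : Fin (n + 2)) : ℕ) (b i.castSucc.succ) : FR G ι B)).prod with hE
  have hE' : (List.ofFn fun i : Fin n => (io ((i.castSucc : Fin (n + 1)) + 1 : ℕ)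
      (if i.castSucc = Fin.last n then b (Fin.last (n + 1)) * b 0 else b i.castSucc.succ) :
        FR G ι B)).prod = E := by
    rw [hE]
    congr 2
    funext i
    rw [if_neg (Fin.castSucc_lt_last i).ne]
    rfl
  rw [hE', if_pos rfl]
  have hcom : ∀ Z : FR G ι B, lam (wf c Φ fun j : Fin (n + 1) => (j : ℕ) + 1)
      (io (0 : ℕ) (b 0) * Z) = lam (wf c Φ fun j : Fin (n + 1) => (j : ℕ) + 1)
      (Z * io (0 : ℕ) (b 0)) := by
    intro Z
    refine lam_comm ?_
    intro V hV W _
    obtain ⟨x, rfl⟩ := io_support 0 (b 0) hV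
    refine wf_rot hΦ _ _ _ 0 ?_
    intro j
    rw [cnt_let1, if_neg (Nat.succ_ne_zero _).symm]
  have h1 : (io ((0 : Fin (n + 2)) : ℕ) (b 0) * (E * io ((Fin.last n).succ : ℕ)
      (b (Fin.last n).succ)) : FR G ι B) ^ (k + 1) =
      io (0 : ℕ) (b 0) * (((E * io (n + 1) (b (Fin.last (n + 1)))) * io (0 : ℕ) (b 0)) ^ k *
        (E * io (n + 1) (b (Fin.last (n + 1))))) := by
    rw [pow_succ, ← mul_assoc, mul_pow_mul, mul_assoc]
    rfl
  rw [h1, hcom, mul_assoc, ← pow_succ]
  have h2 := lam_merge_pow (Ψ := wf c Φ fun j : Fin (n + 1) => (j : ℕ) + 1) (l := n + 1) (i := 0)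
    (fun V W x y => wf_merge hΦ _ V W x y (n + 1) 0 fun j => Nat.succ_ne_zero _) E 1
    (b (Fin.last (n + 1))) (b 0) (k + 1) 1 1
  simp only [mul_one, one_mul] at h2
  exact h2

theorem TB_merge_succ {n q : ℕ} (hq : 0 < q) {c : G} {Φ : (Fin (n + 1) → Fin q → G) → B}
    (hΦ : IsInv c Φ) (b : Fin (n + 2) → Matrix ι ι (MonoidAlgebra B G)) (i : Fin (n + 1)) :
    TB c (fun v : Fin (n + 2) → Fin q → G => Φ fun j => v (i.succ.succAbove j)) b =
      TB c Φ fun j => if j < i then b j.castSucc else
        if j = i then b i.castSucc * b i.succ else b j.succ := by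
  have hρ : Function.Injective fun j : ℕ => if j ≤ (i : ℕ) then j else j + 1 := by
    intro x y h
    simp only at h
    split_ifs at h <;> omega
  have hl : ∀ j : Fin (n + 1), ((i.succ.succAbove j : Fin (n + 2)) : ℕ) =
      if (j : ℕ) ≤ (i : ℕ) then (j : ℕ) else (j : ℕ) + 1 := by
    intro j
    rw [Fin.succAbove]
    by_cases h : (j : ℕ) ≤ (i : ℕ)
    · rw [if_pos h, if_pos (by rw [Fin.lt_def]; simp only [Fin.val_castSucc, Fin.val_succ]; omega)]
      rfl
    · rw [if_neg h, if_neg (by rw [Fin.lt_def]; simp only [Fin.val_castSucc, Fin.val_succ]; omega)]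
      rfl
  rw [TB_relab hΦ hρ]
  unfold TB
  rw [lam_congr (Ψ' := wf c Φ fun j : Fin (n + 1) => if (j : ℕ) ≤ (i : ℕ) then (j : ℕ) else
      (j : ℕ) + 1) fun W hW => by
    rw [wf_comp (fun j : Fin (n + 1) => i.succ.succAbove j) (fun j => (j : ℕ)) W
      fun j => pow_prod_io_mem q b hW j j.2]
    congr 1
    funext j
    exact hl j]
  obtain ⟨A, C, h1, h2⟩ := exists_split n (fun j : Fin (n + 2) => (io (j : ℕ) (b j) : FR G ι B)) i
  have h3 := h2 (fun j : Fin (n + 1) => (io (if (j : ℕ) ≤ (i : ℕ) then (j : ℕ) else (j : ℕ) + 1)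
    (if j < i then b j.castSucc else if j = i then b i.castSucc * b i.succ else b j.succ) :
      FR G ι B)) (fun j hj => by
        rw [if_pos (le_of_lt (Fin.lt_def.1 hj)), if_pos hj]
        rfl) (fun j hj => by
        rw [if_neg (not_le.2 (Fin.lt_def.1 hj)), if_neg (not_lt.2 hj.le), if_neg hj.ne']
        rfl)
  rw [h1, h3]
  simp only [le_refl, if_true, lt_irrefl, if_false]
  have h4 := lam_merge_pow (Ψ := wf c Φ fun j : Fin (n + 1) => if (j : ℕ) ≤ (i : ℕ) then (j : ℕ) else
      (j : ℕ) + 1) (l := i) (i := i + 1)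
    (fun V W x y => wf_merge hΦ _ V W x y i (i + 1) fun j => by split_ifs <;> omega) A C
    (b i.castSucc) (b i.succ) q 1 1
  simp only [mul_one, one_mul] at h4
  exact h4

end

section

variable {G : Type u} [Group G] {B : Type w} [CommRing B]

theorem TB_blk {N M : ℕ} {k q : ℕ} (hk : 0 < k) (hq : 0 < q) (c : G)
    (Φ : (Fin k → Fin q → G) → B) (b : Fin k → Matrix (Fin N) (Fin N) (MonoidAlgebra B G))
    (b' : Fin k → Matrix (Fin M) (Fin M) (MonoidAlgebra B G)) :
    TB c Φ (fun j => (fromBlocks (b j) 0 0 (b' j)).submatrix finSumFinEquiv.symm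
      finSumFinEquiv.symm) = TB c Φ b + TB c Φ b' :=
  lam_blk _ hk hq b b'

end

end Pool.Agent.H71.FQ
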