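import Pool.Agent.H71.FQ.Nu

/-!
# Project FQ: functions of words

A word is a list of letters `(x, l)`, `x ∈ G`, `l ∈ ℕ` (the label). A word together with a starting point `y ∈ G` is
a path in `G`: the letter `(x, l)` leads from the vertex `y` to the vertex `y * x`. `occ i W y` is the list of the
vertices before the letters with label `i`. The function `wf c Φ ℓ` of words: if the product of the letters is
conjugate to `c` and all the labels `ℓ j` occur exactly `q` times, start at `u` with `u * prd W * u⁻¹ = c` and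
evaluate `Φ` on the tuples of vertices of the labels `ℓ j`; otherwise the value is `0`.

PROOFS. `occ_mul`: `occ i (V ++ W) y = occ i V y ++ occ i W (y * prd V)`; `occ_smul`: `occ i W (g * y)` is the image of
`occ i W y` under `g * ·`. `wf_eq`: two starting points differ by an element of the centralizer of `c`. `wf_rot`: for
`V * W` start at `u`, for `W * V` at `u * prd V`; the second list is the first one rotated `r` times, the end
multiplied by `c` from the left: this is `sig` iterated `r` times. `wf_move`: only the vertex between the two letters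
changes, `y * x * s` instead of `y * x`: one entry of one tuple (or none) is multiplied by `s` from the right.
-/

set_option autoImplicit false

universe u v w

namespace Pool.Agent.H71.FQ

/-- the words: lists of letters with a label -/
abbrev Wd (G : Type u) : Type u := FreeMonoid (G × ℕ)

section

variable {G : Type u} [Group G]

/-- the letter `x` with label `l` -/
def let1 (x : G) (l : ℕ) : Wd G := FreeMonoid.of (x, l)

/-- the product of the letters -/
def prd : Wd G →* G := FreeMonoid.lift fun a : G × ℕ => a.1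

theorem prd_let1 (x : G) (l : ℕ) : prd (let1 x l) = x := FreeMonoid.lift_eval_of _ _

/-- the list of the vertices before the letters with label `i` -/
def occL (i : ℕ) : List (G × ℕ) → G → List G
  | [], _ => []
  | a :: W, y => if a.2 = i then y :: occL i W (y * a.1) else occL i W (y * a.1)

/-- the list of the vertices before the letters with label `i` -/
def occ (i : ℕ) (W : Wd G) (y : G) : List G := occL i W.toList y

theorem occ_one (i : ℕ) (y : G) : occ i 1 y = [] := rfl

theorem occ_let1 (i : ℕ) (x : G) (l : ℕ) (y : G) :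
    occ i (let1 x l) y = if l = i then [y] else [] := by
  rw [occ, let1, FreeMonoid.toList_of, occL, occL]

theorem occL_append (i : ℕ) (V W : List (G × ℕ)) (y : G) :
    occL i (V ++ W) y = occL i V y ++ occL i W (y * (V.map fun a => a.1).prod) := by
  induction V generalizing y with
  | nil => simp [occL]
  | cons a V ih =>
    rw [List.cons_append, occL, occL, List.map_cons, List.prod_cons, ih, ← mul_assoc]
    split_ifs with h
    · rw [List.cons_append]
    · rfl

theorem prd_toList (V : Wd G) : prd V = (V.toList.map fun a => a.1).prod := by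
  rw [prd, FreeMonoid.lift_apply]

theorem occ_mul (i : ℕ) (V W : Wd G) (y : G) : occ i (V * W) y = occ i V y ++ occ i W (y * prd V) := by
  rw [occ, occ, occ, FreeMonoid.toList_mul, occL_append, prd_toList]

theorem occL_smul (i : ℕ) (W : List (G × ℕ)) (g y : G) :
    occL i W (g * y) = (occL i W y).map fun x => g * x := by
  induction W generalizing y with
  | nil => rfl
  | cons a W ih =>
    rw [occL, occL, mul_assoc, ih]
    split_ifs with h
    · rw [List.map_cons]
    · rfl

theorem occ_smul (i : ℕ) (W : Wd G) (g y : G) : occ i W (g * y) = (occ i W y).map fun x => g * x :=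
  occL_smul i W.toList g y

/-- the number of letters with label `i` -/
def cnt (i : ℕ) (W : Wd G) : ℕ := (occ i W 1).length

theorem occ_length (i : ℕ) (W : Wd G) (y : G) : (occ i W y).length = cnt i W := by
  rw [cnt, ← mul_one y, occ_smul, List.length_map]

theorem cnt_one (i : ℕ) : cnt i (1 : Wd G) = 0 := rfl

theorem cnt_let1 (i : ℕ) (x : G) (l : ℕ) : cnt i (let1 x l) = if l = i then 1 else 0 := by
  rw [cnt, occ_let1]
  split_ifs with h
  · rfl
  · rfl

theorem cnt_mul (i : ℕ) (V W : Wd G) : cnt i (V * W) = cnt i V + cnt i W := by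
  rw [cnt, occ_mul, List.length_append, occ_length, occ_length]

/-- The functions of tuples which we use: invariant under the centralizer of `c` and under `sig`. -/
structure IsInv {B : Type v} (c : G) {k q : ℕ} (Φ : (Fin k → Fin q → G) → B) : Prop where
  inv : ∀ g : G, g * c = c * g → ∀ v, Φ (fun j => lmul g (v j)) = Φ v
  rot : ∀ v, Φ (fun j => sig q c (v j)) = Φ v

section

variable {B : Type v} [CommRing B] (c : G) {k q : ℕ}

/-- the tuples of vertices -/
def rd (q : ℕ) (ℓ : Fin k → ℕ) (W : Wd G) (y : G) : Fin k → Fin q → G := fun j t =>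
  (occ (ℓ j) W y).getD t 1

open Classical in
/-- **The function of words defined by `Φ`.** -/
noncomputable def wf (Φ : (Fin k → Fin q → G) → B) (ℓ : Fin k → ℕ) (W : Wd G) : B :=
  if h : (∀ j, cnt (ℓ j) W = q) ∧ ∃ u : G, u * prd W * u⁻¹ = c then Φ (rd q ℓ W h.2.choose) else 0

variable {c}

theorem rd_smul (ℓ : Fin k → ℕ) (W : Wd G) (h : ∀ j, cnt (ℓ j) W = q) (g y : G) :
    rd q ℓ W (g * y) = fun j => lmul g (rd q ℓ W y j) := by
  funext j t
  have h1 : (t : ℕ) < (occ (ℓ j) W y).length := by rw [occ_length, h j]; exact t.2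
  rw [rd, lmul, rd, occ_smul, List.getD_eq_getElem _ _ (by rw [List.length_map]; exact h1),
    List.getD_eq_getElem _ _ h1, List.getElem_map]

theorem wf_eq {Φ : (Fin k → Fin q → G) → B} (hΦ : IsInv c Φ) (ℓ : Fin k → ℕ) (W : Wd G)
    (h : ∀ j, cnt (ℓ j) W = q) (y : G) (hy : y * prd W * y⁻¹ = c) : wf c Φ ℓ W = Φ (rd q ℓ W y) := by
  have h' : (∀ j, cnt (ℓ j) W = q) ∧ ∃ u : G, u * prd W * u⁻¹ = c := ⟨h, y, hy⟩
  rw [wf, dif_pos h']
  generalize hu : h'.2.choose = u
  have hu' : u * prd W * u⁻¹ = c := by rw [← hu]; exact h'.2.choose_spec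
  have e : u = (u * y⁻¹) * y := by group
  rw [e, rd_smul ℓ W h]
  refine hΦ.inv _ ?_ _
  calc u * y⁻¹ * c = u * y⁻¹ * (y * prd W * y⁻¹) := by rw [hy]
    _ = (u * prd W * u⁻¹) * (u * y⁻¹) := by group
    _ = c * (u * y⁻¹) := by rw [hu']

theorem wf_of_cnt (Φ : (Fin k → Fin q → G) → B) (ℓ : Fin k → ℕ) (W : Wd G)
    (h : ∃ j, cnt (ℓ j) W ≠ q) : wf c Φ ℓ W = 0 := by
  obtain ⟨j, hj⟩ := h
  rw [wf, dif_neg fun h => hj (h.1 j)]

theorem wf_of_prd (Φ : (Fin k → Fin q → G) → B) (ℓ : Fin k → ℕ) (W : Wd G)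
    (h : ∀ y : G, y * prd W * y⁻¹ ≠ c) : wf c Φ ℓ W = 0 := by
  rw [wf, dif_neg]
  rintro ⟨-, u, hu⟩
  exact h u hu

/-- Comparison of two words with possibly different functions. -/
theorem wf_congr {k' q' : ℕ} {Φ : (Fin k → Fin q → G) → B} {Φ' : (Fin k' → Fin q' → G) → B}
    (hΦ : IsInv c Φ) (hΦ' : IsInv c Φ') (ℓ : Fin k → ℕ) (ℓ' : Fin k' → ℕ) (W W' : Wd G)
    (hc : (∀ j, cnt (ℓ j) W = q) ↔ ∀ j, cnt (ℓ' j) W' = q') (a : G)
    (hp : prd W = a * prd W' * a⁻¹)
    (he : (∀ j, cnt (ℓ j) W = q) → ∀ y : G, y * prd W * y⁻¹ = c →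
      Φ (rd q ℓ W y) = Φ' (rd q' ℓ' W' (y * a))) :
    wf c Φ ℓ W = wf c Φ' ℓ' W' := by
  by_cases h : (∀ j, cnt (ℓ j) W = q) ∧ ∃ u : G, u * prd W * u⁻¹ = c
  · obtain ⟨h1, y, hy⟩ := h
    have h2 : y * a * prd W' * (y * a)⁻¹ = c := by
      rw [← hy, hp]
      group
    rw [wf_eq hΦ ℓ W h1 y hy, wf_eq hΦ' ℓ' W' (hc.1 h1) (y * a) h2, he h1 y hy]
  · rw [wf, dif_neg h, wf, dif_neg]
    rintro ⟨h1, y, hy⟩
    apply h
    refine ⟨hc.2 h1, y * a⁻¹, ?_⟩
    rw [← hy, hp]
    group

omit [CommRing B] in
theorem IsInv.rot_iterate {Φ : (Fin k → Fin q → G) → B} (hΦ : IsInv c Φ) (r : ℕ)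
    (v : Fin k → Fin q → G) : Φ (fun j => (sig q c)^[r] (v j)) = Φ v := by
  induction r generalizing v with
  | zero => rfl
  | succ r ih =>
    calc Φ (fun j => (sig q c)^[r + 1] (v j)) = Φ (fun j => (sig q c)^[r] (sig q c (v j))) := rfl
      _ = Φ (fun j => sig q c (v j)) := ih fun j => sig q c (v j)
      _ = Φ v := hΦ.rot v

/-- Rotation of a list is an iterate of `sig`. -/
theorem sig_iterate_list (c : G) (A C : List G) (q r : ℕ) (hA : A.length = r)
    (h : (A ++ C).length = q) :
    ((sig q c)^[r] fun t : Fin q => (A ++ C).getD t 1) =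
      fun t : Fin q => (C ++ A.map fun x => c * x).getD t 1 := by
  induction A generalizing C r with
  | nil =>
    subst hA
    simp
  | cons a A ih =>
    obtain rfl : r = A.length + 1 := by rw [← hA, List.length_cons]
    have e1 : sig q c (fun t : Fin q => (a :: A ++ C).getD t 1) =
        fun t : Fin q => (A ++ (C ++ [c * a])).getD t 1 := by
      funext t
      have ht := t.2
      have hl : A.length + C.length + 1 = q := by
        rw [← h, List.length_append, List.length_cons]
        omega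
      rw [sig]
      split_ifs with h1
      · rw [List.cons_append, List.getD_cons_succ, ← List.append_assoc,
          List.getD_append (A ++ C) _ _ _ (by rw [List.length_append]; omega)]
      · have h2 : (t : ℕ) = (A ++ C).length := by
          rw [List.length_append]
          omega
        rw [List.cons_append, List.getD_cons_zero, ← List.append_assoc, h2,
          List.getD_append_right (A ++ C) _ _ _ le_rfl, Nat.sub_self, List.getD_cons_zero]
    rw [Function.iterate_succ_apply, e1, ih (C ++ [c * a]) A.length rfl]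
    · funext t
      rw [List.map_cons, List.append_assoc, List.singleton_append]
    · rw [← h]
      simp only [List.length_append, List.length_cons, List.length_nil]
      omega

/-- **Rotation of a balanced word.** -/
theorem wf_rot {Φ : (Fin k → Fin q → G) → B} (hΦ : IsInv c Φ) (ℓ : Fin k → ℕ) (V W : Wd G) (r : ℕ)
    (h : ∀ j, cnt (ℓ j) V = r) : wf c Φ ℓ (V * W) = wf c Φ ℓ (W * V) := by
  refine wf_congr hΦ hΦ ℓ ℓ (V * W) (W * V) ?_ (prd V) ?_ ?_
  · refine forall_congr' fun j => ?_
    rw [cnt_mul, cnt_mul, add_comm]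
  · rw [map_mul, map_mul]
    group
  · intro h1 y hy
    have hc : y * prd V * prd W = c * y := by
      rw [← hy, map_mul]
      group
    have key : ∀ j, rd q ℓ (W * V) (y * prd V) j = (sig q c)^[r] (rd q ℓ (V * W) y j) := by
      intro j
      change (fun t : Fin q => (occ (ℓ j) (W * V) (y * prd V)).getD t 1) =
        (sig q c)^[r] (fun t : Fin q => (occ (ℓ j) (V * W) y).getD t 1)
      have e1 : occ (ℓ j) (V * W) y = occ (ℓ j) V y ++ occ (ℓ j) W (y * prd V) := occ_mul _ _ _ _
      have e2 : occ (ℓ j) (W * V) (y * prd V) =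
          occ (ℓ j) W (y * prd V) ++ (occ (ℓ j) V y).map fun x => c * x := by
        rw [occ_mul, hc, occ_smul (ℓ j) V c y]
      rw [e1, e2]
      have hl : (occ (ℓ j) V y ++ occ (ℓ j) W (y * prd V)).length = q := by
        rw [← e1, occ_length, h1 j]
      exact (sig_iterate_list c _ _ q r (by rw [occ_length, h j]) hl).symm
    have e : rd q ℓ (W * V) (y * prd V) = fun j => (sig q c)^[r] (rd q ℓ (V * W) y j) :=
      funext key
    rw [e]
    exact (hΦ.rot_iterate r _).symm

/-- two letters, the second one with a label which is not read -/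
theorem wf_merge {Φ : (Fin k → Fin q → G) → B} (hΦ : IsInv c Φ) (ℓ : Fin k → ℕ) (V W : Wd G)
    (x y : G) (l i : ℕ) (hi : ∀ j, ℓ j ≠ i) :
    wf c Φ ℓ (V * let1 x l * let1 y i * W) = wf c Φ ℓ (V * let1 (x * y) l * W) := by
  have e : ∀ j (z : G), occ (ℓ j) (V * let1 x l * let1 y i * W) z =
      occ (ℓ j) (V * let1 (x * y) l * W) z := by
    intro j z
    rw [occ_mul, occ_mul, occ_mul, occ_mul, occ_mul, occ_let1, occ_let1, occ_let1,
      if_neg (fun h : i = ℓ j => hi j h.symm), List.append_nil]
    simp only [map_mul, prd_let1, mul_assoc]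
  refine wf_congr hΦ hΦ ℓ ℓ _ _ ?_ 1 ?_ ?_
  · refine forall_congr' fun j => ?_
    rw [cnt, cnt, e]
  · simp only [map_mul, prd_let1, mul_assoc, one_mul, inv_one, mul_one]
  · intro _ z _
    rw [mul_one]
    congr 1
    funext j t
    rw [rd, rd, e]

/-- change of the labels -/
def relab (ρ : ℕ → ℕ) : Wd G →* Wd G := FreeMonoid.lift fun a : G × ℕ => let1 a.1 (ρ a.2)

theorem relab_let1 (ρ : ℕ → ℕ) (x : G) (l : ℕ) : relab ρ (let1 x l) = let1 x (ρ l) :=
  FreeMonoid.lift_eval_of _ _

theorem prd_relab (ρ : ℕ → ℕ) (W : Wd G) : prd (relab ρ W) = prd W := by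
  have h : (prd (G := G)).comp (relab ρ) = prd := by
    apply FreeMonoid.hom_eq
    intro a
    rw [MonoidHom.comp_apply, relab, FreeMonoid.lift_eval_of, prd_let1]
    exact (FreeMonoid.lift_eval_of _ _).symm
  exact DFunLike.congr_fun h W

theorem occ_relab {ρ : ℕ → ℕ} (hρ : Function.Injective ρ) (i : ℕ) (W : Wd G) (y : G) :
    occ (ρ i) (relab ρ W) y = occ i W y := by
  induction W using FreeMonoid.inductionOn' generalizing y with
  | one => rfl
  | of_mul a W ih =>
    have e : (FreeMonoid.of a : Wd G) = let1 a.1 a.2 := rfl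
    rw [map_mul, e, relab_let1, occ_mul, occ_mul, occ_let1, occ_let1, prd_let1, prd_let1, ih]
    simp only [hρ.eq_iff]

theorem wf_relab {Φ : (Fin k → Fin q → G) → B} (hΦ : IsInv c Φ) (ℓ : Fin k → ℕ) {ρ : ℕ → ℕ}
    (hρ : Function.Injective ρ) (W : Wd G) :
    wf c Φ (fun j => ρ (ℓ j)) (relab ρ W) = wf c Φ ℓ W := by
  have e : ∀ j (z : G), occ (ρ (ℓ j)) (relab ρ W) z = occ (ℓ j) W z := fun j z =>
    occ_relab hρ (ℓ j) W z
  refine wf_congr hΦ hΦ (fun j => ρ (ℓ j)) ℓ _ _ ?_ 1 ?_ ?_
  · refine forall_congr' fun j => ?_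
    rw [cnt, cnt, e]
  · rw [prd_relab, one_mul, inv_one, mul_one]
  · intro _ z _
    rw [mul_one]
    congr 1
    funext j t
    rw [rd, rd, e]

/-- functions which do not depend on all the variables -/
theorem wf_comp {k' : ℕ} {Φ : (Fin k → Fin q → G) → B} (δ : Fin k → Fin k') (ℓ : Fin k' → ℕ)
    (W : Wd G) (h : ∀ j, cnt (ℓ j) W = q) :
    wf c (fun v : Fin k' → Fin q → G => Φ fun j => v (δ j)) ℓ W = wf c Φ (fun j => ℓ (δ j)) W := by
  by_cases h1 : ∃ u : G, u * prd W * u⁻¹ = c
  · rw [wf, dif_pos ⟨h, h1⟩, wf, dif_pos ⟨fun j => h (δ j), h1⟩]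
    rfl
  · rw [wf, dif_neg fun h2 => h1 h2.2, wf, dif_neg fun h2 => h1 h2.2]

theorem wf_sum {ι : Type*} (s : Finset ι) (a : ι → ℤ) (Φ : ι → (Fin k → Fin q → G) → B)
    (ℓ : Fin k → ℕ) (W : Wd G) :
    wf c (fun v => ∑ i ∈ s, a i • Φ i v) ℓ W = ∑ i ∈ s, a i • wf c (Φ i) ℓ W := by
  by_cases h : (∀ j, cnt (ℓ j) W = q) ∧ ∃ u : G, u * prd W * u⁻¹ = c
  · rw [wf, dif_pos h]
    refine Finset.sum_congr rfl fun i _ => ?_
    rw [wf, dif_pos h]
  · rw [wf, dif_neg h]
    refine (Finset.sum_eq_zero fun i _ => ?_).symm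
    rw [wf, dif_neg h, smul_zero]

theorem wf_map {B' : Type*} [CommRing B'] (f : B →+* B') (Φ : (Fin k → Fin q → G) → B)
    (ℓ : Fin k → ℕ) (W : Wd G) : wf c (fun v => f (Φ v)) ℓ W = f (wf c Φ ℓ W) := by
  by_cases h : (∀ j, cnt (ℓ j) W = q) ∧ ∃ u : G, u * prd W * u⁻¹ = c
  · rw [wf, dif_pos h, wf, dif_pos h]
  · rw [wf, dif_neg h, wf, dif_neg h, map_zero]

/-- **Moving an element of `D` through a vertex.** -/
theorem wf_move {Φ : (Fin k → Fin q → G) → B} (hΦ : IsInv c Φ) (D : Subgroup G)
    (hD : ∀ s : Fin k → Fin q → G, (∀ j t, s j t ∈ D) → ∀ v, Φ (fun j t => v j t * s j t) = Φ v)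
    (ℓ : Fin k → ℕ) (V W : Wd G) (x y s : G) (hs : s ∈ D) (l i : ℕ) :
    wf c Φ ℓ (V * let1 (x * s) l * let1 y i * W) = wf c Φ ℓ (V * let1 x l * let1 (s * y) i * W) := by
  have hcnt : ∀ j, cnt (ℓ j) (V * let1 (x * s) l * let1 y i * W) =
      cnt (ℓ j) (V * let1 x l * let1 (s * y) i * W) := by
    intro j
    simp only [cnt_mul, cnt_let1]
  have hprd : prd (V * let1 (x * s) l * let1 y i * W) =
      prd (V * let1 x l * let1 (s * y) i * W) := by
    simp only [map_mul, prd_let1, mul_assoc]
  refine wf_congr hΦ hΦ ℓ ℓ _ _ ?_ 1 ?_ ?_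
  · refine forall_congr' fun j => ?_
    rw [hcnt]
  · rw [hprd, one_mul, inv_one, mul_one]
  · intro h1 z _
    rw [mul_one]
    -- the common parts of the lists
    set P : ℕ → List G := fun m => occ m (V * let1 x l) z with hP
    set R : ℕ → List G := fun m => occ m W (z * prd V * x * s * y) with hR
    have e1 : ∀ m, occ m (V * let1 (x * s) l * let1 y i * W) z =
        P m ++ ((if i = m then [z * prd V * x * s] else []) ++ R m) := by
      intro m
      rw [occ_mul, occ_mul, occ_mul, occ_let1, occ_let1, hP, hR]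
      simp only [map_mul, prd_let1, mul_assoc, occ_mul, occ_let1, List.append_assoc]
    have e2 : ∀ m, occ m (V * let1 x l * let1 (s * y) i * W) z =
        P m ++ ((if i = m then [z * prd V * x] else []) ++ R m) := by
      intro m
      rw [occ_mul, occ_mul, occ_let1, hP, hR]
      simp only [map_mul, prd_let1, mul_assoc, List.append_assoc]
    classical
    have hs' : rd q ℓ (V * let1 (x * s) l * let1 y i * W) z = fun j t =>
        rd q ℓ (V * let1 x l * let1 (s * y) i * W) z j t *
          (if i = ℓ j ∧ (t : ℕ) = (P (ℓ j)).length then s else 1) := by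
      funext j t
      rw [rd, rd, e1, e2]
      by_cases hi : i = ℓ j
      · rw [if_pos hi, if_pos hi]
        rcases lt_trichotomy (t : ℕ) (P (ℓ j)).length with ht | ht | ht
        · rw [List.getD_append _ _ _ _ ht, List.getD_append _ _ _ _ ht,
            if_neg (fun h => ht.ne h.2), mul_one]
        · rw [List.getD_append_right _ _ _ _ ht.ge, List.getD_append_right _ _ _ _ ht.ge, ht,
            Nat.sub_self, if_pos ⟨hi, rfl⟩]
          rfl
        · rw [List.getD_append_right _ _ _ _ ht.le, List.getD_append_right _ _ _ _ ht.le,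
            if_neg (fun h => ht.ne' h.2), mul_one]
          obtain ⟨a, ha⟩ : ∃ a, (t : ℕ) - (P (ℓ j)).length = a + 1 :=
            ⟨(t : ℕ) - (P (ℓ j)).length - 1, by omega⟩
          rw [ha]
          rfl
      · rw [if_neg hi, if_neg hi, if_neg (fun h => hi h.1), mul_one]
    rw [hs']
    refine hD _ ?_ _
    intro j t
    split_ifs
    · exact hs
    · exact D.one_mem

end

end

end Pool.Agent.H71.FQ
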